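import Pool.Agent.H770.GS.Num

/-!
# Dimension three: final form
-/

set_option autoImplicit false

open MeasureTheory Set intervalIntegral Filter Topology

namespace Pool.Agent.H770.GS

open Pool.Agent.Helper82.GC

theorem Asl_congr {n : ℕ} {r : ℝ} (hr : 0 < r) (θ θ' : EuclideanSpace ℝ (Fin n)) (hθ : ‖θ‖ = 1)
    (hθ' : ‖θ'‖ = 1) (h : srt θ = srt θ') : Asl r θ 0 = Asl r θ' 0 := by
  refine tendsto_nhds_unique (dens_tendsto hr θ hθ) ?_
  refine (dens_tendsto hr θ' hθ').congr fun τ => ?_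
  rw [dens_srt, dens_srt, h]

theorem two_vals : 0 < 1 / Real.sqrt 2 ∧ (1 / Real.sqrt 2) ^ 2 = 1 / 2 := by
  refine ⟨by positivity, ?_⟩
  rw [div_pow, Real.sq_sqrt (by norm_num)]; norm_num

theorem three_vals : 0 < 1 / Real.sqrt 3 ∧ (1 / Real.sqrt 3) ^ 2 = 1 / 3 := by
  refine ⟨by positivity, ?_⟩
  rw [div_pow, Real.sq_sqrt (by norm_num)]; norm_num

theorem norm_three (θ : EuclideanSpace ℝ (Fin 3)) (hθ : ‖θ‖ = 1) :
    |θ 0| ^ 2 + |θ 1| ^ 2 + |θ 2| ^ 2 = 1 := by
  have h2 : ‖θ‖ ^ 2 = 1 := by rw [hθ]; norm_num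
  rw [EuclideanSpace.norm_sq_eq, Fin.sum_univ_three] at h2
  simpa [Real.norm_eq_abs] using h2

theorem srt_of_perm {n : ℕ} (θ : EuclideanSpace ℝ (Fin n)) {L : List ℝ}
    (hp : (List.ofFn fun i => |θ i|).Perm L) (hs : L.Pairwise (· ≥ ·)) : srt θ = L :=
  ((srt_perm θ).trans hp).eq_of_pairwise' (srt_sorted _) hs

theorem srt_two_iff' (θ : EuclideanSpace ℝ (Fin 3)) (hθ : ‖θ‖ = 1) {c : ℝ} (hc0 : 0 < c)
    (hc2 : c ^ 2 = 1 / 2) :
    srt θ = [c, c, 0] ↔ ∃ i j, i ≠ j ∧ |θ i| = c ∧ |θ j| = c := by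
  have hn := norm_three θ hθ
  have hof : (List.ofFn fun i => |θ i|) = [|θ 0|, |θ 1|, |θ 2|] := by
    simp [List.ofFn_succ]
  constructor
  · intro h
    have hv : ∀ i, |θ i| = c ∨ |θ i| = 0 := by
      intro i
      have h1 : |θ i| ∈ srt θ := (mem_srt θ _).2 ⟨i, rfl⟩
      rw [h] at h1
      simp only [List.mem_cons, List.not_mem_nil, or_false] at h1
      rcases h1 with h1 | h1 | h1
      · exact Or.inl h1
      · exact Or.inl h1
      · exact Or.inr h1
    rcases hv 0 with h0 | h0 <;> rcases hv 1 with h1 | h1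
    · exact ⟨0, 1, by decide, h0, h1⟩
    · rcases hv 2 with h2 | h2
      · exact ⟨0, 2, by decide, h0, h2⟩
      · rw [h0, h1, h2] at hn
        norm_num [hc2] at hn
    · rcases hv 2 with h2 | h2
      · exact ⟨1, 2, by decide, h1, h2⟩
      · rw [h0, h1, h2] at hn
        norm_num [hc2] at hn
    · rcases hv 2 with h2 | h2 <;>
      · rw [h0, h1, h2] at hn
        norm_num [hc2] at hn
  · rintro ⟨i, j, hij, hi, hj⟩
    apply srt_of_perm
    · rw [hof]
      fin_cases i <;> fin_cases j <;> simp only [Fin.zero_eta, Fin.mk_one, Fin.reduceFinMk] at hi hj hij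
      · exact absurd rfl hij
      · have h2 : |θ 2| = 0 := by
          rw [hi, hj, hc2] at hn
          have : |θ 2| ^ 2 = 0 := by linarith
          exact pow_eq_zero_iff (two_ne_zero) |>.1 this
        rw [hi, hj, h2]
      · have h2 : |θ 1| = 0 := by
          rw [hi, hj, hc2] at hn
          have : |θ 1| ^ 2 = 0 := by linarith
          exact pow_eq_zero_iff (two_ne_zero) |>.1 this
        rw [hi, hj, h2]
        exact List.Perm.cons _ (List.Perm.swap _ _ _)
      · have h2 : |θ 2| = 0 := by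
          rw [hi, hj, hc2] at hn
          have : |θ 2| ^ 2 = 0 := by linarith
          exact pow_eq_zero_iff (two_ne_zero) |>.1 this
        rw [hi, hj, h2]
      · exact absurd rfl hij
      · have h2 : |θ 0| = 0 := by
          rw [hi, hj, hc2] at hn
          have : |θ 0| ^ 2 = 0 := by linarith
          exact pow_eq_zero_iff (two_ne_zero) |>.1 this
        rw [hi, hj, h2]
        exact (List.Perm.swap _ _ _).trans (List.Perm.cons _ (List.Perm.swap _ _ _))
      · have h2 : |θ 1| = 0 := by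
          rw [hi, hj, hc2] at hn
          have : |θ 1| ^ 2 = 0 := by linarith
          exact pow_eq_zero_iff (two_ne_zero) |>.1 this
        rw [hi, hj, h2]
        exact List.Perm.cons _ (List.Perm.swap _ _ _)
      · have h2 : |θ 0| = 0 := by
          rw [hi, hj, hc2] at hn
          have : |θ 0| ^ 2 = 0 := by linarith
          exact pow_eq_zero_iff (two_ne_zero) |>.1 this
        rw [hi, hj, h2]
        exact (List.Perm.swap _ _ _).trans (List.Perm.cons _ (List.Perm.swap _ _ _))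
      · exact absurd rfl hij
    · simp [hc0.le]

theorem srt_two_iff (θ : EuclideanSpace ℝ (Fin 3)) (hθ : ‖θ‖ = 1) :
    srt θ = [1 / Real.sqrt 2, 1 / Real.sqrt 2, 0] ↔
      ∃ i j, i ≠ j ∧ |θ i| = 1 / Real.sqrt 2 ∧ |θ j| = 1 / Real.sqrt 2 :=
  srt_two_iff' θ hθ two_vals.1 two_vals.2

theorem srt_three_iff (θ : EuclideanSpace ℝ (Fin 3)) :
    srt θ = [1 / Real.sqrt 3, 1 / Real.sqrt 3, 1 / Real.sqrt 3] ↔ ∀ i, |θ i| = 1 / Real.sqrt 3 := by
  constructor
  · intro h i
    have h1 : |θ i| ∈ srt θ := (mem_srt θ _).2 ⟨i, rfl⟩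
    rw [h] at h1
    simp only [List.mem_cons, List.not_mem_nil, or_false, or_self] at h1
    exact h1
  · intro h
    apply srt_of_perm
    · have hof : (List.ofFn fun i => |θ i|) = [|θ 0|, |θ 1|, |θ 2|] := by
        simp [List.ofFn_succ]
      rw [hof, h, h, h]
    · simp

theorem srt_dirTwo : srt dirTwo = [1 / Real.sqrt 2, 1 / Real.sqrt 2, 0] := by
  refine (srt_two_iff dirTwo (fam_norm 0)).2 ?_
  refine ⟨0, 1, by decide, ?_, ?_⟩ <;>
  · rw [dirTwo_apply]
    simp

theorem srt_dirThree : srt dirThree = [1 / Real.sqrt 3, 1 / Real.sqrt 3, 1 / Real.sqrt 3] := by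
  rw [srt_three_iff]
  intro i
  rw [dirThree_apply]
  fin_cases i <;> simp

theorem sec3_eq (r : ℝ) (θ : EuclideanSpace ℝ (Fin 3)) (hθ : ‖θ‖ = 1) :
    sec 3 r θ = (2 * Real.pi)⁻¹ * Asl r θ 0 := by
  rw [sec_eq_Asl (k := 2) r θ hθ]
  congr 1
  rw [show (-((2:ℕ):ℝ) / 2) = -1 by norm_num, Real.rpow_neg_one]

theorem main3 : ∃ r3 : ℝ, 1 < r3 ∧ (∀ r, 0 < r → r < r3 → V3 r < V2 r) ∧
    (∀ r, r3 < r → V2 r < V3 r) ∧ V3 r3 = V2 r3 ∧
    ∀ r, 0 < r → ∀ θ : EuclideanSpace ℝ (Fin 3), ‖θ‖ = 1 →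
      Asl r θ 0 ≤ max (V2 r) (V3 r) ∧ (Asl r θ 0 = max (V2 r) (V3 r) ↔
        (r ≤ r3 ∧ ∃ i j, i ≠ j ∧ |θ i| = 1 / Real.sqrt 2 ∧ |θ j| = 1 / Real.sqrt 2) ∨
        (r3 ≤ r ∧ ∀ i, |θ i| = 1 / Real.sqrt 3)) := by
  obtain ⟨r3, hr3, h⟩ := thr
  have h1 : 1 < r3 := by
    by_contra hc
    push Not at hc
    have hD := Dd_one
    rcases eq_or_lt_of_le hc with h2 | h2
    · have := (h 1 one_pos).2.2 h2.symm
      linarith
    · have := (h 1 one_pos).2.1 h2
      linarith
  have hlt : ∀ r, 0 < r → r < r3 → V3 r < V2 r := by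
    intro r hr hrr
    have := (h r hr).1 hrr
    rw [Dd_eq hr] at this
    linarith
  have hgt : ∀ r, r3 < r → V2 r < V3 r := by
    intro r hrr
    have hr : 0 < r := hr3.trans hrr
    have := (h r hr).2.1 hrr
    rw [Dd_eq hr] at this
    linarith
  have heq : V3 r3 = V2 r3 := by
    have := (h r3 hr3).2.2 rfl
    rw [Dd_eq hr3] at this
    linarith
  refine ⟨r3, h1, hlt, hgt, heq, fun r hr θ hθ => ?_⟩
  have hm := three_main hr θ hθ
  refine ⟨hm.1, ?_⟩
  have hle : r ≤ r3 → max (V2 r) (V3 r) = V2 r := by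
    intro hrr
    apply max_eq_left
    rcases eq_or_lt_of_le hrr with h2 | h2
    · rw [h2, heq]
    · exact (hlt r hr h2).le
  have hge : r3 ≤ r → max (V2 r) (V3 r) = V3 r := by
    intro hrr
    apply max_eq_right
    rcases eq_or_lt_of_le hrr with h2 | h2
    · rw [← h2, heq]
    · exact (hgt r h2).le
  constructor
  · intro he
    rcases hm.2 he with hs | hs
    · left
      refine ⟨?_, (srt_two_iff θ hθ).1 hs⟩
      by_contra hc
      push Not at hc
      have h5 : Asl r θ 0 = V2 r := Asl_congr hr θ dirTwo hθ (fam_norm _) (hs.trans srt_dirTwo.symm)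
      have h6 := hgt r hc
      rw [hge hc.le, h5] at he
      linarith
    · right
      refine ⟨?_, (srt_three_iff θ).1 hs⟩
      by_contra hc
      push Not at hc
      have h5 : Asl r θ 0 = V3 r :=
        Asl_congr hr θ dirThree hθ (fam_norm _) (hs.trans srt_dirThree.symm)
      have h6 := hlt r hr hc
      rw [hle hc.le, h5] at he
      linarith
  · rintro (⟨hrr, hs⟩ | ⟨hrr, hs⟩)
    · rw [hle hrr]
      exact Asl_congr hr θ dirTwo hθ (fam_norm _) (((srt_two_iff θ hθ).2 hs).trans srt_dirTwo.symm)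
    · rw [hge hrr]
      exact Asl_congr hr θ dirThree hθ (fam_norm _) (((srt_three_iff θ).2 hs).trans srt_dirThree.symm)

end Pool.Agent.H770.GS
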