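import Pool.Agent.H770.GS.TB

/-!
# Project TF: the family `(a, a, b, …, b)` with `k ≥ 4` entries `b`, `k b² ≥ a²` : Fourier side

Normalisation: `ε = r²/2`, the truncated Gaussian is `r U` with `U ∈ [-1,1]` of density proportional to
`e^(-ε u²)`; `cf ε` is the characteristic function of `U`, `vv ε` its variance, `ζ = zt ε`.
Numerical values for orientation: `vv ε ≈ 0.3162, 0.2991, 0.2911` and `ζ ≈ 0.938, 0.882, 0.8556` for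
`ε = 0.19625, 0.4, 0.5`.
-/

set_option autoImplicit false

open MeasureTheory Set intervalIntegral Filter Topology

namespace Pool.Agent.H770.GS

open Pool.Agent.Helper82.GC

/-- `ζ(ε)` -/
noncomputable def zt (ε : ℝ) : ℝ := ∫ u in (0:ℝ)..1, Real.exp (-(ε * u ^ 2))

/-- the characteristic function -/
noncomputable def cf (ε x : ℝ) : ℝ :=
  (∫ u in (0:ℝ)..1, Real.exp (-(ε * u ^ 2)) * Real.cos (x * u)) / zt ε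

/-- `c₁` -/
noncomputable def ck (ε x : ℝ) : ℝ :=
  ∫ u in (0:ℝ)..1, u ^ 2 * Real.exp (-(ε * u ^ 2)) * Real.sinc (u * x)

/-- `c₃` -/
noncomputable def ch (ε x : ℝ) : ℝ :=
  ∫ u in (0:ℝ)..1, u ^ 2 * (1 - u ^ 2) * Real.exp (-(ε * u ^ 2)) * Real.sinc (u * x)

/-- the variance -/
noncomputable def vv (ε : ℝ) : ℝ := ck ε 0 / zt ε

noncomputable def GG (ε : ℝ) (k : ℕ) (β : ℝ) : ℝ :=
  Real.sqrt (2 + k * β ^ 2) * ∫ τ in Ioi (0:ℝ), cf ε τ ^ 2 * cf ε (β * τ) ^ k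

/-- the integrand of the derivative -/
noncomputable def II (ε : ℝ) (k : ℕ) (b τ : ℝ) : ℝ :=
  τ ^ 2 * cf ε τ * cf ε (b * τ) ^ (k - 1) *
    (cf ε τ * Real.sinc (b * τ) - cf ε (b * τ) * Real.sinc τ)

noncomputable def gg (τ : ℝ) : ℝ := Real.sin τ * (Real.sin τ - τ * Real.cos τ)

/-- `∫_X^∞ |f|^m / x²`, `X = 12/5` -/
noncomputable def KK3 (ε : ℝ) (m : ℕ) : ℝ := ∫ x in Ioi (12 / 5 : ℝ), |cf ε x| ^ m / x ^ 2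

/-- `∫_0^π g(τ) (1 - p τ²) e^(-q τ²/2) dτ` -/
noncomputable def JL (p q : ℝ) : ℝ :=
  ∫ τ in (0:ℝ)..Real.pi, gg τ * (1 - p * τ ^ 2) * Real.exp (-(q * τ ^ 2 / 2))

/-- upper bound for `∫_π^∞ sin²τ e^(-cτ²) dτ` -/
noncomputable def Eb (c : ℝ) : ℝ :=
  Real.exp (c * (21 / 5) ^ 2 - 42 / 5 * c * Real.pi) * 2 / (42 / 5 * c * ((42 / 5 * c) ^ 2 + 4))

/-- **TF1** (Fourier formula). Proof. With `a = 1/√(2+kβ²)`, `b = β a`, `S_link` gives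
`FF r k (k β²) = Asl r (dirAB k a b) 0`. As in `Pool.Agent.H376.GScont` (see the docstring of `S_cont` in
`TA.lean`), `slice_eq_J` of `Pool.Graph.R_seed8.Helper82.GC.B4` gives
`Asl r θ 0 = Zr r ^ (k+2) / (2π) * ∫ t, ∏ i, phi r (√(θ i ^ 2) * t)`, where
`phi r t = cf (r²/2) (r t)` (substitute `x = r u` in the defining integrals), even in `t`. Substitute
`τ = r a t`: `= Zr r ^ (k+2)/(2π) * (1/(r a)) * 2 ∫_0^∞ cf τ ^ 2 * cf (βτ) ^ k dτ`. -/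
def S_TF1 : Prop := S_link → ∀ (r β : ℝ) (k : ℕ), 0 < r → 2 ≤ k → 0 < β → β ≤ 1 →
  FF r k (k * β ^ 2) = Zr r ^ (k + 2) / (Real.pi * r) * GG (r ^ 2 / 2) k β

/-- **TF2** (elementary facts). Proofs. `p = e^(-ε)`.
(a) integrate by parts in `u` (`sin (xu)/x` is a primitive of `cos (xu)`).
(b) `ζ f = ∫ e^(-εu²) cos(xu) du`, and writing `e^(-εu²) = p + ∫_u^1 2εv e^(-εv²) dv` one gets
`ζ f(x) = p sin x/x + ∫_0^1 2εv e^(-εv²) (sin(vx)/x) dv`, so `|ζ f| ≤ (p + 1 - p)/x`.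
(c) likewise `ck ε x = p c°(x) + ∫_0^1 2εv e^(-εv²) v³ c°(vx) dv`, `c°(y) = (sin y - y cos y)/y³`,
`|c°(y)| ≤ 1.07/y²` (i.e. `|sin y - y cos y| ≤ 1.07 y`: for `y ≥ 2.63` by `√(1+y²) ≤ 1.07 y`, for `y ≤ 2.63`
`sin y / y - cos y` is increasing (derivative `sin y - (sin y - y cos y)/y² ≥ 0`) with value `1.0584` at `2.63`;
its global maximum is `1.0631` near `2.744`), so
`|ck| ≤ 1.07/x² (p + ∫ 2εv² e^(-εv²) dv) = 1.07 ζ/x²`.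
(d) `f' x = -(1/ζ) ∫ u e^(-εu²) sin(xu) du = -(x/ζ) ck ε x`.
(e) from (a): `f S_b - f_b S = (2ε/ζ)(c₁ S_b - c₁(bτ) S)`. -/
def S_TF2 : Prop := ∀ ε : ℝ, 0 < ε → 0 < zt ε ∧
  (∀ x, zt ε * cf ε x = Real.exp (-ε) * Real.sinc x + 2 * ε * ck ε x) ∧
  (∀ x, 0 < x → |cf ε x| ≤ 1 / (zt ε * x)) ∧
  (∀ x, |cf ε x| ≤ 1) ∧
  (∀ x, 0 < x → |ck ε x| ≤ 1.07 * zt ε / x ^ 2) ∧
  (∀ x, HasDerivAt (cf ε) (-(x / zt ε * ck ε x)) x) ∧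
  (∀ b x, cf ε x * Real.sinc (b * x) - cf ε (b * x) * Real.sinc x =
    2 * ε / zt ε * (ck ε x * Real.sinc (b * x) - ck ε (b * x) * Real.sinc x))

/-- **TF3** (integrability). By `S_TF2`, for `k ≥ 3`, `0 < b`: `II` is continuous, bounded on `(0,1]` and
`O(τ^(2-1-(k-1)-3))` at infinity. Also `τ ↦ |cf ε τ|^m/τ²` on `(12/5,∞)`. -/
def S_TF3 : Prop := S_TF2 → ∀ (ε b : ℝ) (k : ℕ), 0 < ε → 0 < b → 3 ≤ k →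
  IntegrableOn (II ε k b) (Ioi 0) ∧ ∀ m : ℕ, IntegrableOn (fun x => |cf ε x| ^ m / x ^ 2) (Ioi (12 / 5))

/-- **TF4** (derivative). Proof. `f = cf ε`, `p = e^(-ε)`, `M β = ∫_0^∞ f(τ)² f(βτ)^k dτ`,
`G = √(2+kβ²) M`. From (a), (d) of `S_TF2`: `f' x = -(x/2ε) f x + p sin x/(2εζ)`. Differentiating under
the integral (`|f| ≤ 1/(ζ x)`, `|f' x| ≤ 1.07/x`; dominated for `β` in compact subsets of `(0,∞)`):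
`M' = k ∫ f² f_β^(k-1) τ f'(βτ) = k (-(β/2ε) A + (p/(2εζ)) B₂)`, `A = ∫ τ² f² f_β^k`,
`B₂ = ∫ f² f_β^(k-1) τ sin(βτ)`. Integrating by parts (`τ f² f_β^k → 0`)
`M = -∫ τ (2 f f' f_β^k + kβ f² f_β^(k-1) f'_β) = A/ε - (p/(εζ)) B₁ - β M'`, `B₁ = ∫ τ sin τ f f_β^k`. So
`√(2+kβ²) G' = kβ M + (2+kβ²) M' = kβ (M + β M') + 2 M' = (k p/(εζ)) (B₂ - β B₁)`
`= (k p β/(εζ)) ∫ τ² f f_β^(k-1) (f S_β - f_β S) dτ = (k p β/(εζ)) ∫ II`, which is `≥ 0`. -/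
def S_TF4 : Prop := S_TF2 → S_TF3 → ∀ (ε β1 β2 : ℝ) (k : ℕ), 0 < ε → 3 ≤ k → 0 < β1 → β1 ≤ β2 →
  (∀ b ∈ Icc β1 β2, 0 ≤ ∫ τ in Ioi (0:ℝ), II ε k b τ) → GG ε k β1 ≤ GG ε k β2

/-- **TF5** (product inequality for `sinc`). Proof. Claim: for `0 ≤ u, b ≤ 1`, `0 ≤ τ ≤ π`,
`δ = (1-u²)(1-b²)`: `sinc(uτ) sinc(bτ) ≥ sinc(ubτ) sinc(τ√(1-δ))`. By Euler's product
(`Real.tendsto_euler_sin_prod`), `sinc x = ∏ (1 - x²/(n²π²))`, it is enough to compare the factors,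
with `t = τ²/(n²π²) ∈ [0,1]`: `(1-u²t)(1-b²t) - (1-u²b²t)(1-(1-δ)t) = u²b²δ t² ≥ 0`, all factors being `≥ 0`.
Then `sinc(τ√(1-δ)) - sinc τ = ∫_{1-δ}^1 (sinc y - cos y)/(2w) dw` (`y = τ√w`),
`(sinc y - cos y)/(2w) = (τ²/2) c°(y)`, `c°(y) = (sin y - y cos y)/y³`, which is decreasing and `≥ 0` on
`(0,π]`, so the difference is `≥ (δ/2)(sinc τ - cos τ)`. -/
def S_TF5 : Prop := ∀ u b τ : ℝ, 0 ≤ u → u ≤ 1 → 0 ≤ b → b ≤ 1 → 0 ≤ τ → τ ≤ Real.pi →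
  (1 - u ^ 2) * (1 - b ^ 2) / 2 * Real.sinc (u * b * τ) * (Real.sinc τ - Real.cos τ) ≤
    Real.sinc (u * τ) * Real.sinc (b * τ) - Real.sinc (u * b * τ) * Real.sinc τ

/-- **TF6** (shape of `f` on `[0,π]`). Proofs. (1) Chebyshev: `e^(-εu²)` and `cos (xu)` are both
decreasing in `u ∈ [0,1]` for `0 ≤ x ≤ π`, so `∫ e^(-εu²) cos(xu) ≥ ζ ∫ cos(xu) = ζ sinc x`.
(2) `f' = -(x/ζ) ck ≤ -vv x f`: equivalent to `ck(x) ζ ≥ ck(0) (p sinc x + 2ε ck x)` and, since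
`ζ = p + 2ε ck(0)`, to `ck x ≥ ck(0) sinc x`, true because `sinc (ux) ≥ sinc x` for `0 ≤ u ≤ 1`, `x ∈ [0,π]`.
Hence `f e^(vx²/2)` is nonincreasing. (3) `f ≤ e^(-vx²/2)` on `[0,π]` follows. (4) `ch`: `sinc y ≥ 1 - y²/6`
and Chebyshev for the mean of `u²` (`≤ 3/7`, its value for the weight `u²(1-u²)`). -/
def S_TF6 : Prop := S_TF2 → ∀ ε : ℝ, 0 < ε →
  (∀ x, 0 ≤ x → x ≤ Real.pi → Real.sinc x ≤ cf ε x) ∧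
  AntitoneOn (fun x => cf ε x * Real.exp (vv ε * x ^ 2 / 2)) (Icc 0 Real.pi) ∧
  AntitoneOn (cf ε) (Icc 0 Real.pi) ∧
  (∀ x, 0 ≤ x → x ≤ Real.pi → cf ε x ≤ Real.exp (-(vv ε * x ^ 2 / 2))) ∧
  (∀ x, ch ε 0 * (1 - x ^ 2 / 14) ≤ ch ε x) ∧ 0 < vv ε ∧ vv ε < 1 / 3 ∧ 0 < ch ε 0

/-- **TF7** (main region, pointwise). Proof. By (e) of `S_TF2`, `f S_b - f_b S = (2ε/ζ) ∫_0^1 u² e^(-εu²)
(sinc(uτ) sinc(bτ) - sinc(ubτ) sinc τ) du ≥ (2ε/ζ)((1-b²)/2)(sinc τ - cos τ) ch ε (bτ)` by `S_TF5`; and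
`f ≥ sinc τ ≥ 0`, `τ² sinc τ (sinc τ - cos τ) = gg τ`. -/
def S_TF7 : Prop := S_TF2 → S_TF5 → S_TF6 → ∀ (ε b τ : ℝ) (k : ℕ), 0 < ε → 0 < b → b ≤ 1 → 1 ≤ k →
  0 ≤ τ → τ ≤ Real.pi →
  ε / zt ε * (1 - b ^ 2) * gg τ * ch ε (b * τ) * cf ε (b * τ) ^ (k - 1) ≤ II ε k b τ

/-- **TF8** (lobe). Proof. `f (f S_b - f_b S) ≥ - f_b² S²/(4 S_b)` (complete the square), and
`τ² S² = sin² τ`. -/
def S_TF8 : Prop := ∀ (ε b τ : ℝ) (k : ℕ), 1 ≤ k → 0 < Real.sinc (b * τ) → 0 ≤ cf ε (b * τ) →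
  -(Real.sin τ ^ 2 / 4 * cf ε (b * τ) ^ (k + 1) / Real.sinc (b * τ)) ≤ II ε k b τ

/-- **TF9** (far tail). Proof. `|II| ≤ τ² (1/(ζτ)) |f_b|^(k-1) (2ε/ζ)(1.07 ζ/τ² · 1/(bτ) +
1.07 ζ/(b²τ²) · 1/τ)` by `S_TF2`; substitute `x = bτ`. -/
def S_TF9 : Prop := S_TF2 → S_TF3 → ∀ (ε b : ℝ) (k : ℕ), 0 < ε → 0 < b → 3 ≤ k →
  ∫ τ in Ioi (12 / 5 / b), |II ε k b τ| ≤ 2 * ε / zt ε * 1.07 * (1 + 1 / b) * KK3 ε (k - 1)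

/-- **TF10**. Proof. `τ² ≥ 2·(21/5)τ - (21/5)²`, so with `λ = 42c/5` the integral is at most
`e^(c(21/5)²) ∫_π^∞ sin²τ e^(-λτ) dτ = e^(c(21/5)² - λπ) · 2/(λ(λ²+4))`. -/
def S_TF10 : Prop := ∀ c : ℝ, 0 < c →
  IntegrableOn (fun τ => Real.sin τ ^ 2 * Real.exp (-(c * τ ^ 2))) (Ioi Real.pi) ∧
    ∫ τ in Ioi Real.pi, Real.sin τ ^ 2 * Real.exp (-(c * τ ^ 2)) ≤ Eb c

/-- **TF11** (assembly). Proof. Let `w τ = cf ε (bτ) ^ k e^(v s τ²/2)`, `v = vv ε`; by `S_TF6` (antitone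
`f e^(vx²/2)`) and `s ≤ k b²` it is nonincreasing on `[0, π/b]`, `≥ 0`. `b² ≤ 1/3` so `12/(5b) > π`.
On `[0,π]`: `II ≥ (ε/ζ)(1-b²) gg · ch(bτ) · f_b^(k-1)` (`S_TF7`), `gg ≥ 0`, `ch(bτ) ≥ ch 0 (1-b²τ²/14) ≥ 0`,
`f_b^(k-1) ≥ f_b^k e^(v b²τ²/2) = w τ e^(-v(s-b²)τ²/2) ≥ w π e^(-v(s-b²)τ²/2)`.
On `[π, 12/(5b)]`: `II ≥ -(sin²τ/4) f_b^k (f_b/S_b) ≥ -(w π/4) sin²τ (1+κb²τ²) e^(-vsτ²/2)
≥ -(w π/4) sin²τ e^(-(vs/2-κb²)τ²)`; `S_TF10`. On `(12/(5b),∞)`: `S_TF9`. Multiply by `ζ/(2ε)`. -/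
def S_TF11 : Prop := S_TF2 → S_TF3 → S_TF5 → S_TF6 → S_TF7 → S_TF8 → S_TF9 → S_TF10 →
  ∀ (ε b s κ : ℝ) (k : ℕ), 0 < ε → 0 < b → b ^ 2 ≤ 1 / 3 → 4 ≤ k → 1 ≤ s → s ≤ k * b ^ 2 → 0 ≤ κ →
  (∀ x, 0 ≤ x → x ≤ 12 / 5 → cf ε x ≤ Real.sinc x * (1 + κ * x ^ 2)) →
  0 < s * vv ε / 2 - κ * b ^ 2 →
  cf ε (b * Real.pi) ^ k * Real.exp (vv ε * s * Real.pi ^ 2 / 2) *
      ((1 - b ^ 2) / 2 * ch ε 0 * JL (b ^ 2 / 14) (vv ε * (s - b ^ 2)) -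
        zt ε / (8 * ε) * Eb (s * vv ε / 2 - κ * b ^ 2)) -
      1.07 * (1 + 1 / b) * KK3 ε (k - 1) ≤
    zt ε / (2 * ε) * ∫ τ in Ioi (0:ℝ), II ε k b τ

/-- **TF12** (ratio bound). Proof. By (a) of `S_TF2` at `x` and at `0`, the claim is
`ck x - ck 0 sinc x ≤ 0.052 x² sinc x`, and `ck x - ck 0 sinc x = ∫ u² e^(-εu²)(sinc(ux) - sinc x) du
≤ ∫ u² (sinc(ux) - sinc x) du = c°(x) - sinc x/3` (`sinc(ux) ≥ sinc x`), so it is enough that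
`sin x - x cos x ≤ (x²/3 + 0.052 x⁴) sin x` on `[0, 12/5]` (at `x = 12/5`: left minus right `= -0.02`). -/
def S_TF12 : Prop := S_TF2 → ∀ ε x : ℝ, 0 < ε → 0 ≤ x → x ≤ 12 / 5 →
  cf ε x ≤ Real.sinc x * (1 + 2 * ε / zt ε * 0.052 * x ^ 2)

/-- **TF13** (tail comparison). Proof. (0) `|f x| ≤ 1/(ζx) ≤ 1/2` for `x ≥ 12/5` since `ζ ≥ 1-ε/3 ≥ 5/6`.
(1) If `b ≤ 1/2`: `f(bπ) ≥ sinc(π/2) = 2/π`; `|f x|^(k-1) ≤ |f x|³ (1/2)^(k-4)` for `x ≥ 12/5`, so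
`KK3 (k-1) ≤ (1/2)^(k-4) KK3 3`, and
`f(bπ)^k ≥ (2/π)^(k-4) (2/π)^4`. So the claim follows from `(1+1/b)(π/4)^(k-4) ≤ 3` : with `t = 1/b ≥ 2`,
`k ≥ t²`, `(1+t)(π/4)^(t²-4) ≤ 3` (decreasing in `t`: `1/(1+t) + 2t log(π/4) < 0`).
(2) If `b ≥ 1/2`, `b² ≤ 1/3`: `f(bπ) ≥ sinc(bπ) ≥ sinc(π/√3) > 1/2 ≥ |f x|`, so `KK3 (k-1) ≤ f(bπ)^(k-4) KK3 3`
and `f(bπ)^k ≥ f(bπ)^(k-4) sinc(bπ)^4`. -/
def S_TF13 : Prop := S_TF2 → S_TF3 → S_TF6 → S_TF12 → ∀ (ε b : ℝ) (k : ℕ), 0 < ε → ε ≤ 1 / 2 →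
  0 < b → b ^ 2 ≤ 1 / 3 → 4 ≤ k → 1 ≤ k * b ^ 2 →
  (b ≤ 1 / 2 → (1 + 1 / b) * KK3 ε (k - 1) ≤
    cf ε (b * Real.pi) ^ k * (3 * (Real.pi / 2) ^ 4 * KK3 ε 3)) ∧
  (1 / 2 ≤ b → (1 + 1 / b) * KK3 ε (k - 1) ≤
    cf ε (b * Real.pi) ^ k * ((1 + 1 / b) / Real.sinc (b * Real.pi) ^ 4 * KK3 ε 3))

/-- **TF14** (numerical: parameters). `ζ` and `ck 0`, `ch 0` by Taylor expansion of `e^(-εu²)`,
Jensen (`ch 0 ≥ (2/15) e^(-3ε/7)`); `vv ε` is decreasing and convex with `vv 0 = 1/3`, `vv' 0 = -4/45`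
(numerically `vv = 0.31622, 0.30746, 0.29920, 0.29113` at `ε = 0.19625, 0.3, 0.4, 0.5`; bounds
`0.31589..0.31803, 0.30667..0.30993, 0.29778..0.30213, 0.28889..0.29433`). -/
def S_TF14 : Prop := ∀ ε : ℝ, 0.196 ≤ ε → ε ≤ 1 / 2 →
  1 - ε / 3 + ε ^ 2 / 10 - ε ^ 3 / 42 ≤ zt ε ∧ zt ε ≤ 1 - ε / 3 + ε ^ 2 / 10 ∧
  2 / 15 * Real.exp (-(3 * ε / 7)) ≤ ch ε 0 ∧
  1 / 3 - 4 / 45 * ε ≤ vv ε ∧ vv ε ≤ 1 / 3 - 0.078 * ε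

/-- **TF15** (numerical: `K₃`). True values `0.00140, 0.00146, 0.00152, 0.00169, 0.00191` at
`ε = 0.19625, 0.25, 0.3, 0.4, 0.5`. Proof. By (a) of `S_TF2`, on `[2.4, π]`:
`0 ≤ f ≤ (e^(-ε) sinc x + 2ε c°(x))/ζ` (`c°(x) = (sin x - x cos x)/x³`, `ck ≤ c°`), and on `[π,∞)`:
`|f| ≤ e^(-ε)|sin x|/(ζ x) + 2ε(1.07)/x²`. These bounds (with `ζ ≥ 1-ε/3+ε²/10-ε³/42`) give
`0.001746, 0.001842, 0.001949, 0.002068, 0.002200, 0.002345, 0.002506, 0.002683, 0.002877, 0.003090, 0.003324`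
for the integral at `ε = 0.19625 + 0.030375 j`, `j = 0, .., 10`, against the claimed `0.001784, 0.001886, 0.002002,
0.002132, 0.002278, 0.002437, 0.002612, 0.002801, 0.003004, 0.003222, 0.003455`. (The cube of the bound is a cubic
polynomial in `e^(-ε)/ζ, ε/ζ, ε` with coefficients some integrals over `[2.4,π]` and `[π,∞)`, for which bounds are
enough; e.g. use Hölder/Minkowski: the `L³(dx/x²)` norm is at most the sum of the norms.) -/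
def S_TF15 : Prop := S_TF2 → ∀ ε : ℝ, 0.196 ≤ ε → ε ≤ 1 / 2 → KK3 ε 3 ≤ 0.00148 + 0.0079 * ε ^ 2

/-- **TF16** (numerical: the moments `∫_0^π gg τ τ^(2j) e^(-0.16 τ²) dτ`, true values
`1.18168, 4.71097, 23.4290, 134.1816`). Proof. E.g. replace `e^(-0.16τ²)` (`0.16τ² ≤ 1.58`) by Taylor
polynomials of degree 6/7 and integrate exactly (`gg τ = sin²τ - (τ/2) sin 2τ`), or subdivide. -/
def S_TF16 : Prop :=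
  1.178 ≤ ∫ τ in (0:ℝ)..Real.pi, gg τ * Real.exp (-(0.16 * τ ^ 2)) ∧
  4.70 ≤ ∫ τ in (0:ℝ)..Real.pi, gg τ * τ ^ 2 * Real.exp (-(0.16 * τ ^ 2)) ∧
  (∫ τ in (0:ℝ)..Real.pi, gg τ * τ ^ 2 * Real.exp (-(0.16 * τ ^ 2))) ≤ 4.72 ∧
  23.3 ≤ ∫ τ in (0:ℝ)..Real.pi, gg τ * τ ^ 4 * Real.exp (-(0.16 * τ ^ 2)) ∧
  (∫ τ in (0:ℝ)..Real.pi, gg τ * τ ^ 4 * Real.exp (-(0.16 * τ ^ 2))) ≤ 23.5 ∧
  (∫ τ in (0:ℝ)..Real.pi, gg τ * τ ^ 6 * Real.exp (-(0.16 * τ ^ 2))) ≤ 135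

/-- **TF17** (lower bound for `JL`). Proof. `d = (0.32 - q)/2 ∈ [0, 0.06]`, `e^(dτ²) ≥ 1 + dτ² + d²τ⁴/2`,
`gg ≥ 0`, `1 - pτ² ≥ 0` on `[0,π]`, expand and use `S_TF16`. -/
def S_TF17 : Prop := S_TF16 → ∀ p q : ℝ, 0 ≤ p → p ≤ 1 / 40 → 0.2 ≤ q → q ≤ 0.32 →
  1.178 + 4.70 * ((0.32 - q) / 2) - 4.72 * p + 23.3 * ((0.32 - q) / 2) ^ 2 / 2 -
    23.5 * (p * ((0.32 - q) / 2)) - 135 * (p * ((0.32 - q) / 2) ^ 2 / 2) ≤ JL p q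

/-- **TF18** (numerical, `b ≤ 1/2`, `s = 1`). `β = b² ∈ [0,1/4]`. With the bounds of `S_TF14`, `S_TF15`,
`S_TF17` and `κ = (2ε/ζ) 0.052`. `Eb` is decreasing and convex in `c` (it is log-convex), the left side with
`JL` bounded below by `S_TF17` can be handled directly. Margins of the inequality divided
by `e^(vπ²/2)`, using the lower bound `S_TF17` and `K₃ ≤ 0.00148+0.0079ε²`: minimal at `β = 1/4`, where it is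
`0.0083, 0.0118, 0.0141, 0.0155, 0.0163, 0.0166, 0.0165, 0.0160, 0.0153, 0.0143, 0.0131` at
`ε = 0.19625 + 0.030375 j`, `j = 0, .., 10` (at `β = 0`: `0.0256` and more). Suggested: subdivide
`ε` at `0.19625, 0.205, 0.215, 0.23, 0.25, 0.28, 0.32, 0.38, 0.44, 0.5` and use monotonicity in `ε` of
every constituent, and concavity of left minus right in `β` (end points `0`, `1/4`) after replacing
`JL(β/14, v(1-β))` by `J₀ + κ₁ β J₂`-type lower bounds (`(1-y/14)e^(vy/2) ≥ 1+(v/2-0.0755)y` for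
`0 ≤ y ≤ 2.47`, `0.28 ≤ v ≤ 0.32`). -/
def S_TF18 : Prop := S_TF14 → S_TF15 → S_TF2 → S_TF16 → S_TF17 → ∀ ε b : ℝ, 0.19625 ≤ ε → ε ≤ 1 / 2 → 0 < b →
  b ≤ 1 / 2 →
  0 < vv ε / 2 - 2 * ε / zt ε * 0.052 * b ^ 2 ∧
  1.07 * (3 * (Real.pi / 2) ^ 4 * KK3 ε 3) ≤ Real.exp (vv ε * 1 * Real.pi ^ 2 / 2) *
    ((1 - b ^ 2) / 2 * ch ε 0 * JL (b ^ 2 / 14) (vv ε * (1 - b ^ 2)) -
      zt ε / (8 * ε) * Eb (1 * vv ε / 2 - 2 * ε / zt ε * 0.052 * b ^ 2))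

/-- **TF19** (numerical, `1/2 ≤ b ≤ 1/√3`, `s = 4b²`). Margins (divided by `e^(2vb²π²)`) with the bounds of
`S_TF14`, `S_TF15`, `S_TF17`: minimum over `b` `0.0082, 0.0117, 0.0139, 0.0153, 0.0161, 0.0164, 0.0163, 0.0158,
0.0144, 0.0128, 0.0111` for `ε = 0.19625 + 0.030375 j` (at `b = 0.5` for the first seven, at `b = 1/√3` for the
others). Suggested:
subdivide `b` at `0.5, 0.51, 0.525, 0.55, 1/√3` and `ε` as in `S_TF18`; `JL` decreasing in both arguments,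
`Eb` decreasing, `sinc(bπ)^4 e^(2vb²π²)` decreasing in `b` (as `v < 1/3` and `(log sinc)' x ≤ -x/3`). -/
def S_TF19 : Prop := S_TF14 → S_TF15 → S_TF2 → S_TF16 → S_TF17 → ∀ ε b : ℝ, 0.19625 ≤ ε → ε ≤ 1 / 2 →
  1 / 2 ≤ b → b ^ 2 ≤ 1 / 3 →
  0 < 4 * b ^ 2 * vv ε / 2 - 2 * ε / zt ε * 0.052 * b ^ 2 ∧
  1.07 * ((1 + 1 / b) / Real.sinc (b * Real.pi) ^ 4 * KK3 ε 3) ≤
    Real.exp (vv ε * (4 * b ^ 2) * Real.pi ^ 2 / 2) *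
    ((1 - b ^ 2) / 2 * ch ε 0 * JL (b ^ 2 / 14) (vv ε * (4 * b ^ 2 - b ^ 2)) -
      zt ε / (8 * ε) * Eb (4 * b ^ 2 * vv ε / 2 - 2 * ε / zt ε * 0.052 * b ^ 2))

/-- **TF20** (conclusion). Proof. Apply `S_TF11` with `κ = (2ε/ζ) 0.052` (`S_TF12`), `s = 1` if `b ≤ 1/2` and
`s = 4b²` if `b ≥ 1/2` (`k ≥ 4`), `S_TF13` and `S_TF18`, `S_TF19`: the left side is
`≥ f(bπ)^k (…) ≥ 0`. -/
def S_TF20 : Prop := S_TF11 → S_TF12 → S_TF13 → S_TF2 → S_TF3 → S_TF5 → S_TF6 → S_TF7 → S_TF8 → S_TF9 →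
  S_TF10 → S_TF14 → S_TF15 → S_TF16 → S_TF17 → S_TF18 → S_TF19 →
  ∀ (ε b : ℝ) (k : ℕ), 0.19625 ≤ ε → ε ≤ 1 / 2 → 0 < b → b ^ 2 ≤ 1 / 3 → 4 ≤ k → 1 ≤ k * b ^ 2 →
    0 ≤ ∫ τ in Ioi (0:ℝ), II ε k b τ

end Pool.Agent.H770.GS
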