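import Pool.Agent.H770.GS.TF

/-!
# Project TK: the Fourier part of project TF for `ε ∈ [1/2, 9/8]` : statements

Same objects as in `TF.lean` (`zt, cf, ck, ch, vv, II, gg, KK3, Eb`). The difference to `TF.lean` is a better lower
bound of `cf` on `[0,π]`. Finished proofs of the corresponding statements (to be adapted):
`Pool.Agent.H32.TF2.tf2 : S_TF2`, `Pool.Agent.H553.TF.t_TF3 : S_TF3`, `Pool.Agent.H177.tf5 : S_TF5`,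
`Pool.Agent.H397.TF6.tf6 : S_TF6` (with `sinc_mul_ge`, `key`, `ck_lt`, `mean_le`, `ch_ge`),
`Pool.Agent.H922.TF7.tf7 : S_TF7`, `Pool.Agent.H200.TF11.result : S_TF11`,
`Pool.Agent.H770.GS.tf12 : S_TF12` (`Pool/Agent/H675/TF12.lean`), `Pool.Agent.H357.TF13.tf13 : S_TF13`,
`Pool.Agent.H824.TF14.tf14 : S_TF14`, `Pool.Agent.H331.TF15.t_TF15 : S_TF15`,
`Pool.Agent.H703.TF16.main : S_TF16`, `Pool.Agent.H707.TF17.t_TF17 : S_TF17`,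
`Pool.Agent.H142.TF18.tf18 : S_TF18`, `Pool.Agent.H947.TF19.tf19 : S_TF19`,
`Pool.Agent.H249.TF20.t_TF20 : S_TF20`.
-/

set_option autoImplicit false

open MeasureTheory Set intervalIntegral Filter Topology

namespace Pool.Agent.H770.GS

open Pool.Agent.Helper82.GC

noncomputable def hq (τ : ℝ) : ℝ := 3 * (Real.sin τ - τ * Real.cos τ) ^ 2 / τ ^ 2

/-- `e^(-ε)/ζ(ε)` -/
noncomputable def rh (ε : ℝ) : ℝ := Real.exp (-ε) / zt ε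

/-- the lower bound for `cf ε` on `(0,π]` -/
noncomputable def lb (ρ x : ℝ) : ℝ :=
  ρ * Real.sinc x + (1 - ρ) * (3 * (Real.sin x - x * Real.cos x) / x ^ 3)

/-- `∫_0^π (ρ gg + (1-ρ) hq)(τ) (1 - p τ²) e^(-q τ²/2) dτ` -/
noncomputable def JM (ρ p q : ℝ) : ℝ :=
  ∫ τ in (0:ℝ)..Real.pi, (ρ * gg τ + (1 - ρ) * hq τ) * (1 - p * τ ^ 2) * Real.exp (-(q * τ ^ 2 / 2))

/-- **TK1** (lower bound of `f`). Proof. `e^(-εu²)` and `sinc (xu)` are both decreasing in `u ∈ [0,1]` (`0 ≤ x ≤ π`), so by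
Chebyshev for the measure `u² du` (mass `1/3`): `ck ε x ≥ 3 ck ε 0 ∫_0^1 u² sinc(ux) du = 3 ck ε 0 (sin x - x cos x)/x³`.
Insert in (a) of `S_TF2`: `ζ f = p sinc x + 2ε ck x`, `ζ = p + 2ε ck 0` (so `2ε ck 0/ζ = 1 - ρ`). `0 < ρ < 1`. -/
def S_TK1 : Prop := S_TF2 → ∀ ε : ℝ, 0 < ε → 0 < rh ε ∧ rh ε < 1 ∧
  ∀ x, 0 < x → x ≤ Real.pi → lb (rh ε) x ≤ cf ε x

/-- **TK2** (main region, pointwise). Proof. As `S_TF7`, with `lb ≤ f` instead of `sinc ≤ f`: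
`f S_b - f_b S ≥ (2ε/ζ)((1-b²)/2)(sinc τ - cos τ) ch ε (bτ)`, multiply by `τ² f f_b^(k-1)` and use
`τ² (sinc τ - cos τ) lb ρ τ = ρ gg τ + (1-ρ) hq τ`. (For `τ = 0` everything is `0` except possibly `0/0 = 0`.) -/
def S_TK2 : Prop := S_TF2 → S_TF5 → S_TF6 → S_TK1 → ∀ (ε b τ : ℝ) (k : ℕ), 0 < ε → 0 < b → b ≤ 1 →
  1 ≤ k → 0 < τ → τ ≤ Real.pi →
  ε / zt ε * (1 - b ^ 2) * (rh ε * gg τ + (1 - rh ε) * hq τ) * ch ε (b * τ) * cf ε (b * τ) ^ (k - 1) ≤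
    II ε k b τ

/-- **TK3** (assembly). Proof. Exactly as `S_TF11` (`Pool.Agent.H200.TF11.result`) with `S_TK2` instead of `S_TF7`. -/
def S_TK3 : Prop := S_TF2 → S_TF3 → S_TF5 → S_TF6 → S_TK1 → S_TK2 → S_TF8 → S_TF9 → S_TF10 →
  ∀ (ε b s κ : ℝ) (k : ℕ), 0 < ε → 0 < b → b ^ 2 ≤ 1 / 3 → 4 ≤ k → 1 ≤ s → s ≤ k * b ^ 2 → 0 ≤ κ →
  (∀ x, 0 ≤ x → x ≤ 12 / 5 → cf ε x ≤ Real.sinc x * (1 + κ * x ^ 2)) →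
  0 < s * vv ε / 2 - κ * b ^ 2 →
  cf ε (b * Real.pi) ^ k * Real.exp (vv ε * s * Real.pi ^ 2 / 2) *
      ((1 - b ^ 2) / 2 * ch ε 0 * JM (rh ε) (b ^ 2 / 14) (vv ε * (s - b ^ 2)) -
        zt ε / (8 * ε) * Eb (s * vv ε / 2 - κ * b ^ 2)) -
      1.07 * (1 + 1 / b) * KK3 ε (k - 1) ≤
    zt ε / (2 * ε) * ∫ τ in Ioi (0:ℝ), II ε k b τ

/-- **TK4** (parameters). True values `ζ = 0.8556, 0.7975, 0.7468, 0.7239` and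
`vv = 0.29113, 0.27180, 0.25370, 0.24512` at `ε = 0.5, 0.75, 1, 1.125`; the claimed bounds for `vv` are
`[0.29089, 0.29134], [0.27117, 0.27218], [0.25244, 0.25424], [0.24346, 0.24574]`.
Proof. Taylor: `1 - x + x²/2 - x³/6 ≤ e^(-x) ≤ 1 - x + x²/2 - x³/6 + x⁴/24` for `x = εu²` (and longer ones for `vv`),
`ck ε 0 = ∫ u² e^(-εu²) = Σ (-ε)^j/(j!(2j+3))`, `vv = ck ε 0/ζ`; `ch 0` by Jensen as in `S_TF14`. -/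
def S_TK4 : Prop := ∀ ε : ℝ, 1 / 2 ≤ ε → ε ≤ 9 / 8 →
  1 - ε / 3 + ε ^ 2 / 10 - ε ^ 3 / 42 ≤ zt ε ∧
  zt ε ≤ 1 - ε / 3 + ε ^ 2 / 10 - ε ^ 3 / 42 + ε ^ 4 / 216 ∧
  2 / 15 * Real.exp (-(3 * ε / 7)) ≤ ch ε 0 ∧
  1 / 3 - 4 / 45 * ε + 0.008 * ε ^ 2 ≤ vv ε ∧ vv ε ≤ 1 / 3 - 4 / 45 * ε + 0.0098 * ε ^ 2

/-- **TK5** (size of `f` beyond `12/5`). Proof. `f` is decreasing on `[0,π]` (`S_TF6`), so on `[12/5, π]`: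
`0 ≤ f x ≤ f (12/5) ≤ sinc (12/5) (1 + (2ε/ζ) 0.052 (12/5)²)` by `S_TF12`; for `x ≥ π`: `|f x| ≤ 1/(ζπ)`. Lower bounds
from `S_TK1`: `f (π/2) ≥ lb ρ (π/2)`, `f (π/√3) ≥ lb ρ (π/√3)`. Values (upper bound for `|f|`; `0.785 lb(π/2)`;
`lb(π/√3)`): `ε = 0.5`: `0.380; 0.531; 0.585`; `ε = 1`: `0.507; 0.5545; 0.622`; `ε = 1.125`: `0.544; 0.559; 0.630`. -/
def S_TK5 : Prop := S_TF2 → S_TF6 → S_TF12 → S_TK1 → S_TK4 → ∀ ε x : ℝ, 1 / 2 ≤ ε → ε ≤ 9 / 8 →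
  12 / 5 ≤ x → |cf ε x| ≤ 0.785 * cf ε (Real.pi / 2) ∧ |cf ε x| ≤ cf ε (Real.pi / Real.sqrt 3)

/-- **TK6** (tail comparison). Proof. As `S_TF13` (`Pool.Agent.H357.TF13.tf13`).
(1) `b ≤ 1/2`: `f(bπ) ≥ f(π/2)`, `|f x|^(k-1) ≤ |f x|³ (0.785 f(π/2))^(k-4)`, so
`KK3 (k-1) ≤ (0.785 f(π/2))^(k-4) KK3 3`, and `f(bπ)^k ≥ f(π/2)^(k-4) f(π/2)^4`; it remains
`(1+1/b) 0.785^(k-4) ≤ 3`, true as `0.785 ≤ π/4` (see `S_TF13`), `k ≥ 1/b²`.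
(2) `b ≥ 1/2`: `f(bπ) ≥ f(π/√3) ≥ |f x|`. -/
def S_TK6 : Prop := S_TF2 → S_TF3 → S_TF6 → (∀ ε x : ℝ, 1 / 2 ≤ ε → ε ≤ 9 / 8 →
  12 / 5 ≤ x → |cf ε x| ≤ 0.785 * cf ε (Real.pi / 2) ∧ |cf ε x| ≤ cf ε (Real.pi / Real.sqrt 3)) →
  ∀ (ε b : ℝ) (k : ℕ), 1 / 2 ≤ ε → ε ≤ 9 / 8 →
  0 < b → b ^ 2 ≤ 1 / 3 → 4 ≤ k → 1 ≤ k * b ^ 2 →
  (b ≤ 1 / 2 → (1 + 1 / b) * KK3 ε (k - 1) ≤
    cf ε (b * Real.pi) ^ k * (3 * KK3 ε 3 / cf ε (Real.pi / 2) ^ 4)) ∧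
  (1 / 2 ≤ b → (1 + 1 / b) * KK3 ε (k - 1) ≤
    cf ε (b * Real.pi) ^ k * ((1 + 1 / b) * KK3 ε 3 / cf ε (b * Real.pi) ^ 4))

/-- **TK7** (numerical: `K₃`). True values `0.00191, 0.00219, 0.00251, 0.00288, 0.00330, 0.00377, 0.00443` at
`ε = 0.5, 0.6, 0.7, 0.8, 0.9, 1, 1.125`, claimed `0.0025, 0.00285, 0.00327, 0.00375, 0.00429, 0.0049, 0.00575`.
Proof idea. By (a) of `S_TF2`, `ζ f = p sinc x + 2ε ck x`. On `[12/5, π]` (where `f ≥ 0`): the chord bound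
`e^(-εu²) ≤ 1 - (1-p) u²` gives `ck x ≤ ∫ u² (1 - (1-p)u²) sinc(ux) du` (`sinc(ux) ≥ 0`), explicit (at `ε = 9/8`,
`x = 12/5` it gives `f ≤ 0.487`, true value `0.4496`); a quadratic upper bound for `e^(-εu²)` in `u²` gives more. On
`[π,∞)`: integrate by parts once more: `ck x = ∫ u² e^(-εu²) sinc(ux) du`, `|ck x| ≤ 1.07 ζ/x²`, or
`|f| ≤ p|sin x|/(ζx) + ...`; true values of `f` at `ε = 9/8`: `0.4496, 0.257, 0.09.., ` at `2.4, π, 4`. The mass is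
concentrated near `12/5`: for `ε = 9/8` the part `[12/5, π]` of the integral is about `0.0042`. -/
def S_TK7 : Prop := S_TF2 → S_TK4 → ∀ ε : ℝ, 1 / 2 ≤ ε → ε ≤ 9 / 8 → KK3 ε 3 ≤ 0.0017 + 0.0032 * ε ^ 2

/-- **TK8** (numerical moments, `∫_0^π gg τ τ^(2j) e^(-0.15τ²)`: `1.22998, 4.95211, 24.81414, 142.94146`;
`∫_0^π hq τ τ^(2j) e^(-0.15τ²)`: `2.10436, 10.43680, 63.28056, 432.77923`). See `Pool.Agent.H703.TF16`. -/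
def S_TK8 : Prop :=
  (1.226 ≤ ∫ τ in (0:ℝ)..Real.pi, gg τ * Real.exp (-(0.15 * τ ^ 2))) ∧
  (4.94 ≤ ∫ τ in (0:ℝ)..Real.pi, gg τ * τ ^ 2 * Real.exp (-(0.15 * τ ^ 2))) ∧
  ((∫ τ in (0:ℝ)..Real.pi, gg τ * τ ^ 2 * Real.exp (-(0.15 * τ ^ 2))) ≤ 4.97) ∧
  (24.7 ≤ ∫ τ in (0:ℝ)..Real.pi, gg τ * τ ^ 4 * Real.exp (-(0.15 * τ ^ 2))) ∧
  ((∫ τ in (0:ℝ)..Real.pi, gg τ * τ ^ 4 * Real.exp (-(0.15 * τ ^ 2))) ≤ 25.0) ∧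
  ((∫ τ in (0:ℝ)..Real.pi, gg τ * τ ^ 6 * Real.exp (-(0.15 * τ ^ 2))) ≤ 144) ∧
  (2.101 ≤ ∫ τ in (0:ℝ)..Real.pi, hq τ * Real.exp (-(0.15 * τ ^ 2))) ∧
  (10.42 ≤ ∫ τ in (0:ℝ)..Real.pi, hq τ * τ ^ 2 * Real.exp (-(0.15 * τ ^ 2))) ∧
  ((∫ τ in (0:ℝ)..Real.pi, hq τ * τ ^ 2 * Real.exp (-(0.15 * τ ^ 2))) ≤ 10.45) ∧
  (63.1 ≤ ∫ τ in (0:ℝ)..Real.pi, hq τ * τ ^ 4 * Real.exp (-(0.15 * τ ^ 2))) ∧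
  ((∫ τ in (0:ℝ)..Real.pi, hq τ * τ ^ 4 * Real.exp (-(0.15 * τ ^ 2))) ≤ 63.4) ∧
  ((∫ τ in (0:ℝ)..Real.pi, hq τ * τ ^ 6 * Real.exp (-(0.15 * τ ^ 2))) ≤ 434)

/-- **TK9** (lower bound for `JM`). Proof. As `S_TF17`: `d = (0.3 - q)/2`, `e^(dτ²) ≥ 1 + dτ² + d²τ⁴/2`, `gg, hq ≥ 0`,
`1 - pτ² ≥ 0` on `[0,π]`, expand and use `S_TK8`. -/
def S_TK9 : Prop := S_TK8 → ∀ ρ p q d : ℝ, 0 ≤ ρ → ρ ≤ 1 → 0 ≤ p → p ≤ 1 / 40 → 0.18 ≤ q → q ≤ 0.3 →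
  d = (0.3 - q) / 2 →
  ρ * (1.226 + 4.94 * d - 4.97 * p + 24.7 * d ^ 2 / 2 - 25.0 * (p * d) - 144 * (p * d ^ 2 / 2)) +
    (1 - ρ) * (2.101 + 10.42 * d - 10.45 * p + 63.1 * d ^ 2 / 2 - 63.4 * (p * d) -
      434 * (p * d ^ 2 / 2)) ≤ JM ρ p q

/-- **TK10** (numerical, `b ≤ 1/2`, `s = 1`). With the bounds of `S_TK4`, `S_TK7`, `S_TK9` and
`cf ε (π/2) ≥ lb ρ (π/2)`, `ρ = e^(-ε)/ζ`, the margin of the inequality divided by `e^(vπ²/2)` is smallest at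
`b = 1/2`, where it is `0.0330, 0.0329, 0.0310, 0.0275, 0.0225, 0.0161` for
`ε = 0.5, 0.625, 0.75, 0.875, 1, 1.125`, and it is `0.047 .. 0.056` at `b = 0` (concave in `b²` in between). See
`Pool.Agent.H142.TF18`, `Pool.Agent.H947.TF19` for the method. -/
def S_TK10 : Prop := S_TF2 → S_TK1 → S_TK4 → S_TK7 → S_TK8 → S_TK9 → ∀ ε b : ℝ, 1 / 2 ≤ ε → ε ≤ 9 / 8 →
  0 < b → b ≤ 1 / 2 →
  0 < vv ε / 2 - 2 * ε / zt ε * 0.052 * b ^ 2 ∧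
  1.07 * (3 * KK3 ε 3 / cf ε (Real.pi / 2) ^ 4) ≤ Real.exp (vv ε * 1 * Real.pi ^ 2 / 2) *
    ((1 - b ^ 2) / 2 * ch ε 0 * JM (rh ε) (b ^ 2 / 14) (vv ε * (1 - b ^ 2)) -
      zt ε / (8 * ε) * Eb (1 * vv ε / 2 - 2 * ε / zt ε * 0.052 * b ^ 2))

/-- **TK11** (numerical, `1/2 ≤ b ≤ 1/√3`, `s = 4b²`). As `S_TK10`; margins (divided by `e^(2vb²π²)`), minimum over `b`
(attained at `b = 1/√3`): `0.0290, 0.0277, 0.0252, 0.0217, 0.0172, 0.0114` for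
`ε = 0.5, 0.625, 0.75, 0.875, 1, 1.125`. -/
def S_TK11 : Prop := S_TF2 → S_TK1 → S_TK4 → S_TK7 → S_TK8 → S_TK9 → ∀ ε b : ℝ, 1 / 2 ≤ ε → ε ≤ 9 / 8 →
  1 / 2 ≤ b → b ^ 2 ≤ 1 / 3 →
  0 < 4 * b ^ 2 * vv ε / 2 - 2 * ε / zt ε * 0.052 * b ^ 2 ∧
  1.07 * ((1 + 1 / b) * KK3 ε 3 / cf ε (b * Real.pi) ^ 4) ≤
    Real.exp (vv ε * (4 * b ^ 2) * Real.pi ^ 2 / 2) *
    ((1 - b ^ 2) / 2 * ch ε 0 * JM (rh ε) (b ^ 2 / 14) (vv ε * (4 * b ^ 2 - b ^ 2)) -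
      zt ε / (8 * ε) * Eb (4 * b ^ 2 * vv ε / 2 - 2 * ε / zt ε * 0.052 * b ^ 2))

/-- **TK12** (conclusion). Proof. As `S_TF20` (`Pool.Agent.H249.TF20.t_TF20`). -/
def S_TK12 : Prop := S_TK3 → S_TF12 → S_TK6 → S_TF2 → S_TF3 → S_TF5 → S_TF6 → S_TK1 → S_TK2 → S_TF8 →
  S_TF9 → S_TF10 → S_TK4 → S_TK5 → S_TK7 → S_TK8 → S_TK9 → S_TK10 → S_TK11 →
  ∀ (ε b : ℝ) (k : ℕ), 1 / 2 ≤ ε → ε ≤ 9 / 8 → 0 < b → b ^ 2 ≤ 1 / 3 → 4 ≤ k → 1 ≤ k * b ^ 2 →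
    0 ≤ ∫ τ in Ioi (0:ℝ), II ε k b τ

end Pool.Agent.H770.GS
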