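import Pool.Agent.H770.GS.TA2
import Pool.Agent.H331.GSgauss
import Pool.Agent.H385.GSrepr
import Pool.Agent.H154.GSn3reg
import Pool.Agent.H860.GSn3far
import Pool.Agent.H357.GSI1
import Pool.Agent.H597.GScomp
import Pool.Agent.H37.GSmono
import Pool.Agent.H356.GSQd
import Pool.Agent.H356.GSn3Q
import Pool.Agent.H187.GSD
import Pool.Agent.H376.GScont

/-!
# Project TA: unconditional form
-/

set_option autoImplicit false

open MeasureTheory Set intervalIntegral Filter Topology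

namespace Pool.Agent.H770.GS

open Pool.Agent.Helper82.GC

theorem taHyp : TAHyp where
  gauss := Pool.Agent.H331.TA.gauss
  repr := Pool.Agent.H385.GSrepr.repr
  reg := Pool.Agent.H154.TA.t_n3reg
  far := Pool.Agent.H860.GSn3far.t
  i1 := Pool.Agent.H357.GSI1.t_I1
  comp := Pool.Agent.H597.GScomp.t_comp
  mono := Pool.Agent.H37.GSmono.main
  qd := Pool.Agent.H356.GSQd.Qd_deriv
  n3Q := Pool.Agent.H356.GSn3Q.n3Q
  d := Pool.Agent.H187.GSD.s_D

theorem exists_ab' (k : ℕ) {r : ℝ} (hr : 0 < r) (hr3 : r ^ 2 ≤ 3) :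
    ∃ a b : ℝ, 0 ≤ b ∧ b ≤ a ∧ 2 * a ^ 2 + k * b ^ 2 = 1 ∧
      ∀ θ : EuclideanSpace ℝ (Fin (k + 2)), ‖θ‖ = 1 → Asl r θ 0 ≤ Asl r (dirAB k a b) 0 :=
  exists_ab taHyp Pool.Agent.H376.GScont.cont k hr hr3

end Pool.Agent.H770.GS
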