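import Pool.Agent.H770.GS.TA

/-!
# Project TA: assembly of the triple theorem
-/

set_option autoImplicit false

open MeasureTheory Set intervalIntegral

namespace Pool.Agent.H770.GS

open Pool.Agent.Helper82.GC

/-- the hypotheses of the assembly -/
structure TAHyp : Prop where
  gauss : S_gauss
  repr : S_repr
  reg : S_n3reg
  far : S_n3far
  i1 : S_I1
  comp : S_comp
  mono : S_mono
  qd : S_Qd
  n3Q : S_n3Q
  d : S_D

theorem Mc_cont (r c : ℝ) : Continuous (Mc r c) := by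
  have h1 := nL_cont r
  have h2 := fL_cont r
  have h3 : Continuous (nLd r) := by unfold nLd; fun_prop
  unfold Mc
  fun_prop

theorem Qf_sub_nonneg (H : TAHyp) {r c v : ℝ} (hr : 0 < r) (hr3 : r ^ 2 ≤ 3) (hc : 0 < c)
    (hc1 : c ≤ 1) (hv : 0 < v) (hvr : v < r) : 0 ≤ Qf r c v - v * Qd r c v := by
  refine le_trans ?_ (H.d r c v hr hr3 hc hc1 hv hvr)
  have hm := H.mono r c hr hr3 hc hc1
  have hsub : Icc (r - v) (r + v) ⊆ Icc (0:ℝ) (2 * r) := by
    intro a ha
    exact ⟨by linarith [ha.1], by linarith [ha.2]⟩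
  have h := H.comp H.i1 r v (fun a => Mc r c a / W a) hv hvr (hm.1.mono hsub)
    (fun a ha => div_nonneg (hm.2 a (hsub ha)) (W_pos a).le)
    ((Mc_cont r c).continuousOn.div W_cont.continuousOn fun a _ => (W_pos a).ne')
  refine le_trans h (le_of_eq ?_)
  congr 1
  ext a
  rw [div_mul_cancel₀ _ (W_pos a).ne']

theorem Qf_div_anti (H : TAHyp) {r c : ℝ} (hr : 0 < r) (hr3 : r ^ 2 ≤ 3) (hc : 0 < c)
    (hc1 : c ≤ 1) {v v' : ℝ} (hv : 0 < v) (hvv : v ≤ v') (hv' : v' ≤ r) :
    v * Qf r c v' ≤ v' * Qf r c v := by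
  have hanti : AntitoneOn (fun v => Qf r c v / v) (Icc v v') := by
    have hd : ∀ x ∈ Icc v v', HasDerivAt (fun v => Qf r c v / v)
        ((Qd r c x * x - Qf r c x * 1) / x ^ 2) x := by
      intro x hx
      exact (H.qd r c x).div (hasDerivAt_id x) (by have := hx.1; simp; linarith)
    refine antitoneOn_of_deriv_nonpos (convex_Icc _ _) ?_ ?_ ?_
    · exact fun x hx => (hd x hx).continuousAt.continuousWithinAt
    · intro x hx
      rw [interior_Icc] at hx
      exact (hd x ⟨hx.1.le, hx.2.le⟩).differentiableAt.differentiableWithinAt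
    · intro x hx
      rw [interior_Icc] at hx
      rw [(hd x ⟨hx.1.le, hx.2.le⟩).deriv]
      have h := Qf_sub_nonneg H hr hr3 hc hc1 (hv.trans hx.1) (hx.2.trans_le hv')
      apply div_nonpos_of_nonpos_of_nonneg
      · nlinarith
      · positivity
  have h := hanti (left_mem_Icc.2 hvv) (right_mem_Icc.2 hvv) hvv
  simp only at h
  rw [div_le_div_iff₀ (hv.trans_le hvv) hv] at h
  linarith

theorem n3_P (H : TAHyp) {r c : ℝ} (hr : 0 < r) (hr3 : r ^ 2 ≤ 3) (hc : 0 < c)
    (hc1 : c ≤ 1) : P 0 (n3 r c) := by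
  have hreg := H.reg r c hr hc
  have hcr : 0 < c * r := mul_pos hc hr
  have near : ∀ v v', 0 < v → v ≤ v' → v' ≤ c * r → v * n3 r c v' ≤ v' * n3 r c v := by
    intro v v' hv hvv hv'
    have e : ∀ x : ℝ, c * (x / c) = x := fun x => by field_simp
    have h1 : v' / c ≤ r := by rw [div_le_iff₀ hc]; linarith
    have h2 : v / c ≤ v' / c := div_le_div_of_nonneg_right hvv hc.le
    have h := Qf_div_anti H hr hr3 hc hc1 (div_pos hv hc) h2 h1
    rw [← H.n3Q r c (v' / c) hr hc hc1 ((div_pos hv hc).le.trans h2) h1,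
      ← H.n3Q r c (v / c) hr hc hc1 (div_pos hv hc).le (h2.trans h1), e, e] at h
    have h3 := mul_le_mul_of_nonneg_left h hc.le
    rw [← mul_assoc, ← mul_assoc, e, e] at h3
    exact h3
  refine ⟨hreg.1, hreg.2.1, ?_⟩
  intro v v' hv hvv _
  have hfar := H.far H.repr H.reg r c hr hc
  rcases le_total v' (c * r) with h1 | h1
  · exact near v v' hv hvv h1
  rcases le_total (c * r) v with h2 | h2
  · exact hfar v v' hv hvv (by linarith)
  have h3 := near v (c * r) hv h2 le_rfl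
  have h4 := hfar (c * r) v' hcr h1 (by linarith)
  have h5 : c * r * (v * n3 r c v') ≤ c * r * (v' * n3 r c v) := by
    calc c * r * (v * n3 r c v') = v * (c * r * n3 r c v') := by ring
      _ ≤ v * (v' * n3 r c (c * r)) := mul_le_mul_of_nonneg_left h4 hv.le
      _ = v' * (v * n3 r c (c * r)) := by ring
      _ ≤ v' * (c * r * n3 r c v) := mul_le_mul_of_nonneg_left h3 (hv.trans_le hvv).le
      _ = c * r * (v' * n3 r c v) := by ring
  exact le_of_mul_le_mul_left h5 hcr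

theorem triple_one (H : TAHyp) {r c τ : ℝ} (hr : 0 < r) (hr3 : r ^ 2 ≤ 3) (hc : 0 < c)
    (hc1 : c ≤ 1) (hτ : 0 < τ) : P 0 (cv r c (cv r 1 (cv r 1 (kg τ)))) := by
  obtain ⟨C, hC⟩ := (H.reg r c hr hc).2.2
  have h := H.gauss (n3 r c) C (n3_P H hr hr3 hc hc1) hC τ hτ
  have e : cv r c (cv r 1 (cv r 1 (kg τ))) = fun v => ∫ u, gs τ u * n3 r c (v + u) := by
    ext v
    exact H.repr r c τ hr hc hτ v
  rw [e]
  exact h

theorem kg_scale {τ x : ℝ} (hτ : 0 < τ) (hx : 0 < x) (u : ℝ) :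
    kg τ (x * u) = (x ^ 2)⁻¹ * kg (τ / x) u := by
  unfold kg gs
  have h1 : Real.sqrt (2 * Real.pi * (τ / x) ^ 2) = Real.sqrt (2 * Real.pi * τ ^ 2) / x := by
    rw [show 2 * Real.pi * (τ / x) ^ 2 = (2 * Real.pi * τ ^ 2) / x ^ 2 by ring]
    rw [Real.sqrt_div' _ (by positivity), Real.sqrt_sq hx.le]
  have h2 : Real.sqrt (2 * Real.pi * τ ^ 2) ≠ 0 := by
    have := Real.pi_pos
    positivity
  rw [h1]
  have h3 : -(x * u) ^ 2 / (2 * τ ^ 2) = -u ^ 2 / (2 * (τ / x) ^ 2) := by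
    field_simp
  rw [h3]
  field_simp

theorem cv_scale {r x b : ℝ} (g : ℝ → ℝ) (v : ℝ) :
    cv r (x * b) g (x * v) = cv r b (fun u => g (x * u)) v := by
  unfold cv
  congr 1
  ext u
  congr 2
  ring

theorem P_scale {k : ℝ → ℝ} {x : ℝ} (hx : 0 < x) (h : P 0 fun v => k (x * v)) : P 0 k := by
  have e : ∀ v, x * (x⁻¹ * v) = v := fun v => by field_simp
  refine ⟨?_, ?_, ?_⟩
  · have h1 : Continuous fun v => k (x * (x⁻¹ * v)) := h.cont.comp (continuous_const.mul continuous_id)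
    simpa only [e] using h1
  · intro v
    have h1 := h.odd (x⁻¹ * v)
    simp only [mul_neg, e] at h1
    exact h1
  · intro v v' hv hvv _
    have hx' : 0 < x⁻¹ := inv_pos.2 hx
    have h1 := h.le (x⁻¹ * v) (x⁻¹ * v') (by positivity)
      (mul_le_mul_of_nonneg_left hvv hx'.le) (by
        have : 0 < v' := hv.trans_le hvv
        have h2 : 0 ≤ x⁻¹ * v + x⁻¹ * v' := by positivity
        linarith)
    simp only [e] at h1
    have h2 := mul_le_mul_of_nonneg_left h1 hx.le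
    have h3 : x * x⁻¹ = 1 := mul_inv_cancel₀ hx.ne'
    calc v * k v' = x * x⁻¹ * v * k v' := by rw [h3, one_mul]
      _ ≤ x * x⁻¹ * v' * k v := by linarith [h2]
      _ = v' * k v := by rw [h3, one_mul]

theorem P_smul {k : ℝ → ℝ} {α ρ : ℝ} (hα : 0 ≤ α) (h : P ρ k) : P ρ fun v => α * k v := by
  refine ⟨continuous_const.mul h.cont, fun v => by rw [h.odd]; ring, ?_⟩
  intro v v' hv hvv h2
  have h1 := mul_le_mul_of_nonneg_left (h.le v v' hv hvv h2) hα
  linarith [h1]

theorem cv_smul {r b α : ℝ} (g : ℝ → ℝ) : cv r b (fun v => α * g v) = fun v => α * cv r b g v := by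
  ext v
  unfold cv
  rw [← intervalIntegral.integral_const_mul]
  congr 1
  ext u
  ring

/-- **Triple theorem**: the density of `z X₁ + x X₂ + x X₃` (smoothed) is in the class `P 0`. -/
theorem triple (H : TAHyp) {r x z τ : ℝ} (hr : 0 < r) (hr3 : r ^ 2 ≤ 3) (hz : 0 ≤ z)
    (hzx : z ≤ x) (hτ : 0 < τ) : P 0 (cv r z (cv r x (cv r x (kg τ)))) := by
  rcases eq_or_lt_of_le hz with h0 | h0
  · rw [← h0]
    exact P.cv (P.pair (kg_P τ) hr (hz.trans hzx)) hr le_rfl (by simp)
  have hx : 0 < x := h0.trans_le hzx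
  apply P_scale hx
  have e1 : (fun v => cv r z (cv r x (cv r x (kg τ))) (x * v)) =
      fun v => (x ^ 2)⁻¹ * cv r (z / x) (cv r 1 (cv r 1 (kg (τ / x)))) v := by
    have ez : z = x * (z / x) := by field_simp
    have a1 : (fun v => cv r x (kg τ) (x * v)) = fun v => (x ^ 2)⁻¹ * cv r 1 (kg (τ / x)) v := by
      ext v
      conv_lhs => rw [show cv r x (kg τ) = cv r (x * 1) (kg τ) by rw [mul_one]]
      rw [cv_scale]
      simp only [kg_scale hτ hx]
      rw [cv_smul]
    have a2 : (fun v => cv r x (cv r x (kg τ)) (x * v)) =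
        fun v => (x ^ 2)⁻¹ * cv r 1 (cv r 1 (kg (τ / x))) v := by
      ext v
      conv_lhs => rw [show cv r x (cv r x (kg τ)) = cv r (x * 1) (cv r x (kg τ)) by rw [mul_one]]
      rw [cv_scale, a1, cv_smul]
    ext v
    conv_lhs => rw [ez]
    rw [cv_scale, a2, cv_smul]
  rw [e1]
  apply P_smul (by positivity)
  exact triple_one H hr hr3 (by positivity) (by rw [div_le_one hx]; exact hzx) (by positivity)

end Pool.Agent.H770.GS
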