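import Pool.Agent.H770.GS.TA3

/-!
# The maximizer `(a, a, b, …, b)` of least fourth moment, and the exclusion of ratios close to one
-/

set_option autoImplicit false

open MeasureTheory Set intervalIntegral Filter Topology

namespace Pool.Agent.H770.GS

open Pool.Agent.Helper82.GC

theorem exists_ab_min (H : TAHyp) (hcont : S_cont) (k : ℕ) {r : ℝ} (hr : 0 < r) (hr3 : r ^ 2 ≤ 3) :
    ∃ a b : ℝ, 0 ≤ b ∧ b ≤ a ∧ 2 * a ^ 2 + k * b ^ 2 = 1 ∧
      (∀ θ : EuclideanSpace ℝ (Fin (k + 2)), ‖θ‖ = 1 → Asl r θ 0 ≤ Asl r (dirAB k a b) 0) ∧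
      ∀ θ' ∈ KK k, Asl r (dirAB k a b) 0 ≤ Asl r θ' 0 → QV (dirAB k a b) ≤ QV θ' := by
  obtain ⟨θ1, hθ1, hmax⟩ := (KK_compact k).exists_isMaxOn
    ⟨_, (dominated hr (EuclideanSpace.single 0 1) (by simp)).1⟩ (hcont k r hr)
  have hScl : IsClosed (KK k ∩ (fun θ => Asl r θ 0) ⁻¹' {Asl r θ1 0}) :=
    (hcont k r hr).preimage_isClosed_of_isClosed (KK_compact k).isClosed isClosed_singleton
  have hSco : IsCompact (KK k ∩ (fun θ => Asl r θ 0) ⁻¹' {Asl r θ1 0}) :=
    (KK_compact k).of_isClosed_subset hScl inter_subset_left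
  have hQc : Continuous (fun θ : EuclideanSpace ℝ (Fin (k + 2)) => QV θ) := by
    unfold QV
    fun_prop
  obtain ⟨θ, ⟨hθK, hθM⟩, hmin⟩ := hSco.exists_isMinOn ⟨θ1, hθ1, rfl⟩ hQc.continuousOn
  have hθ := hθK.1
  simp only [mem_preimage, mem_singleton_iff] at hθM
  -- every competitor in `KK` which is at least as good has larger `Q`
  have key : ∀ θ' ∈ KK k, Asl r θ 0 ≤ Asl r θ' 0 → QV θ ≤ QV θ' := by
    intro θ' h1 h2
    refine hmin ⟨h1, ?_⟩
    have h3 := hmax h1
    simp only [mem_ofPred_eq] at h3
    simp only [mem_preimage, mem_singleton_iff]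
    rw [hθM] at h2
    exact le_antisymm h3 h2
  have hall : ∀ θ' : EuclideanSpace ℝ (Fin (k + 2)), ‖θ'‖ = 1 → Asl r θ' 0 ≤ Asl r θ 0 := by
    intro θ' h1
    have h2 := dominated hr θ' h1
    have h3 := hmax h2.1
    simp only [mem_ofPred_eq] at h3
    rw [hθM]
    exact h2.2.trans h3
  have hlen := srt_length θ
  have hsq := srt_sq θ hθ
  have hso := srt_sorted θ
  have hnn := srt_nonneg θ
  have hf := pairUp_facts (k + 2) (srt θ) hlen hnn
  have hfix : pairUp (srt θ) = srt θ := by
    by_contra hne
    have h1 := hf.2.2.2.2.2 hne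
    have h2 := dominated hr θ hθ
    have h3 := key _ h2.1 h2.2
    rw [QV_srt θ, QV_vec (by rw [hf.1, hlen])] at h3
    linarith
  obtain ⟨C0, T, hCT, hT1⟩ := pairUp_fixed (k + 2) (srt θ) hlen hnn hfix
  -- final step: from the shape of the list
  have final : ∀ a b : ℝ, srt θ = a :: a :: List.replicate k b → b ≤ a ∨ k = 0 →
      ∃ a b : ℝ, 0 ≤ b ∧ b ≤ a ∧ 2 * a ^ 2 + k * b ^ 2 = 1 ∧
      (∀ θ : EuclideanSpace ℝ (Fin (k + 2)), ‖θ‖ = 1 → Asl r θ 0 ≤ Asl r (dirAB k a b) 0) ∧
      ∀ θ' ∈ KK k, Asl r (dirAB k a b) 0 ≤ Asl r θ' 0 → QV (dirAB k a b) ≤ QV θ' := by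
    intro a b h hb
    have ha0 : 0 ≤ a := hnn a (by rw [h]; simp)
    have hA : Asl r θ 0 ≤ Asl r (dirAB k a b) 0 := by
      refine Asl_le_vec hr hθ (by simp) (by rw [← h]; exact hsq) fun τ _ => ?_
      rw [h]
    have hs2 : 2 * a ^ 2 + k * b ^ 2 = 1 := by
      rw [h] at hsq
      simp only [List.map_cons, List.sum_cons, List.map_replicate, List.sum_replicate,
        nsmul_eq_mul] at hsq
      linarith
    have hQ : QV (dirAB k a b) = QV θ := by
      rw [QV_srt θ, h]
      exact QV_vec (by simp)
    rcases Nat.eq_zero_or_pos k with hk | hk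
    · have hdir : dirAB k a 0 = dirAB k a b := by
        subst hk
        simp [dirAB]
      refine ⟨a, 0, le_rfl, ha0, ?_, fun θ' h1 => ?_, fun θ' h1 h2 => ?_⟩
      · subst hk
        simpa using hs2
      · rw [hdir]
        exact (hall θ' h1).trans hA
      · rw [hdir] at h2 ⊢
        rw [hQ]
        exact key θ' h1 (hA.trans h2)
    · have hb0 : 0 ≤ b := hnn b (by
        rw [h]
        simp [List.mem_replicate]
        omega)
      exact ⟨a, b, hb0, hb.resolve_right (by omega), hs2, fun θ' h1 => (hall θ' h1).trans hA,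
        fun θ' h1 h2 => by rw [hQ]; exact key θ' h1 (hA.trans h2)⟩
  match C0, hCT with
  | [], hCT =>
    exfalso
    rw [hCT] at hlen
    simp [dup] at hlen
    omega
  | [a], hCT =>
    have h1 : srt θ = a :: a :: T := by rw [hCT]; rfl
    have hTk : T.length = k := by
      rw [h1] at hlen
      simpa using hlen
    match T, hT1 with
    | [], _ =>
      subst hTk
      exact final a 0 (by rw [h1]; rfl) (Or.inr rfl)
    | [z], _ =>
      have : k = 1 := by simpa using hTk.symm
      subst this
      refine final a z (by rw [h1]; rfl) (Or.inl ?_)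
      rw [h1] at hso
      exact List.rel_of_pairwise_cons hso (by simp)
    | z :: w :: T, hT1 => simp at hT1
  | a :: β :: C, hCT =>
    have h1 : srt θ = a :: a :: β :: β :: (dup C ++ T) := by rw [hCT]; rfl
    have hβa : β ≤ a := by
      rw [h1] at hso
      exact List.rel_of_pairwise_cons hso (by simp)
    have ha0 : 0 ≤ a := hnn a (by rw [h1]; simp)
    have hβ0 : 0 ≤ β := hnn β (by rw [h1]; simp)
    have hle : ∀ c ∈ dup C ++ T, c ≤ β := by
      intro c hc
      rw [h1] at hso
      have h2 := (List.pairwise_cons.1 hso).2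
      have h3 := (List.pairwise_cons.1 h2).2
      exact List.rel_of_pairwise_cons h3 (by simp only [List.mem_cons]; exact Or.inr hc)
    have h0 : ∀ c ∈ dup C ++ T, 0 ≤ c := fun c hc => hnn c (by
      rw [h1]
      simp only [List.mem_cons]
      exact Or.inr (Or.inr (Or.inr (Or.inr hc))))
    -- improvement is impossible
    have imp : ∀ (y : ℝ) (C' T' : List ℝ), y < β → 0 ≤ y → (∀ c ∈ C', 0 ≤ c ∧ c ≤ β) →
        (∀ c ∈ T', 0 ≤ c ∧ c ≤ y) → (srt θ).Perm (β :: y :: (T' ++ dup C' ++ [β, a, a])) →
        False := by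
      intro y C' T' hy hy0 hC' hT' hp
      have h2 := improve H hr hr3 hy0 hy hβa (fun c hc => (hC' c hc).1) hT' hp
      have hlen' : (qm β y :: qm β y :: (T' ++ dup C' ++ [β])).length = k := by
        have h3 := hp.length_eq
        rw [hlen] at h3
        simp only [List.length_cons, List.length_append, List.length_nil] at h3 ⊢
        omega
      have hs' : ((a :: a :: qm β y :: qm β y :: (T' ++ dup C' ++ [β])).map
          fun x => x ^ 2).sum = 1 := by
        rw [← hsq, (hp.map fun x => x ^ 2).sum_eq]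
        simp only [List.map_cons, List.sum_cons, List.map_append, List.sum_append, qm_sq,
          List.map_nil, List.sum_nil]
        ring
      have hKK := mem_KK hlen' hs' ha0 (by
        intro c hc
        have hq0 := qm_nonneg β y
        have hqa : qm β y ≤ a := qm_le ha0 hβ0 hβa hy0 (hy.le.trans hβa)
        simp only [List.mem_cons, List.mem_append, List.not_mem_nil, or_false] at hc
        rcases hc with h | h | (h | h) | h
        · rw [h, abs_of_nonneg hq0]; exact hqa
        · rw [h, abs_of_nonneg hq0]; exact hqa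
        · rw [abs_of_nonneg (hT' c h).1]
          exact (hT' c h).2.trans (hy.le.trans hβa)
        · have h4 := hC' c (mem_dup.1 h)
          rw [abs_of_nonneg h4.1]
          exact h4.2.trans hβa
        · rw [h, abs_of_nonneg hβ0]; exact hβa)
      have hA := Asl_le_vec hr hθ (n := k + 2) (by simp [← hlen']) hs' h2
      have hQ := key _ hKK hA
      rw [QV_srt, QV_vec (by simp [← hlen']), Q4_perm hp] at hQ
      have hq4 := qm_four β y
      have hpos := sq_ne hβ0 hy0 hy.ne'
      simp only [Q4, List.map_cons, List.sum_cons, List.map_append, List.sum_append,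
        List.map_nil, List.sum_nil] at hQ
      linarith
    have hCβ : ∀ c ∈ C, c = β := by
      intro y hyC
      by_contra hne
      have hy1 : y ≤ β := hle y (List.mem_append_left _ (mem_dup.2 hyC))
      have hy0 : 0 ≤ y := h0 y (List.mem_append_left _ (mem_dup.2 hyC))
      have hylt : y < β := lt_of_le_of_ne hy1 hne
      obtain ⟨C', hC'⟩ : ∃ C' : List ℝ, C.Perm (y :: C') := ⟨C.erase y, List.perm_cons_erase hyC⟩
      have hTy : ∀ c ∈ T, c ≤ y := by
        intro c hc
        rw [h1] at hso
        have h2 := (List.pairwise_cons.1 (List.pairwise_cons.1 (List.pairwise_cons.1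
          (List.pairwise_cons.1 hso).2).2).2).2
        exact (List.pairwise_append.1 h2).2.2 y (mem_dup.2 hyC) c hc
      refine imp y C' (T ++ [y]) hylt hy0 ?_ ?_ ?_
      · intro c hc
        have hcC : c ∈ C := hC'.mem_iff.2 (List.mem_cons_of_mem _ hc)
        exact ⟨h0 c (List.mem_append_left _ (mem_dup.2 hcC)),
          hle c (List.mem_append_left _ (mem_dup.2 hcC))⟩
      · intro c hc
        rcases List.mem_append.1 hc with h | h
        · exact ⟨h0 c (List.mem_append_right _ h), hTy c h⟩
        · rw [List.mem_singleton.1 h]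
          exact ⟨hy0, le_rfl⟩
      · rw [h1]
        have p1 := dup_perm hC'
        simp only [dup] at p1
        refine ((((p1.append_right T).cons β).cons β).cons a).cons a |>.trans ?_
        rw [← Multiset.coe_eq_coe]
        simp only [← Multiset.cons_coe, ← Multiset.coe_add, List.cons_append, Multiset.coe_nil]
        simp only [← Multiset.singleton_add, add_zero]
        abel
    have hTβ : ∀ c ∈ T, c = β := by
      intro z hzT
      by_contra hne
      have hz1 : z ≤ β := hle z (List.mem_append_right _ hzT)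
      have hz0 : 0 ≤ z := h0 z (List.mem_append_right _ hzT)
      have hTz : T = [z] := by
        match T, hT1, hzT with
        | [w], _, hzT => rw [List.mem_singleton.1 hzT]
        | u :: w :: T, hT1, _ => simp at hT1
      refine imp z C [] (lt_of_le_of_ne hz1 hne) hz0 ?_ (by simp) ?_
      · intro c hc
        exact ⟨h0 c (List.mem_append_left _ (mem_dup.2 hc)),
          hle c (List.mem_append_left _ (mem_dup.2 hc))⟩
      · rw [h1, hTz]
        rw [← Multiset.coe_eq_coe]
        simp only [← Multiset.cons_coe, ← Multiset.coe_add, List.nil_append, Multiset.coe_nil]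
        simp only [← Multiset.singleton_add, add_zero]
        abel
    refine final a β ?_ (Or.inl hβa)
    rw [h1]
    congr 2
    refine List.eq_replicate_iff.2 ⟨?_, ?_⟩
    · rw [h1] at hlen
      simp only [List.length_cons] at hlen ⊢
      omega
    · intro c hc
      simp only [List.mem_cons, List.mem_append] at hc
      rcases hc with h | h | h | h
      · exact h
      · exact h
      · exact hCβ c (mem_dup.1 h)
      · exact hTβ c h


/-- the competitor obtained by averaging `a` and `b` -/
theorem excl {k : ℕ} {r : ℝ} (hr : 0 < r) (hk : 3 ≤ k) {a b : ℝ} (hb : 0 < b) (hba : b < a)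
    (hsum : 2 * a ^ 2 + k * b ^ 2 = 1)
    (htr : ∀ τ : ℝ, 0 < τ → P 0 (cv r a (cv r b (cv r b (kg τ)))))
    (hmin : ∀ θ' ∈ KK k, Asl r (dirAB k a b) 0 ≤ Asl r θ' 0 → QV (dirAB k a b) ≤ QV θ') :
    False := by
  obtain ⟨j, rfl⟩ : ∃ j, k = j + 3 := ⟨k - 3, by omega⟩
  have ha : 0 < a := hb.trans hba
  obtain ⟨R, hR⟩ : ∃ R : List ℝ, R = List.replicate j b ++ [a, b, b] := ⟨_, rfl⟩
  have hPR : ∀ τ : ℝ, 0 < τ → P (b * r) (dens r R (kg τ)) := by
    intro τ hτ
    rw [hR, dens_append]
    refine dens_P hr ?_ _ fun c hc => ?_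
    · refine P.mono ?_ (by positivity)
      simp only [dens_cons, dens_nil]
      exact htr τ hτ
    · rw [List.eq_of_mem_replicate hc]
      exact ⟨hb.le, le_rfl⟩
  obtain ⟨L, hL⟩ : ∃ L : List ℝ, L = qm a b :: qm a b :: R := ⟨_, rfl⟩
  have hlen : L.length = j + 3 + 2 := by
    rw [hL, hR]
    simp
  have hsq : (L.map fun x => x ^ 2).sum = 1 := by
    rw [hL, hR]
    simp only [List.map_cons, List.sum_cons, List.map_append, List.sum_append, qm_sq,
      List.map_nil, List.sum_nil, List.map_replicate, List.sum_replicate, nsmul_eq_mul]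
    push_cast at hsum
    linarith
  have hnorm := vec_norm hlen hsq
  have hperm : (a :: a :: List.replicate (j + 3) b).Perm (a :: b :: R) := by
    rw [hR, ← Multiset.coe_eq_coe]
    simp only [← Multiset.cons_coe, ← Multiset.coe_add, Multiset.coe_nil, List.replicate_succ,
      List.replicate_zero]
    simp only [← Multiset.singleton_add, add_zero]
    abel
  have hnorm0 : ‖dirAB (j + 3) a b‖ = 1 := by
    refine vec_norm (by simp) ?_
    simp only [List.map_cons, List.sum_cons, List.map_replicate, List.sum_replicate,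
      nsmul_eq_mul]
    linarith
  have h1 : Asl r (dirAB (j + 3) a b) 0 ≤ Asl r (vec (j + 3 + 2) L) 0 := by
    refine le_of_tendsto_of_tendsto (dens_tendsto hr _ hnorm0) (dens_tendsto hr _ hnorm) ?_
    refine eventually_nhdsWithin_of_forall fun τ hτ => ?_
    simp only
    unfold dirAB
    rw [ofFn_vec hlen, ofFn_vec (by simp), dens_perm (gs_cont τ) hperm, hL]
    exact dens_exchange hr hb.le hba.le (hPR τ hτ)
  have h2 := dominated hr _ hnorm
  have h3 := hmin _ h2.1 (h1.trans h2.2)
  have hf := pairUp_facts (j + 3 + 2) (srt (vec (j + 3 + 2) L)) (srt_length _) (srt_nonneg _)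
  rw [QV_vec (by rw [hf.1, srt_length])] at h3
  have h4 := h3.trans hf.2.2.2.2.1
  rw [← QV_srt, QV_vec hlen, hL] at h4
  unfold dirAB at h4
  rw [QV_vec (by simp), Q4_perm hperm] at h4
  simp only [Q4_cons] at h4
  have h5 := qm_four a b
  have h6 := sq_ne ha.le hb.le hba.ne'
  linarith

end Pool.Agent.H770.GS
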