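import Pool.Agent.H770.GS.TB2
import Pool.Agent.H770.GS.TA4
import Pool.Agent.H770.GS.TF

/-!
# All dimensions: assembly
-/

set_option autoImplicit false

open MeasureTheory Set intervalIntegral Filter Topology

namespace Pool.Agent.H770.GS

open Pool.Agent.Helper82.GC

theorem exists_ab_min' (k : ℕ) {r : ℝ} (hr : 0 < r) (hr3 : r ^ 2 ≤ 3) :
    ∃ a b : ℝ, 0 ≤ b ∧ b ≤ a ∧ 2 * a ^ 2 + k * b ^ 2 = 1 ∧
      (∀ θ : EuclideanSpace ℝ (Fin (k + 2)), ‖θ‖ = 1 → Asl r θ 0 ≤ Asl r (dirAB k a b) 0) ∧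
      ∀ θ' ∈ KK k, Asl r (dirAB k a b) 0 ≤ Asl r θ' 0 → QV (dirAB k a b) ≤ QV θ' :=
  exists_ab_min taHyp Pool.Agent.H376.GScont.cont k hr hr3

theorem QV_dirAB (k : ℕ) (a b : ℝ) : QV (dirAB k a b) = 2 * a ^ 4 + k * b ^ 4 := by
  unfold dirAB
  rw [QV_vec (by simp)]
  simp only [Q4_cons]
  unfold Q4
  simp only [List.map_replicate, List.sum_replicate, nsmul_eq_mul]
  ring

theorem QV_dirAB' {k : ℕ} {a b : ℝ} (h : 2 * a ^ 2 + k * b ^ 2 = 1) :
    (k + 2) * QV (dirAB k a b) = 1 + 2 * k * (a ^ 2 - b ^ 2) ^ 2 := by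
  rw [QV_dirAB]
  have h2 : (2 * a ^ 2 + k * b ^ 2) ^ 2 = 1 := by rw [h]; norm_num
  linear_combination h2

theorem dirAB_mem {k : ℕ} {a b : ℝ} (hb : 0 ≤ b) (hba : b ≤ a) (h : 2 * a ^ 2 + k * b ^ 2 = 1) :
    dirAB k a b ∈ KK k := by
  refine mem_KK (by simp) ?_ (hb.trans hba) ?_
  · simp only [List.map_cons, List.sum_cons, List.map_replicate, List.sum_replicate,
      nsmul_eq_mul]
    linarith
  · intro x hx
    rw [List.eq_of_mem_replicate hx, abs_of_nonneg hb]
    exact hba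

/-- the general final step: `c` is the bound for the excluded ratios -/
theorem all_of {r : ℝ} (hr : 0 < r) (hr2 : r ^ 2 ≤ 9 / 4) {k : ℕ} (hk : 3 ≤ k) {c : ℝ} (hc : 1 < c)
    (htr : ∀ a b τ : ℝ, 0 < b → b ≤ a → a ^ 2 ≤ c * b ^ 2 → 0 < τ →
      P 0 (cv r a (cv r b (cv r b (kg τ)))))
    (h : ∀ s : ℝ, 0 ≤ s → s ≤ k / c → FF r k s ≤ max (FF r k 0) (FF r k (k / c)))
    (θ : EuclideanSpace ℝ (Fin (k + 2))) (hθ : ‖θ‖ = 1) :
    Asl r θ 0 ≤ max (Asl r (dirAB k (1 / Real.sqrt 2) 0) 0)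
      (Asl r (dirAB k (1 / Real.sqrt (k + 2)) (1 / Real.sqrt (k + 2))) 0) := by
  obtain ⟨a, b, hb, hba, hsum, hmax, hmin⟩ := exists_ab_min' k hr (by linarith : r ^ 2 ≤ 3)
  refine (hmax θ hθ).trans ?_
  have hk1 : 1 ≤ k := by omega
  have hkR : (3:ℝ) ≤ k := by exact_mod_cast hk
  rw [Asl_D2 hr hk1, Asl_Dn hr hk1]
  have ha : 0 < a := by
    by_contra hc
    have ha0 : a = 0 := le_antisymm (not_lt.1 hc) (hb.trans hba)
    have hb0 : b = 0 := le_antisymm (by rw [← ha0]; exact hba) hb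
    rw [ha0, hb0] at hsum
    norm_num at hsum
  have hval := h_link r a b k hr hk1 ha hb hsum
  rcases hba.eq_or_lt with hab | hab
  · rw [hval, hab]
    have e : (k:ℝ) * a ^ 2 / a ^ 2 = k := by field_simp
    rw [e]
    exact le_max_right _ _
  · by_cases hcase : a ^ 2 ≤ c * b ^ 2
    · exfalso
      have hb0 : 0 < b := by
        rcases hb.eq_or_lt with h0 | h0
        · rw [← h0] at hcase
          nlinarith
        · exact h0
      exact excl hr hk hb0 hab hsum (fun τ hτ => htr a b τ hb0 hba hcase hτ) hmin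
    · push Not at hcase
      have hc0 : 0 < c := by linarith
      have ha2 : 0 < a ^ 2 := by positivity
      have hs : k * b ^ 2 / a ^ 2 ≤ k / c := by
        rw [div_le_div_iff₀ ha2 hc0]
        nlinarith
      have h1 := h _ (by positivity) hs
      rw [hval]
      rcases le_max_iff.1 h1 with h2 | h2
      · exact h2.trans (le_max_left _ _)
      · exfalso
        -- the direction with ratio `1/√c`
        obtain ⟨a', ha'⟩ : ∃ a' : ℝ, a' = Real.sqrt (c / (2 * c + k)) := ⟨_, rfl⟩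
        obtain ⟨b', hb'⟩ : ∃ b' : ℝ, b' = Real.sqrt (1 / (2 * c + k)) := ⟨_, rfl⟩
        have ha'2 : a' ^ 2 = c / (2 * c + k) := by rw [ha']; exact Real.sq_sqrt (by positivity)
        have hb'2 : b' ^ 2 = 1 / (2 * c + k) := by rw [hb']; exact Real.sq_sqrt (by positivity)
        have hb'0 : 0 ≤ b' := by rw [hb']; positivity
        have ha'0 : 0 < a' := by rw [ha']; positivity
        have hba' : b' ≤ a' := by
          rw [ha', hb']
          refine Real.sqrt_le_sqrt ?_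
          rw [div_le_div_iff₀ (by positivity) (by positivity)]
          nlinarith
        have hsum' : 2 * a' ^ 2 + k * b' ^ 2 = 1 := by
          rw [ha'2, hb'2]
          field_simp
        have hval' := h_link r a' b' k hr hk1 ha'0 hb'0 hsum'
        have e : (k:ℝ) * b' ^ 2 / a' ^ 2 = k / c := by
          rw [ha'2, hb'2]
          field_simp
        rw [e] at hval'
        have h3 := hmin _ (dirAB_mem hb'0 hba' hsum') (by rw [hval, hval']; exact h2)
        have h4 := QV_dirAB' hsum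
        have h5 := QV_dirAB' hsum'
        have hk2 : (0:ℝ) < k + 2 := by positivity
        have h6 : (a ^ 2 - b ^ 2) ^ 2 ≤ (a' ^ 2 - b' ^ 2) ^ 2 := by
          have h61 : ((k:ℝ) + 2) * QV (dirAB k a b) ≤ (k + 2) * QV (dirAB k a' b') :=
            mul_le_mul_of_nonneg_left h3 hk2.le
          rw [h4, h5] at h61
          have h62 : 2 * (k:ℝ) * (a ^ 2 - b ^ 2) ^ 2 ≤ 2 * k * (a' ^ 2 - b' ^ 2) ^ 2 := by linarith
          exact le_of_mul_le_mul_left h62 (by positivity)
        have h7 : 0 ≤ a' ^ 2 - b' ^ 2 := by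
          have := pow_le_pow_left₀ hb'0 hba' 2
          linarith
        have h8 : a ^ 2 - b ^ 2 ≤ a' ^ 2 - b' ^ 2 := by
          exact (abs_le_of_sq_le_sq' h6 h7).2
        have h9 : a' ^ 2 = c * b' ^ 2 := by rw [ha'2, hb'2]; ring
        -- `a² > c b²` and both normalised
        have h10 : (2 * c + k) * b ^ 2 < (2 * c + k) * b' ^ 2 := by
          have : (2 * c + k) * b' ^ 2 = 1 := by
            rw [hb'2]
            field_simp
          rw [this, ← hsum]
          linarith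
        have h11 : b ^ 2 < b' ^ 2 := lt_of_mul_lt_mul_left h10 (by positivity)
        have h12 : ((k:ℝ) + 2) * b ^ 2 < (k + 2) * b' ^ 2 := mul_lt_mul_of_pos_left h11 hk2
        linarith

end Pool.Agent.H770.GS
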