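import Pool.Agent.H807.TBlink
import Pool.Agent.H59.TBstein
import Pool.Agent.H404.TBcvx
import Pool.Agent.H32.TBshape
import Pool.Agent.H658.TBd1
import Pool.Agent.H728.TBd2
import Pool.Agent.H784.TBdelta
import Pool.Agent.H178.TBF1
import Pool.Agent.H671.TBredjj
import Pool.Agent.H670.TBwinA
import Pool.Agent.H195.TBwinB
import Pool.Agent.H157.TBV
import Pool.Agent.H278.TBH
import Pool.Agent.H396.TBF2
import Pool.Agent.H106.TBbasic
import Pool.Agent.H94.TCmono1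
import Pool.Agent.H387.TCn3Q1
import Pool.Agent.H357.TCD1
import Pool.Agent.H280.TCcutQ
import Pool.Agent.H734.TCcutd
import Pool.Agent.H628.TCcutneg
import Pool.Agent.H628.TCn3P1
import Pool.Agent.H969.TCtriple1

/-!
# Projects TB, TC: the proved statements
-/

set_option autoImplicit false

namespace Pool.Agent.H770.GS

theorem h_link : S_link := Pool.Agent.H807.TB.t_link
theorem h_stein : S_stein := Pool.Agent.H59.TBstein.stein
theorem h_cvx : S_cvx := Pool.Agent.H404.TBcvx.h_cvx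
theorem h_shape : S_shape := Pool.Agent.H32.TBshape.pShape
theorem h_d1 : S_d1 := Pool.Agent.H658.TBd1.d1
theorem h_d2 : S_d2 := Pool.Agent.H728.TBd2.d2
theorem h_delta : S_delta := Pool.Agent.H784.TBdelta.delta
theorem h_F1 : S_F1 := Pool.Agent.H178.TBF1.main
theorem h_redjj : S_redjj := Pool.Agent.H671.TBredjj.redjj
theorem h_winA : S_winA := Pool.Agent.H670.TB.s_winA
theorem h_winB : S_winB := Pool.Agent.H195.TBB.winB
theorem h_V : S_V := Pool.Agent.H157.TBV.tbv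
theorem h_H : S_H := Pool.Agent.H278.TBH.s_H
theorem h_F2 : S_F2 := Pool.Agent.H396.TB.F2
theorem h_basic : S_basic := Pool.Agent.H106.TB.basic
theorem h_n3P1 : ∀ r c : ℝ, 0 < r → r ^ 2 ≤ 9 / 4 → 1 ≤ c → c ^ 2 ≤ 2 → P 0 (n3 r c) :=
  Pool.Agent.H628.TCn3P1.n3P1 Pool.Agent.H94.TCmono1.main Pool.Agent.H387.TCn3Q1.n3Q1
    Pool.Agent.H357.TCD1.s_D1 Pool.Agent.H280.TC.t_cutQ Pool.Agent.H734.TCcutd.cutd
    Pool.Agent.H628.TCcutneg.cutneg

/-- the triple `{z, x, x}`, `x ≤ z ≤ √2 x` -/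
theorem triple1 (r x z τ : ℝ) (hr : 0 < r) (hr2 : r ^ 2 ≤ 9 / 4) (hx : 0 < x) (hxz : x ≤ z)
    (hz : z ^ 2 ≤ 2 * x ^ 2) (hτ : 0 < τ) : P 0 (cv r z (cv r x (cv r x (kg τ)))) :=
  Pool.Agent.H969.TCtriple1.triple1 h_n3P1 r x z τ hr hr2 hx hxz hz hτ

end Pool.Agent.H770.GS
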