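import Pool.Agent.H280.TF1
import Pool.Agent.H32.TF2
import Pool.Agent.H553.TF3
import Pool.Agent.H196.TF4
import Pool.Agent.H177.TF5
import Pool.Agent.H397.TF6
import Pool.Agent.H922.TF7
import Pool.Agent.H84.TF8
import Pool.Agent.H282.TF9
import Pool.Agent.H407.TF10
import Pool.Agent.H200.TF11
import Pool.Agent.H675.TF12
import Pool.Agent.H357.TF13
import Pool.Agent.H824.TF14
import Pool.Agent.H331.TF15
import Pool.Agent.H703.TF16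
import Pool.Agent.H707.TF17
import Pool.Agent.H142.TF18
import Pool.Agent.H947.TF19
import Pool.Agent.H249.TF20
import Pool.Agent.H967.TDmono2
import Pool.Agent.H25.TDcutup
import Pool.Agent.H264.TDn3P2
import Pool.Agent.H772.TDtriple2
import Pool.Agent.H770.GS.TBall

/-!
# Projects TD, TF: the proved statements
-/

set_option autoImplicit false

open MeasureTheory Set

namespace Pool.Agent.H770.GS

open Pool.Agent.Helper82.GC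

theorem h_TF1 : S_TF1 := Pool.Agent.H280.TF.t_TF1
theorem h_TF2 : S_TF2 := Pool.Agent.H32.TF2.tf2
theorem h_TF3 : S_TF3 := Pool.Agent.H553.TF.t_TF3
theorem h_TF4 : S_TF4 := Pool.Agent.H196.TF4.tf4
theorem h_TF5 : S_TF5 := Pool.Agent.H177.tf5
theorem h_TF6 : S_TF6 := Pool.Agent.H397.TF6.tf6
theorem h_TF7 : S_TF7 := Pool.Agent.H922.TF7.tf7
theorem h_TF8 : S_TF8 := Pool.Agent.H84.TF.s_TF8
theorem h_TF9 : S_TF9 := Pool.Agent.H282.TF9.tf9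
theorem h_TF10 : S_TF10 := Pool.Agent.H407.TF.tf10
theorem h_TF11 : S_TF11 := Pool.Agent.H200.TF11.result
theorem h_TF12 : S_TF12 := tf12
theorem h_TF13 : S_TF13 := Pool.Agent.H357.TF13.tf13
theorem h_TF14 : S_TF14 := Pool.Agent.H824.TF14.tf14
theorem h_TF15 : S_TF15 := Pool.Agent.H331.TF15.t_TF15
theorem h_TF16 : S_TF16 := Pool.Agent.H703.TF16.main
theorem h_TF17 : S_TF17 := Pool.Agent.H707.TF17.t_TF17
theorem h_TF18 : S_TF18 := Pool.Agent.H142.TF18.tf18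
theorem h_TF19 : S_TF19 := Pool.Agent.H947.TF19.tf19
theorem h_TF20 : S_TF20 := Pool.Agent.H249.TF20.t_TF20

theorem II_nonneg : ∀ (ε b : ℝ) (k : ℕ), 0.19625 ≤ ε → ε ≤ 1 / 2 → 0 < b →
    b ^ 2 ≤ 1 / 3 → 4 ≤ k → 1 ≤ k * b ^ 2 → 0 ≤ ∫ τ in Ioi (0:ℝ), II ε k b τ :=
  h_TF20 h_TF11 h_TF12 h_TF13 h_TF2 h_TF3 h_TF5 h_TF6 h_TF7 h_TF8 h_TF9 h_TF10 h_TF14 h_TF15 h_TF16
    h_TF17 h_TF18 h_TF19

theorem h_n3P2 : ∀ r c : ℝ, 0 < r → r ≤ 1 → 1 ≤ c → c ^ 2 ≤ 3 → P 0 (n3 r c) :=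
  Pool.Agent.H264.TDn3P2.n3P2 Pool.Agent.H967.TDmono2.mono2 Pool.Agent.H387.TCn3Q1.n3Q1
    Pool.Agent.H357.TCD1.s_D1 Pool.Agent.H280.TC.t_cutQ Pool.Agent.H734.TCcutd.cutd
    Pool.Agent.H25.TDcutup.cutup

/-- the triple `{z, x, x}`, `x ≤ z ≤ √3 x` -/
theorem triple2 (r x z τ : ℝ) (hr : 0 < r) (hr1 : r ≤ 1) (hx : 0 < x) (hxz : x ≤ z)
    (hz : z ^ 2 ≤ 3 * x ^ 2) (hτ : 0 < τ) : P 0 (cv r z (cv r x (cv r x (kg τ)))) :=
  Pool.Agent.H772.TDtriple2.triple2 h_n3P2 r x z τ hr hr1 hx hxz hz hτ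

end Pool.Agent.H770.GS
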