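import Pool.Agent.H770.GS.All
import Pool.Agent.H770.GS.TFall

/-!
# All dimensions, `0.3925 ≤ r² ≤ 1`
-/

set_option autoImplicit false

open MeasureTheory Set intervalIntegral Filter Topology

namespace Pool.Agent.H770.GS

open Pool.Agent.Helper82.GC

theorem FF_GG {r : ℝ} (hr : 0 < r) {k : ℕ} (hk : 2 ≤ k) {s : ℝ} (hs0 : 0 < s) (hsk : s ≤ k) :
    FF r k s = Zr r ^ (k + 2) / (Real.pi * r) * GG (r ^ 2 / 2) k (Real.sqrt (s / k)) := by
  have hk0 : (0:ℝ) < k := by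
    have : 0 < k := by omega
    exact_mod_cast this
  have h := h_TF1 h_link r (Real.sqrt (s / k)) k hr hk (Real.sqrt_pos.2 (by positivity))
    (by
      rw [Real.sqrt_le_one]
      rw [div_le_one hk0]
      exact hsk)
  rw [← h, Real.sq_sqrt (by positivity)]
  congr 1
  field_simp

/-- monotonicity on `[1, k/3]` -/
theorem FF_mono_mid {r : ℝ} (hr : 0 < r) {k : ℕ} (hk : 4 ≤ k)
    (hII : ∀ b : ℝ, 0 < b → b ^ 2 ≤ 1 / 3 → 1 ≤ k * b ^ 2 →
      0 ≤ ∫ τ in Ioi (0:ℝ), II (r ^ 2 / 2) k b τ) {s1 s2 : ℝ} (h1 : 1 ≤ s1) (h12 : s1 ≤ s2)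
    (h2 : s2 ≤ k / 3) : FF r k s1 ≤ FF r k s2 := by
  have hk0 : (4:ℝ) ≤ k := by exact_mod_cast hk
  have hkp : (0:ℝ) < k := by linarith
  have hs1 : 0 < s1 := by linarith
  have hs2 : 0 < s2 := by linarith
  rw [FF_GG hr (by omega) (by linarith) (by linarith), FF_GG hr (by omega) (by linarith) (by linarith)]
  refine mul_le_mul_of_nonneg_left ?_ ?_
  · refine h_TF4 h_TF2 h_TF3 _ _ _ k (by positivity) (by omega) (Real.sqrt_pos.2 (by positivity))
      (Real.sqrt_le_sqrt (div_le_div_of_nonneg_right h12 hkp.le)) fun b hb => ?_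
    have hb0 : 0 < b := lt_of_lt_of_le (Real.sqrt_pos.2 (by positivity)) hb.1
    have e1 : s1 / k ≤ b ^ 2 := by
      rw [← Real.sq_sqrt (show 0 ≤ s1 / k by positivity)]
      exact pow_le_pow_left₀ (Real.sqrt_nonneg _) hb.1 2
    have e2 : b ^ 2 ≤ s2 / k := by
      rw [← Real.sq_sqrt (show 0 ≤ s2 / k by positivity)]
      exact pow_le_pow_left₀ hb0.le hb.2 2
    refine hII b hb0 (e2.trans ?_) ?_
    · rw [div_le_iff₀ hkp]
      linarith
    · rw [div_le_iff₀ hkp] at e1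
      linarith
  · have := Zr_pos hr
    have := Real.pi_pos
    positivity

/-- the main inequality in all dimensions -/
theorem main_one {r : ℝ} (hr : 0 < r) (hr1 : 0.3925 ≤ r ^ 2) (hr2 : r ≤ 1) {k : ℕ} (hk : 1 ≤ k)
    (θ : EuclideanSpace ℝ (Fin (k + 2))) (hθ : ‖θ‖ = 1) :
    Asl r θ 0 ≤ max (Asl r (dirAB k (1 / Real.sqrt 2) 0) 0)
      (Asl r (dirAB k (1 / Real.sqrt (k + 2)) (1 / Real.sqrt (k + 2))) 0) := by
  have hr21 : r ^ 2 ≤ 1 := by nlinarith
  have h39 : 0.39 ≤ r ^ 2 := by linarith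
  have h94 : r ^ 2 ≤ 9 / 4 := by linarith
  have htr : ∀ a b τ : ℝ, 0 < b → b ≤ a → a ^ 2 ≤ 3 * b ^ 2 → 0 < τ →
      P 0 (cv r a (cv r b (cv r b (kg τ)))) := fun a b τ hb hba hab hτ =>
    triple2 r b a τ hr hr2 hb hba hab hτ
  rcases Nat.lt_or_ge k 3 with h3 | h3
  · interval_cases k
    · refine two_cand hr h39 h94 le_rfl (fun s hs1 hs2 => ?_) θ hθ
      have : s = 1 := by
        push_cast at hs2
        linarith
      rw [this]
      simp
    · refine two_cand hr h39 h94 (by norm_num) (fun s hs1 hs2 => ?_) θ hθ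
      push_cast at hs2 ⊢
      exact (h_F2 h_H r hr s 2 hs1 hs2 le_rfl).trans (le_max_right _ _)
  · rcases Nat.lt_or_ge k 4 with h4 | h4
    · have : k = 3 := by omega
      subst this
      refine all_of hr h94 le_rfl (by norm_num : (1:ℝ) < 3) htr (fun s hs0 hs1 => ?_) θ hθ
      push_cast at hs1 ⊢
      rw [show (3:ℝ) / 3 = 1 by norm_num] at hs1 ⊢
      exact FF_le_one hr h39 h94 (by norm_num) hs0 hs1
    · have hk4 : (4:ℝ) ≤ k := by exact_mod_cast h4
      have hII : ∀ b : ℝ, 0 < b → b ^ 2 ≤ 1 / 3 → 1 ≤ k * b ^ 2 →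
          0 ≤ ∫ τ in Ioi (0:ℝ), II (r ^ 2 / 2) k b τ := fun b hb hb3 hkb =>
        II_nonneg (r ^ 2 / 2) b k (by linarith) (by linarith) hb hb3 h4 hkb
      refine all_of hr h94 h3 (by norm_num : (1:ℝ) < 3) htr (fun s hs0 hs1 => ?_) θ hθ
      rcases le_total s 1 with h1 | h1
      · refine (FF_le_one hr h39 h94 (by omega) hs0 h1).trans (max_le (le_max_left _ _) ?_)
        exact (FF_mono_mid hr h4 hII le_rfl (by linarith) le_rfl).trans (le_max_right _ _)
      · exact (FF_mono_mid hr h4 hII h1 hs1 le_rfl).trans (le_max_right _ _)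

end Pool.Agent.H770.GS
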