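import Pool.Agent.H770.GS.TFall
import Pool.Agent.H161.TEDex
import Pool.Agent.H967.TEshapeG
import Pool.Agent.H48.TEgain
import Pool.Agent.H935.TEDlow
import Pool.Agent.H106.TEcutup3
import Pool.Agent.H407.TEn3P3
import Pool.Agent.H764.TEtriple3
import Pool.Agent.H719.TK1
import Pool.Agent.H404.TK2
import Pool.Agent.H597.TK3
import Pool.Agent.H670.TK4
import Pool.Agent.H308.TK5
import Pool.Agent.H229.TK6
import Pool.Agent.H187.TK7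
import Pool.Agent.H152.TK8
import Pool.Agent.H178.TK9
import Pool.Agent.H286.TK10
import Pool.Agent.H296.TK11
import Pool.Agent.H225.TK12

/-!
# Projects TE, TK: the proved statements
-/

set_option autoImplicit false

open MeasureTheory Set

namespace Pool.Agent.H770.GS

open Pool.Agent.Helper82.GC

theorem h_TK1 : S_TK1 := Pool.Agent.H719.TK1.t_TK1
theorem h_TK2 : S_TK2 := Pool.Agent.H404.TK2.tk2
theorem h_TK3 : S_TK3 := Pool.Agent.H597.TK3.result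
theorem h_TK4 : S_TK4 := Pool.Agent.H670.TK4.tk4
theorem h_TK5 : S_TK5 := Pool.Agent.H308.TK5.tk5
theorem h_TK6 : S_TK6 := Pool.Agent.H229.TK6.tk6
theorem h_TK7 : S_TK7 := Pool.Agent.H187.TK7.tk7
theorem h_TK8 : S_TK8 := Pool.Agent.H152.TK8.tk8
theorem h_TK9 : S_TK9 := Pool.Agent.H178.TK9.t_TK9
theorem h_TK10 : S_TK10 := Pool.Agent.H286.TK10.tk10
theorem h_TK11 : S_TK11 := Pool.Agent.H296.TK11.tk11
theorem h_TK12 : S_TK12 := Pool.Agent.H225.TK12.tk12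

theorem II_nonneg2 : ∀ (ε b : ℝ) (k : ℕ), 1 / 2 ≤ ε → ε ≤ 9 / 8 → 0 < b → b ^ 2 ≤ 1 / 3 → 4 ≤ k →
    1 ≤ k * b ^ 2 → 0 ≤ ∫ τ in Ioi (0:ℝ), II ε k b τ :=
  h_TK12 h_TK3 h_TF12 h_TK6 h_TF2 h_TF3 h_TF5 h_TF6 h_TK1 h_TK2 h_TF8 h_TF9 h_TF10 h_TK4 h_TK5
    h_TK7 h_TK8 h_TK9 h_TK10 h_TK11

theorem h_n3P3 : ∀ r c : ℝ, 1 ≤ r → r ≤ 3 / 2 → 1 ≤ c → 2 ≤ c ^ 2 → c ^ 2 ≤ 3 → P 0 (n3 r c) :=
  Pool.Agent.H407.TEn3P3.n3P3
    (Pool.Agent.H935.TEDlow.dlow)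
    Pool.Agent.H161.TEDex.s_Dex Pool.Agent.H967.TEshapeG.shapeG Pool.Agent.H48.TEgain.gain
    Pool.Agent.H387.TCn3Q1.n3Q1 Pool.Agent.H280.TC.t_cutQ Pool.Agent.H734.TCcutd.cutd
    Pool.Agent.H106.TEcutup3.cutup3

/-- the triple `{z, x, x}`, `√2 x ≤ z ≤ √3 x` -/
theorem triple3 (r x z τ : ℝ) (hr : 1 ≤ r) (hr1 : r ≤ 3 / 2) (hx : 0 < x) (hxz : x ≤ z)
    (hz : 2 * x ^ 2 ≤ z ^ 2) (hz2 : z ^ 2 ≤ 3 * x ^ 2) (hτ : 0 < τ) :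
    P 0 (cv r z (cv r x (cv r x (kg τ)))) :=
  Pool.Agent.H764.TEtriple3.triple3 h_n3P3 r x z τ hr hr1 hx hxz hz hz2 hτ

end Pool.Agent.H770.GS
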