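import Pool.Agent.H770.GS.AllDim
import Pool.Agent.H770.GS.TKall

/-!
# All dimensions, `1 ≤ r ≤ 3/2`
-/

set_option autoImplicit false

open MeasureTheory Set intervalIntegral Filter Topology

namespace Pool.Agent.H770.GS

open Pool.Agent.Helper82.GC

/-- the main inequality in all dimensions -/
theorem main_two {r : ℝ} (hr1 : 1 ≤ r) (hr2 : r ≤ 3 / 2) {k : ℕ} (hk : 1 ≤ k)
    (θ : EuclideanSpace ℝ (Fin (k + 2))) (hθ : ‖θ‖ = 1) :
    Asl r θ 0 ≤ max (Asl r (dirAB k (1 / Real.sqrt 2) 0) 0)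
      (Asl r (dirAB k (1 / Real.sqrt (k + 2)) (1 / Real.sqrt (k + 2))) 0) := by
  have hr : 0 < r := by linarith
  have hr21 : 1 ≤ r ^ 2 := by nlinarith
  have h39 : 0.39 ≤ r ^ 2 := by linarith
  have h94 : r ^ 2 ≤ 9 / 4 := by nlinarith
  have htr : ∀ a b τ : ℝ, 0 < b → b ≤ a → a ^ 2 ≤ 3 * b ^ 2 → 0 < τ →
      P 0 (cv r a (cv r b (cv r b (kg τ)))) := by
    intro a b τ hb hba hab hτ
    rcases le_total (a ^ 2) (2 * b ^ 2) with h | h
    · exact triple1 r b a τ hr h94 hb hba h hτ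
    · exact triple3 r b a τ hr1 hr2 hb hba h hab hτ
  rcases Nat.lt_or_ge k 3 with h3 | h3
  · interval_cases k
    · refine two_cand hr h39 h94 le_rfl (fun s hs1 hs2 => ?_) θ hθ
      have : s = 1 := by
        push_cast at hs2
        linarith
      rw [this]
      simp
    · refine two_cand hr h39 h94 (by norm_num) (fun s hs1 hs2 => ?_) θ hθ
      push_cast at hs2 ⊢
      exact (h_F2 h_H r hr s 2 hs1 hs2 le_rfl).trans (le_max_right _ _)
  · rcases Nat.lt_or_ge k 4 with h4 | h4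
    · have : k = 3 := by omega
      subst this
      refine all_of hr h94 le_rfl (by norm_num : (1:ℝ) < 3) htr (fun s hs0 hs1 => ?_) θ hθ
      push_cast at hs1 ⊢
      rw [show (3:ℝ) / 3 = 1 by norm_num] at hs1 ⊢
      exact FF_le_one hr h39 h94 (by norm_num) hs0 hs1
    · have hk4 : (4:ℝ) ≤ k := by exact_mod_cast h4
      have hII : ∀ b : ℝ, 0 < b → b ^ 2 ≤ 1 / 3 → 1 ≤ k * b ^ 2 →
          0 ≤ ∫ τ in Ioi (0:ℝ), II (r ^ 2 / 2) k b τ := fun b hb hb3 hkb =>
        II_nonneg2 (r ^ 2 / 2) b k (by linarith) (by linarith) hb hb3 h4 hkb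
      refine all_of hr h94 h3 (by norm_num : (1:ℝ) < 3) htr (fun s hs0 hs1 => ?_) θ hθ
      rcases le_total s 1 with h1 | h1
      · refine (FF_le_one hr h39 h94 (by omega) hs0 h1).trans (max_le (le_max_left _ _) ?_)
        exact (FF_mono_mid hr h4 hII le_rfl (by linarith) le_rfl).trans (le_max_right _ _)
      · exact (FF_mono_mid hr h4 hII h1 hs1 le_rfl).trans (le_max_right _ _)

end Pool.Agent.H770.GS
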