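import Mathlib

/-!
# The class `P ρ` of kernels and convolution with truncated Gaussian weights
-/

set_option autoImplicit false

open MeasureTheory Set intervalIntegral

namespace Pool.Agent.H770.GS

/-- Gaussian weight -/
noncomputable def W (x : ℝ) : ℝ := Real.exp (-x ^ 2 / 2)

theorem W_cont : Continuous W := by unfold W; fun_prop

theorem W_pos (x : ℝ) : 0 < W x := Real.exp_pos _

theorem W_even (x : ℝ) : W (-x) = W x := by simp [W]

theorem W_deriv (x : ℝ) : HasDerivAt W (-(x * W x)) x := by
  unfold W
  have h : HasDerivAt (fun x : ℝ => -x ^ 2 / 2) (-x) x := by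
    have h1 := ((hasDerivAt_pow 2 x).fun_neg).div_const 2
    refine h1.congr_deriv ?_
    norm_num
    ring
  refine h.exp.congr_deriv ?_
  ring

/-- the class of odd kernels `k` with `k v' / v' ≤ k v / v` whenever `v ≤ v'`, `v + v' ≥ 2 ρ` -/
structure P (ρ : ℝ) (k : ℝ → ℝ) : Prop where
  cont : Continuous k
  odd : ∀ x, k (-x) = -k x
  le : ∀ v v', 0 < v → v ≤ v' → 2 * ρ ≤ v + v' → v * k v' ≤ v' * k v

theorem P.mono {ρ ρ' : ℝ} {k : ℝ → ℝ} (h : P ρ k) (hρ : ρ ≤ ρ') : P ρ' k :=
  ⟨h.cont, h.odd, fun v v' hv hvv hs => h.le v v' hv hvv (by linarith)⟩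

theorem odd_zero {k : ℝ → ℝ} (h : ∀ x, k (-x) = -k x) : k 0 = 0 := by
  have := h 0
  rw [neg_zero] at this
  linarith

theorem odd_int {k : ℝ → ℝ} (h : ∀ x, k (-x) = -k x) (a : ℝ) : ∫ x in (-a)..a, k x = 0 := by
  have h1 : ∫ x in (-a)..a, k (-x) = ∫ x in (-a)..a, k x := by
    rw [intervalIntegral.integral_comp_neg (fun x => k x)]
    simp
  have h2 : ∫ x in (-a)..a, k (-x) = -∫ x in (-a)..a, k x := by
    rw [← intervalIntegral.integral_neg]
    exact intervalIntegral.integral_congr fun x _ => h x
  linarith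

theorem Kt {ρ t v v' : ℝ} {k : ℝ → ℝ} (hk : P ρ k) (ht0 : 0 ≤ t) (ht : t ≤ ρ) (hv : 0 < v)
    (hvv : v ≤ v') (hs : 2 * ρ ≤ v + v') :
    v * ∫ u in (v' - t)..(v' + t), k u ≤ v' * ∫ u in (v - t)..(v + t), k u := by
  have hv' : 0 < v' := lt_of_lt_of_le hv hvv
  obtain ⟨z0, hz0⟩ : ∃ z0, z0 = max (v + t) (min v' (v' + 2 * v - t)) := ⟨_, rfl⟩
  have hz0a : v + t ≤ z0 := by rw [hz0]; exact le_max_left _ _
  have hz0b : min v' (v' + 2 * v - t) ≤ z0 := by rw [hz0]; exact le_max_right _ _
  have hz0pos : 0 < z0 := by linarith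
  have hz0ρ : ρ ≤ z0 := by
    rcases le_total v' (v' + 2 * v - t) with h | h
    · rw [min_eq_left h] at hz0b; linarith
    · rw [min_eq_right h] at hz0b; linarith
  obtain ⟨κ, hκ⟩ : ∃ κ, κ = k z0 / z0 := ⟨_, rfl⟩
  obtain ⟨k1, hk1⟩ : ∃ k1 : ℝ → ℝ, k1 = fun u => k u - κ * u := ⟨_, rfl⟩
  have k1c : Continuous k1 := by
    rw [hk1]
    have := hk.cont
    fun_prop
  have k1odd : ∀ x, k1 (-x) = -k1 x := by
    intro x
    rw [hk1]
    simp only
    rw [hk.odd]
    ring
  have k1le : ∀ v v', 0 < v → v ≤ v' → 2 * ρ ≤ v + v' → v * k1 v' ≤ v' * k1 v := by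
    intro a b h1 h2 h3
    have := hk.le a b h1 h2 h3
    rw [hk1]
    simp only
    nlinarith
  have k1z0 : k1 z0 = 0 := by
    rw [hk1]
    simp only
    rw [hκ]
    field_simp
    ring
  have F1 : ∀ z, z0 ≤ z → k1 z ≤ 0 := by
    intro z hz
    have h := k1le z0 z hz0pos hz (by linarith)
    rw [k1z0, mul_zero] at h
    by_contra hc
    push Not at hc
    have := mul_pos hz0pos hc
    linarith
  have F2 : ∀ u, 0 < u → u ≤ z0 → 2 * ρ ≤ u + z0 → 0 ≤ k1 u := by
    intro u hu huz h
    have h := k1le u z0 hu huz h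
    rw [k1z0, mul_zero] at h
    by_contra hc
    push Not at hc
    have := mul_neg_of_pos_of_neg hz0pos hc
    linarith
  have ii : ∀ a b, IntervalIntegrable k1 volume a b := fun a b => k1c.intervalIntegrable a b
  obtain ⟨α, hα⟩ : ∃ α, α = |v - t| := ⟨_, rfl⟩
  have hα0 : 0 ≤ α := by rw [hα]; exact abs_nonneg _
  have hα1 : t - v ≤ α := by rw [hα]; have := neg_abs_le (v - t); linarith
  have hα2 : v - t ≤ α := by rw [hα]; exact le_abs_self _
  have hαv : α ≤ v + t := by rw [hα, abs_le]; constructor <;> linarith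
  have hαv' : α ≤ v' - t := by rw [hα, abs_le]; constructor <;> linarith
  have hI : ∫ u in (v - t)..(v + t), k1 u = ∫ u in α..(v + t), k1 u := by
    rcases le_total t v with h | h
    · have : α = v - t := by rw [hα, abs_of_nonneg (by linarith)]
      rw [this]
    · have h2 : α = t - v := by rw [hα, abs_of_nonpos (by linarith)]; ring
      rw [← intervalIntegral.integral_add_adjacent_intervals (ii (v - t) (t - v))
        (ii (t - v) (v + t)), h2]
      have := odd_int k1odd (t - v)
      rw [neg_sub] at this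
      rw [this, zero_add]
  obtain ⟨m1, hm1⟩ : ∃ m1, m1 = min (v + t) (v' - t) := ⟨_, rfl⟩
  obtain ⟨m2, hm2⟩ : ∃ m2, m2 = max (v + t) (v' - t) := ⟨_, rfl⟩
  have hm12 : m1 + m2 = v + v' := by
    rw [hm1, hm2, min_add_max]; ring
  have hm1a : m1 ≤ v + t := by rw [hm1]; exact min_le_left _ _
  have hm1b : m1 ≤ v' - t := by rw [hm1]; exact min_le_right _ _
  have hαm1 : α ≤ m1 := by rw [hm1]; exact le_min hαv hαv'
  have hpt : ∀ u ∈ Icc α m1, v * k1 (v + v' - u) ≤ v' * k1 u := by
    intro u hu
    have hu1 := hu.1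
    have hu2 := hu.2
    have hu0 : 0 ≤ u := le_trans hα0 hu1
    rcases lt_or_ge u v with h | h
    · have hz : z0 ≤ v + v' - u := by
        rw [hz0]
        refine max_le (by linarith) ?_
        exact le_trans (min_le_left _ _) (by linarith)
      have h1 := F1 _ hz
      rcases eq_or_lt_of_le hu0 with h0 | h0
      · rw [← h0] at h1 ⊢
        rw [odd_zero k1odd]
        have := mul_nonneg hv.le (neg_nonneg.2 h1)
        linarith
      · have h2 := k1le u (v + v' - u) h0 (by linarith) (by linarith)
        have hzp : 0 < v + v' - u := by linarith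
        have h3 : v' * u ≤ v * (v + v' - u) := by nlinarith
        have h4 : v * (v + v' - u) * k1 (v + v' - u) ≤ v' * u * k1 (v + v' - u) :=
          mul_le_mul_of_nonpos_right h3 h1
        have h5 : v' * (u * k1 (v + v' - u)) ≤ v' * ((v + v' - u) * k1 u) :=
          mul_le_mul_of_nonneg_left h2 hv'.le
        have h6 : (v + v' - u) * (v * k1 (v + v' - u)) ≤ (v + v' - u) * (v' * k1 u) := by
          nlinarith
        exact le_of_mul_le_mul_left h6 hzp
    · have hup : 0 < u := lt_of_lt_of_le hv h
      have h1 : 0 ≤ k1 u := by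
        refine F2 u hup (by linarith) ?_
        rcases le_total v' (v' + 2 * v - t) with h' | h'
        · rw [min_eq_left h'] at hz0b; linarith
        · rw [min_eq_right h'] at hz0b; linarith
      have huu : u ≤ v + v' - u := by linarith
      have h2 := k1le u (v + v' - u) hup huu (by linarith)
      have hzv : v + v' - u ≤ v' := by linarith
      rcases le_total (k1 (v + v' - u)) 0 with h3 | h3
      · have := mul_nonneg hv.le (neg_nonneg.2 h3)
        have := mul_nonneg hv'.le h1
        linarith
      · have h4 : v * k1 (v + v' - u) ≤ u * k1 (v + v' - u) := mul_le_mul_of_nonneg_right h h3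
        have h5 : (v + v' - u) * k1 u ≤ v' * k1 u := mul_le_mul_of_nonneg_right hzv h1
        linarith
  have hJ : ∫ u in m2..(v + v' - α), k1 u = ∫ u in α..m1, k1 (v + v' - u) := by
    rw [intervalIntegral.integral_comp_sub_left (fun u => k1 u)]
    congr 1
    linarith
  have hmono : v * (∫ u in α..m1, k1 (v + v' - u)) ≤ v' * ∫ u in α..m1, k1 u := by
    rw [← intervalIntegral.integral_const_mul, ← intervalIntegral.integral_const_mul]
    refine intervalIntegral.integral_mono_on hαm1 ?_ ?_ hpt
    · refine Continuous.intervalIntegrable ?_ _ _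
      fun_prop
    · refine Continuous.intervalIntegrable ?_ _ _
      fun_prop
  have hrest : ∫ u in (v + v' - α)..(v' + t), k1 u ≤ 0 := by
    rcases le_total t v with h | h
    · have h2 : α = v - t := by rw [hα, abs_of_nonneg (by linarith)]
      have : v + v' - α = v' + t := by rw [h2]; ring
      rw [this, intervalIntegral.integral_same]
    · have h2 : α = t - v := by rw [hα, abs_of_nonpos (by linarith)]; ring
      have h3 : v + v' - α = v' + 2 * v - t := by rw [h2]; ring
      rw [h3]
      have hz : z0 ≤ v' + 2 * v - t := by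
        rw [hz0]
        exact max_le (by linarith) (min_le_right _ _)
      have : ∫ u in (v' + 2 * v - t)..(v' + t), k1 u ≤ ∫ u in (v' + 2 * v - t)..(v' + t), (0:ℝ) := by
        refine intervalIntegral.integral_mono_on (by linarith) (ii _ _) (by simp) ?_
        intro u hu
        exact F1 u (hz.trans hu.1)
      simpa using this
  have hmain : v * ∫ u in (v' - t)..(v' + t), k1 u ≤ v' * ∫ u in (v - t)..(v + t), k1 u := by
    rw [hI]
    have hsplit2 : ∫ u in m2..(v' + t), k1 u =
        (∫ u in m2..(v + v' - α), k1 u) + ∫ u in (v + v' - α)..(v' + t), k1 u :=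
      (intervalIntegral.integral_add_adjacent_intervals (ii _ _) (ii _ _)).symm
    have hrest' : v * ∫ u in (v + v' - α)..(v' + t), k1 u ≤ 0 := by
      have := mul_nonneg hv.le (neg_nonneg.2 hrest)
      linarith
    have hkey : v * ∫ u in m2..(v' + t), k1 u ≤ v' * ∫ u in α..m1, k1 u := by
      rw [hsplit2, mul_add, hJ]
      linarith
    rcases le_total (v + t) (v' - t) with h | h
    · have e1 : m1 = v + t := by rw [hm1, min_eq_left h]
      have e2 : m2 = v' - t := by rw [hm2, max_eq_right h]
      rw [e1, e2] at hkey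
      exact hkey
    · have e1 : m1 = v' - t := by rw [hm1, min_eq_right h]
      have e2 : m2 = v + t := by rw [hm2, max_eq_left h]
      rw [e1, e2] at hkey
      have s1 : ∫ u in (v' - t)..(v' + t), k1 u =
          (∫ u in (v' - t)..(v + t), k1 u) + ∫ u in (v + t)..(v' + t), k1 u :=
        (intervalIntegral.integral_add_adjacent_intervals (ii _ _) (ii _ _)).symm
      have s2 : ∫ u in α..(v + t), k1 u =
          (∫ u in α..(v' - t), k1 u) + ∫ u in (v' - t)..(v + t), k1 u :=
        (intervalIntegral.integral_add_adjacent_intervals (ii _ _) (ii _ _)).symm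
      have hov : 0 ≤ ∫ u in (v' - t)..(v + t), k1 u := by
        refine intervalIntegral.integral_nonneg h ?_
        intro u hu
        have hu1 := hu.1
        have hu2 := hu.2
        rcases eq_or_lt_of_le (show 0 ≤ u by linarith) with h0 | h0
        · rw [← h0, odd_zero k1odd]
        · exact F2 u h0 (by linarith) (by linarith)
      rw [s1, s2]
      have := mul_nonneg (sub_nonneg.2 hvv) hov
      nlinarith
  have hlin : ∀ a : ℝ, ∫ u in (a - t)..(a + t), k1 u =
      (∫ u in (a - t)..(a + t), k u) - κ * (2 * a * t) := by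
    intro a
    rw [hk1]
    rw [intervalIntegral.integral_sub (hk.cont.intervalIntegrable _ _)
      (Continuous.intervalIntegrable (by fun_prop) _ _), intervalIntegral.integral_const_mul,
      integral_id]
    ring
  rw [hlin, hlin] at hmain
  nlinarith

theorem mix {g : ℝ → ℝ} (hg : Continuous g) (r : ℝ) :
    ∫ u in (-r)..r, W u * g u =
      W r * (∫ u in (-r)..r, g u) + ∫ s in (0:ℝ)..r, s * W s * ∫ u in (-s)..s, g u := by
  have ig : ∀ a b, IntervalIntegrable g volume a b := fun a b => hg.intervalIntegrable a b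
  have hH : ∀ s, HasDerivAt (fun s => ∫ u in (-s)..s, g u) (g s + g (-s)) s := by
    intro s
    have e : (fun s : ℝ => ∫ u in (-s)..s, g u) =
        fun s => (∫ u in (0:ℝ)..s, g u) - ∫ u in (0:ℝ)..(-s), g u := by
      funext s
      rw [intervalIntegral.integral_interval_sub_left (ig _ _) (ig _ _)]
    rw [e]
    have h1 : HasDerivAt (fun s : ℝ => ∫ u in (0:ℝ)..s, g u) (g s) s :=
      intervalIntegral.integral_hasDerivAt_right (ig _ _)
        (hg.stronglyMeasurableAtFilter _ _) hg.continuousAt
    have h2 : HasDerivAt (fun s : ℝ => ∫ u in (0:ℝ)..s, g u) (g (-s)) (-s) :=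
      intervalIntegral.integral_hasDerivAt_right (ig _ _)
        (hg.stronglyMeasurableAtFilter _ _) hg.continuousAt
    have h3 := h2.scomp s (hasDerivAt_neg s)
    refine (h1.sub h3).congr_deriv ?_
    simp only [smul_eq_mul]
    ring
  have hleft : ∫ u in (-r)..r, W u * g u = ∫ s in (0:ℝ)..r, W s * (g s + g (-s)) := by
    have c1 : Continuous fun u => W u * g u := W_cont.mul hg
    have c2 : Continuous fun u => W (-u) * g (-u) := by
      have := W_cont; fun_prop
    have s1 : ∫ u in (-r)..r, W u * g u =
        (∫ u in (-r)..0, W u * g u) + ∫ u in (0:ℝ)..r, W u * g u :=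
      (intervalIntegral.integral_add_adjacent_intervals (c1.intervalIntegrable _ _)
        (c1.intervalIntegrable _ _)).symm
    have s2 : ∫ u in (-r)..0, W u * g u = ∫ u in (0:ℝ)..r, W (-u) * g (-u) := by
      rw [intervalIntegral.integral_comp_neg (fun u => W u * g u)]
      simp
    rw [s1, s2, ← intervalIntegral.integral_add (c2.intervalIntegrable _ _)
      (c1.intervalIntegrable _ _)]
    refine intervalIntegral.integral_congr fun u _ => ?_
    simp only [W_even]
    ring
  rw [hleft, intervalIntegral.integral_mul_deriv_eq_deriv_mul (u := W)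
    (v := fun s => ∫ u in (-s)..s, g u) (u' := fun s => -(s * W s)) (v' := fun s => g s + g (-s))
    (fun x _ => W_deriv x) (fun x _ => hH x)]
  · simp only [neg_zero, intervalIntegral.integral_same, mul_zero, sub_zero]
    rw [sub_eq_add_neg, ← intervalIntegral.integral_neg]
    congr 1
    refine intervalIntegral.integral_congr fun u _ => ?_
    ring_nf
  · refine Continuous.intervalIntegrable ?_ _ _
    have := W_cont
    fun_prop
  · refine Continuous.intervalIntegrable ?_ _ _
    fun_prop

/-- convolution with the truncated Gaussian weight scaled by `b` -/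
noncomputable def cv (r b : ℝ) (g : ℝ → ℝ) (v : ℝ) : ℝ := ∫ u in (-r)..r, W u * g (v + b * u)

theorem cv_cont {r b : ℝ} {g : ℝ → ℝ} (hg : Continuous g) : Continuous (cv r b g) := by
  unfold cv
  have := W_cont
  refine intervalIntegral.continuous_parametric_intervalIntegral_of_continuous' ?_ _ _
  fun_prop

theorem cv_odd {r b : ℝ} {g : ℝ → ℝ} (hg : ∀ x, g (-x) = -g x) (x : ℝ) :
    cv r b g (-x) = -cv r b g x := by
  unfold cv
  rw [← intervalIntegral.integral_neg]
  have h := intervalIntegral.integral_comp_neg (a := -r) (b := r) (fun u => W u * g (-x + b * u))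
  rw [neg_neg] at h
  rw [← h]
  refine intervalIntegral.integral_congr fun u _ => ?_
  simp only [W_even]
  rw [show -x + b * -u = -(x + b * u) by ring, hg]
  ring

theorem cv_even {r b : ℝ} {g : ℝ → ℝ} (hg : ∀ x, g (-x) = g x) (x : ℝ) :
    cv r b g (-x) = cv r b g x := by
  unfold cv
  have h := intervalIntegral.integral_comp_neg (a := -r) (b := r) (fun u => W u * g (-x + b * u))
  rw [neg_neg] at h
  rw [← h]
  refine intervalIntegral.integral_congr fun u _ => ?_
  simp only [W_even]
  rw [show -x + b * -u = -(x + b * u) by ring, hg]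

theorem cv_neg {r b : ℝ} (g : ℝ → ℝ) (x : ℝ) : cv r (-b) g x = cv r b g x := by
  unfold cv
  have h := intervalIntegral.integral_comp_neg (a := -r) (b := r) (fun u => W u * g (x + b * u))
  rw [neg_neg] at h
  rw [← h]
  refine intervalIntegral.integral_congr fun u _ => ?_
  simp only [W_even]
  ring_nf

theorem P.cv {r ρ b : ℝ} {k : ℝ → ℝ} (hk : P ρ k) (hr : 0 < r) (hb : 0 ≤ b) (hbr : b * r ≤ ρ) :
    P ρ (cv r b k) := by
  refine ⟨cv_cont hk.cont, cv_odd hk.odd, ?_⟩
  intro v v' hv hvv hs
  have hρ0 : 0 ≤ ρ := le_trans (mul_nonneg hb hr.le) hbr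
  have hc : ∀ x, Continuous fun u => k (x + b * u) := fun x => by
    have := hk.cont
    fun_prop
  -- inner inequality
  have hin : ∀ s, 0 ≤ s → s ≤ r →
      v * (∫ u in (-s)..s, k (v' + b * u)) ≤ v' * ∫ u in (-s)..s, k (v + b * u) := by
    intro s hs0 hsr
    rcases eq_or_lt_of_le hb with h0 | h0
    · rw [← h0]
      simp only [zero_mul, add_zero, intervalIntegral.integral_const, smul_eq_mul]
      have := hk.le v v' hv hvv hs
      nlinarith
    · have hne : b ≠ 0 := h0.ne'
      have e : ∀ x, ∫ u in (-s)..s, k (x + b * u) = b⁻¹ * ∫ u in (x - b * s)..(x + b * s), k u := by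
        intro x
        rw [intervalIntegral.integral_comp_add_mul _ hne]
        simp only [smul_eq_mul]
        congr 2
        ring
      rw [e, e]
      have h1 := Kt hk (t := b * s) (mul_nonneg hb hs0)
        (le_trans (mul_le_mul_of_nonneg_left hsr hb) hbr) hv hvv hs
      have h2 := mul_le_mul_of_nonneg_left h1 (inv_nonneg.2 hb)
      nlinarith
  unfold GS.cv
  rw [mix (hc v') r, mix (hc v) r, mul_add, mul_add]
  refine add_le_add ?_ ?_
  · have := hin r hr.le le_rfl
    have := mul_le_mul_of_nonneg_left this (W_pos r).le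
    nlinarith
  · rw [← intervalIntegral.integral_const_mul, ← intervalIntegral.integral_const_mul]
    have hcH : ∀ x, Continuous fun s => s * W s * ∫ u in (-s)..s, k (x + b * u) := by
      intro x
      refine (continuous_id.mul W_cont).mul ?_
      have e : (fun s : ℝ => ∫ u in (-s)..s, k (x + b * u)) =
          fun s => (∫ u in (0:ℝ)..s, k (x + b * u)) - ∫ u in (0:ℝ)..(-s), k (x + b * u) := by
        funext s
        rw [intervalIntegral.integral_interval_sub_left ((hc x).intervalIntegrable _ _)
          ((hc x).intervalIntegrable _ _)]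
      rw [e]
      have h1 : Continuous fun s : ℝ => ∫ u in (0:ℝ)..s, k (x + b * u) :=
        intervalIntegral.continuous_primitive (fun a b => (hc x).intervalIntegrable a b) 0
      exact h1.sub (h1.comp continuous_neg)
    refine intervalIntegral.integral_mono_on hr.le ?_ ?_ ?_
    · exact ((hcH v').const_mul v).intervalIntegrable _ _
    · exact ((hcH v).const_mul v').intervalIntegrable _ _
    · intro s hs'
      have h1 := hin s hs'.1 hs'.2
      have h2 := mul_le_mul_of_nonneg_left h1 (mul_nonneg hs'.1 (W_pos s).le)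
      nlinarith

end Pool.Agent.H770.GS
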