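import Pool.Agent.H770.GS.Conv

/-!
# The four point inequality and the exchange inequality
-/

set_option autoImplicit false

open MeasureTheory Set intervalIntegral

namespace Pool.Agent.H770.GS

theorem four_pt {ρ : ℝ} {k ψ : ℝ → ℝ} (hk : P ρ k) (hψ : ∀ x, HasDerivAt ψ (-k x) x)
    {α m M β : ℝ} (h0 : 0 ≤ α) (h1 : α ≤ m) (h2 : m ≤ M) (h3 : M ≤ β)
    (hsq : α ^ 2 + β ^ 2 = m ^ 2 + M ^ 2) (hs : 2 * ρ ≤ α + β) :
    ψ m + ψ M ≤ ψ α + ψ β := by
  have hβ0 : 0 ≤ β := by linarith
  have hM0 : 0 ≤ M := by linarith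
  have hm0 : 0 ≤ m := by linarith
  have hψc : Continuous ψ := continuous_iff_continuousAt.2 fun x => (hψ x).continuousAt
  rcases eq_or_lt_of_le hM0 with hM | hM
  · have e1 : M = 0 := hM.symm
    have e2 : m = 0 := by linarith
    have e3 : α = 0 := by linarith
    have e4 : β = 0 := by
      rw [e1, e2, e3] at hsq
      nlinarith
    rw [e1, e2, e3, e4]
  obtain ⟨C, hC⟩ : ∃ C, C = α ^ 2 + β ^ 2 := ⟨_, rfl⟩
  have hanti : AntitoneOn (fun p => ψ p + ψ (Real.sqrt (C - p ^ 2))) (Icc α m) := by
    refine antitoneOn_of_deriv_nonpos (convex_Icc _ _) ?_ ?_ ?_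
    · refine Continuous.continuousOn ?_
      fun_prop
    · rw [interior_Icc]
      intro p hp
      have hp1 := hp.1
      have hp2 := hp.2
      have hpos : 0 < C - p ^ 2 := by nlinarith
      have d1 : HasDerivAt (fun p : ℝ => C - p ^ 2) (-(2 * p)) p := by
        refine ((hasDerivAt_pow 2 p).const_sub C).congr_deriv ?_
        norm_num
      have d2 := (hψ (Real.sqrt (C - p ^ 2))).comp p (d1.sqrt hpos.ne')
      exact ((hψ p).add d2).differentiableAt.differentiableWithinAt
    · rw [interior_Icc]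
      intro p hp
      have hp1 := hp.1
      have hp2 := hp.2
      have hp0 : 0 < p := by linarith
      have hpos : 0 < C - p ^ 2 := by nlinarith
      have d1 : HasDerivAt (fun p : ℝ => C - p ^ 2) (-(2 * p)) p := by
        refine ((hasDerivAt_pow 2 p).const_sub C).congr_deriv ?_
        norm_num
      have d2 := (hψ (Real.sqrt (C - p ^ 2))).comp p (d1.sqrt hpos.ne')
      have d3 := (hψ p).add d2
      have d4 : deriv (fun p => ψ p + ψ (Real.sqrt (C - p ^ 2))) p =
          -k p + -k (Real.sqrt (C - p ^ 2)) * (-(2 * p) / (2 * Real.sqrt (C - p ^ 2))) :=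
        d3.deriv
      rw [d4]
      obtain ⟨q, hq⟩ : ∃ q, q = Real.sqrt (C - p ^ 2) := ⟨_, rfl⟩
      rw [← hq]
      have hq0 : 0 < q := by rw [hq]; exact Real.sqrt_pos.2 hpos
      have hq2 : q ^ 2 = C - p ^ 2 := by rw [hq]; exact Real.sq_sqrt hpos.le
      have hqM : M ≤ q := by
        rw [hq]
        apply Real.le_sqrt_of_sq_le
        nlinarith
      have hpq : p ≤ q := by linarith
      have hsum : α + β ≤ p + q := by
        have e1 : (p * q) ^ 2 - (α * β) ^ 2 = (p ^ 2 - α ^ 2) * (C - p ^ 2 - α ^ 2) := by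
          rw [mul_pow, hq2, hC]; ring
        have e2 : 0 ≤ (p ^ 2 - α ^ 2) * (C - p ^ 2 - α ^ 2) := by
          apply mul_nonneg
          · nlinarith
          · nlinarith
        have e3 : α * β ≤ p * q := by
          have := mul_nonneg h0 hβ0
          have := mul_nonneg hp0.le hq0.le
          nlinarith
        nlinarith
      have hle := hk.le p q hp0 hpq (by linarith)
      have e : -k p + -k q * (-(2 * p) / (2 * q)) = (p * k q - q * k p) / q := by
        field_simp
        ring
      rw [e]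
      exact div_nonpos_of_nonpos_of_nonneg (by linarith) hq0.le
  have h := hanti (left_mem_Icc.2 h1) (right_mem_Icc.2 h1) h1
  simp only at h
  have e1 : Real.sqrt (C - m ^ 2) = M := by
    rw [show C - m ^ 2 = M ^ 2 by rw [hC]; linarith]
    exact Real.sqrt_sq hM0
  have e2 : Real.sqrt (C - α ^ 2) = β := by
    rw [show C - α ^ 2 = β ^ 2 by rw [hC]; ring]
    exact Real.sqrt_sq hβ0
  rw [e1, e2] at h
  exact h

theorem swap_cont {F : ℝ → ℝ → ℝ} (hF : Continuous (Function.uncurry F)) (a b c d : ℝ) :
    ∫ x in a..b, ∫ y in c..d, F x y = ∫ y in c..d, ∫ x in a..b, F x y := by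
  apply MeasureTheory.intervalIntegral_intervalIntegral_swap
  have h : IntegrableOn (Function.uncurry F) (uIcc a b ×ˢ uIcc c d) :=
    hF.continuousOn.integrableOn_compact (isCompact_uIcc.prod isCompact_uIcc)
  exact h.mono_set (prod_mono uIoc_subset_uIcc uIoc_subset_uIcc)

/-- the double integral of the derivative of the exchange -/
noncomputable def JJ (r : ℝ) (d : ℝ → ℝ) (a b : ℝ) : ℝ :=
  ∫ x in (-r)..r, ∫ y in (-r)..r, W x * (W y * (d (a * x + b * y) * (a * y - b * x)))

theorem exch_id {ψ d : ℝ → ℝ} (hψ : ∀ x, HasDerivAt ψ (d x) x) (hd : Continuous d) (r a b : ℝ) :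
    JJ r d a b = W r * ∫ x in (-r)..r, x * W x *
      ((ψ (a * r + b * x) - ψ (-(a * r) + b * x)) - (ψ (a * x + b * r) - ψ (a * x - b * r))) := by
  have hψc : Continuous ψ := continuous_iff_continuousAt.2 fun x => (hψ x).continuousAt
  have hW := W_cont
  have hsplit : JJ r d a b =
      (∫ x in (-r)..r, ∫ y in (-r)..r, (y * W y) * (W x * (a * d (a * x + b * y)))) -
      ∫ x in (-r)..r, ∫ y in (-r)..r, (x * W x) * (W y * (b * d (a * x + b * y))) := by
    unfold JJ
    rw [← intervalIntegral.integral_sub]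
    · refine intervalIntegral.integral_congr fun x _ => ?_
      try simp only
      rw [← intervalIntegral.integral_sub]
      · refine intervalIntegral.integral_congr fun y _ => ?_
        try simp only
        ring
      · exact Continuous.intervalIntegrable (by fun_prop) _ _
      · exact Continuous.intervalIntegrable (by fun_prop) _ _
    · refine Continuous.intervalIntegrable ?_ _ _
      refine intervalIntegral.continuous_parametric_intervalIntegral_of_continuous' ?_ _ _
      fun_prop
    · refine Continuous.intervalIntegrable ?_ _ _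
      refine intervalIntegral.continuous_parametric_intervalIntegral_of_continuous' ?_ _ _
      fun_prop
  have ibp : ∀ c e : ℝ, ∫ x in (-r)..r, W x * (c * d (c * x + e)) =
      W r * (ψ (c * r + e) - ψ (-(c * r) + e)) + ∫ x in (-r)..r, x * W x * ψ (c * x + e) := by
    intro c e
    rw [intervalIntegral.integral_mul_deriv_eq_deriv_mul (u := W) (v := fun x => ψ (c * x + e))
      (u' := fun x => -(x * W x)) (v' := fun x => c * d (c * x + e)) (fun x _ => W_deriv x) ?_ ?_ ?_]
    · rw [W_even]
      simp only [neg_mul, mul_neg, intervalIntegral.integral_neg]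
      ring
    · intro x _
      have h1 : HasDerivAt (fun x : ℝ => c * x + e) c x := by
        simpa using ((hasDerivAt_id x).const_mul c).add_const e
      refine ((hψ (c * x + e)).comp x h1).congr_deriv ?_
      ring
    · exact Continuous.intervalIntegrable (by fun_prop) _ _
    · exact Continuous.intervalIntegrable (by fun_prop) _ _
  have hA : (∫ x in (-r)..r, ∫ y in (-r)..r, (y * W y) * (W x * (a * d (a * x + b * y)))) =
      (∫ y in (-r)..r, y * W y * (W r * (ψ (a * r + b * y) - ψ (-(a * r) + b * y)))) +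
        ∫ y in (-r)..r, ∫ x in (-r)..r, (y * W y) * ((x * W x) * ψ (a * x + b * y)) := by
    rw [swap_cont (by fun_prop)]
    rw [← intervalIntegral.integral_add]
    · refine intervalIntegral.integral_congr fun y _ => ?_
      try simp only
      rw [intervalIntegral.integral_const_mul, ibp a (b * y), mul_add,
        ← intervalIntegral.integral_const_mul]
    · exact Continuous.intervalIntegrable (by fun_prop) _ _
    · refine Continuous.intervalIntegrable ?_ _ _
      refine intervalIntegral.continuous_parametric_intervalIntegral_of_continuous' ?_ _ _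
      fun_prop
  have hB : (∫ x in (-r)..r, ∫ y in (-r)..r, (x * W x) * (W y * (b * d (a * x + b * y)))) =
      (∫ x in (-r)..r, x * W x * (W r * (ψ (a * x + b * r) - ψ (a * x - b * r)))) +
        ∫ x in (-r)..r, ∫ y in (-r)..r, (y * W y) * ((x * W x) * ψ (a * x + b * y)) := by
    rw [← intervalIntegral.integral_add]
    · refine intervalIntegral.integral_congr fun x _ => ?_
      try simp only
      have h := ibp b (a * x)
      have e1 : ∀ y, b * y + a * x = a * x + b * y := fun y => by ring
      simp only [e1] at h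
      have e2 : -(b * r) + a * x = a * x - b * r := by ring
      rw [e2] at h
      rw [intervalIntegral.integral_const_mul, h, mul_add,
        ← intervalIntegral.integral_const_mul]
      congr 1
      refine intervalIntegral.integral_congr fun y _ => ?_
      try simp only
      ring
    · exact Continuous.intervalIntegrable (by fun_prop) _ _
    · refine Continuous.intervalIntegrable ?_ _ _
      refine intervalIntegral.continuous_parametric_intervalIntegral_of_continuous' ?_ _ _
      fun_prop
  rw [hsplit, hA, hB, swap_cont (F := fun x y => (y * W y) * ((x * W x) * ψ (a * x + b * y)))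
    (by fun_prop)]
  rw [add_sub_add_right_eq_sub, ← intervalIntegral.integral_sub,
    ← intervalIntegral.integral_const_mul]
  · refine intervalIntegral.integral_congr fun y _ => ?_
    try simp only
    ring
  · exact Continuous.intervalIntegrable (by fun_prop) _ _
  · exact Continuous.intervalIntegrable (by fun_prop) _ _

theorem T_nonneg {ρ r a b x : ℝ} {k ψ : ℝ → ℝ} (hk : P ρ k) (hψ : ∀ x, HasDerivAt ψ (-k x) x)
    (hev : ∀ x, ψ (-x) = ψ x) (hr : 0 < r) (hb : 0 ≤ b) (hab : b ≤ a) (hρ : ρ ≤ b * r)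
    (hx0 : 0 ≤ x) (hxr : x ≤ r) :
    0 ≤ (ψ (a * r + b * x) - ψ (-(a * r) + b * x)) - (ψ (a * x + b * r) - ψ (a * x - b * r)) := by
  have ha : 0 ≤ a := le_trans hb hab
  have e1 : ψ (-(a * r) + b * x) = ψ (a * r - b * x) := by
    rw [← hev]; ring_nf
  have e2 : ψ (a * x - b * r) = ψ |a * x - b * r| := by
    rcases abs_choice (a * x - b * r) with h | h
    · rw [h]
    · rw [h, hev]
  rw [e1, e2]
  have hax : 0 ≤ a * x := mul_nonneg ha hx0
  have hbx : 0 ≤ b * x := mul_nonneg hb hx0
  have hbr : 0 ≤ b * r := mul_nonneg hb hr.le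
  have hd : 0 ≤ (a - b) * (r - x) := mul_nonneg (by linarith) (by linarith)
  have hd2 : 0 ≤ (a + b) * (r - x) := mul_nonneg (by linarith) (by linarith)
  have hα1 : |a * x - b * r| ≤ a * r - b * x := by
    rw [abs_le]
    constructor <;> nlinarith
  have hα2 : |a * x - b * r| ≤ a * x + b * r := by
    rw [abs_le]
    constructor <;> nlinarith
  have hsum : 2 * ρ ≤ |a * x - b * r| + (a * r + b * x) := by
    rcases le_total (a * x) (b * r) with h | h
    · rw [abs_of_nonpos (by linarith)]
      nlinarith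
    · rw [abs_of_nonneg (by linarith)]
      rcases eq_or_lt_of_le ha with ha0 | ha0
      · have hb0 : b = 0 := by linarith
        have hρ0 : ρ ≤ 0 := by rw [hb0] at hρ; linarith
        rw [← ha0, hb0]
        linarith
      · -- a x ≥ b r
        have h3 : 0 ≤ (a - b) ^ 2 * r := mul_nonneg (sq_nonneg _) hr.le
        have h4 : a * (2 * ρ) ≤ a * (a * x - b * r + (a * r + b * x)) := by
          nlinarith [mul_nonneg ha (sub_nonneg.2 h), mul_nonneg hb (sub_nonneg.2 h)]
        exact le_of_mul_le_mul_left h4 ha0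
  have hsq : |a * x - b * r| ^ 2 + (a * r + b * x) ^ 2 =
      (a * r - b * x) ^ 2 + (a * x + b * r) ^ 2 := by
    rw [sq_abs]; ring
  have hβ1 : a * r - b * x ≤ a * r + b * x := by linarith
  have hβ2 : a * x + b * r ≤ a * r + b * x := by nlinarith
  rcases le_total (a * r - b * x) (a * x + b * r) with h | h
  · have := four_pt hk hψ (abs_nonneg _) hα1 h hβ2 hsq hsum
    linarith
  · have := four_pt hk hψ (abs_nonneg _) hα2 h hβ1 (by rw [hsq]; ring) hsum
    linarith

theorem JJ_nonneg {ρ r a b : ℝ} {k ψ : ℝ → ℝ} (hk : P ρ k) (hψ : ∀ x, HasDerivAt ψ (-k x) x)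
    (hev : ∀ x, ψ (-x) = ψ x) (hr : 0 < r) (hb : 0 ≤ b) (hab : b ≤ a) (hρ : ρ ≤ b * r) :
    0 ≤ JJ r (fun x => -k x) a b := by
  rw [exch_id hψ hk.cont.neg r a b]
  refine mul_nonneg (W_pos r).le ?_
  refine intervalIntegral.integral_nonneg (by linarith) ?_
  intro x hx
  have hx1 := hx.1
  have hx2 := hx.2
  rcases le_total 0 x with h | h
  · exact mul_nonneg (mul_nonneg h (W_pos x).le) (T_nonneg hk hψ hev hr hb hab hρ h hx2)
  · have h1 := T_nonneg hk hψ hev hr hb hab hρ (x := -x) (by linarith) (by linarith)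
    have e1 : ψ (a * r + b * -x) = ψ (-(a * r) + b * x) := by
      rw [← hev]; ring_nf
    have e2 : ψ (-(a * r) + b * -x) = ψ (a * r + b * x) := by
      rw [← hev]; ring_nf
    have e3 : ψ (a * -x + b * r) = ψ (a * x - b * r) := by
      rw [← hev]; ring_nf
    have e4 : ψ (a * -x - b * r) = ψ (a * x + b * r) := by
      rw [← hev]; ring_nf
    rw [e1, e2, e3, e4] at h1
    have h2 : x * W x ≤ 0 := mul_nonpos_of_nonpos_of_nonneg h (W_pos x).le
    nlinarith

/-- fundamental theorem of calculus along the rotation -/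
theorem rot_ftc {ψ d : ℝ → ℝ} (hψ : ∀ x, HasDerivAt ψ (d x) x) (hd : Continuous d)
    (r S θ1 θ2 : ℝ) :
    cv r (S * Real.cos θ2) (cv r (S * Real.sin θ2) ψ) 0 -
      cv r (S * Real.cos θ1) (cv r (S * Real.sin θ1) ψ) 0 =
    ∫ θ in θ1..θ2, JJ r d (S * Real.cos θ) (S * Real.sin θ) := by
  have hψc : Continuous ψ := continuous_iff_continuousAt.2 fun x => (hψ x).continuousAt
  have hW := W_cont
  have e : ∀ θ, cv r (S * Real.cos θ) (cv r (S * Real.sin θ) ψ) 0 =
      ∫ x in (-r)..r, ∫ y in (-r)..r, W x * (W y * ψ (S * Real.cos θ * x + S * Real.sin θ * y)) := by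
    intro θ
    unfold cv
    refine intervalIntegral.integral_congr fun x _ => ?_
    simp only [zero_add, intervalIntegral.integral_const_mul]
  rw [e, e, ← intervalIntegral.integral_sub]
  rotate_left
  · refine Continuous.intervalIntegrable ?_ _ _
    refine intervalIntegral.continuous_parametric_intervalIntegral_of_continuous' ?_ _ _
    fun_prop
  · refine Continuous.intervalIntegrable ?_ _ _
    refine intervalIntegral.continuous_parametric_intervalIntegral_of_continuous' ?_ _ _
    fun_prop
  have hpt : ∀ x y : ℝ, ψ (S * Real.cos θ2 * x + S * Real.sin θ2 * y) -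
      ψ (S * Real.cos θ1 * x + S * Real.sin θ1 * y) =
      ∫ θ in θ1..θ2, d (S * Real.cos θ * x + S * Real.sin θ * y) *
        (S * Real.cos θ * y - S * Real.sin θ * x) := by
    intro x y
    rw [intervalIntegral.integral_eq_sub_of_hasDerivAt (f := fun θ =>
      ψ (S * Real.cos θ * x + S * Real.sin θ * y))]
    · intro θ _
      have h1 : HasDerivAt (fun θ => S * Real.cos θ * x + S * Real.sin θ * y)
          (S * Real.cos θ * y - S * Real.sin θ * x) θ := by
        have a1 := ((Real.hasDerivAt_cos θ).const_mul S).mul_const x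
        have a2 := ((Real.hasDerivAt_sin θ).const_mul S).mul_const y
        refine (a1.add a2).congr_deriv ?_
        ring
      exact (hψ _).comp θ h1
    · refine Continuous.intervalIntegrable ?_ _ _
      fun_prop
  have step : ∀ x, (∫ y in (-r)..r, W x * (W y * ψ (S * Real.cos θ2 * x + S * Real.sin θ2 * y))) -
      (∫ y in (-r)..r, W x * (W y * ψ (S * Real.cos θ1 * x + S * Real.sin θ1 * y))) =
      ∫ θ in θ1..θ2, ∫ y in (-r)..r, W x * (W y *
        (d (S * Real.cos θ * x + S * Real.sin θ * y) *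
        (S * Real.cos θ * y - S * Real.sin θ * x))) := by
    intro x
    rw [swap_cont (by fun_prop), ← intervalIntegral.integral_sub]
    · refine intervalIntegral.integral_congr fun y _ => ?_
      try simp only
      rw [intervalIntegral.integral_const_mul, intervalIntegral.integral_const_mul, ← hpt]
      ring
    · exact Continuous.intervalIntegrable (by fun_prop) _ _
    · exact Continuous.intervalIntegrable (by fun_prop) _ _
  simp only [step]
  unfold JJ
  rw [swap_cont (F := fun x θ => ∫ y in (-r)..r, W x * (W y *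
        (d (S * Real.cos θ * x + S * Real.sin θ * y) *
        (S * Real.cos θ * y - S * Real.sin θ * x))))]
  have e2 : (Function.uncurry fun x θ => ∫ y in (-r)..r, W x * (W y *
        (d (S * Real.cos θ * x + S * Real.sin θ * y) *
        (S * Real.cos θ * y - S * Real.sin θ * x)))) = fun p : ℝ × ℝ =>
        ∫ y in (-r)..r, W p.1 * (W y *
        (d (S * Real.cos p.2 * p.1 + S * Real.sin p.2 * y) *
        (S * Real.cos p.2 * y - S * Real.sin p.2 * p.1))) := by
    funext p
    rfl
  rw [e2]
  refine intervalIntegral.continuous_parametric_intervalIntegral_of_continuous' ?_ _ _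
  fun_prop

theorem rot_mono {ρ r S θ1 θ2 : ℝ} {k ψ : ℝ → ℝ} (hk : P ρ k) (hψ : ∀ x, HasDerivAt ψ (-k x) x)
    (hev : ∀ x, ψ (-x) = ψ x) (hr : 0 < r) (hS : 0 ≤ S) (h1 : 0 ≤ θ1) (h12 : θ1 ≤ θ2)
    (h2 : θ2 ≤ Real.pi / 4) (hρ : ρ ≤ S * Real.sin θ1 * r) :
    cv r (S * Real.cos θ1) (cv r (S * Real.sin θ1) ψ) 0 ≤
      cv r (S * Real.cos θ2) (cv r (S * Real.sin θ2) ψ) 0 := by
  rw [← sub_nonneg, rot_ftc hψ hk.cont.neg r S θ1 θ2]
  refine intervalIntegral.integral_nonneg h12 ?_
  intro θ hθ
  have hpi := Real.pi_pos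
  have hθ1 := hθ.1
  have hθ2 := hθ.2
  have hs : Real.sin θ1 ≤ Real.sin θ :=
    Real.sin_le_sin_of_le_of_le_pi_div_two (by linarith) (by linarith) hθ1
  have hs0 : 0 ≤ Real.sin θ := Real.sin_nonneg_of_nonneg_of_le_pi (by linarith) (by linarith)
  have hc : Real.sin θ ≤ Real.cos θ := by
    rw [← Real.sin_pi_div_two_sub]
    exact Real.sin_le_sin_of_le_of_le_pi_div_two (by linarith) (by linarith) (by linarith)
  refine JJ_nonneg hk hψ hev hr (mul_nonneg hS hs0) (mul_le_mul_of_nonneg_left hc hS) ?_
  refine hρ.trans ?_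
  gcongr

/-- the exchange inequality -/
theorem exchange {ρ r a b : ℝ} {k ψ : ℝ → ℝ} (hk : P ρ k) (hψ : ∀ x, HasDerivAt ψ (-k x) x)
    (hev : ∀ x, ψ (-x) = ψ x) (hr : 0 < r) (hb : 0 ≤ b) (hab : b ≤ a) (hρ : ρ ≤ b * r) :
    cv r a (cv r b ψ) 0 ≤
      cv r (Real.sqrt ((a ^ 2 + b ^ 2) / 2)) (cv r (Real.sqrt ((a ^ 2 + b ^ 2) / 2)) ψ) 0 := by
  have ha : 0 ≤ a := le_trans hb hab
  rcases eq_or_lt_of_le ha with ha0 | ha0
  · have hb0 : b = 0 := by linarith
    rw [← ha0, hb0]
    simp
  obtain ⟨S, hS⟩ : ∃ S, S = Real.sqrt (a ^ 2 + b ^ 2) := ⟨_, rfl⟩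
  have hS0 : 0 < S := by rw [hS]; positivity
  have hS2 : S ^ 2 = a ^ 2 + b ^ 2 := by rw [hS]; exact Real.sq_sqrt (by positivity)
  have haS : a / S ≤ 1 := by
    rw [div_le_one hS0]
    nlinarith
  have hcos : Real.cos (Real.arccos (a / S)) = a / S :=
    Real.cos_arccos (by have := div_nonneg ha hS0.le; linarith) haS
  have hsin : Real.sin (Real.arccos (a / S)) = b / S := by
    rw [Real.sin_arccos]
    rw [show 1 - (a / S) ^ 2 = (b / S) ^ 2 by
      rw [div_pow, div_pow, hS2]
      field_simp
      ring]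
    exact Real.sqrt_sq (div_nonneg hb hS0.le)
  have hπ : Real.arccos (a / S) ≤ Real.pi / 4 := by
    have h4 : Real.pi / 4 = Real.arccos (Real.sqrt 2 / 2) := by
      rw [← Real.cos_pi_div_four, Real.arccos_cos]
      · have := Real.pi_pos; linarith
      · have := Real.pi_pos; linarith
    rw [h4]
    apply Real.arccos_le_arccos
    rw [le_div_iff₀ hS0]
    have h2 : Real.sqrt 2 ^ 2 = 2 := Real.sq_sqrt (by norm_num)
    have h3 : 0 ≤ Real.sqrt 2 := Real.sqrt_nonneg 2
    have h5 : (Real.sqrt 2 / 2 * S) ^ 2 ≤ a ^ 2 := by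
      rw [mul_pow, div_pow, h2, hS2]
      nlinarith
    exact le_of_sq_le_sq h5 ha
  have h := rot_mono hk hψ hev hr hS0.le (Real.arccos_nonneg (a / S)) hπ le_rfl (by
    rw [hsin]
    rw [mul_div_cancel₀ _ hS0.ne']
    exact hρ)
  rw [hcos, hsin, mul_div_cancel₀ _ hS0.ne', mul_div_cancel₀ _ hS0.ne', Real.cos_pi_div_four,
    Real.sin_pi_div_four] at h
  have e : S * (Real.sqrt 2 / 2) = Real.sqrt ((a ^ 2 + b ^ 2) / 2) := by
    rw [← hS2]
    symm
    rw [Real.sqrt_eq_iff_mul_self_eq (by positivity) (by positivity)]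
    have h2 : Real.sqrt 2 ^ 2 = 2 := Real.sq_sqrt (by norm_num)
    nlinarith
  rw [e] at h
  exact h

end Pool.Agent.H770.GS
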