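import Pool.Agent.H770.GS.N1b

/-!
# The family `(a, a, b)`: derivative of the section function
-/

set_option autoImplicit false

open MeasureTheory Set intervalIntegral Filter Topology

namespace Pool.Agent.H770.GS

open Pool.Agent.Helper82.GC

/-! ### approximate identity -/

theorem gs_one_int : ∫ s, gs 1 s = 1 := by
  have h := aux_gauss_one
  refine Eq.trans ?_ h
  refine MeasureTheory.integral_congr_ae (Filter.Eventually.of_forall fun s => ?_)
  simp only [gs, one_pow, mul_one]

theorem gs_one_integrable : Integrable (gs 1) := by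
  by_contra h
  have h1 := gs_one_int
  rw [integral_undef h] at h1
  exact zero_ne_one h1

theorem gs_scale {τ : ℝ} (hτ : 0 < τ) (s : ℝ) : gs τ (τ * s) = τ⁻¹ * gs 1 s := by
  unfold gs
  have h1 : Real.sqrt (2 * Real.pi * τ ^ 2) = Real.sqrt (2 * Real.pi * 1 ^ 2) * τ := by
    rw [Real.sqrt_mul (by positivity), Real.sqrt_sq hτ.le]
    simp
  rw [h1]
  have h2 : -(τ * s) ^ 2 / (2 * τ ^ 2) = -s ^ 2 / (2 * 1 ^ 2) := by
    field_simp
  rw [h2]
  field_simp

theorem wr_nonneg' (r x : ℝ) : 0 ≤ wr r x := by
  rw [wr_eq]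
  exact indicator_nonneg (fun x _ => (W_pos x).le) x

theorem W_le_one (x : ℝ) : W x ≤ 1 := by
  unfold W
  apply Real.exp_le_one_iff.2
  have := sq_nonneg x
  linarith

theorem wr_le_one (r x : ℝ) : wr r x ≤ 1 := by
  rw [wr_eq]
  by_cases hx : x ∈ Icc (-r) r
  · rw [indicator_of_mem hx]
    exact W_le_one x
  · rw [indicator_of_notMem hx]
    exact zero_le_one

theorem wr_neg (r x : ℝ) : wr r (-x) = wr r x := by
  unfold wr
  rw [abs_neg, neg_sq]

theorem wr_measurable (r : ℝ) : Measurable (wr r) := by
  have : wr r = (Icc (-r) r).indicator W := by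
    funext x
    exact wr_eq r x
  rw [this]
  exact W_cont.measurable.indicator measurableSet_Icc

theorem wr_contAt {r x : ℝ} (hx : |x| ≠ r) : ContinuousAt (wr r) x := by
  rcases lt_or_gt_of_ne hx with h | h
  · have : wr r =ᶠ[𝓝 x] W := by
      have ho : IsOpen {y : ℝ | |y| < r} := isOpen_lt (by fun_prop) continuous_const
      filter_upwards [ho.mem_nhds h] with y hy
      unfold wr
      rw [if_pos (le_of_lt hy)]
      rfl
    exact W_cont.continuousAt.congr this.symm
  · have : wr r =ᶠ[𝓝 x] fun _ => 0 := by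
      have ho : IsOpen {y : ℝ | r < |y|} := isOpen_lt continuous_const (by fun_prop)
      filter_upwards [ho.mem_nhds h] with y hy
      unfold wr
      rw [if_neg (not_le.2 hy)]
    exact continuousAt_const.congr this.symm

theorem cv_gs {r a τ : ℝ} (hr : 0 < r) (ha : 0 < a) (hτ : 0 < τ) (v : ℝ) :
    cv r a (gs τ) v = (1 / a) * ∫ s, gs 1 s * wr r ((τ * s - v) / a) := by
  unfold cv
  rw [← wr_int hr]
  have h1 := MeasureTheory.integral_sub_right_eq_self
    (fun u => wr r u * gs τ (v + a * u)) (v / a) (μ := volume)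
  have h2 := MeasureTheory.Measure.integral_comp_mul_left
    (fun u => wr r (u - v / a) * gs τ (v + a * (u - v / a))) (τ / a)
  rw [← h1]
  have h3 : |(τ / a)⁻¹| = a / τ := by
    rw [abs_of_pos (by positivity), inv_div]
  rw [h3, smul_eq_mul] at h2
  have h4 : ∫ u, wr r (u - v / a) * gs τ (v + a * (u - v / a)) =
      τ / a * ∫ s, wr r (τ / a * s - v / a) * gs τ (v + a * (τ / a * s - v / a)) := by
    rw [h2, ← mul_assoc]
    have h5 : τ / a * (a / τ) = 1 := by field_simp
    rw [h5, one_mul]
  rw [h4, ← MeasureTheory.integral_const_mul, ← MeasureTheory.integral_const_mul]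
  refine MeasureTheory.integral_congr_ae (Filter.Eventually.of_forall fun s => ?_)
  simp only
  have e1 : v + a * (τ / a * s - v / a) = τ * s := by
    field_simp
    ring
  have e2 : τ / a * s - v / a = (τ * s - v) / a := by ring
  rw [e1, gs_scale hτ, e2]
  field_simp

/-- the limit of `cv r a (gs τ)` -/
noncomputable def ha (r a v : ℝ) : ℝ := (1 / a) * wr r (v / a)

theorem cv_gs_tendsto {r a v : ℝ} (hr : 0 < r) (ha0 : 0 < a) (hv : |v| ≠ a * r) :
    Tendsto (fun τ => cv r a (gs τ) v) (𝓝[>] 0) (𝓝 (ha r a v)) := by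
  have h1 : Tendsto (fun τ : ℝ => (1 / a) * ∫ s, gs 1 s * wr r ((τ * s - v) / a)) (𝓝[>] 0)
      (𝓝 ((1 / a) * ∫ s, gs 1 s * wr r (v / a))) := by
    refine Tendsto.const_mul _ ?_
    refine tendsto_integral_filter_of_dominated_convergence (gs 1) ?_ ?_ gs_one_integrable ?_
    · refine Eventually.of_forall fun τ => ?_
      refine ((gs_cont 1).aestronglyMeasurable).mul ?_
      refine Measurable.aestronglyMeasurable ?_
      refine (wr_measurable r).comp ?_
      fun_prop
    · refine Eventually.of_forall fun τ => Eventually.of_forall fun s => ?_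
      rw [Real.norm_eq_abs, abs_of_nonneg (mul_nonneg (gs_nonneg 1 s) (wr_nonneg' _ _))]
      exact mul_le_of_le_one_right (gs_nonneg 1 s) (wr_le_one _ _)
    · refine Eventually.of_forall fun s => ?_
      refine Tendsto.const_mul _ ?_
      have hc : ContinuousAt (wr r) (-v / a) := by
        apply wr_contAt
        rw [abs_div, abs_neg, abs_of_pos ha0]
        intro h
        apply hv
        rw [← h]
        field_simp
      have ht : Tendsto (fun τ : ℝ => (τ * s - v) / a) (𝓝[>] 0) (𝓝 (-v / a)) := by
        have : Tendsto (fun τ : ℝ => (τ * s - v) / a) (𝓝 0) (𝓝 ((0 * s - v) / a)) := by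
          have hcont : Continuous fun τ : ℝ => (τ * s - v) / a := by fun_prop
          exact hcont.tendsto 0
        rw [zero_mul, zero_sub] at this
        exact this.mono_left nhdsWithin_le_nhds
      have h2 : wr r (v / a) = wr r (-v / a) := by rw [neg_div, wr_neg]
      rw [h2]
      exact hc.tendsto.comp ht
  have h2 : (1 / a) * ∫ s, gs 1 s * wr r (v / a) = ha r a v := by
    rw [MeasureTheory.integral_mul_const, gs_one_int, one_mul]
    rfl
  rw [h2] at h1
  refine h1.congr' ?_
  filter_upwards [self_mem_nhdsWithin] with τ hτ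
  exact (cv_gs hr ha0 hτ v).symm

theorem cv_gs_bdd {r a τ : ℝ} (hr : 0 < r) (ha0 : 0 < a) (hτ : 0 < τ) (v : ℝ) :
    |cv r a (gs τ) v| ≤ 1 / a := by
  rw [cv_gs hr ha0 hτ]
  have h0 : 0 ≤ ∫ s, gs 1 s * wr r ((τ * s - v) / a) :=
    MeasureTheory.integral_nonneg fun s => mul_nonneg (gs_nonneg 1 s) (wr_nonneg' _ _)
  rw [abs_of_nonneg (by positivity)]
  refine mul_le_of_le_one_right (by positivity) ?_
  refine le_trans (MeasureTheory.integral_mono_of_nonneg
    (Eventually.of_forall fun s => mul_nonneg (gs_nonneg 1 s) (wr_nonneg' _ _))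
    gs_one_integrable (Eventually.of_forall fun s => ?_)) gs_one_int.le
  exact mul_le_of_le_one_right (gs_nonneg 1 s) (wr_le_one _ _)

/-! ### derivative along the family -/

/-- the smoothed functional along the family -/
noncomputable def D3 (r : ℝ) (ψ : ℝ → ℝ) (φ : ℝ) : ℝ :=
  cv r (Real.cos φ / Real.sqrt 2) (cv r (Real.cos φ / Real.sqrt 2) (cv r (Real.sin φ) ψ)) 0

theorem D3_eq (r : ℝ) (ψ : ℝ → ℝ) (φ : ℝ) : D3 r ψ φ =
    ∫ x in (-r)..r, ∫ y in (-r)..r, ∫ z in (-r)..r, W x * (W y * (W z *
      ψ (Real.cos φ / Real.sqrt 2 * x + Real.cos φ / Real.sqrt 2 * y + Real.sin φ * z))) := by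
  unfold D3 cv
  refine intervalIntegral.integral_congr fun x _ => ?_
  rw [← intervalIntegral.integral_const_mul]
  refine intervalIntegral.integral_congr fun y _ => ?_
  rw [intervalIntegral.integral_const_mul, intervalIntegral.integral_const_mul, zero_add]

theorem D3_deriv {ψ d : ℝ → ℝ} (hψ : ∀ x, HasDerivAt ψ (d x) x) (hd : Continuous d) (r φ : ℝ) :
    HasDerivAt (D3 r ψ) (∫ x in (-r)..r, ∫ y in (-r)..r, ∫ z in (-r)..r, W x * (W y * (W z *
      (d (Real.cos φ / Real.sqrt 2 * x + Real.cos φ / Real.sqrt 2 * y + Real.sin φ * z) *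
        (-Real.sin φ / Real.sqrt 2 * x + -Real.sin φ / Real.sqrt 2 * y + Real.cos φ * z))))) φ := by
  have hψc : Continuous ψ := continuous_iff_continuousAt.2 fun x => (hψ x).continuousAt
  have hW := W_cont
  have e : D3 r ψ = fun φ => ∫ x in (-r)..r, ∫ y in (-r)..r, ∫ z in (-r)..r, W x * (W y * (W z *
      ψ (Real.cos φ / Real.sqrt 2 * x + Real.cos φ / Real.sqrt 2 * y + Real.sin φ * z))) := by
    funext φ
    exact D3_eq r ψ φ
  rw [e]
  refine hasDerivAt_param
    (f := fun φ x => ∫ y in (-r)..r, ∫ z in (-r)..r, W x * (W y * (W z *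
      ψ (Real.cos φ / Real.sqrt 2 * x + Real.cos φ / Real.sqrt 2 * y + Real.sin φ * z))))
    (f' := fun φ x => ∫ y in (-r)..r, ∫ z in (-r)..r, W x * (W y * (W z *
      (d (Real.cos φ / Real.sqrt 2 * x + Real.cos φ / Real.sqrt 2 * y + Real.sin φ * z) *
        (-Real.sin φ / Real.sqrt 2 * x + -Real.sin φ / Real.sqrt 2 * y + Real.cos φ * z)))))
    ?_ ?_ ?_ (-r) r φ
  · intro φ x
    refine hasDerivAt_param
      (f := fun φ y => ∫ z in (-r)..r, W x * (W y * (W z *
        ψ (Real.cos φ / Real.sqrt 2 * x + Real.cos φ / Real.sqrt 2 * y + Real.sin φ * z))))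
      (f' := fun φ y => ∫ z in (-r)..r, W x * (W y * (W z *
        (d (Real.cos φ / Real.sqrt 2 * x + Real.cos φ / Real.sqrt 2 * y + Real.sin φ * z) *
        (-Real.sin φ / Real.sqrt 2 * x + -Real.sin φ / Real.sqrt 2 * y + Real.cos φ * z)))))
      ?_ ?_ ?_ (-r) r φ
    · intro φ y
      refine hasDerivAt_param
        (f := fun φ z => W x * (W y * (W z *
          ψ (Real.cos φ / Real.sqrt 2 * x + Real.cos φ / Real.sqrt 2 * y + Real.sin φ * z))))
        (f' := fun φ z => W x * (W y * (W z *
          (d (Real.cos φ / Real.sqrt 2 * x + Real.cos φ / Real.sqrt 2 * y + Real.sin φ * z) *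
          (-Real.sin φ / Real.sqrt 2 * x + -Real.sin φ / Real.sqrt 2 * y + Real.cos φ * z)))))
        ?_ ?_ ?_ (-r) r φ
      · intro φ z
        have h1 : HasDerivAt (fun φ => Real.cos φ / Real.sqrt 2 * x + Real.cos φ / Real.sqrt 2 * y +
            Real.sin φ * z) (-Real.sin φ / Real.sqrt 2 * x + -Real.sin φ / Real.sqrt 2 * y +
            Real.cos φ * z) φ := by
          have a1 := ((Real.hasDerivAt_cos φ).div_const (Real.sqrt 2)).mul_const x
          have a2 := ((Real.hasDerivAt_cos φ).div_const (Real.sqrt 2)).mul_const y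
          have a3 := (Real.hasDerivAt_sin φ).mul_const z
          exact (a1.add a2).add a3
        exact ((((hψ _).comp φ h1).const_mul (W z)).const_mul (W y)).const_mul (W x)
      · intro φ
        fun_prop
      · fun_prop
    · intro φ
      refine intervalIntegral.continuous_parametric_intervalIntegral_of_continuous' ?_ _ _
      fun_prop
    · have : (Function.uncurry fun φ y => ∫ z in (-r)..r, W x * (W y * (W z *
        (d (Real.cos φ / Real.sqrt 2 * x + Real.cos φ / Real.sqrt 2 * y + Real.sin φ * z) *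
        (-Real.sin φ / Real.sqrt 2 * x + -Real.sin φ / Real.sqrt 2 * y + Real.cos φ * z))))) =
        fun p : ℝ × ℝ => ∫ z in (-r)..r, W x * (W p.2 * (W z *
        (d (Real.cos p.1 / Real.sqrt 2 * x + Real.cos p.1 / Real.sqrt 2 * p.2 + Real.sin p.1 * z) *
        (-Real.sin p.1 / Real.sqrt 2 * x + -Real.sin p.1 / Real.sqrt 2 * p.2 +
          Real.cos p.1 * z)))) := by
        funext p; rfl
      rw [this]
      refine intervalIntegral.continuous_parametric_intervalIntegral_of_continuous' ?_ _ _
      fun_prop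
  · intro φ
    refine intervalIntegral.continuous_parametric_intervalIntegral_of_continuous' ?_ _ _
    have : (Function.uncurry fun x y => ∫ z in (-r)..r, W x * (W y * (W z *
        ψ (Real.cos φ / Real.sqrt 2 * x + Real.cos φ / Real.sqrt 2 * y + Real.sin φ * z)))) =
        fun p : ℝ × ℝ => ∫ z in (-r)..r, W p.1 * (W p.2 * (W z *
        ψ (Real.cos φ / Real.sqrt 2 * p.1 + Real.cos φ / Real.sqrt 2 * p.2 + Real.sin φ * z))) := by
      funext p; rfl
    rw [this]
    refine intervalIntegral.continuous_parametric_intervalIntegral_of_continuous' ?_ _ _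
    fun_prop
  · have : (Function.uncurry fun φ x => ∫ y in (-r)..r, ∫ z in (-r)..r, W x * (W y * (W z *
        (d (Real.cos φ / Real.sqrt 2 * x + Real.cos φ / Real.sqrt 2 * y + Real.sin φ * z) *
        (-Real.sin φ / Real.sqrt 2 * x + -Real.sin φ / Real.sqrt 2 * y + Real.cos φ * z))))) =
        fun p : ℝ × ℝ => ∫ y in (-r)..r, ∫ z in (-r)..r, W p.2 * (W y * (W z *
        (d (Real.cos p.1 / Real.sqrt 2 * p.2 + Real.cos p.1 / Real.sqrt 2 * y + Real.sin p.1 * z) *
        (-Real.sin p.1 / Real.sqrt 2 * p.2 + -Real.sin p.1 / Real.sqrt 2 * y +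
          Real.cos p.1 * z)))) := by
      funext p; rfl
    rw [this]
    refine intervalIntegral.continuous_parametric_intervalIntegral_of_continuous' ?_ _ _
    have h2 : (Function.uncurry fun (p : ℝ × ℝ) (y : ℝ) => ∫ z in (-r)..r, W p.2 * (W y * (W z *
        (d (Real.cos p.1 / Real.sqrt 2 * p.2 + Real.cos p.1 / Real.sqrt 2 * y + Real.sin p.1 * z) *
        (-Real.sin p.1 / Real.sqrt 2 * p.2 + -Real.sin p.1 / Real.sqrt 2 * y +
          Real.cos p.1 * z))))) = fun q : (ℝ × ℝ) × ℝ => ∫ z in (-r)..r, W q.1.2 * (W q.2 * (W z *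
        (d (Real.cos q.1.1 / Real.sqrt 2 * q.1.2 + Real.cos q.1.1 / Real.sqrt 2 * q.2 +
          Real.sin q.1.1 * z) *
        (-Real.sin q.1.1 / Real.sqrt 2 * q.1.2 + -Real.sin q.1.1 / Real.sqrt 2 * q.2 +
          Real.cos q.1.1 * z)))) := by
      funext q; rfl
    rw [h2]
    refine intervalIntegral.continuous_parametric_intervalIntegral_of_continuous' ?_ _ _
    fun_prop

theorem D3_deriv_eq {d : ℝ → ℝ} (hd : Continuous d) (r φ : ℝ) :
    (∫ x in (-r)..r, ∫ y in (-r)..r, ∫ z in (-r)..r, W x * (W y * (W z *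
      (d (Real.cos φ / Real.sqrt 2 * x + Real.cos φ / Real.sqrt 2 * y + Real.sin φ * z) *
        (-Real.sin φ / Real.sqrt 2 * x + -Real.sin φ / Real.sqrt 2 * y + Real.cos φ * z))))) =
    Real.sqrt 2 * JJ r (cv r (Real.cos φ / Real.sqrt 2) d) (Real.cos φ / Real.sqrt 2)
      (Real.sin φ) := by
  have hW := W_cont
  obtain ⟨a, ha⟩ : ∃ a, a = Real.cos φ / Real.sqrt 2 := ⟨_, rfl⟩
  obtain ⟨b, hb⟩ : ∃ b, b = Real.sin φ := ⟨_, rfl⟩
  have h2 : Real.sqrt 2 ≠ 0 := by positivity
  have h22 : Real.sqrt 2 * Real.sqrt 2 = 2 := Real.mul_self_sqrt (by norm_num)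
  have hc : Real.cos φ = Real.sqrt 2 * a := by rw [ha]; field_simp
  have hs : -Real.sin φ / Real.sqrt 2 = -(b / Real.sqrt 2) := by rw [hb]; ring
  rw [hs, ← ha, ← hb, hc]
  -- auxiliary continuity facts
  have hcont3 : ∀ g : ℝ → ℝ → ℝ → ℝ, Continuous (fun q : (ℝ × ℝ) × ℝ => g q.1.1 q.1.2 q.2) →
      Continuous (fun p : ℝ × ℝ => ∫ z in (-r)..r, g p.1 p.2 z) := by
    intro g hg
    refine intervalIntegral.continuous_parametric_intervalIntegral_of_continuous' ?_ _ _
    exact hg
  obtain ⟨A, hA⟩ : ∃ A : ℝ → ℝ → ℝ, A = fun x y => ∫ z in (-r)..r, W x * (W y * (W z *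
      (d (a * x + a * y + b * z) * x))) := ⟨_, rfl⟩
  obtain ⟨A', hA'⟩ : ∃ A' : ℝ → ℝ → ℝ, A' = fun x y => ∫ z in (-r)..r, W x * (W y * (W z *
      (d (a * x + a * y + b * z) * y))) := ⟨_, rfl⟩
  obtain ⟨C, hC⟩ : ∃ C : ℝ → ℝ → ℝ, C = fun x y => ∫ z in (-r)..r, W x * (W y * (W z *
      (d (a * x + a * y + b * z) * z))) := ⟨_, rfl⟩
  have cA : Continuous (Function.uncurry A) := by
    rw [hA]
    exact hcont3 (fun x y z => W x * (W y * (W z * (d (a * x + a * y + b * z) * x))))
      (by fun_prop)
  have cA' : Continuous (Function.uncurry A') := by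
    rw [hA']
    exact hcont3 (fun x y z => W x * (W y * (W z * (d (a * x + a * y + b * z) * y))))
      (by fun_prop)
  have cC : Continuous (Function.uncurry C) := by
    rw [hC]
    exact hcont3 (fun x y z => W x * (W y * (W z * (d (a * x + a * y + b * z) * z))))
      (by fun_prop)
  have cA1 : ∀ x, Continuous (A x) := fun x => cA.comp (by fun_prop : Continuous fun y : ℝ => (x, y))
  have cA1' : ∀ x, Continuous (A' x) := fun x => cA'.comp (by fun_prop : Continuous fun y : ℝ => (x, y))
  have cC1 : ∀ x, Continuous (C x) := fun x => cC.comp (by fun_prop : Continuous fun y : ℝ => (x, y))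
  have iA : Continuous fun x => ∫ y in (-r)..r, A x y :=
    intervalIntegral.continuous_parametric_intervalIntegral_of_continuous' cA _ _
  have iA' : Continuous fun x => ∫ y in (-r)..r, A' x y :=
    intervalIntegral.continuous_parametric_intervalIntegral_of_continuous' cA' _ _
  have iC : Continuous fun x => ∫ y in (-r)..r, C x y :=
    intervalIntegral.continuous_parametric_intervalIntegral_of_continuous' cC _ _
  have hsym : ∫ x in (-r)..r, ∫ y in (-r)..r, A' x y = ∫ x in (-r)..r, ∫ y in (-r)..r, A x y := by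
    rw [swap_cont cA']
    refine intervalIntegral.integral_congr fun y _ => ?_
    refine intervalIntegral.integral_congr fun x _ => ?_
    rw [hA, hA']
    refine intervalIntegral.integral_congr fun z _ => ?_
    rw [show a * x + a * y + b * z = a * y + a * x + b * z by ring]
    ring
  have hL : (∫ x in (-r)..r, ∫ y in (-r)..r, ∫ z in (-r)..r, W x * (W y * (W z *
      (d (a * x + a * y + b * z) *
        (-(b / Real.sqrt 2) * x + -(b / Real.sqrt 2) * y + Real.sqrt 2 * a * z))))) =
      -(b / Real.sqrt 2) * (∫ x in (-r)..r, ∫ y in (-r)..r, A x y) +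
      -(b / Real.sqrt 2) * (∫ x in (-r)..r, ∫ y in (-r)..r, A' x y) +
      Real.sqrt 2 * a * ∫ x in (-r)..r, ∫ y in (-r)..r, C x y := by
    rw [← intervalIntegral.integral_const_mul, ← intervalIntegral.integral_const_mul,
      ← intervalIntegral.integral_const_mul, ← intervalIntegral.integral_add,
      ← intervalIntegral.integral_add]
    · refine intervalIntegral.integral_congr fun x _ => ?_
      have c1 := cA1 x
      have c2 := cA1' x
      have c3 := cC1 x
      rw [← intervalIntegral.integral_const_mul, ← intervalIntegral.integral_const_mul,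
        ← intervalIntegral.integral_const_mul, ← intervalIntegral.integral_add,
        ← intervalIntegral.integral_add]
      · refine intervalIntegral.integral_congr fun y _ => ?_
        rw [hA, hA', hC]
        simp only
        rw [← intervalIntegral.integral_const_mul, ← intervalIntegral.integral_const_mul,
          ← intervalIntegral.integral_const_mul, ← intervalIntegral.integral_add,
          ← intervalIntegral.integral_add]
        · refine intervalIntegral.integral_congr fun z _ => ?_
          ring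
        all_goals exact Continuous.intervalIntegrable (by fun_prop) _ _
      all_goals exact Continuous.intervalIntegrable (by fun_prop) _ _
    all_goals exact Continuous.intervalIntegrable (by fun_prop) _ _
  rw [hL, hsym]
  have hR : Real.sqrt 2 * JJ r (cv r a d) a b =
      Real.sqrt 2 * a * (∫ x in (-r)..r, ∫ y in (-r)..r, C x y) -
      Real.sqrt 2 * b * ∫ x in (-r)..r, ∫ y in (-r)..r, A x y := by
    unfold JJ
    rw [← intervalIntegral.integral_const_mul, ← intervalIntegral.integral_const_mul,
      ← intervalIntegral.integral_const_mul, ← intervalIntegral.integral_sub]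
    · refine intervalIntegral.integral_congr fun x _ => ?_
      have c1 := cA1 x
      have c3 := cC1 x
      rw [← intervalIntegral.integral_const_mul, ← intervalIntegral.integral_const_mul,
        ← intervalIntegral.integral_const_mul, ← intervalIntegral.integral_sub]
      · have e1 : ∫ z in (-r)..r, Real.sqrt 2 * (W x * (W z * (cv r a d (a * x + b * z) *
            (a * z - b * x)))) = ∫ z in (-r)..r, ∫ y in (-r)..r, Real.sqrt 2 * (W x * (W y * (W z *
            (d (a * x + a * y + b * z) * (a * z - b * x))))) := by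
          refine intervalIntegral.integral_congr fun z _ => ?_
          unfold cv
          rw [← intervalIntegral.integral_mul_const, ← intervalIntegral.integral_const_mul,
            ← intervalIntegral.integral_const_mul, ← intervalIntegral.integral_const_mul]
          refine intervalIntegral.integral_congr fun y _ => ?_
          rw [show a * x + b * z + a * y = a * x + a * y + b * z by ring]
          ring
        rw [e1, swap_cont (by fun_prop)]
        refine intervalIntegral.integral_congr fun y _ => ?_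
        rw [hA, hC]
        simp only
        rw [← intervalIntegral.integral_const_mul, ← intervalIntegral.integral_const_mul,
          ← intervalIntegral.integral_sub]
        · refine intervalIntegral.integral_congr fun z _ => ?_
          ring
        all_goals exact Continuous.intervalIntegrable (by fun_prop) _ _
      all_goals exact Continuous.intervalIntegrable (by fun_prop) _ _
    all_goals exact Continuous.intervalIntegrable (by fun_prop) _ _
  rw [hR]
  have h3 : b / Real.sqrt 2 * 2 = Real.sqrt 2 * b := by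
    field_simp
    rw [Real.sq_sqrt (by norm_num)]
  linear_combination (-(∫ x in (-r)..r, ∫ y in (-r)..r, A x y)) * h3

end Pool.Agent.H770.GS
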