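import Pool.Agent.H770.GS.Fam3

/-!
# The family `(a, a, b)`: limit of the derivative, and maxima along the family
-/

set_option autoImplicit false

open MeasureTheory Set intervalIntegral Filter Topology

namespace Pool.Agent.H770.GS

open Pool.Agent.Helper82.GC

/-- the limiting four point difference -/
noncomputable def T0 (r l x : ℝ) : ℝ :=
  (wr r (r + l * x) - wr r (-r + l * x)) - (wr r (x + l * r) - wr r (x - l * r))

theorem T0_odd (r l x : ℝ) : T0 r l (-x) = -T0 r l x := by
  unfold T0
  have e1 : wr r (r + l * -x) = wr r (-r + l * x) := by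
    rw [← wr_neg]; ring_nf
  have e2 : wr r (-r + l * -x) = wr r (r + l * x) := by
    rw [← wr_neg]; ring_nf
  have e3 : wr r (-x + l * r) = wr r (x - l * r) := by
    rw [← wr_neg]; ring_nf
  have e4 : wr r (-x - l * r) = wr r (x + l * r) := by
    rw [← wr_neg]; ring_nf
  rw [e1, e2, e3, e4]
  ring

theorem T0_meas (r l : ℝ) : Measurable (T0 r l) := by
  have h := wr_measurable r
  unfold T0
  have h1 : Measurable fun x => wr r (r + l * x) := h.comp (by fun_prop)
  have h2 : Measurable fun x => wr r (-r + l * x) := h.comp (by fun_prop)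
  have h3 : Measurable fun x => wr r (x + l * r) := h.comp (by fun_prop)
  have h4 : Measurable fun x => wr r (x - l * r) := h.comp (by fun_prop)
  exact (h1.sub h2).sub (h3.sub h4)

theorem T0_bdd (r l x : ℝ) : |T0 r l x| ≤ 2 := by
  unfold T0
  have := wr_nonneg' r (r + l * x)
  have := wr_nonneg' r (-r + l * x)
  have := wr_nonneg' r (x + l * r)
  have := wr_nonneg' r (x - l * r)
  have := wr_le_one r (r + l * x)
  have := wr_le_one r (-r + l * x)
  have := wr_le_one r (x + l * r)
  have := wr_le_one r (x - l * r)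
  rw [abs_le]
  constructor <;> linarith

theorem xW_T0_int (r l a b : ℝ) : IntervalIntegrable (fun x => x * W x * T0 r l x) volume a b := by
  have h1 : IntervalIntegrable (fun x => x * W x) volume a b :=
    Continuous.intervalIntegrable (by have := W_cont; fun_prop) _ _
  have hm : ∀ μ : Measure ℝ, AEStronglyMeasurable (T0 r l) μ :=
    fun μ => (T0_meas r l).aestronglyMeasurable
  exact ⟨MeasureTheory.Integrable.mul_bdd (c := 2) h1.1 (hm _)
      (Filter.Eventually.of_forall fun x => T0_bdd r l x),
    MeasureTheory.Integrable.mul_bdd (c := 2) h1.2 (hm _)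
      (Filter.Eventually.of_forall fun x => T0_bdd r l x)⟩

theorem T0_int {r l : ℝ} (hr : 0 < r) (hl : 0 < l) (hl1 : l ≤ 1) :
    ∫ x in (-r)..r, x * W x * T0 r l x = 2 * jj r l := by
  have hW := W_cont
  have hlr : 0 < l * r := mul_pos hl hr
  have h1r : 0 ≤ (1 - l) * r := mul_nonneg (by linarith) hr.le
  have h1r' : (1 - l) * r ≤ r := by nlinarith
  rw [← intervalIntegral.integral_add_adjacent_intervals (xW_T0_int r l (-r) 0)
    (xW_T0_int r l 0 r)]
  have e1 : ∫ x in (-r)..0, x * W x * T0 r l x = ∫ x in (0:ℝ)..r, x * W x * T0 r l x := by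
    have h := intervalIntegral.integral_comp_neg (a := 0) (b := r) (fun x => x * W x * T0 r l x)
    rw [neg_zero] at h
    rw [← h]
    refine intervalIntegral.integral_congr fun x _ => ?_
    rw [T0_odd, W_even]
    ring
  rw [e1, ← two_mul]
  congr 1
  rw [← intervalIntegral.integral_add_adjacent_intervals (xW_T0_int r l 0 ((1 - l) * r))
    (xW_T0_int r l ((1 - l) * r) r)]
  have e2 : ∫ x in (0:ℝ)..((1 - l) * r), x * W x * T0 r l x =
      ∫ x in (0:ℝ)..((1 - l) * r), (x * W x * (W (x - l * r) - W (r - l * x)) -
        x * W x * W (x + l * r)) := by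
    refine intervalIntegral.integral_congr_ae (Filter.Eventually.of_forall fun x hx => ?_)
    rw [uIoc_of_le h1r] at hx
    have hx0 := hx.1
    have hx1 := hx.2
    have hlx : 0 < l * x := mul_pos hl hx0
    have hlx2 : l * x ≤ r := by nlinarith
    have w1 : wr r (r + l * x) = 0 := by
      unfold wr
      rw [if_neg]
      rw [abs_of_pos (by linarith)]
      linarith
    have w2 : wr r (-r + l * x) = W (r - l * x) := by
      rw [← wr_neg]
      unfold wr
      rw [if_pos]
      · unfold W
        ring_nf
      · rw [abs_le]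
        constructor <;> linarith
    have w3 : wr r (x + l * r) = W (x + l * r) := by
      unfold wr
      rw [if_pos]
      · rfl
      · rw [abs_le]
        constructor <;> nlinarith
    have w4 : wr r (x - l * r) = W (x - l * r) := by
      unfold wr
      rw [if_pos]
      · rfl
      · rw [abs_le]
        constructor <;> nlinarith
    unfold T0
    rw [w1, w2, w3, w4]
    ring
  have e3 : ∫ x in ((1 - l) * r)..r, x * W x * T0 r l x =
      ∫ x in ((1 - l) * r)..r, x * W x * (W (x - l * r) - W (r - l * x)) := by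
    refine intervalIntegral.integral_congr_ae (Filter.Eventually.of_forall fun x hx => ?_)
    rw [uIoc_of_le h1r'] at hx
    have hx0 := hx.1
    have hx1 := hx.2
    have hx00 : 0 < x := by linarith
    have hlx : 0 < l * x := mul_pos hl hx00
    have hlx2 : l * x ≤ r := by nlinarith
    have w1 : wr r (r + l * x) = 0 := by
      unfold wr
      rw [if_neg]
      rw [abs_of_pos (by linarith)]
      linarith
    have w2 : wr r (-r + l * x) = W (r - l * x) := by
      rw [← wr_neg]
      unfold wr
      rw [if_pos]
      · unfold W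
        ring_nf
      · rw [abs_le]
        constructor <;> linarith
    have w3 : wr r (x + l * r) = 0 := by
      unfold wr
      rw [if_neg]
      rw [abs_of_pos (by linarith)]
      linarith
    have w4 : wr r (x - l * r) = W (x - l * r) := by
      unfold wr
      rw [if_pos]
      · rfl
      · rw [abs_le]
        constructor <;> nlinarith
    unfold T0
    rw [w1, w2, w3, w4]
    ring
  rw [e2, e3, intervalIntegral.integral_sub]
  · unfold jj
    rw [← intervalIntegral.integral_add_adjacent_intervals (a := 0) (b := (1 - l) * r) (c := r)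
      (Continuous.intervalIntegrable (by fun_prop) _ _)
      (Continuous.intervalIntegrable (by fun_prop) _ _)]
    ring
  · exact Continuous.intervalIntegrable (by fun_prop) _ _
  · exact Continuous.intervalIntegrable (by fun_prop) _ _

theorem ha_T0 {r a b x : ℝ} (ha0 : 0 < a) :
    (ha r a (a * r + b * x) - ha r a (-(a * r) + b * x)) -
      (ha r a (a * x + b * r) - ha r a (a * x - b * r)) = (1 / a) * T0 r (b / a) x := by
  unfold ha T0
  have e1 : (a * r + b * x) / a = r + b / a * x := by field_simp
  have e2 : (-(a * r) + b * x) / a = -r + b / a * x := by field_simp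
  have e3 : (a * x + b * r) / a = x + b / a * r := by field_simp
  have e4 : (a * x - b * r) / a = x - b / a * r := by field_simp
  rw [e1, e2, e3, e4]
  ring

/-- the smoothed exchange derivative -/
theorem JJ_smooth {r a b τ : ℝ} (hr : 0 < r) :
    JJ r (cv r a fun x => -kg τ x) a b = W r * ∫ x in (-r)..r, x * W x *
      ((cv r a (gs τ) (a * r + b * x) - cv r a (gs τ) (-(a * r) + b * x)) -
        (cv r a (gs τ) (a * x + b * r) - cv r a (gs τ) (a * x - b * r))) :=
  exch_id (cv_deriv hr (gs_deriv τ) (kg_cont τ).neg) (cv_cont (kg_cont τ).neg) r a b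

theorem JJ_bdd {r a b τ : ℝ} (hr : 0 < r) (ha0 : 0 < a) (hτ : 0 < τ) :
    |JJ r (cv r a fun x => -kg τ x) a b| ≤ r * (4 / a) * (2 * r) := by
  rw [JJ_smooth hr, abs_mul, abs_of_pos (W_pos r)]
  have h : ‖∫ x in (-r)..r, x * W x *
      ((cv r a (gs τ) (a * r + b * x) - cv r a (gs τ) (-(a * r) + b * x)) -
        (cv r a (gs τ) (a * x + b * r) - cv r a (gs τ) (a * x - b * r)))‖ ≤
      (r * (4 / a)) * |r - -r| := by
    refine intervalIntegral.norm_integral_le_of_norm_le_const fun x hx => ?_
    rw [uIoc_of_le (by linarith)] at hx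
    have hxr : |x| ≤ r := abs_le.2 ⟨hx.1.le, hx.2⟩
    rw [Real.norm_eq_abs, abs_mul, abs_mul, abs_of_pos (W_pos x)]
    have b1 := abs_le.1 (cv_gs_bdd hr ha0 hτ (a * r + b * x))
    have b2 := abs_le.1 (cv_gs_bdd hr ha0 hτ (-(a * r) + b * x))
    have b3 := abs_le.1 (cv_gs_bdd hr ha0 hτ (a * x + b * r))
    have b4 := abs_le.1 (cv_gs_bdd hr ha0 hτ (a * x - b * r))
    have hb : |(cv r a (gs τ) (a * r + b * x) - cv r a (gs τ) (-(a * r) + b * x)) -
        (cv r a (gs τ) (a * x + b * r) - cv r a (gs τ) (a * x - b * r))| ≤ 4 / a := by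
      have e : 4 / a = 4 * (1 / a) := by ring
      rw [e, abs_le]
      constructor <;> linarith [b1.1, b1.2, b2.1, b2.2, b3.1, b3.2, b4.1, b4.2]
    have h1 : |x| * W x ≤ r := by
      calc |x| * W x ≤ |x| * 1 := mul_le_mul_of_nonneg_left (W_le_one x) (abs_nonneg x)
        _ ≤ r := by linarith
    exact mul_le_mul h1 hb (abs_nonneg _) hr.le
  rw [Real.norm_eq_abs, show r - -r = 2 * r by ring, abs_of_pos (by linarith : 0 < 2 * r)] at h
  have h0 := abs_nonneg (∫ x in (-r)..r, x * W x *
      ((cv r a (gs τ) (a * r + b * x) - cv r a (gs τ) (-(a * r) + b * x)) -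
        (cv r a (gs τ) (a * x + b * r) - cv r a (gs τ) (a * x - b * r))))
  calc _ ≤ 1 * _ := mul_le_mul_of_nonneg_right (W_le_one r) h0
    _ ≤ _ := by rw [one_mul]; exact h

theorem JJ_tendsto {r a b : ℝ} (hr : 0 < r) (ha0 : 0 < a) (hb : 0 < b) (hab : b ≤ a) :
    Tendsto (fun τ => JJ r (cv r a fun x => -kg τ x) a b) (𝓝[>] 0)
      (𝓝 (W r * (2 / a * jj r (b / a)))) := by
  have e : (fun τ => JJ r (cv r a fun x => -kg τ x) a b) = fun τ => W r * ∫ x in (-r)..r, x * W x *
      ((cv r a (gs τ) (a * r + b * x) - cv r a (gs τ) (-(a * r) + b * x)) -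
        (cv r a (gs τ) (a * x + b * r) - cv r a (gs τ) (a * x - b * r))) := by
    funext τ
    exact JJ_smooth hr
  rw [e]
  refine Tendsto.const_mul _ ?_
  have e2 : 2 / a * jj r (b / a) = ∫ x in (-r)..r, x * W x * ((1 / a) * T0 r (b / a) x) := by
    have h := T0_int hr (div_pos hb ha0) ((div_le_one ha0).2 hab)
    have e3 : ∫ x in (-r)..r, x * W x * ((1 / a) * T0 r (b / a) x) =
        (1 / a) * ∫ x in (-r)..r, x * W x * T0 r (b / a) x := by
      rw [← intervalIntegral.integral_const_mul]
      refine intervalIntegral.integral_congr fun x _ => ?_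
      ring
    rw [e3, h]
    ring
  rw [e2]
  refine intervalIntegral.tendsto_integral_filter_of_dominated_convergence
    (fun _ => r * (4 / a)) ?_ ?_ ?_ ?_
  · refine Eventually.of_forall fun τ => ?_
    refine Continuous.aestronglyMeasurable ?_
    have := W_cont
    have := cv_cont (r := r) (b := a) (gs_cont τ)
    fun_prop
  · filter_upwards [self_mem_nhdsWithin] with τ hτ
    have hτ' : 0 < τ := hτ
    refine Eventually.of_forall fun x hx => ?_
    rw [uIoc_of_le (by linarith)] at hx
    have hxr : |x| ≤ r := abs_le.2 ⟨hx.1.le, hx.2⟩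
    rw [Real.norm_eq_abs, abs_mul, abs_mul, abs_of_pos (W_pos x)]
    have b1 := abs_le.1 (cv_gs_bdd hr ha0 hτ' (a * r + b * x))
    have b2 := abs_le.1 (cv_gs_bdd hr ha0 hτ' (-(a * r) + b * x))
    have b3 := abs_le.1 (cv_gs_bdd hr ha0 hτ' (a * x + b * r))
    have b4 := abs_le.1 (cv_gs_bdd hr ha0 hτ' (a * x - b * r))
    have hb : |(cv r a (gs τ) (a * r + b * x) - cv r a (gs τ) (-(a * r) + b * x)) -
        (cv r a (gs τ) (a * x + b * r) - cv r a (gs τ) (a * x - b * r))| ≤ 4 / a := by
      have e : 4 / a = 4 * (1 / a) := by ring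
      rw [e, abs_le]
      constructor <;> linarith [b1.1, b1.2, b2.1, b2.2, b3.1, b3.2, b4.1, b4.2]
    have h1 : |x| * W x ≤ r := by
      calc |x| * W x ≤ |x| * 1 := mul_le_mul_of_nonneg_left (W_le_one x) (abs_nonneg x)
        _ ≤ r := by linarith
    exact mul_le_mul h1 hb (abs_nonneg _) hr.le
  · exact intervalIntegrable_const
  · -- pointwise convergence off a finite set
    have hS : (({0, -(2 * a * r / b), 2 * a * r / b, (a * r - b * r) / a, (-(a * r) - b * r) / a,
        (a * r + b * r) / a, (-(a * r) + b * r) / a} : Set ℝ)).Countable := by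
      apply Set.Finite.countable
      exact Set.toFinite _
    filter_upwards [hS.ae_notMem volume] with x hx _
    simp only [mem_insert_iff, mem_singleton_iff, not_or] at hx
    obtain ⟨x0, x1, x2, x3, x4, x5, x6⟩ := hx
    rw [← ha_T0 ha0]
    refine Tendsto.const_mul _ ?_
    have key : ∀ v, |v| ≠ a * r → Tendsto (fun τ => cv r a (gs τ) v) (𝓝[>] 0) (𝓝 (ha r a v)) :=
      fun v hv => cv_gs_tendsto hr ha0 hv
    have har : 0 < a * r := mul_pos ha0 hr
    have hb0 : b ≠ 0 := hb.ne'
    have ha1 : a ≠ 0 := ha0.ne'
    refine Tendsto.sub (Tendsto.sub (key _ ?_) (key _ ?_)) (Tendsto.sub (key _ ?_) (key _ ?_))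
    · intro h
      rcases (abs_eq har.le).1 h with h | h
      · apply x0
        have : b * x = 0 := by linarith
        exact (mul_eq_zero.1 this).resolve_left hb0
      · apply x1
        field_simp
        linarith
    · intro h
      rcases (abs_eq har.le).1 h with h | h
      · apply x2
        field_simp
        linarith
      · apply x0
        have : b * x = 0 := by linarith
        exact (mul_eq_zero.1 this).resolve_left hb0
    · intro h
      rcases (abs_eq har.le).1 h with h | h
      · apply x3
        rw [eq_div_iff ha1]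
        linarith
      · apply x4
        rw [eq_div_iff ha1]
        linarith
    · intro h
      rcases (abs_eq har.le).1 h with h | h
      · apply x5
        rw [eq_div_iff ha1]
        linarith
      · apply x6
        rw [eq_div_iff ha1]
        linarith

end Pool.Agent.H770.GS
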