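import Pool.Agent.H770.GS.Fam3b

/-!
# The family `(a, a, b)`: the section function has its maximum at an end point
-/

set_option autoImplicit false

open MeasureTheory Set intervalIntegral Filter Topology

namespace Pool.Agent.H770.GS

open Pool.Agent.Helper82.GC

/-- the family of directions -/
noncomputable def fam (φ : ℝ) : EuclideanSpace ℝ (Fin 3) :=
  !₂[Real.cos φ / Real.sqrt 2, Real.cos φ / Real.sqrt 2, Real.sin φ]

theorem fam_norm (φ : ℝ) : ‖fam φ‖ = 1 := by
  rw [EuclideanSpace.norm_eq, Fin.sum_univ_three]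
  simp only [fam]
  simp only [Matrix.cons_val, Real.norm_eq_abs, sq_abs, div_pow]
  rw [Real.sq_sqrt (by norm_num)]
  have h := Real.sin_sq_add_cos_sq φ
  rw [show Real.cos φ ^ 2 / 2 + Real.cos φ ^ 2 / 2 + Real.sin φ ^ 2 = 1 by linarith, Real.sqrt_one]

theorem fam_dens (r τ φ : ℝ) :
    dens r (List.ofFn fun i => (fam φ) i) (gs τ) 0 = D3 r (gs τ) φ := by
  have h : (List.ofFn fun i => (fam φ) i) =
      [Real.cos φ / Real.sqrt 2, Real.cos φ / Real.sqrt 2, Real.sin φ] := by
    simp [fam, List.ofFn_succ]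
  rw [h, dens_cons, dens_cons, dens_cons, dens_nil]
  rfl

/-- the limiting derivative -/
noncomputable def hh (r φ : ℝ) : ℝ := Real.sqrt 2 * (W r * (2 / (Real.cos φ / Real.sqrt 2) *
  jj r (Real.sin φ / (Real.cos φ / Real.sqrt 2))))

theorem jj_cont (r : ℝ) : Continuous (jj r) := by
  have e : jj r = fun l => Real.exp (-(l ^ 2 * r ^ 2 / 2)) * (jA r l - jB r l) := by
    funext l
    exact jj_eq
  rw [e]
  have h1 : Continuous (jA r) := continuous_iff_continuousAt.2 fun x => (jA_deriv r x).continuousAt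
  have h2 : Continuous (jB r) := continuous_iff_continuousAt.2 fun x => (jB_deriv r x).continuousAt
  fun_prop

theorem hh_contOn (r : ℝ) {s : Set ℝ} (hs : ∀ φ ∈ s, Real.cos φ ≠ 0) : ContinuousOn (hh r) s := by
  unfold hh
  have h2 : Real.sqrt 2 ≠ 0 := by positivity
  have hj := jj_cont r
  have c1 : ContinuousOn (fun φ => 2 / (Real.cos φ / Real.sqrt 2)) s := by
    refine ContinuousOn.div (by fun_prop) (by fun_prop) ?_
    intro φ hφ
    exact div_ne_zero (hs φ hφ) h2
  have c2 : ContinuousOn (fun φ => Real.sin φ / (Real.cos φ / Real.sqrt 2)) s := by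
    refine ContinuousOn.div (by fun_prop) (by fun_prop) ?_
    intro φ hφ
    exact div_ne_zero (hs φ hφ) h2
  have c3 : ContinuousOn (fun φ => jj r (Real.sin φ / (Real.cos φ / Real.sqrt 2))) s :=
    hj.comp_continuousOn c2
  exact continuousOn_const.mul (continuousOn_const.mul (c1.mul c3))

theorem D3_deriv_cont {d : ℝ → ℝ} (hd : Continuous d) (r : ℝ) :
    Continuous fun φ => (∫ x in (-r)..r, ∫ y in (-r)..r, ∫ z in (-r)..r, W x * (W y * (W z *
      (d (Real.cos φ / Real.sqrt 2 * x + Real.cos φ / Real.sqrt 2 * y + Real.sin φ * z) *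
        (-Real.sin φ / Real.sqrt 2 * x + -Real.sin φ / Real.sqrt 2 * y + Real.cos φ * z))))) := by
  have hW := W_cont
  refine intervalIntegral.continuous_parametric_intervalIntegral_of_continuous' ?_ _ _
  have this : (Function.uncurry fun φ x => ∫ y in (-r)..r, ∫ z in (-r)..r, W x * (W y * (W z *
        (d (Real.cos φ / Real.sqrt 2 * x + Real.cos φ / Real.sqrt 2 * y + Real.sin φ * z) *
        (-Real.sin φ / Real.sqrt 2 * x + -Real.sin φ / Real.sqrt 2 * y + Real.cos φ * z))))) =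
        fun p : ℝ × ℝ => ∫ y in (-r)..r, ∫ z in (-r)..r, W p.2 * (W y * (W z *
        (d (Real.cos p.1 / Real.sqrt 2 * p.2 + Real.cos p.1 / Real.sqrt 2 * y + Real.sin p.1 * z) *
        (-Real.sin p.1 / Real.sqrt 2 * p.2 + -Real.sin p.1 / Real.sqrt 2 * y +
          Real.cos p.1 * z)))) := by
    funext p; rfl
  rw [this]
  refine intervalIntegral.continuous_parametric_intervalIntegral_of_continuous' ?_ _ _
  have h2 : (Function.uncurry fun (p : ℝ × ℝ) (y : ℝ) => ∫ z in (-r)..r, W p.2 * (W y * (W z *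
        (d (Real.cos p.1 / Real.sqrt 2 * p.2 + Real.cos p.1 / Real.sqrt 2 * y + Real.sin p.1 * z) *
        (-Real.sin p.1 / Real.sqrt 2 * p.2 + -Real.sin p.1 / Real.sqrt 2 * y +
          Real.cos p.1 * z))))) = fun q : (ℝ × ℝ) × ℝ => ∫ z in (-r)..r, W q.1.2 * (W q.2 * (W z *
        (d (Real.cos q.1.1 / Real.sqrt 2 * q.1.2 + Real.cos q.1.1 / Real.sqrt 2 * q.2 +
          Real.sin q.1.1 * z) *
        (-Real.sin q.1.1 / Real.sqrt 2 * q.1.2 + -Real.sin q.1.1 / Real.sqrt 2 * q.2 +
          Real.cos q.1.1 * z)))) := by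
    funext q; rfl
  rw [h2]
  refine intervalIntegral.continuous_parametric_intervalIntegral_of_continuous' ?_ _ _
  fun_prop

theorem D3_ftc {τ r φ1 φ2 : ℝ} : D3 r (gs τ) φ2 - D3 r (gs τ) φ1 =
    ∫ φ in φ1..φ2, Real.sqrt 2 * JJ r (cv r (Real.cos φ / Real.sqrt 2) fun x => -kg τ x)
      (Real.cos φ / Real.sqrt 2) (Real.sin φ) := by
  have hk : Continuous fun x => -kg τ x := (kg_cont τ).neg
  have e : ∀ φ, Real.sqrt 2 * JJ r (cv r (Real.cos φ / Real.sqrt 2) fun x => -kg τ x)
      (Real.cos φ / Real.sqrt 2) (Real.sin φ) = _ := fun φ => (D3_deriv_eq hk r φ).symm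
  rw [intervalIntegral.integral_congr (fun φ _ => e φ)]
  rw [intervalIntegral.integral_eq_sub_of_hasDerivAt
    (fun φ _ => D3_deriv (gs_deriv τ) hk r φ)]
  exact Continuous.intervalIntegrable (D3_deriv_cont hk r) _ _

theorem fam_ftc {r φ1 φ2 : ℝ} (hr : 0 < r) (h0 : 0 ≤ φ1) (h12 : φ1 ≤ φ2) (h2 : φ2 < Real.pi / 2)
    (h3 : Real.sin φ2 ≤ Real.cos φ2 / Real.sqrt 2) :
    Asl r (fam φ2) 0 - Asl r (fam φ1) 0 = ∫ φ in φ1..φ2, hh r φ := by
  have hs2 : 0 < Real.sqrt 2 := by positivity
  have hpi := Real.pi_pos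
  have hcos : ∀ φ ∈ Icc φ1 φ2, 0 < Real.cos φ := fun φ hφ =>
    Real.cos_pos_of_mem_Ioo ⟨by linarith [hφ.1], by linarith [hφ.2]⟩
  have t1 : Tendsto (fun τ => D3 r (gs τ) φ2 - D3 r (gs τ) φ1) (𝓝[>] 0)
      (𝓝 (Asl r (fam φ2) 0 - Asl r (fam φ1) 0)) := by
    have a1 := dens_tendsto hr (fam φ2) (fam_norm φ2)
    have a2 := dens_tendsto hr (fam φ1) (fam_norm φ1)
    refine (a1.sub a2).congr fun τ => ?_
    rw [fam_dens, fam_dens]
  have t2 : Tendsto (fun τ => D3 r (gs τ) φ2 - D3 r (gs τ) φ1) (𝓝[>] 0)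
      (𝓝 (∫ φ in φ1..φ2, hh r φ)) := by
    have e : (fun τ => D3 r (gs τ) φ2 - D3 r (gs τ) φ1) = fun τ => ∫ φ in φ1..φ2,
        Real.sqrt 2 * JJ r (cv r (Real.cos φ / Real.sqrt 2) fun x => -kg τ x)
      (Real.cos φ / Real.sqrt 2) (Real.sin φ) := by
      funext τ
      exact D3_ftc
    rw [e]
    refine intervalIntegral.tendsto_integral_filter_of_dominated_convergence
      (fun φ => Real.sqrt 2 * (r * (4 / (Real.cos φ / Real.sqrt 2)) * (2 * r))) ?_ ?_ ?_ ?_
    · refine Eventually.of_forall fun τ => ?_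
      refine Continuous.aestronglyMeasurable ?_
      have hk : Continuous fun x => -kg τ x := (kg_cont τ).neg
      refine (D3_deriv_cont hk r).congr fun φ => ?_
      exact D3_deriv_eq hk r φ
    · filter_upwards [self_mem_nhdsWithin] with τ hτ
      refine Eventually.of_forall fun φ hφ => ?_
      rw [uIoc_of_le h12] at hφ
      have hc := hcos φ ⟨hφ.1.le, hφ.2⟩
      rw [Real.norm_eq_abs, abs_mul, abs_of_pos hs2]
      exact mul_le_mul_of_nonneg_left (JJ_bdd hr (div_pos hc hs2) hτ) hs2.le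
    · refine ContinuousOn.intervalIntegrable ?_
      rw [uIcc_of_le h12]
      have c1 : ContinuousOn (fun φ => 4 / (Real.cos φ / Real.sqrt 2)) (Icc φ1 φ2) := by
        refine ContinuousOn.div (by fun_prop) (by fun_prop) ?_
        intro φ hφ
        exact div_ne_zero (hcos φ hφ).ne' hs2.ne'
      exact continuousOn_const.mul ((continuousOn_const.mul c1).mul continuousOn_const)
    · refine Eventually.of_forall fun φ hφ => ?_
      rw [uIoc_of_le h12] at hφ
      have hc := hcos φ ⟨hφ.1.le, hφ.2⟩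
      have hs : 0 < Real.sin φ := Real.sin_pos_of_pos_of_lt_pi (by linarith [hφ.1])
        (by linarith [hφ.2])
      have hsc : Real.sin φ ≤ Real.cos φ / Real.sqrt 2 := by
        have m1 : Real.sin φ ≤ Real.sin φ2 :=
          Real.sin_le_sin_of_le_of_le_pi_div_two (by linarith [hφ.1]) h2.le hφ.2
        have m2 : Real.cos φ2 ≤ Real.cos φ :=
          Real.cos_le_cos_of_nonneg_of_le_pi (by linarith [hφ.1]) (by linarith) hφ.2
        have m3 : Real.cos φ2 / Real.sqrt 2 ≤ Real.cos φ / Real.sqrt 2 := by gcongr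
        linarith
      exact Tendsto.const_mul _ (JJ_tendsto hr (div_pos hc hs2) hs hsc)
  exact tendsto_nhds_unique t1 t2

/-- the section function along the family is smaller inside than at one of the end points -/
theorem fam_max {r φ φs : ℝ} (hr : 0 < r) (h0 : 0 < φ) (h1 : φ < φs) (h2 : φs < Real.pi / 2)
    (h3 : Real.sin φs = Real.cos φs / Real.sqrt 2) :
    Asl r (fam φ) 0 < max (Asl r (fam 0) 0) (Asl r (fam φs) 0) := by
  have hs2 : 0 < Real.sqrt 2 := by positivity
  have hpi := Real.pi_pos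
  have hcos : ∀ x ∈ Icc 0 φs, 0 < Real.cos x := fun x hx =>
    Real.cos_pos_of_mem_Ioo ⟨by linarith [hx.1], by linarith [hx.2]⟩
  have hlam : ∀ x, Real.sin x / (Real.cos x / Real.sqrt 2) = Real.sqrt 2 * Real.tan x := by
    intro x
    rw [Real.tan_eq_sin_div_cos, div_div_eq_mul_div]
    ring
  have hlt : ∀ x y, 0 ≤ x → x < y → y ≤ φs →
      Real.sin x / (Real.cos x / Real.sqrt 2) < Real.sin y / (Real.cos y / Real.sqrt 2) := by
    intro x y hx hxy hy
    rw [hlam, hlam]
    exact mul_lt_mul_of_pos_left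
      (Real.tan_lt_tan_of_nonneg_of_lt_pi_div_two hx (by linarith) hxy) hs2
  have hone : Real.sin φs / (Real.cos φs / Real.sqrt 2) = 1 := by
    rw [h3]
    exact div_self (div_pos (hcos φs ⟨by linarith, le_rfl⟩) hs2).ne'
  have hnn : ∀ x, 0 ≤ x → x ≤ φs → 0 ≤ Real.sin x / (Real.cos x / Real.sqrt 2) := by
    intro x hx hx2
    exact div_nonneg (Real.sin_nonneg_of_nonneg_of_le_pi hx (by linarith))
      (div_pos (hcos x ⟨hx, hx2⟩) hs2).le
  have hsc : ∀ x, 0 ≤ x → x ≤ φs → Real.sin x ≤ Real.cos x / Real.sqrt 2 := by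
    intro x hx hx2
    have m1 : Real.sin x ≤ Real.sin φs :=
      Real.sin_le_sin_of_le_of_le_pi_div_two (by linarith) h2.le hx2
    have m2 : Real.cos φs ≤ Real.cos x :=
      Real.cos_le_cos_of_nonneg_of_le_pi hx (by linarith) hx2
    have m3 : Real.cos φs / Real.sqrt 2 ≤ Real.cos x / Real.sqrt 2 := by gcongr
    linarith
  rcases le_or_gt 0 (jj r (Real.sin φ / (Real.cos φ / Real.sqrt 2))) with hj | hj
  · -- increasing up to `φs`
    apply lt_max_of_lt_right
    rw [← sub_pos, fam_ftc hr h0.le h1.le h2 h3.le]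
    refine intervalIntegral.intervalIntegral_pos_of_pos_on ?_ ?_ h1
    · refine ContinuousOn.intervalIntegrable ?_
      rw [uIcc_of_le h1.le]
      exact hh_contOn r fun x hx => (hcos x ⟨by linarith [hx.1], hx.2⟩).ne'
    · intro x hx
      have hcx := hcos x ⟨by linarith [hx.1], hx.2.le⟩
      have hjx : 0 < jj r (Real.sin x / (Real.cos x / Real.sqrt 2)) :=
        jj_cross hr (hnn φ h0.le h1.le) (hlt φ x h0.le hx.1 hx.2.le)
          (by rw [← hone]; exact hlt x φs (by linarith [hx.1]) hx.2 le_rfl) hj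
      unfold hh
      have := W_pos r
      positivity
  · -- decreasing from `0`
    apply lt_max_of_lt_left
    rw [← sub_neg, fam_ftc hr le_rfl h0.le (by linarith) (hsc φ h0.le h1.le)]
    rw [← neg_pos, ← intervalIntegral.integral_neg]
    refine intervalIntegral.intervalIntegral_pos_of_pos_on ?_ ?_ h0
    · refine ContinuousOn.intervalIntegrable ?_
      rw [uIcc_of_le h0.le]
      exact (hh_contOn r fun x hx => (hcos x ⟨hx.1, by linarith [hx.2]⟩).ne').neg
    · intro x hx
      have hcx := hcos x ⟨hx.1.le, by linarith [hx.2]⟩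
      have hjx : jj r (Real.sin x / (Real.cos x / Real.sqrt 2)) < 0 := by
        by_contra hc
        push Not at hc
        have := jj_cross hr (hnn x hx.1.le (by linarith [hx.2])) (hlt x φ hx.1.le hx.2 h1.le)
          (by rw [← hone]; exact hlt φ φs h0.le h1 le_rfl) hc
        linarith
      unfold hh
      have := W_pos r
      have h5 : 0 < 2 / (Real.cos x / Real.sqrt 2) := by positivity
      have h6 : 2 / (Real.cos x / Real.sqrt 2) *
          jj r (Real.sin x / (Real.cos x / Real.sqrt 2)) < 0 := mul_neg_of_pos_of_neg h5 hjx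
      have h7 := mul_neg_of_pos_of_neg this h6
      have h8 := mul_neg_of_pos_of_neg hs2 h7
      linarith

end Pool.Agent.H770.GS
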