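import Pool.Agent.H770.GS.AllDim

/-!
# Project TH: values at the two special directions, and adding a zero coordinate: statements
-/

set_option autoImplicit false

open MeasureTheory Set intervalIntegral Filter Topology

namespace Pool.Agent.H770.GS

open Pool.Agent.Helper82.GC

/-- **TH1** (value at the main diagonal as an integral). Proof. As `diag_value` (case `r = 1`) in
`Pool/Graph/R_seed8/Helper82/GC/Fin2.lean`, with `slice_eq_J` (`B4.lean`) directly; see also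
`Pool.Agent.H376.GScont` (continuity; it shows how `Asl r θ 0` is rewritten by `slice_eq_J`) and
`Pool/Agent/H280/TF1.lean`. Integrability of the product: it is dominated by `phi r (t/√n) ^ 2`
(`phi_sq_integrable`). -/
def S_TH1 : Prop := ∀ (r : ℝ) (k : ℕ), 0 < r →
  (2 * Real.pi) ^ (-((k + 1 : ℕ) : ℝ) / 2) *
      Asl r (dirAB k (1 / Real.sqrt (k + 2)) (1 / Real.sqrt (k + 2))) 0 =
    (2 * Real.pi) ^ (-(((k + 2 : ℕ) : ℝ) + 1) / 2) * ∫ t : ℝ,
      (∫ x in (-r)..r, Real.cos (t * x / Real.sqrt (k + 2)) * Real.exp (-x ^ 2 / 2)) ^ (k + 2)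

/-- **TH2** (value at `(1,1,0,…,0)/√2`). Proof. `FF r k 0 = √2 * pt r 0 * Zr r ^ k` (`dens` of a constant function:
each `cv r b` multiplies a constant by `∫_{-r}^{r} W = Zr r`), `pt r 0 = fL r 0 = I2 r`, and
`√2 * I2 r = ∫_{-√2 r}^{√2 r} e^(-u²/2) du = Zr (√2 r)` (substitution; cf. `Zr_sqrt_two` in `Fin2.lean`). -/
def S_TH2 : Prop := ∀ (r : ℝ) (k : ℕ), 0 < r →
  FF r k 0 = Zr (Real.sqrt 2 * r) * Zr r ^ k

/-- **TH3** (a zero coordinate). Proof. `dens_tendsto` on both sides: with `L' = (0 :: L)` a permutation of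
`L ++ [0]`, `dens r (L ++ [0]) (gs τ) 0 = cv r 0 (dens r L (gs τ)) 0 = Zr r * dens r L (gs τ) 0` (`dens_perm`,
`dens_cons`, `cv r 0 g v = (∫_{-r}^{r} W) * g v`), `ofFn_vec`. -/
def S_TH3 : Prop := ∀ (r : ℝ) (n : ℕ) (L : List ℝ), 0 < r → L.length = n →
  (L.map fun x => x ^ 2).sum = 1 → Asl r (vec (n + 1) (L ++ [0])) 0 = Zr r * Asl r (vec n L) 0

/-- **TH4** (order of the dimensions). Proof. Let `n = k + 2`, `d = 1/√n`. If `FF r k 0 ≤ FF r k k`: in dimension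
`n + 1`, the unit vector `L ++ [0]`, `L = replicate n d`, has the value `Zr r * FF r k k` (`S_TH3`, `Asl_Dn`;
`dirAB k d d = vec n (replicate n d)`), which by the hypothesis `h` is at most `max (FF r (k+1) 0) (FF r (k+1) (k+1))`
(`Asl_D2`, `Asl_Dn`). And `FF r (k+1) 0 = Zr r * FF r k 0 ≤ Zr r * FF r k k` by `S_TH2`.
So if the maximum is `FF r (k+1) 0`, then `FF r (k+1) 0 ≤ Zr r * FF r k k ≤ max …`; in both cases
`FF r (k+1) 0 ≤ FF r (k+1) (k+1)` unless `FF r (k+1) (k+1) < FF r (k+1) 0`, in which case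
`Zr r * FF r k k ≤ FF r (k+1) 0 = Zr r * FF r k 0 ≤ Zr r * FF r k k`: so the statement has the strict hypothesis:
`FF r k 0 < FF r k k` implies `FF r (k+1) 0 < FF r (k+1) (k+1)`: indeed
`FF r (k+1) 0 = Zr r * FF r k 0 < Zr r * FF r k k ≤ max (FF r (k+1) 0) (FF r (k+1) (k+1))`. -/
def S_TH4 : Prop := S_TH2 → S_TH3 → ∀ (r : ℝ) (k : ℕ), 0 < r → 1 ≤ k →
  (∀ θ : EuclideanSpace ℝ (Fin (k + 1 + 2)), ‖θ‖ = 1 →
    Asl r θ 0 ≤ max (Asl r (dirAB (k + 1) (1 / Real.sqrt 2) 0) 0)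
      (Asl r (dirAB (k + 1) (1 / Real.sqrt ((k + 1 : ℕ) + 2)) (1 / Real.sqrt ((k + 1 : ℕ) + 2))) 0)) →
  FF r k 0 < FF r k k → FF r (k + 1) 0 < FF r (k + 1) ((k + 1 : ℕ) : ℝ)

end Pool.Agent.H770.GS
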