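import Pool.Agent.H770.GS.TB

/-!
# Project UQ, second part: strict versions of some statements of `TB.lean`
-/

set_option autoImplicit false

open MeasureTheory Set intervalIntegral Filter Topology

namespace Pool.Agent.H770.GS

open Pool.Agent.Helper82.GC

/-- **UQ18** (strict form of `S_V`). Proof. This is what the proof of `S_V`
(`Pool.Agent.H157.TBV.tbv`, lemma `point`) shows: `t = (M-μ)/(M-√2)`, `M = √(2+l²)`, `μ = √(2+s)`. -/
def S_Vt : Prop := ∀ (r l : ℝ) (k : ℕ), 0 < r → r ^ 2 ≤ 9 / 4 → 0 < l → l < 1 →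
  (∀ x, 0 ≤ x → x ≤ 2 * r → 0 ≤ YY r (l ^ 2) x) → 1 ≤ k →
  ∀ s, 0 < s → s < l ^ 2 → ∃ t : ℝ, 0 < t ∧ t < 1 ∧
    FF r k s ≤ t * FF r k 0 + (1 - t) * FF r k (l ^ 2)

/-- **UQ19** (strict form of `S_H`). Proof. As `Pool.Agent.H278.TBH.s_H`, keeping one strict inequality (for instance
`N > 0`; the minimum of `N` is about `0.036`, and the factor `1 - β` is positive). -/
def S_Hs : Prop := ∀ r β : ℝ, 0 < r → 1 / 2 ≤ β ^ 2 → 0 ≤ β → β < 1 → 0 < HH r β

/-- **UQ20** (strict form of `S_F2`). Proof. As `Pool.Agent.H396.TB.F2`, with `StrictMonoOn` instead of `MonotoneOn`. -/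
def S_F2s : Prop := S_Hs → ∀ r : ℝ, 0 < r → ∀ s1 s2, 1 ≤ s1 → s1 < s2 → s2 ≤ 2 →
  FF r 2 s1 < FF r 2 s2

end Pool.Agent.H770.GS
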