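import Pool.Agent.H770.GS.UQ
import Pool.Agent.H770.GS.UQB

/-!
# Project UQ, third part: final statements
-/

set_option autoImplicit false

open MeasureTheory Set intervalIntegral Filter Topology

namespace Pool.Agent.H770.GS

open Pool.Agent.Helper82.GC

/-- the list of `(1, 1, 0, …, 0)/√2` -/
noncomputable def L2 (k : ℕ) : List ℝ :=
  (1 / Real.sqrt 2) :: (1 / Real.sqrt 2) :: List.replicate k 0

/-- the list of `(1, …, 1)/√n`, `n = k + 2` -/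
noncomputable def Ln (k : ℕ) : List ℝ :=
  List.replicate (k + 2) (1 / Real.sqrt (k + 2))

/-- **UQ21** (conclusion for `k ≥ 2`). Proof. `L = a :: a :: replicate k b` by `hTw`. `b = a` gives `Ln k` and `b = 0` gives
`L2 k` (norm one). Let `0 < b < a` and `s = k b²/a²`; the value `M` of `L` is `FF r k s` (`S_link`; `dirAB k a b` is
`vec (k+2) L`). By `hEx`, `c b² < a²`, so `0 < s < k/c`. Let `a' = √(c/(2c+k))`, `b' = √(1/(2c+k))`, `0 < b' < a'`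
(if `c > 1`), `a'² = c b'²`, unit vector, with value `FF r k (k/c)` (see the end of the proof of `all_of` in `All.lean`).
If `M ≤ FF r k (k/c)`, then `a' :: a' :: replicate k b'` is `MaxL`, contradicting `hEx`. So `FF r k (k/c) < M`. If `s ≥ 1`:
`M = FF r k s ≤ FF r k (k/c)` by `hmid`, contradiction. If `l² ≤ s ≤ 1`: `hmono`, then `hmid` for `1`. If `s < l²`: `hV` and
`FF r k 0 ≤ M` (the unit vector `dirAB k (1/√2) 0` has the value `FF r k 0`, `S_link`) give `M ≤ FF r k (l²)`, and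
`FF r k (l²) ≤ FF r k 1 ≤ FF r k (k/c)`, contradiction. -/
def S_fin3 : Prop := S_link → ∀ (r c l : ℝ) (k : ℕ), 0 < r → 1 ≤ k → 1 < c → c ≤ k → 0 < l → l < 1 →
  (∀ L : List ℝ, MaxL r (k + 2) L → L.Pairwise (· ≥ ·) →
    ∃ a b : ℝ, 0 ≤ b ∧ b ≤ a ∧ 0 < a ∧ L = a :: a :: List.replicate k b) →
  (∀ a b : ℝ, 0 < b → b < a → a ^ 2 ≤ c * b ^ 2 → MaxL r (k + 2) (a :: a :: List.replicate k b) → False) →
  (∀ s, 1 ≤ s → s ≤ k / c → FF r k s ≤ FF r k (k / c)) →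
  (∀ s, l ^ 2 ≤ s → s ≤ 1 → FF r k s ≤ FF r k 1) →
  (∀ s, 0 < s → s < l ^ 2 → ∃ t : ℝ, 0 < t ∧ t < 1 ∧
    FF r k s ≤ t * FF r k 0 + (1 - t) * FF r k (l ^ 2)) →
  ∀ L : List ℝ, MaxL r (k + 2) L → L.Pairwise (· ≥ ·) → L = L2 k ∨ L = Ln k

/-- **UQ22** (conclusion for `k = 2`). Proof. As `S_fin3`, but simpler: for `0 < b < a`, `s = 2 b²/a² ∈ (0,2)`, and
`FF r 2 2` is the value of the unit vector `dirAB 2 (1/√4) (1/√4)`, so `FF r 2 2 ≤ M`. `s ≥ 1`: `M = FF r 2 s < FF r 2 2`.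
`l² ≤ s ≤ 1`: `M ≤ FF r 2 1 < FF r 2 2`. `s < l²`: `M ≤ FF r 2 (l²)`, as before. -/
def S_fin2 : Prop := S_link → ∀ (r l : ℝ), 0 < r → 0 < l → l < 1 →
  (∀ L : List ℝ, MaxL r (2 + 2) L → L.Pairwise (· ≥ ·) →
    ∃ a b : ℝ, 0 ≤ b ∧ b ≤ a ∧ 0 < a ∧ L = a :: a :: List.replicate 2 b) →
  (∀ s1 s2, 1 ≤ s1 → s1 < s2 → s2 ≤ 2 → FF r 2 s1 < FF r 2 s2) →
  (∀ s, l ^ 2 ≤ s → s ≤ 1 → FF r 2 s ≤ FF r 2 1) →
  (∀ s, 0 < s → s < l ^ 2 → ∃ t : ℝ, 0 < t ∧ t < 1 ∧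
    FF r 2 s ≤ t * FF r 2 0 + (1 - t) * FF r 2 (l ^ 2)) →
  ∀ L : List ℝ, MaxL r (2 + 2) L → L.Pairwise (· ≥ ·) → L = L2 2 ∨ L = Ln 2

/-- **UQ23** (from lists to vectors). Proof. `srt θ` is sorted, nonnegative, of length `n` and norm one (`srt_length`,
`srt_nonneg`, `srt_sq`, `srt_sorted`); `Asl r (vec n (srt θ)) 0 = Asl r θ 0` (`Asl_congr` in `Res3.lean`, or
`dens_tendsto` and `dens_srt`). Conversely, if `srt θ = L` then the values agree. -/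
def S_srt : Prop := ∀ (r : ℝ) (n : ℕ) (θ : EuclideanSpace ℝ (Fin n)), 0 < r → ‖θ‖ = 1 →
  Asl r (vec n (srt θ)) 0 = Asl r θ 0 ∧
  ((∀ θ' : EuclideanSpace ℝ (Fin n), ‖θ'‖ = 1 → Asl r θ' 0 ≤ Asl r θ 0) → MaxL r n (srt θ))

/-- **UQ24** (description of the two directions). Proof. `srt θ` is a permutation of the list of the `|θ i|`. For the first
equivalence: if two coordinates have absolute value `1/√2` then the others vanish (norm one), and a sorted list is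
determined by its elements. Compare `srt_two_iff'`, `srt_three_iff`, `srt_of_perm` in `Res3.lean` (case `n = 3`). -/
def S_desc : Prop := ∀ (k : ℕ) (θ : EuclideanSpace ℝ (Fin (k + 2))), ‖θ‖ = 1 →
  (srt θ = L2 k ↔ ∃ i j, i ≠ j ∧ |θ i| = 1 / Real.sqrt 2 ∧ |θ j| = 1 / Real.sqrt 2) ∧
  (srt θ = Ln k ↔ ∀ i, |θ i| = 1 / Real.sqrt (k + 2))

end Pool.Agent.H770.GS
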