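import Pool.Agent.H770.GS.AllDim2
import Pool.Agent.H770.GS.UQC
import Pool.Agent.H187.UQ1
import Pool.Agent.H663.UQ2
import Pool.Agent.H729.UQ3
import Pool.Agent.H695.UQ4
import Pool.Agent.H284.UQ5
import Pool.Agent.H296.UQ6
import Pool.Agent.H402.UQ7
import Pool.Agent.H494.UQ8
import Pool.Agent.H898.UQ9
import Pool.Agent.H42.UQ10
import Pool.Agent.H21.UQ11
import Pool.Agent.H308.UQ13
import Pool.Agent.H169.UQ14
import Pool.Agent.H828.UQ15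
import Pool.Agent.H199.UQ16
import Pool.Agent.H922.UQ17
import Pool.Agent.H23.UQ18
import Pool.Agent.H396.UQ19
import Pool.Agent.H790.UQ20
import Pool.Agent.H284.UQ21
import Pool.Agent.H117.UQ22
import Pool.Agent.H353.UQ24
import Pool.Agent.H139.UQ12
import Pool.Agent.H163.UQ23

/-!
# Uniqueness of the maximizers
-/

set_option autoImplicit false

open MeasureTheory Set intervalIntegral Filter Topology

namespace Pool.Agent.H770.GS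

open Pool.Agent.Helper82.GC

theorem u_strict : Strict :=
  Pool.Agent.H21.UQ.uq11 Pool.Agent.H284.UQ5.uq5 Pool.Agent.H494.UQ.gainx Pool.Agent.H898.UQ9.low
    Pool.Agent.H42.UQ10.uq10 Pool.Agent.H187.UQ1.win Pool.Agent.H663.UQ.uq2_mixed
    Pool.Agent.H729.UQ3.uq3 Pool.Agent.H695.UQ4.pos Pool.Agent.H296.UQ6.s_four
    Pool.Agent.H402.UQ.s_JJ

theorem htr_all {r : ℝ} (hr : 0 < r) (hr2 : r ≤ 3 / 2) : ∀ a b τ : ℝ, 0 < b → b ≤ a →
    a ^ 2 ≤ 3 * b ^ 2 → 0 < τ → P 0 (cv r a (cv r b (cv r b (kg τ)))) := by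
  intro a b τ hb hba hab hτ
  rcases le_total r 1 with h1 | h1
  · exact triple2 r b a τ hr h1 hb hba hab hτ
  · rcases le_total (a ^ 2) (2 * b ^ 2) with h | h
    · exact triple1 r b a τ hr (by nlinarith) hb hba h hτ
    · exact triple3 r b a τ h1 hr2 hb hba h hab hτ

theorem hII_all {r : ℝ} (hr1 : 0.3925 ≤ r ^ 2) (hr : 0 < r) (hr2 : r ≤ 3 / 2) {k : ℕ} (hk : 4 ≤ k) :
    ∀ b : ℝ, 0 < b → b ^ 2 ≤ 1 / 3 → 1 ≤ k * b ^ 2 →
      0 ≤ ∫ τ in Ioi (0:ℝ), II (r ^ 2 / 2) k b τ := by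
  intro b hb hb3 hkb
  rcases le_total r 1 with h1 | h1
  · exact II_nonneg (r ^ 2 / 2) b k (by linarith) (by nlinarith) hb hb3 hk hkb
  · exact II_nonneg2 (r ^ 2 / 2) b k (by nlinarith) (by nlinarith) hb hb3 hk hkb

/-- the window, with the two properties used for the uniqueness -/
theorem win_facts {r : ℝ} (hr : 0 < r) (hr1 : 0.39 ≤ r ^ 2) (hr2 : r ^ 2 ≤ 9 / 4) {k : ℕ}
    (hk : 1 ≤ k) : ∃ l, 0 < l ∧ l < 1 ∧ (∀ s, l ^ 2 ≤ s → s ≤ 1 → FF r k s ≤ FF r k 1) ∧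
      ∀ s, 0 < s → s < l ^ 2 → ∃ t : ℝ, 0 < t ∧ t < 1 ∧
        FF r k s ≤ t * FF r k 0 + (1 - t) * FF r k (l ^ 2) := by
  obtain ⟨l, hl0, hl1, hjj, hYY⟩ := FF_window hr hr1 hr2
  refine ⟨l, hl0, hl1, ?_, fun s h1 h2 => Pool.Agent.H23.UQ18.uq18 r l k hr hr2 hl0 hl1 hYY hk s h1 h2⟩
  intro s h1 h3
  rcases h3.eq_or_lt with h | h
  · rw [h]
  have hs1 : 0 < s := lt_of_lt_of_le (by positivity) h1
  have h4 := FF_sub hr hr2 hk hs1 h le_rfl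
  have h5 := h_F1 h_link r l hr hl0 hl1 hjj s 1 h1 h.le le_rfl
  have hZ : 0 ≤ Zr r ^ (k - 1) := pow_nonneg (Zr_pos hr).le _
  have h6 : 0 ≤ Zr r ^ (k - 1) * (FF r 1 1 - FF r 1 s) := mul_nonneg hZ (by linarith)
  linarith

theorem uniq_list (htwo : S_two) {r : ℝ} (hr : 0 < r) (hr1 : 0.3925 ≤ r ^ 2) (hr2 : r ≤ 3 / 2) {k : ℕ}
    (hk : 2 ≤ k) (L : List ℝ) (hL : MaxL r (k + 2) L) (hs : L.Pairwise (· ≥ ·)) :
    L = L2 k ∨ L = Ln k := by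
  have h94 : r ^ 2 ≤ 9 / 4 := by nlinarith
  have hr22 : r ≤ 2 := by linarith
  have hno := Pool.Agent.H169.UQ14.noswap u_strict htwo Pool.Agent.H308.UQ.perm
  have hodd := Pool.Agent.H828.UQ15.t_odd Pool.Agent.H308.UQ.perm hno
  have htv := Pool.Agent.H199.UQ16.twoval Pool.Agent.H308.UQ.perm hodd taHyp
  have hex := Pool.Agent.H922.UQ17.s_excl Pool.Agent.H308.UQ.perm hodd
  obtain ⟨l, hl0, hl1, hmono, hV⟩ := win_facts hr (by linarith) h94 (k := k) (by omega)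
  rcases Nat.lt_or_ge k 3 with h3 | h3
  · have : k = 2 := by omega
    subst this
    exact Pool.Agent.H117.UQ22.s_fin2 h_link r l hr hl0 hl1
      (fun L h1 h2 => htv r 2 L hr (by linarith) h1 h2)
      (Pool.Agent.H790.UQ20.F2s Pool.Agent.H396.UQ19.s_Hs r hr) hmono hV L hL hs
  · have hk3 : (3:ℝ) ≤ k := by exact_mod_cast h3
    refine Pool.Agent.H284.UQ21.fin3 h_link r 3 l k hr (by omega) (by norm_num) hk3 hl0 hl1
      (fun L h1 h2 => htv r k L hr (by linarith) h1 h2) ?_ ?_ hmono hV L hL hs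
    · intro a b hb hba hab hm
      exact hex r k a b hr hr22 h3 hb hba (fun τ hτ => htr_all hr hr2 a b τ hb hba.le hab hτ) hm
    · intro s h1 h2
      rcases Nat.lt_or_ge k 4 with h4 | h4
      · have : k = 3 := by omega
        subst this
        push_cast at h2 ⊢
        rw [show (3:ℝ) / 3 = 1 by norm_num] at h2 ⊢
        rw [le_antisymm h2 h1]
      · exact FF_mono_mid hr h4 (hII_all hr1 hr hr2 h4) h1 h2 le_rfl

/-- all maximizers -/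
theorem uniq_vec (htwo : S_two) (hsrt : S_srt) {r : ℝ} (hr : 0 < r) (hr1 : 0.3925 ≤ r ^ 2)
    (hr2 : r ≤ 3 / 2) {k : ℕ} (hk : 1 ≤ k) (θ : EuclideanSpace ℝ (Fin (k + 2))) (hθ : ‖θ‖ = 1)
    (hmax : ∀ θ' : EuclideanSpace ℝ (Fin (k + 2)), ‖θ'‖ = 1 → Asl r θ' 0 ≤ Asl r θ 0) :
    srt θ = L2 k ∨ srt θ = Ln k := by
  rcases Nat.lt_or_ge k 2 with h2 | h2
  · have : k = 1 := by omega
    subst this
    obtain ⟨r3, h1, hlt, hgt, heq, hmain⟩ := main3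
    have hd := Pool.Agent.H353.UQ.desc 1 θ hθ
    have h3 := (hmain r hr θ hθ)
    have h4 : Asl r θ 0 = max (V2 r) (V3 r) := by
      refine le_antisymm h3.1 ?_
      refine max_le ?_ ?_
      · exact hmax dirTwo (fam_norm _)
      · exact hmax dirThree (fam_norm _)
    rcases h3.2.1 h4 with h5 | h5
    · exact Or.inl (hd.1.2 h5.2)
    · right
      refine hd.2.2 fun i => ?_
      rw [h5.2 i]
      norm_num
  · exact uniq_list htwo hr hr1 hr2 h2 (srt θ) ((hsrt r (k + 2) θ hr hθ).2 hmax) (srt_sorted θ)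

theorem val_L2 (hsrt : S_srt) {r : ℝ} (hr : 0 < r) {k : ℕ} (hk : 1 ≤ k)
    (θ : EuclideanSpace ℝ (Fin (k + 2))) (hθ : ‖θ‖ = 1) (h : srt θ = L2 k) :
    Asl r θ 0 = FF r k 0 := by
  rw [← (hsrt r (k + 2) θ hr hθ).1, h, ← Asl_D2 hr hk]
  rfl

theorem val_Ln (hsrt : S_srt) {r : ℝ} (hr : 0 < r) {k : ℕ} (hk : 1 ≤ k)
    (θ : EuclideanSpace ℝ (Fin (k + 2))) (hθ : ‖θ‖ = 1) (h : srt θ = Ln k) :
    Asl r θ 0 = FF r k k := by
  rw [← (hsrt r (k + 2) θ hr hθ).1, h, ← Asl_Dn hr hk]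
  rfl

/-- the maximizers in all dimensions -/
theorem uniq_iff (htwo : S_two) (hsrt : S_srt) {r : ℝ} (hr1 : 0.6265 ≤ r) (hr2 : r ≤ 3 / 2) {k : ℕ}
    (hk : 1 ≤ k) (hM : ∀ θ : EuclideanSpace ℝ (Fin (k + 2)), ‖θ‖ = 1 →
      Asl r θ 0 ≤ max (FF r k 0) (FF r k k)) (θ : EuclideanSpace ℝ (Fin (k + 2))) (hθ : ‖θ‖ = 1) :
    Asl r θ 0 = max (FF r k 0) (FF r k k) ↔
      (FF r k k ≤ FF r k 0 ∧ ∃ i j, i ≠ j ∧ |θ i| = 1 / Real.sqrt 2 ∧ |θ j| = 1 / Real.sqrt 2) ∨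
      (FF r k 0 ≤ FF r k k ∧ ∀ i, |θ i| = 1 / Real.sqrt (k + 2)) := by
  have hr : 0 < r := by linarith
  have hd := Pool.Agent.H353.UQ.desc k θ hθ
  rw [← hd.1, ← hd.2]
  constructor
  · intro h
    rcases uniq_vec htwo hsrt hr (by nlinarith) hr2 hk θ hθ (fun θ' h' => by
      rw [h]; exact hM θ' h') with h1 | h1
    · left
      refine ⟨?_, h1⟩
      rw [val_L2 hsrt hr hk θ hθ h1] at h
      rw [h]
      exact le_max_right _ _
    · right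
      refine ⟨?_, h1⟩
      rw [val_Ln hsrt hr hk θ hθ h1] at h
      rw [h]
      exact le_max_left _ _
  · rintro (⟨h1, h2⟩ | ⟨h1, h2⟩)
    · rw [val_L2 hsrt hr hk θ hθ h2, max_eq_left h1]
    · rw [val_Ln hsrt hr hk θ hθ h2, max_eq_right h1]

/-- unconditional form -/
theorem uniq_main {r : ℝ} (hr1 : 0.6265 ≤ r) (hr2 : r ≤ 3 / 2) {k : ℕ}
    (hk : 1 ≤ k) (hM : ∀ θ : EuclideanSpace ℝ (Fin (k + 2)), ‖θ‖ = 1 →
      Asl r θ 0 ≤ max (FF r k 0) (FF r k k)) (θ : EuclideanSpace ℝ (Fin (k + 2))) (hθ : ‖θ‖ = 1) :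
    Asl r θ 0 = max (FF r k 0) (FF r k k) ↔
      (FF r k k ≤ FF r k 0 ∧ ∃ i j, i ≠ j ∧ |θ i| = 1 / Real.sqrt 2 ∧ |θ j| = 1 / Real.sqrt 2) ∨
      (FF r k 0 ≤ FF r k k ∧ ∀ i, |θ i| = 1 / Real.sqrt (k + 2)) :=
  uniq_iff Pool.Agent.H139.UQ12.two Pool.Agent.H163.UQ23.uq23 hr1 hr2 hk hM θ hθ

end Pool.Agent.H770.GS
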