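import Pool.Agent.H770.GS.AllDim2
import Pool.Agent.H770.GS.Uniq
import Pool.Agent.H770.GS.TH
import Pool.Agent.H597.TH1
import Pool.Agent.H249.TH2
import Pool.Agent.H670.TH3
import Pool.Agent.H94.TH4

/-!
# All dimensions: final form
-/

set_option autoImplicit false

open MeasureTheory Set intervalIntegral Filter Topology

namespace Pool.Agent.H770.GS

open Pool.Agent.Helper82.GC

/-- the main inequality, as a property of `r` -/
def Main (r : ℝ) : Prop := ∀ k : ℕ, 1 ≤ k → ∀ θ : EuclideanSpace ℝ (Fin (k + 2)), ‖θ‖ = 1 →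
  Asl r θ 0 ≤ max (Asl r (dirAB k (1 / Real.sqrt 2) 0) 0)
    (Asl r (dirAB k (1 / Real.sqrt (k + 2)) (1 / Real.sqrt (k + 2))) 0)

theorem dirAB_two_norm {k : ℕ} (hk : 1 ≤ k) : ‖dirAB k (1 / Real.sqrt 2) 0‖ = 1 := by
  have _ := hk
  refine vec_norm (by simp) ?_
  simp only [List.map_cons, List.sum_cons, List.map_replicate, List.sum_replicate,
    nsmul_eq_mul, div_pow]
  rw [Real.sq_sqrt (by norm_num)]
  norm_num

theorem dirAB_diag_norm (k : ℕ) :
    ‖dirAB k (1 / Real.sqrt (k + 2)) (1 / Real.sqrt (k + 2))‖ = 1 := by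
  refine vec_norm (by simp) ?_
  simp only [List.map_cons, List.sum_cons, List.map_replicate, List.sum_replicate,
    nsmul_eq_mul, div_pow]
  have h : (0:ℝ) < k + 2 := by positivity
  rw [Real.sq_sqrt h.le]
  field_simp
  ring

theorem order_le {r : ℝ} (hr : 0 < r) (hM : Main r) {k l : ℕ} (hk : 1 ≤ k) (hkl : k ≤ l)
    (h : FF r k 0 < FF r k k) : FF r l 0 < FF r l l := by
  induction l, hkl using Nat.le_induction with
  | base => exact h
  | succ m hm ih =>
    exact Pool.Agent.H94.TH4.th4 Pool.Agent.H249.TH2.th2 Pool.Agent.H670.TH3.th3 r m hr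
      (by omega) (hM (m + 1) (by omega)) ih

theorem main_r {r : ℝ} (hr1 : 0.6265 ≤ r) (hr2 : r ≤ 3 / 2) : Main r := by
  intro k hk θ hθ
  rcases le_total r 1 with h | h
  · exact main_one (by linarith) (by nlinarith) h hk θ hθ
  · exact main_two h hr2 hk θ hθ

end Pool.Agent.H770.GS
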