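import Pool.Agent.H770.GS.Three

/-!
# The explicit values for the two candidate directions in dimension three
-/

set_option autoImplicit false

open MeasureTheory Set intervalIntegral Filter Topology

namespace Pool.Agent.H770.GS

open Pool.Agent.Helper82.GC

theorem V2_eq {r : ℝ} (hr : 0 < r) :
    V2 r = Zr r * ∫ u in (-(Real.sqrt 2 * r))..(Real.sqrt 2 * r), W u := by
  have hsq2 : 0 < Real.sqrt 2 := by positivity
  have hp2 : 0 < 1 / Real.sqrt 2 := by positivity
  have h := Asl_two (m := 1) (x := 1 / Real.sqrt 2) hr dirTwo (fam_norm 0)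
    (y := 1 / Real.sqrt 2) (by
      have hp := srt_perm dirTwo
      have hof : (List.ofFn fun i => |dirTwo i|) = [1 / Real.sqrt 2, 1 / Real.sqrt 2, 0] := by
        rw [dirTwo_apply]
        simp [List.ofFn_succ, abs_of_pos hsq2]
      rw [hof] at hp
      refine hp.eq_of_pairwise' (srt_sorted _) ?_
      simp)
  rw [show r / (1 / Real.sqrt 2) = Real.sqrt 2 * r by field_simp] at h
  rw [pow_one] at h
  exact h

theorem V3_eq_aux {r : ℝ} (hr : 0 < r) :
    V3 r = 2 * Real.sqrt 3 * ∫ z in (0:ℝ)..r, Real.exp (-(3 * z ^ 2 / 4)) * I2 (r - z / 2) := by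
  have h3 := sqrt3_facts
  have h30 : 0 < 1 / Real.sqrt 3 := by have := h3.1; positivity
  obtain ⟨c, hc⟩ : ∃ c, c = 1 / Real.sqrt 3 := ⟨_, rfl⟩
  have hc0 : 0 < c := by rw [hc]; exact h30
  have hW := W_cont
  have hfL := fL_cont r
  have hd : ∀ τ, dens r (List.ofFn fun i => dirThree i) (gs τ) 0 =
      ∫ z in (0:ℝ)..(2 * r), fL r z * (cv r c (gs τ) (c * z) + cv r c (gs τ) (c * -z)) := by
    intro τ
    have hl : (List.ofFn fun i => dirThree i) = [c, c, c] := by
      rw [dirThree_apply, hc]
      simp [List.ofFn_succ]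
    rw [hl, dens_cons, dens_cons, dens_cons, dens_nil]
    have hcc : Continuous fun s => cv r c (gs τ) (c * s) := by
      have := cv_cont (r := r) (b := c) (gs_cont τ)
      fun_prop
    rw [← fold hcc hr]
    conv_lhs => unfold cv
    refine intervalIntegral.integral_congr fun x _ => ?_
    try simp only
    rw [← intervalIntegral.integral_const_mul]
    refine intervalIntegral.integral_congr fun y _ => ?_
    try simp only
    rw [show (0:ℝ) + c * x + c * y = c * (x + y) by ring]
    rfl
  have t : Tendsto (fun τ => dens r (List.ofFn fun i => dirThree i) (gs τ) 0) (𝓝[>] 0)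
      (𝓝 (∫ z in (0:ℝ)..(2 * r), fL r z * (ha r c (c * z) + ha r c (c * -z)))) := by
    have e : (fun τ => dens r (List.ofFn fun i => dirThree i) (gs τ) 0) = fun τ =>
        ∫ z in (0:ℝ)..(2 * r), fL r z * (cv r c (gs τ) (c * z) + cv r c (gs τ) (c * -z)) := by
      funext τ
      exact hd τ
    rw [e]
    refine intervalIntegral.tendsto_integral_filter_of_dominated_convergence
        (fun z => |fL r z| * (2 / c)) ?_ ?_ ?_ ?_
    · refine Eventually.of_forall fun τ => ?_
      refine Continuous.aestronglyMeasurable ?_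
      have := cv_cont (r := r) (b := c) (gs_cont τ)
      fun_prop
    · filter_upwards [self_mem_nhdsWithin] with τ hτ
      refine Eventually.of_forall fun z _ => ?_
      rw [Real.norm_eq_abs, abs_mul]
      refine mul_le_mul_of_nonneg_left ?_ (abs_nonneg _)
      have b1 := abs_le.1 (cv_gs_bdd hr hc0 hτ (c * z))
      have b2 := abs_le.1 (cv_gs_bdd hr hc0 hτ (c * -z))
      have e2 : 2 / c = 1 / c + 1 / c := by ring
      rw [e2, abs_le]
      constructor <;> linarith [b1.1, b1.2, b2.1, b2.2]
    · exact Continuous.intervalIntegrable (by fun_prop) _ _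
    · have hS : ({r} : Set ℝ).Countable := Set.countable_singleton _
      filter_upwards [hS.ae_notMem volume] with z hz hzz
      rw [uIoc_of_le (by linarith)] at hzz
      have hz0 := hzz.1
      simp only [mem_singleton_iff] at hz
      have hne : |c * z| ≠ c * r := by
        rw [abs_mul, abs_of_pos hc0, abs_of_pos hz0]
        intro h
        exact hz (mul_left_cancel₀ hc0.ne' h)
      refine Tendsto.const_mul _ (Tendsto.add (cv_gs_tendsto hr hc0 hne)
        (cv_gs_tendsto hr hc0 ?_))
      rw [mul_neg, abs_neg]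
      exact hne
  have hval : (∫ z in (0:ℝ)..(2 * r), fL r z * (ha r c (c * z) + ha r c (c * -z))) =
      2 * Real.sqrt 3 * ∫ z in (0:ℝ)..r, Real.exp (-(3 * z ^ 2 / 4)) * I2 (r - z / 2) := by
    have hha : ∀ z, ha r c (c * z) + ha r c (c * -z) = 2 / c * wr r z := by
      intro z
      unfold ha
      have e1 : c * z / c = z := by field_simp
      have e2 : c * -z / c = -z := by field_simp
      rw [e1, e2, wr_neg]
      ring
    have hi : ∀ a b : ℝ, IntervalIntegrable (fun z => fL r z * (2 / c * wr r z)) volume a b := by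
      intro a b
      have hm : Measurable fun z => 2 / c * wr r z := (wr_measurable r).const_mul _
      have hb : ∀ z, ‖2 / c * wr r z‖ ≤ 2 / c := by
        intro z
        rw [Real.norm_eq_abs, abs_mul, abs_of_nonneg (wr_nonneg' _ _), abs_of_pos (by positivity)]
        exact mul_le_of_le_one_right (by positivity) (wr_le_one _ _)
      have h3 : IntervalIntegrable (fL r) volume a b := hfL.intervalIntegrable _ _
      exact ⟨MeasureTheory.Integrable.mul_bdd (c := 2 / c) h3.1 hm.aestronglyMeasurable
          (Filter.Eventually.of_forall hb),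
        MeasureTheory.Integrable.mul_bdd (c := 2 / c) h3.2 hm.aestronglyMeasurable
          (Filter.Eventually.of_forall hb)⟩
    simp only [hha]
    rw [← intervalIntegral.integral_add_adjacent_intervals (hi 0 r) (hi r (2 * r))]
    have z2 : ∫ z in r..(2 * r), fL r z * (2 / c * wr r z) = 0 := by
      rw [intervalIntegral.integral_congr_ae (g := fun _ => (0:ℝ))]
      · simp
      · refine Eventually.of_forall fun u hu => ?_
        rw [uIoc_of_le (by linarith)] at hu
        unfold wr
        rw [if_neg]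
        · simp
        · rw [not_le, abs_of_pos (by linarith [hu.1])]
          exact hu.1
    rw [z2, add_zero, ← intervalIntegral.integral_const_mul]
    refine intervalIntegral.integral_congr fun z hz => ?_
    rw [uIcc_of_le hr.le] at hz
    have w1 : wr r z = W z := by
      unfold wr
      rw [if_pos]
      · rfl
      · rw [abs_of_nonneg hz.1]
        exact hz.2
    rw [w1]
    unfold fL W
    have e3 : 2 / c = 2 * Real.sqrt 3 := by rw [hc]; field_simp
    have e4 : Real.exp (-z ^ 2 / 4) * Real.exp (-z ^ 2 / 2) = Real.exp (-(3 * z ^ 2 / 4)) := by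
      rw [← Real.exp_add]
      congr 1
      ring
    rw [e3, ← e4]
    ring
  rw [← hval]
  exact tendsto_nhds_unique (dens_tendsto hr dirThree (fam_norm _)) t

theorem V3_scaled_deriv (r : ℝ) : HasDerivAt
    (fun r => ∫ y in (0:ℝ)..1, r * (Real.exp (-(3 * (r * y) ^ 2 / 4)) * I2 (r - r * y / 2)))
    (3 * (Real.exp (-(3 * r ^ 2 / 4)) * I2 (r / 2))) r := by
  have hI := I2_cont
  have h1 := hasDerivAt_param
    (f := fun r y => r * (Real.exp (-(3 * (r * y) ^ 2 / 4)) * I2 (r - r * y / 2)))
    (f' := fun r y => (Real.exp (-(3 * (r * y) ^ 2 / 4)) * I2 (r - r * y / 2)) +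
      r * (-(3 * r * y ^ 2 / 2) * Real.exp (-(3 * (r * y) ^ 2 / 4)) * I2 (r - r * y / 2) +
        Real.exp (-(3 * (r * y) ^ 2 / 4)) * (2 * Real.exp (-(r - r * y / 2) ^ 2) * (1 - y / 2))))
    (by
      intro r y
      have e1 : HasDerivAt (fun r : ℝ => -(3 * (r * y) ^ 2 / 4)) (-(3 * r * y ^ 2 / 2)) r := by
        have := ((((hasDerivAt_id r).mul_const y).pow 2).const_mul 3).div_const 4
        refine this.neg.congr_deriv ?_
        simp
        ring
      have e2 : HasDerivAt (fun r : ℝ => r - r * y / 2) (1 - y / 2) r := by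
        have := (hasDerivAt_id r).sub (((hasDerivAt_id r).mul_const y).div_const 2)
        refine this.congr_deriv ?_
        ring
      have e3 := e1.exp.mul ((I2_deriv (r - r * y / 2)).comp r e2)
      have e4 := (hasDerivAt_id r).mul e3
      refine e4.congr_deriv ?_
      simp only [id, Function.comp, Pi.mul_apply]
      ring)
    (by intro r; fun_prop) (by fun_prop) 0 1 r
  refine h1.congr_deriv ?_
  -- the part that is a total derivative
  have h2 : ∫ y in (0:ℝ)..1, ((Real.exp (-(3 * (r * y) ^ 2 / 4)) * I2 (r - r * y / 2)) +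
      y * (-(3 * r ^ 2 * y / 2) * Real.exp (-(3 * (r * y) ^ 2 / 4)) * I2 (r - r * y / 2) +
        Real.exp (-(3 * (r * y) ^ 2 / 4)) * (2 * Real.exp (-(r - r * y / 2) ^ 2) * (-(r / 2))))) =
      Real.exp (-(3 * r ^ 2 / 4)) * I2 (r / 2) := by
    rw [intervalIntegral.integral_eq_sub_of_hasDerivAt (f := fun y =>
      y * (Real.exp (-(3 * (r * y) ^ 2 / 4)) * I2 (r - r * y / 2)))]
    · simp
      congr 1
      ring
    · intro y _
      have e1 : HasDerivAt (fun y : ℝ => -(3 * (r * y) ^ 2 / 4)) (-(3 * r ^ 2 * y / 2)) y := by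
        have := ((((hasDerivAt_id y).const_mul r).pow 2).const_mul 3).div_const 4
        refine this.neg.congr_deriv ?_
        simp
        ring
      have e2 : HasDerivAt (fun y : ℝ => r - r * y / 2) (-(r / 2)) y := by
        have := (((hasDerivAt_id y).const_mul r).div_const 2).const_sub r
        refine this.congr_deriv ?_
        ring
      have e3 := e1.exp.mul ((I2_deriv (r - r * y / 2)).comp y e2)
      have e4 := (hasDerivAt_id y).mul e3
      refine e4.congr_deriv ?_
      simp only [id, Function.comp, Pi.mul_apply]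
      ring
    · exact Continuous.intervalIntegrable (by fun_prop) _ _
  have h3 : ∫ y in (0:ℝ)..1, r * (Real.exp (-(3 * (r * y) ^ 2 / 4)) *
      (2 * Real.exp (-(r - r * y / 2) ^ 2))) = 2 * (Real.exp (-(3 * r ^ 2 / 4)) * I2 (r / 2)) := by
    have e1 : ∫ y in (0:ℝ)..1, r * (Real.exp (-(3 * (r * y) ^ 2 / 4)) *
      (2 * Real.exp (-(r - r * y / 2) ^ 2))) = ∫ y in (0:ℝ)..1, 2 * Real.exp (-(3 * r ^ 2 / 4)) *
        (r * (fun p => Real.exp (-p ^ 2)) (r * y - r / 2)) := by
      refine intervalIntegral.integral_congr fun y _ => ?_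
      have : Real.exp (-(3 * (r * y) ^ 2 / 4)) * Real.exp (-(r - r * y / 2) ^ 2) =
          Real.exp (-(3 * r ^ 2 / 4)) * Real.exp (-(r * y - r / 2) ^ 2) := by
        rw [← Real.exp_add, ← Real.exp_add]
        congr 1
        ring
      simp only
      calc r * (Real.exp (-(3 * (r * y) ^ 2 / 4)) * (2 * Real.exp (-(r - r * y / 2) ^ 2)))
          = 2 * r * (Real.exp (-(3 * (r * y) ^ 2 / 4)) * Real.exp (-(r - r * y / 2) ^ 2)) := by ring
        _ = _ := by rw [this]; ring
    rw [e1, intervalIntegral.integral_const_mul, intervalIntegral.integral_const_mul]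
    have h4 := intervalIntegral.smul_integral_comp_mul_sub (a := 0) (b := 1)
      (fun p => Real.exp (-p ^ 2)) r (r / 2)
    rw [smul_eq_mul] at h4
    rw [h4]
    unfold I2
    rw [show r * 0 - r / 2 = -(r / 2) by ring, show r * 1 - r / 2 = r / 2 by ring]
    ring
  have e5 : 3 * (Real.exp (-(3 * r ^ 2 / 4)) * I2 (r / 2)) =
      Real.exp (-(3 * r ^ 2 / 4)) * I2 (r / 2) + 2 * (Real.exp (-(3 * r ^ 2 / 4)) * I2 (r / 2)) := by
    ring
  rw [e5]
  nth_rewrite 1 [← h2]
  rw [← h3, ← intervalIntegral.integral_add]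
  · refine intervalIntegral.integral_congr fun y _ => ?_
    ring
  · exact Continuous.intervalIntegrable (by fun_prop) _ _
  · exact Continuous.intervalIntegrable (by fun_prop) _ _

theorem V3_eq {r : ℝ} (hr : 0 < r) :
    V3 r = 6 * Real.sqrt 3 * ∫ s in (0:ℝ)..r, Real.exp (-(3 * s ^ 2 / 4)) * I2 (s / 2) := by
  have hI := I2_cont
  rw [V3_eq_aux hr]
  have h1 : ∫ z in (0:ℝ)..r, Real.exp (-(3 * z ^ 2 / 4)) * I2 (r - z / 2) =
      ∫ y in (0:ℝ)..1, r * (Real.exp (-(3 * (r * y) ^ 2 / 4)) * I2 (r - r * y / 2)) := by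
    rw [intervalIntegral.integral_const_mul]
    have h := intervalIntegral.smul_integral_comp_mul_left (a := 0) (b := 1)
      (fun z => Real.exp (-(3 * z ^ 2 / 4)) * I2 (r - z / 2)) r
    rw [mul_zero, mul_one, smul_eq_mul] at h
    exact h.symm
  have h2 : ∫ y in (0:ℝ)..1, r * (Real.exp (-(3 * (r * y) ^ 2 / 4)) * I2 (r - r * y / 2)) =
      ∫ s in (0:ℝ)..r, 3 * (Real.exp (-(3 * s ^ 2 / 4)) * I2 (s / 2)) := by
    rw [intervalIntegral.integral_eq_sub_of_hasDerivAt (fun s _ => V3_scaled_deriv s)]
    · simp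
    · exact Continuous.intervalIntegrable (by fun_prop) _ _
  rw [h1, h2, intervalIntegral.integral_const_mul]
  ring

end Pool.Agent.H770.GS
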