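import Pool.Agent.H770.GS.Pairs2
import Pool.Graph.R_seed8.Helper82.GC.P2
import Pool.Graph.R_seed8.Helper82.GC.B6

/-!
# Iterated convolutions and the Gaussian measure of sections
-/

set_option autoImplicit false

open MeasureTheory Set intervalIntegral

namespace Pool.Agent.H770.GS

open Pool.Agent.Helper82.GC

/-- iterated convolution -/
noncomputable def dens (r : ℝ) (L : List ℝ) (g : ℝ → ℝ) : ℝ → ℝ := L.foldr (cv r) g

theorem dens_nil (r : ℝ) (g : ℝ → ℝ) : dens r [] g = g := rfl

theorem dens_cons (r b : ℝ) (L : List ℝ) (g : ℝ → ℝ) :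
    dens r (b :: L) g = cv r b (dens r L g) := rfl

theorem dens_append (r : ℝ) (L L' : List ℝ) (g : ℝ → ℝ) :
    dens r (L ++ L') g = dens r L (dens r L' g) := by
  unfold dens
  rw [List.foldr_append]

theorem dens_cont {r : ℝ} {g : ℝ → ℝ} (hg : Continuous g) (L : List ℝ) :
    Continuous (dens r L g) := by
  induction L with
  | nil => exact hg
  | cons b L ih => exact cv_cont ih

theorem dens_even {r : ℝ} {g : ℝ → ℝ} (hg : ∀ x, g (-x) = g x) (L : List ℝ) :
    ∀ x, dens r L g (-x) = dens r L g x := by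
  induction L with
  | nil => exact hg
  | cons b L ih => exact cv_even ih

theorem dens_odd {r : ℝ} {g : ℝ → ℝ} (hg : ∀ x, g (-x) = -g x) (L : List ℝ) :
    ∀ x, dens r L g (-x) = -dens r L g x := by
  induction L with
  | nil => exact hg
  | cons b L ih => exact cv_odd ih

theorem cv_comm {r a b : ℝ} {g : ℝ → ℝ} (hg : Continuous g) :
    cv r a (cv r b g) = cv r b (cv r a g) := by
  funext v
  have hW := W_cont
  have e : ∀ a b : ℝ, cv r a (cv r b g) v =
      ∫ x in (-r)..r, ∫ y in (-r)..r, W x * (W y * g (v + a * x + b * y)) := by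
    intro a b
    unfold cv
    refine intervalIntegral.integral_congr fun x _ => ?_
    rw [intervalIntegral.integral_const_mul]
  rw [e, e, swap_cont (by fun_prop)]
  refine intervalIntegral.integral_congr fun x _ => ?_
  refine intervalIntegral.integral_congr fun y _ => ?_
  try simp only
  rw [show v + a * y + b * x = v + b * x + a * y by ring]
  ring

theorem dens_perm {r : ℝ} {g : ℝ → ℝ} (hg : Continuous g) {L L' : List ℝ} (h : L.Perm L') :
    dens r L g = dens r L' g := by
  induction h with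
  | nil => rfl
  | cons x _ ih => rw [dens_cons, dens_cons, ih]
  | swap x y l => rw [dens_cons, dens_cons, dens_cons, dens_cons, cv_comm (dens_cont hg l)]
  | trans _ _ ih1 ih2 => rw [ih1, ih2]

theorem dens_abs {r : ℝ} {g : ℝ → ℝ} (L : List ℝ) :
    dens r (L.map fun x => |x|) g = dens r L g := by
  induction L with
  | nil => rfl
  | cons b L ih =>
    rw [List.map_cons, dens_cons, dens_cons, ih]
    rcases abs_choice b with h | h
    · rw [h]
    · rw [h]
      funext x
      exact cv_neg _ x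

theorem cv_deriv {r b : ℝ} {ψ d : ℝ → ℝ} (hr : 0 < r) (hψ : ∀ x, HasDerivAt ψ (d x) x)
    (hd : Continuous d) (v : ℝ) : HasDerivAt (cv r b ψ) (cv r b d v) v := by
  have hψc : Continuous ψ := continuous_iff_continuousAt.2 fun x => (hψ x).continuousAt
  have hW := W_cont
  -- by the fundamental theorem of calculus
  have hftc : ∀ w, cv r b ψ w = cv r b ψ 0 + ∫ s in (0:ℝ)..w, cv r b d s := by
    intro w
    unfold cv
    rw [swap_cont (F := fun s u => W u * d (s + b * u)) (by fun_prop), ← sub_eq_iff_eq_add',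
      ← intervalIntegral.integral_sub]
    · refine intervalIntegral.integral_congr fun u _ => ?_
      try simp only
      rw [intervalIntegral.integral_const_mul, ← mul_sub]
      congr 1
      rw [intervalIntegral.integral_eq_sub_of_hasDerivAt (f := fun s => ψ (s + b * u))]
      · intro s _
        have := (hψ (s + b * u)).comp s ((hasDerivAt_id s).add_const (b * u))
        refine this.congr_deriv ?_
        ring
      · exact Continuous.intervalIntegrable (by fun_prop) _ _
    · exact Continuous.intervalIntegrable (by fun_prop) _ _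
    · exact Continuous.intervalIntegrable (by fun_prop) _ _
  have e : cv r b ψ = fun w => cv r b ψ 0 + ∫ s in (0:ℝ)..w, cv r b d s := by
    funext w
    exact hftc w
  rw [e]
  have hc : Continuous (cv r b d) := cv_cont hd
  exact (intervalIntegral.integral_hasDerivAt_right (hc.intervalIntegrable _ _)
    (hc.stronglyMeasurableAtFilter _ _) hc.continuousAt).const_add _

theorem cv_neg_fun {r b : ℝ} (k : ℝ → ℝ) (v : ℝ) :
    cv r b (fun x => -k x) v = -cv r b k v := by
  unfold cv
  rw [← intervalIntegral.integral_neg]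
  refine intervalIntegral.integral_congr fun u _ => ?_
  ring

theorem dens_deriv {r : ℝ} (hr : 0 < r) {ψ k : ℝ → ℝ} (hψ : ∀ x, HasDerivAt ψ (-k x) x)
    (hk : Continuous k) (L : List ℝ) :
    ∀ x, HasDerivAt (dens r L ψ) (-dens r L k x) x := by
  induction L with
  | nil => exact hψ
  | cons b L ih =>
    intro x
    rw [dens_cons, dens_cons, ← cv_neg_fun]
    exact cv_deriv hr ih (dens_cont hk L).neg x

/-! ### the Gaussian kernel -/

/-- Gaussian density -/
noncomputable def gs (τ x : ℝ) : ℝ :=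
  (1 / Real.sqrt (2 * Real.pi * τ ^ 2)) * Real.exp (-x ^ 2 / (2 * τ ^ 2))

/-- minus the derivative of the Gaussian density -/
noncomputable def kg (τ x : ℝ) : ℝ := x / τ ^ 2 * gs τ x

theorem gs_cont (τ : ℝ) : Continuous (gs τ) := by unfold gs; fun_prop

theorem kg_cont (τ : ℝ) : Continuous (kg τ) := by
  unfold kg
  have := gs_cont τ
  fun_prop

theorem gs_even (τ x : ℝ) : gs τ (-x) = gs τ x := by simp [gs]

theorem gs_nonneg (τ x : ℝ) : 0 ≤ gs τ x := by unfold gs; positivity

theorem gs_bdd (τ x : ℝ) : |gs τ x| ≤ 1 / Real.sqrt (2 * Real.pi * τ ^ 2) := by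
  rw [abs_of_nonneg (gs_nonneg τ x)]
  unfold gs
  refine mul_le_of_le_one_right (by positivity) ?_
  apply Real.exp_le_one_iff.mpr
  apply div_nonpos_of_nonpos_of_nonneg
  · nlinarith [sq_nonneg x]
  · positivity

theorem gs_deriv (τ x : ℝ) : HasDerivAt (gs τ) (-kg τ x) x := by
  unfold kg gs
  have h1 : HasDerivAt (fun x : ℝ => -x ^ 2 / (2 * τ ^ 2)) (-(x / τ ^ 2)) x := by
    refine ((hasDerivAt_pow 2 x).fun_neg.div_const (2 * τ ^ 2)).congr_deriv ?_
    by_cases hτ : τ = 0
    · rw [hτ]; simp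
    · norm_num
      field_simp
  refine (h1.exp.const_mul _).congr_deriv ?_
  ring

theorem gs_anti {τ x y : ℝ} (hx : 0 ≤ x) (hxy : x ≤ y) : gs τ y ≤ gs τ x := by
  unfold gs
  refine mul_le_mul_of_nonneg_left ?_ (by positivity)
  apply Real.exp_le_exp.2
  apply div_le_div_of_nonneg_right _ (by positivity)
  nlinarith

theorem kg_P (τ : ℝ) : P 0 (kg τ) := by
  refine ⟨kg_cont τ, ?_, ?_⟩
  · intro x
    unfold kg
    rw [gs_even]
    ring
  · intro v v' hv hvv _
    unfold kg
    have h := gs_anti (τ := τ) hv.le hvv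
    have h2 : 0 ≤ v * (v' / τ ^ 2) := by
      have : 0 < v' := lt_of_lt_of_le hv hvv
      positivity
    have h3 := mul_le_mul_of_nonneg_left h h2
    calc v * (v' / τ ^ 2 * gs τ v') = v * (v' / τ ^ 2) * gs τ v' := by ring
      _ ≤ v * (v' / τ ^ 2) * gs τ v := h3
      _ = v' * (v / τ ^ 2 * gs τ v) := by ring

/-! ### link with integrals over the cube -/

theorem wr_eq (r x : ℝ) : wr r x = (Icc (-r) r).indicator W x := by
  unfold wr
  by_cases hx : |x| ≤ r
  · rw [if_pos hx, indicator_of_mem (show x ∈ Icc (-r) r from abs_le.1 hx)]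
    rfl
  · rw [if_neg hx, indicator_of_notMem]
    intro h
    exact hx (abs_le.2 h)

theorem wr_int {r : ℝ} (hr : 0 < r) (f : ℝ → ℝ) :
    ∫ x, wr r x * f x = ∫ x in (-r)..r, W x * f x := by
  rw [intervalIntegral.integral_of_le (by linarith), ← integral_Icc_eq_integral_Ioc,
    ← MeasureTheory.integral_indicator measurableSet_Icc]
  apply MeasureTheory.integral_congr_ae
  refine Filter.Eventually.of_forall fun x => ?_
  try simp only
  rw [wr_eq]
  by_cases hx : x ∈ Icc (-r) r
  · rw [indicator_of_mem hx, indicator_of_mem hx]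
  · rw [indicator_of_notMem hx, indicator_of_notMem hx, zero_mul]

theorem link_pi {r : ℝ} (hr : 0 < r) {g : ℝ → ℝ} (hg : Continuous g) {C : ℝ}
    (hC : ∀ x, |g x| ≤ C) (n : ℕ) : ∀ (θ : Fin n → ℝ) (v : ℝ),
    ∫ y : Fin n → ℝ, g (v + ∑ i, θ i * y i) * ∏ i, wr r (y i) =
      dens r (List.ofFn θ) g v := by
  induction n with
  | zero =>
    intro θ v
    have h : (volume : Measure (Fin 0 → ℝ)) = Measure.dirac isEmptyElim :=
      Measure.volume_pi_eq_dirac _
    rw [h]
    simp [dens_nil]
  | succ n ih =>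
    intro θ v
    have hmp := (MeasureTheory.volume_preserving_piFinSuccAbove (fun _ : Fin (n + 1) => ℝ) 0)
    have hint : Integrable (fun y : Fin (n + 1) → ℝ =>
        g (v + ∑ i, θ i * y i) * ∏ i, wr r (y i)) := by
      refine (aux_int_prod (k := n + 1) hr).bdd_mul (c := C) ?_ ?_
      · refine Continuous.aestronglyMeasurable ?_
        fun_prop
      · exact Filter.Eventually.of_forall fun y => hC _
    have hint2 : Integrable (fun p : ℝ × (Fin n → ℝ) =>
        g (v + (θ 0 * p.1 + ∑ i : Fin n, θ i.succ * p.2 i)) *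
          (wr r p.1 * ∏ i, wr r (p.2 i))) (volume.prod volume) := by
      have h := (hmp.integrable_comp_emb (MeasurableEquiv.measurableEmbedding _)
        (g := fun p : ℝ × (Fin n → ℝ) =>
        g (v + (θ 0 * p.1 + ∑ i : Fin n, θ i.succ * p.2 i)) *
          (wr r p.1 * ∏ i, wr r (p.2 i)))).1
      apply h
      refine hint.congr (Filter.Eventually.of_forall fun y => ?_)
      simp only [Function.comp]
      rw [Fin.sum_univ_succ, Fin.prod_univ_succ]
      rfl
    have e1 : ∫ y : Fin (n + 1) → ℝ, g (v + ∑ i, θ i * y i) * ∏ i, wr r (y i) =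
        ∫ p : ℝ × (Fin n → ℝ), g (v + (θ 0 * p.1 + ∑ i : Fin n, θ i.succ * p.2 i)) *
          (wr r p.1 * ∏ i, wr r (p.2 i)) ∂(volume.prod volume) := by
      rw [← Measure.volume_eq_prod, ← hmp.integral_comp (MeasurableEquiv.measurableEmbedding _)]
      refine MeasureTheory.integral_congr_ae (Filter.Eventually.of_forall fun y => ?_)
      try simp only
      rw [Fin.sum_univ_succ, Fin.prod_univ_succ]
      rfl
    rw [e1, integral_prod _ hint2, List.ofFn_succ, dens_cons]
    unfold cv
    rw [← wr_int hr]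
    refine MeasureTheory.integral_congr_ae (Filter.Eventually.of_forall fun x => ?_)
    try simp only
    rw [← ih (fun i => θ i.succ) (v + θ 0 * x), ← MeasureTheory.integral_const_mul]
    refine MeasureTheory.integral_congr_ae (Filter.Eventually.of_forall fun y => ?_)
    try simp only
    rw [show v + (θ 0 * x + ∑ i : Fin n, θ i.succ * y i) =
      v + θ 0 * x + ∑ i : Fin n, θ i.succ * y i by ring]
    ring

theorem link {r : ℝ} (hr : 0 < r) {g : ℝ → ℝ} (hg : Continuous g) {C : ℝ}
    (hC : ∀ x, |g x| ≤ C) {n : ℕ} (θ : EuclideanSpace ℝ (Fin n)) :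
    ∫ y : EuclideanSpace ℝ (Fin n), g (inner ℝ θ y) * F r y =
      dens r (List.ofFn fun i => θ i) g 0 := by
  rw [← link_pi hr hg hC n (fun i => θ i) 0]
  have h2 := (EuclideanSpace.volume_preserving_symm_measurableEquiv_toLp (Fin n)).integral_comp'
      (fun y : Fin n → ℝ => g (0 + ∑ i, θ i * y i) * ∏ i, wr r (y i))
  rw [← h2]
  refine MeasureTheory.integral_congr_ae (Filter.Eventually.of_forall fun y => ?_)
  try simp only
  rw [b6_prod, zero_add]
  congr 2
  rw [PiLp.inner_apply]
  refine Finset.sum_congr rfl fun i _ => ?_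
  simp only [RCLike.inner_apply, conj_trivial]
  rw [mul_comm]
  rfl

theorem dens_tendsto {n : ℕ} {r : ℝ} (hr : 0 < r) (θ : EuclideanSpace ℝ (Fin n))
    (hθ : ‖θ‖ = 1) : Filter.Tendsto (fun τ : ℝ => dens r (List.ofFn fun i => θ i) (gs τ) 0)
      (nhdsWithin 0 (Ioi 0)) (nhds (Asl r θ 0)) := by
  refine (aux_tend_left hr θ hθ).congr' ?_
  filter_upwards [self_mem_nhdsWithin] with τ hτ
  rw [← aux_fubini r θ hθ hτ, ← link hr (gs_cont τ) (gs_bdd τ)]
  rfl

theorem sec_eq_Asl {k : ℕ} (r : ℝ) (θ : EuclideanSpace ℝ (Fin (k + 1))) (hθ : ‖θ‖ = 1) :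
    sec (k + 1) r θ = (2 * Real.pi) ^ (-(k : ℝ) / 2) * Asl r θ 0 := by
  rw [sec_eq r θ hθ]
  unfold Asl
  simp only [zero_smul, add_zero]

theorem sec_le_of_dens {k : ℕ} {r : ℝ} (hr : 0 < r) (θ θ' : EuclideanSpace ℝ (Fin (k + 1)))
    (hθ : ‖θ‖ = 1) (hθ' : ‖θ'‖ = 1)
    (h : ∀ τ : ℝ, 0 < τ → dens r (List.ofFn fun i => θ i) (gs τ) 0 ≤
      dens r (List.ofFn fun i => θ' i) (gs τ) 0) :
    sec (k + 1) r θ ≤ sec (k + 1) r θ' := by
  rw [sec_eq_Asl r θ hθ, sec_eq_Asl r θ' hθ']
  refine mul_le_mul_of_nonneg_left ?_ (by positivity)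
  refine le_of_tendsto_of_tendsto (dens_tendsto hr θ hθ) (dens_tendsto hr θ' hθ') ?_
  filter_upwards [self_mem_nhdsWithin] with τ hτ
  exact h τ hτ

end Pool.Agent.H770.GS
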