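import Pool.Agent.H770.GS.Link

/-!
# The one parameter family `(a, a, b)`: monotonicity of a ratio
-/

set_option autoImplicit false

open MeasureTheory Set intervalIntegral

namespace Pool.Agent.H770.GS

theorem hasDerivAt_param {f f' : ℝ → ℝ → ℝ} (hf : ∀ x y, HasDerivAt (fun x => f x y) (f' x y) x)
    (hfc : ∀ x, Continuous (f x)) (hf'c : Continuous (Function.uncurry f')) (a b x0 : ℝ) :
    HasDerivAt (fun x => ∫ y in a..b, f x y) (∫ y in a..b, f' x0 y) x0 := by
  have hftc : ∀ w, (∫ y in a..b, f w y) = (∫ y in a..b, f 0 y) +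
      ∫ s in (0:ℝ)..w, ∫ y in a..b, f' s y := by
    intro w
    rw [swap_cont hf'c, ← sub_eq_iff_eq_add', ← intervalIntegral.integral_sub
      ((hfc w).intervalIntegrable _ _) ((hfc 0).intervalIntegrable _ _)]
    refine intervalIntegral.integral_congr fun y _ => ?_
    symm
    rw [intervalIntegral.integral_eq_sub_of_hasDerivAt (f := fun s => f s y)]
    · intro s _
      exact hf s y
    · refine Continuous.intervalIntegrable ?_ _ _
      exact hf'c.comp (by fun_prop : Continuous fun s : ℝ => (s, y))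
  have e : (fun x => ∫ y in a..b, f x y) = fun w => (∫ y in a..b, f 0 y) +
      ∫ s in (0:ℝ)..w, ∫ y in a..b, f' s y := by
    funext w
    exact hftc w
  rw [e]
  have hc : Continuous fun s => ∫ y in a..b, f' s y :=
    intervalIntegral.continuous_parametric_intervalIntegral_of_continuous' hf'c _ _
  exact (intervalIntegral.integral_hasDerivAt_right (hc.intervalIntegrable _ _)
    (hc.stronglyMeasurableAtFilter _ _) hc.continuousAt).const_add _

/-- the factor `1 - E` -/
noncomputable def eE (r l x : ℝ) : ℝ := Real.exp (-((1 - l ^ 2) * (r ^ 2 - x ^ 2) / 2))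

/-- positive part of the derivative -/
noncomputable def jA (r l : ℝ) : ℝ :=
  ∫ x in (0:ℝ)..r, x * Real.exp (-x ^ 2 + l * r * x) * (1 - eE r l x)

/-- moments -/
noncomputable def bm (r l : ℝ) (j : ℕ) : ℝ :=
  ∫ y in (0:ℝ)..1, y ^ j * Real.exp (-((1 - l) * r) ^ 2 * y ^ 2 - l * (1 - l) * r ^ 2 * y)

/-- negative part of the derivative -/
noncomputable def jB (r l : ℝ) : ℝ := ((1 - l) * r) ^ 2 * bm r l 1

theorem jA_deriv (r l : ℝ) : HasDerivAt (jA r) (∫ x in (0:ℝ)..r, x * Real.exp (-x ^ 2 + l * r * x) *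
    (r * x * (1 - eE r l x) - l * (r ^ 2 - x ^ 2) * eE r l x)) l := by
  unfold jA
  refine hasDerivAt_param (f := fun l x => x * Real.exp (-x ^ 2 + l * r * x) * (1 - eE r l x))
    (f' := fun l x => x * Real.exp (-x ^ 2 + l * r * x) *
    (r * x * (1 - eE r l x) - l * (r ^ 2 - x ^ 2) * eE r l x)) ?_ ?_ ?_ 0 r l
  · intro l x
    have h1 : HasDerivAt (fun l : ℝ => -x ^ 2 + l * r * x) (r * x) l := by
      have := (((hasDerivAt_id l).mul_const r).mul_const x).const_add (-x ^ 2)
      simpa using this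
    have h2 : HasDerivAt (fun l : ℝ => -((1 - l ^ 2) * (r ^ 2 - x ^ 2) / 2))
        (l * (r ^ 2 - x ^ 2)) l := by
      have h3 : HasDerivAt (fun l : ℝ => 1 - l ^ 2) (-(2 * l)) l := by
        refine ((hasDerivAt_pow 2 l).const_sub 1).congr_deriv ?_
        norm_num
      refine ((h3.mul_const (r ^ 2 - x ^ 2)).div_const 2).fun_neg.congr_deriv ?_
      ring
    have h4 : HasDerivAt (fun l : ℝ => 1 - eE r l x) (-(eE r l x * (l * (r ^ 2 - x ^ 2)))) l := by
      unfold eE
      exact (h2.exp.const_sub 1)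
    have h5 := (h1.exp.const_mul x).mul h4
    refine h5.congr_deriv ?_
    ring
  · intro l
    unfold eE
    fun_prop
  · unfold eE
    fun_prop

theorem bm_pos {r l : ℝ} (j : ℕ) : 0 < bm r l j := by
  unfold bm
  apply intervalIntegral.intervalIntegral_pos_of_pos_on
  · exact Continuous.intervalIntegrable (by fun_prop) _ _
  · intro y hy
    have := hy.1
    positivity
  · norm_num

theorem jB_pos {r l : ℝ} (hr : 0 < r) (hl : l < 1) : 0 < jB r l := by
  unfold jB
  have := bm_pos (r := r) (l := l) 1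
  have h : 0 < (1 - l) * r := mul_pos (by linarith) hr
  positivity

/-- value of the exponential at the end point -/
noncomputable def be (r l : ℝ) : ℝ :=
  Real.exp (-((1 - l) * r) ^ 2 - l * (1 - l) * r ^ 2)

theorem bm_ibp (r l : ℝ) : be r l = 2 * bm r l 1 - 2 * ((1 - l) * r) ^ 2 * bm r l 3 -
    l * (1 - l) * r ^ 2 * bm r l 2 := by
  have hF : ∀ y ∈ uIcc (0:ℝ) 1, HasDerivAt (fun y : ℝ => y ^ 2 *
      Real.exp (-((1 - l) * r) ^ 2 * y ^ 2 - l * (1 - l) * r ^ 2 * y))
      (2 * (y ^ 1 * Real.exp (-((1 - l) * r) ^ 2 * y ^ 2 - l * (1 - l) * r ^ 2 * y)) -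
        2 * ((1 - l) * r) ^ 2 *
          (y ^ 3 * Real.exp (-((1 - l) * r) ^ 2 * y ^ 2 - l * (1 - l) * r ^ 2 * y)) -
        l * (1 - l) * r ^ 2 *
          (y ^ 2 * Real.exp (-((1 - l) * r) ^ 2 * y ^ 2 - l * (1 - l) * r ^ 2 * y))) y := by
    intro y _
    have h1 : HasDerivAt (fun y : ℝ => -((1 - l) * r) ^ 2 * y ^ 2 - l * (1 - l) * r ^ 2 * y)
        (-((1 - l) * r) ^ 2 * (2 * y) - l * (1 - l) * r ^ 2) y := by
      have h2 := (hasDerivAt_pow 2 y).const_mul (-((1 - l) * r) ^ 2)
      have h3 := (hasDerivAt_id y).const_mul (l * (1 - l) * r ^ 2)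
      refine (h2.sub h3).congr_deriv ?_
      norm_num
    refine ((hasDerivAt_pow 2 y).mul h1.exp).congr_deriv ?_
    norm_num
    ring
  have h := intervalIntegral.integral_eq_sub_of_hasDerivAt hF
    (Continuous.intervalIntegrable (by fun_prop) _ _)
  rw [intervalIntegral.integral_sub, intervalIntegral.integral_sub,
    intervalIntegral.integral_const_mul, intervalIntegral.integral_const_mul,
    intervalIntegral.integral_const_mul] at h
  · unfold be bm
    rw [h]
    norm_num
  all_goals exact Continuous.intervalIntegrable (by fun_prop) _ _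

theorem bm_deriv (r l : ℝ) (j : ℕ) : HasDerivAt (fun l => bm r l j)
    (2 * (1 - l) * r ^ 2 * bm r l (j + 2) - (1 - 2 * l) * r ^ 2 * bm r l (j + 1)) l := by
  have h := hasDerivAt_param
    (f := fun l y => y ^ j * Real.exp (-((1 - l) * r) ^ 2 * y ^ 2 - l * (1 - l) * r ^ 2 * y))
    (f' := fun l y => 2 * (1 - l) * r ^ 2 *
      (y ^ (j + 2) * Real.exp (-((1 - l) * r) ^ 2 * y ^ 2 - l * (1 - l) * r ^ 2 * y)) -
      (1 - 2 * l) * r ^ 2 *
      (y ^ (j + 1) * Real.exp (-((1 - l) * r) ^ 2 * y ^ 2 - l * (1 - l) * r ^ 2 * y)))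
    (by
      intro l y
      have h1 : HasDerivAt (fun l : ℝ => (1 - l) * r) (-r) l := by
        simpa using ((hasDerivAt_id l).const_sub 1).mul_const r
      have h2 : HasDerivAt (fun l : ℝ => l * (1 - l) * r ^ 2) ((1 - 2 * l) * r ^ 2) l := by
        have h3 := ((hasDerivAt_id l).mul ((hasDerivAt_id l).const_sub 1)).mul_const (r ^ 2)
        refine h3.congr_deriv ?_
        simp only [id]
        ring
      have h4 : HasDerivAt (fun l : ℝ => -((1 - l) * r) ^ 2 * y ^ 2 - l * (1 - l) * r ^ 2 * y)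
          (2 * (1 - l) * r ^ 2 * y ^ 2 - (1 - 2 * l) * r ^ 2 * y) l := by
        refine (((h1.fun_pow 2).fun_neg.mul_const (y ^ 2)).sub (h2.mul_const y)).congr_deriv ?_
        simp only [Nat.cast_ofNat, Nat.add_one_sub_one, pow_one]
        ring
      refine (h4.exp.const_mul (y ^ j)).congr_deriv ?_
      ring)
    (by intro l; fun_prop) (by fun_prop) 0 1 l
  refine h.congr_deriv ?_
  rw [intervalIntegral.integral_sub, intervalIntegral.integral_const_mul,
    intervalIntegral.integral_const_mul]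
  · rfl
  all_goals exact Continuous.intervalIntegrable (by fun_prop) _ _

theorem jB_deriv (r l : ℝ) : HasDerivAt (jB r)
    (-((1 - l) * r ^ 2 * (be r l + ((1 - l) * r) ^ 2 * bm r l 2))) l := by
  unfold jB
  have h1 : HasDerivAt (fun l : ℝ => ((1 - l) * r) ^ 2) (-(2 * (1 - l) * r ^ 2)) l := by
    have h2 : HasDerivAt (fun l : ℝ => (1 - l) * r) (-r) l := by
      simpa using ((hasDerivAt_id l).const_sub 1).mul_const r
    refine (h2.fun_pow 2).congr_deriv ?_
    norm_num
    ring
  refine (h1.mul (bm_deriv r l 1)).congr_deriv ?_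
  rw [bm_ibp]
  ring

theorem bm_cheb {r l c : ℝ} (hl0 : 0 ≤ l) (hl1 : l ≤ 1) (j i : ℕ) (hc0 : 0 ≤ c)
    (hc : c ^ (j - i) * ((j : ℝ) + 1) = (i : ℝ) + 1) (hij : i < j) :
    bm r l j ≤ c ^ (j - i) * bm r l i := by
  obtain ⟨e, he⟩ : ∃ e : ℝ → ℝ, e = fun y =>
    Real.exp (-((1 - l) * r) ^ 2 * y ^ 2 - l * (1 - l) * r ^ 2 * y) := ⟨_, rfl⟩
  have hanti : ∀ y z, 0 ≤ y → y ≤ z → e z ≤ e y := by
    intro y z hy hyz
    rw [he]
    apply Real.exp_le_exp.2
    have h1 : 0 ≤ ((1 - l) * r) ^ 2 := sq_nonneg _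
    have h2 : 0 ≤ l * (1 - l) * r ^ 2 := mul_nonneg (mul_nonneg hl0 (by linarith)) (sq_nonneg _)
    have h3 : y ^ 2 ≤ z ^ 2 := by nlinarith
    nlinarith [mul_le_mul_of_nonneg_left h3 h1, mul_le_mul_of_nonneg_left hyz h2]
  have hec : Continuous e := by rw [he]; fun_prop
  have hz : ∫ y in (0:ℝ)..1, (y ^ j - c ^ (j - i) * y ^ i) * e c = 0 := by
    rw [intervalIntegral.integral_mul_const, intervalIntegral.integral_sub
      (Continuous.intervalIntegrable (by fun_prop) _ _)
      (Continuous.intervalIntegrable (by fun_prop) _ _), intervalIntegral.integral_const_mul,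
      integral_pow, integral_pow]
    have h1 : ((j:ℝ) + 1) ≠ 0 := by positivity
    have h2 : ((i:ℝ) + 1) ≠ 0 := by positivity
    have h3 : (1 ^ (j + 1) - 0 ^ (j + 1)) / ((j:ℝ) + 1) -
        c ^ (j - i) * ((1 ^ (i + 1) - 0 ^ (i + 1)) / ((i:ℝ) + 1)) = 0 := by
      have e0 : (0:ℝ) ^ (j + 1) = 0 := by simp
      have e1 : (0:ℝ) ^ (i + 1) = 0 := by simp
      rw [e0, e1, one_pow, one_pow, ← hc]
      have h4 : c ^ (j - i) ≠ 0 := by
        intro h0
        rw [h0, zero_mul] at hc
        exact h2 hc.symm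
      field_simp
      ring
    rw [h3, zero_mul]
  have hle : ∫ y in (0:ℝ)..1, (y ^ j - c ^ (j - i) * y ^ i) * e y ≤
      ∫ y in (0:ℝ)..1, (y ^ j - c ^ (j - i) * y ^ i) * e c := by
    refine intervalIntegral.integral_mono_on (by norm_num)
      (Continuous.intervalIntegrable (by fun_prop) _ _)
      (Continuous.intervalIntegrable (by fun_prop) _ _) ?_
    intro y hy
    have hy0 := hy.1
    have hsplit : y ^ j - c ^ (j - i) * y ^ i = y ^ i * (y ^ (j - i) - c ^ (j - i)) := by
      rw [mul_sub, ← pow_add, show i + (j - i) = j by omega]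
      ring
    rcases le_total y c with h | h
    · have h1 : y ^ j - c ^ (j - i) * y ^ i ≤ 0 := by
        rw [hsplit]
        apply mul_nonpos_of_nonneg_of_nonpos (by positivity)
        have := pow_le_pow_left₀ hy0 h (j - i)
        linarith
      exact mul_le_mul_of_nonpos_left (hanti y c hy0 h) h1
    · have h1 : 0 ≤ y ^ j - c ^ (j - i) * y ^ i := by
        rw [hsplit]
        apply mul_nonneg (by positivity)
        have := pow_le_pow_left₀ hc0 h (j - i)
        linarith
      exact mul_le_mul_of_nonneg_left (hanti c y hc0 h) h1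
  have hexp : ∫ y in (0:ℝ)..1, (y ^ j - c ^ (j - i) * y ^ i) * e y =
      bm r l j - c ^ (j - i) * bm r l i := by
    unfold bm
    rw [← intervalIntegral.integral_const_mul, ← intervalIntegral.integral_sub]
    · refine intervalIntegral.integral_congr fun y _ => ?_
      rw [he]
      ring
    all_goals exact Continuous.intervalIntegrable (by fun_prop) _ _
  linarith

/-- the key inequality for the moments -/
theorem bm_key {r l : ℝ} (hr : 0 < r) (hl0 : 0 < l) (hl1 : l < 1) :
    (2 * l / (1 + l) - l * (1 - l) * r ^ 2 / 2) * bm r l 1 <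
      be r l + ((1 - l) * r) ^ 2 * bm r l 2 := by
  have hb1 := bm_pos (r := r) (l := l) 1
  have hb2 := bm_pos (r := r) (l := l) 2
  have hb3 := bm_pos (r := r) (l := l) 3
  have hbe : 0 < be r l := Real.exp_pos _
  obtain ⟨s, hs⟩ : ∃ s, s = (1 - l) * r := ⟨_, rfl⟩
  obtain ⟨κ, hκ⟩ : ∃ κ, κ = l * r := ⟨_, rfl⟩
  have hs0 : 0 < s := by rw [hs]; exact mul_pos (by linarith) hr
  have hκ0 : 0 < κ := by rw [hκ]; positivity
  have hκs : l * (1 - l) * r ^ 2 = κ * s := by rw [hs, hκ]; ring
  have hfrac : 2 * l / (1 + l) = 2 * κ / (2 * κ + s) := by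
    rw [hs, hκ, div_eq_div_iff (by positivity) (by nlinarith)]
    ring
  have hibp := bm_ibp r l
  rw [← hs, hκs] at hibp
  rw [← hs, hκs, hfrac]
  have hlt1 : 2 * κ / (2 * κ + s) < 1 := by
    rw [div_lt_one (by positivity)]
    linarith
  rcases le_or_gt 2 (κ * s) with h2 | h2
  · have h3 : (2 * κ / (2 * κ + s) - κ * s / 2) * bm r l 1 < 0 := by
      apply mul_neg_of_neg_of_pos _ hb1
      linarith
    have h4 : 0 ≤ s ^ 2 * bm r l 2 := by positivity
    linarith
  · rcases le_or_gt s κ with hsκ | hsκ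
    · -- use Chebyshev
      have c2 : bm r l 2 ≤ 2 / 3 * bm r l 1 := by
        have := bm_cheb (r := r) hl0.le hl1.le (c := 2 / 3) 2 1 (by norm_num)
          (by norm_num) (by norm_num)
        simpa using this
      have c3 : bm r l 3 ≤ 1 / 2 * bm r l 1 := by
        have := bm_cheb (r := r) hl0.le hl1.le (c := Real.sqrt (1 / 2)) 3 1
          (Real.sqrt_nonneg _) (by
            rw [show (3 - 1 : ℕ) = 2 by norm_num, Real.sq_sqrt (by norm_num)]
            norm_num) (by norm_num)
        have e : Real.sqrt (1 / 2) ^ (3 - 1) = 1 / 2 := Real.sq_sqrt (by norm_num)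
        rw [e] at this
        exact this
      have hss : s ^ 2 ≤ κ * s := by nlinarith
      have h3 : 0 ≤ κ * s - s ^ 2 := by linarith
      have h4 : s ^ 2 * bm r l 3 ≤ s ^ 2 * (1 / 2 * bm r l 1) :=
        mul_le_mul_of_nonneg_left c3 (sq_nonneg s)
      have h5 : (κ * s - s ^ 2) * bm r l 2 ≤ (κ * s - s ^ 2) * (2 / 3 * bm r l 1) :=
        mul_le_mul_of_nonneg_left c2 h3
      have h6 : (2 - s ^ 2 / 3 - 2 * (κ * s) / 3) * bm r l 1 ≤ be r l + s ^ 2 * bm r l 2 := by
        rw [hibp]
        nlinarith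
      have h7 : (2 * κ / (2 * κ + s) - κ * s / 2) * bm r l 1 <
          (2 - s ^ 2 / 3 - 2 * (κ * s) / 3) * bm r l 1 := by
        apply mul_lt_mul_of_pos_right _ hb1
        nlinarith
      linarith
    · -- κ < s
      have c3 : bm r l 3 ≤ bm r l 2 := by
        unfold bm
        refine intervalIntegral.integral_mono_on (by norm_num)
          (Continuous.intervalIntegrable (by fun_prop) _ _)
          (Continuous.intervalIntegrable (by fun_prop) _ _) ?_
        intro y hy
        apply mul_le_mul_of_nonneg_right _ (Real.exp_pos _).le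
        have h0 := hy.1
        have h1 := hy.2
        calc y ^ 3 = y ^ 2 * y := by ring
          _ ≤ y ^ 2 * 1 := mul_le_mul_of_nonneg_left h1 (sq_nonneg y)
          _ = y ^ 2 := by ring
      have h3 : 2 * bm r l 1 ≤ be r l + (2 * s ^ 2 + κ * s) * bm r l 2 := by
        have := mul_le_mul_of_nonneg_left c3 (sq_nonneg s)
        nlinarith
      have h4 : 2 * s * bm r l 1 ≤ (2 * s + κ) * (be r l + s ^ 2 * bm r l 2) := by
        have h5 := mul_le_mul_of_nonneg_left h3 hs0.le
        have h6 : 0 ≤ (s + κ) * be r l := by positivity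
        nlinarith
      have h5 : 2 * κ / (2 * κ + s) < 2 * s / (2 * s + κ) := by
        rw [div_lt_div_iff₀ (by positivity) (by positivity)]
        nlinarith
      have h6 : 2 * s / (2 * s + κ) * bm r l 1 ≤ be r l + s ^ 2 * bm r l 2 := by
        rw [div_mul_eq_mul_div, div_le_iff₀ (by positivity)]
        linarith
      have h7 : (2 * κ / (2 * κ + s) - κ * s / 2) * bm r l 1 <
          2 * s / (2 * s + κ) * bm r l 1 := by
        apply mul_lt_mul_of_pos_right _ hb1
        have : 0 < κ * s := by positivity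
        linarith
      linarith

end Pool.Agent.H770.GS
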