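import Pool.Agent.H770.GS.N1

/-!
# The one parameter family `(a, a, b)`: monotonicity of a ratio, continued
-/

set_option autoImplicit false

open MeasureTheory Set intervalIntegral

namespace Pool.Agent.H770.GS

theorem int_sym {g : ℝ → ℝ} (hg : Continuous g) (a : ℝ) :
    ∫ y in (-a)..a, g y = ∫ y in (0:ℝ)..a, (g y + g (-y)) := by
  have c2 : Continuous fun u => g (-u) := by fun_prop
  have s1 : ∫ u in (-a)..a, g u = (∫ u in (-a)..0, g u) + ∫ u in (0:ℝ)..a, g u :=
    (intervalIntegral.integral_add_adjacent_intervals (hg.intervalIntegrable _ _)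
      (hg.intervalIntegrable _ _)).symm
  have s2 : ∫ u in (-a)..0, g u = ∫ u in (0:ℝ)..a, g (-u) := by
    rw [intervalIntegral.integral_comp_neg (fun u => g u)]
    simp
  rw [s1, s2, ← intervalIntegral.integral_add (c2.intervalIntegrable _ _)
    (hg.intervalIntegrable _ _)]
  refine intervalIntegral.integral_congr fun u _ => ?_
  ring

theorem one_sub_exp_conc {p a b : ℝ} (ha : 0 ≤ a) (hab : a ≤ b) :
    a * (1 - Real.exp (-(p * b))) ≤ b * (1 - Real.exp (-(p * a))) := by
  rcases eq_or_lt_of_le (ha.trans hab) with hb | hb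
  · have : a = 0 := by linarith
    rw [this, ← hb]
  have h := convexOn_exp.2 (mem_univ (0:ℝ)) (mem_univ (-(p * b)))
    (show (0:ℝ) ≤ 1 - a / b by rw [sub_nonneg, div_le_one hb]; exact hab)
    (show (0:ℝ) ≤ a / b by positivity) (by ring)
  simp only [smul_eq_mul, mul_zero, zero_add, Real.exp_zero, mul_one] at h
  have e : a / b * -(p * b) = -(p * a) := by field_simp
  rw [e] at h
  have h2 := mul_le_mul_of_nonneg_left h hb.le
  have e2 : b * (1 - a / b + a / b * Real.exp (-(p * b))) = b - a + a * Real.exp (-(p * b)) := by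
    field_simp
  rw [e2] at h2
  linarith

theorem eE_le_one {r l x : ℝ} (hl0 : 0 ≤ l) (hl1 : l < 1) (hx0 : 0 ≤ x) (hxr : x ≤ r) :
    eE r l x ≤ 1 := by
  unfold eE
  apply Real.exp_le_one_iff.2
  have h1 : 0 ≤ 1 - l ^ 2 := by nlinarith
  have h2 : 0 ≤ r ^ 2 - x ^ 2 := by nlinarith
  have := mul_nonneg h1 h2
  linarith

theorem mean_A {r l : ℝ} (hr : 0 < r) (hl0 : 0 ≤ l) (hl1 : l < 1) :
    l * r / 2 * jA r l ≤ ∫ x in (0:ℝ)..r, x * (x * Real.exp (-x ^ 2 + l * r * x) *
      (1 - eE r l x)) := by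
  obtain ⟨m, hm⟩ : ∃ m, m = l * r / 2 := ⟨_, rfl⟩
  have hm0 : 0 ≤ m := by rw [hm]; positivity
  have hmr : 2 * m ≤ r := by rw [hm]; nlinarith
  obtain ⟨w, hw⟩ : ∃ w : ℝ → ℝ, w = fun x => (x - m) * (x * Real.exp (-x ^ 2 + l * r * x) *
      (1 - eE r l x)) := ⟨_, rfl⟩
  have hwc : Continuous w := by rw [hw]; unfold eE; fun_prop
  have hkey : 0 ≤ ∫ x in (0:ℝ)..r, w x := by
    have s1 : ∫ x in (0:ℝ)..r, w x = (∫ x in (0:ℝ)..(2 * m), w x) + ∫ x in (2 * m)..r, w x :=
      (intervalIntegral.integral_add_adjacent_intervals (hwc.intervalIntegrable _ _)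
        (hwc.intervalIntegrable _ _)).symm
    have h2 : 0 ≤ ∫ x in (2 * m)..r, w x := by
      refine intervalIntegral.integral_nonneg hmr fun x hx => ?_
      rw [hw]
      have hx0 : 0 ≤ x := by linarith [hx.1]
      have := eE_le_one hl0 hl1 hx0 hx.2
      refine mul_nonneg (by linarith [hx.1]) (mul_nonneg (by positivity) (by linarith))
    have h1 : 0 ≤ ∫ x in (0:ℝ)..(2 * m), w x := by
      have e := intervalIntegral.integral_comp_add_left (a := -m) (b := m) w m
      rw [show m + -m = 0 by ring, show m + m = 2 * m by ring] at e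
      rw [← e, int_sym (by fun_prop)]
      refine intervalIntegral.integral_nonneg hm0 fun y hy => ?_
      have hy0 := hy.1
      have hym := hy.2
      obtain ⟨u, hu⟩ : ∃ u, u = m - y := ⟨_, rfl⟩
      obtain ⟨v, hv⟩ : ∃ v, v = m + y := ⟨_, rfl⟩
      have hu0 : 0 ≤ u := by linarith
      have huv : u ≤ v := by linarith
      have hvr : v ≤ r := by linarith
      have hp : 0 ≤ (1 - l ^ 2) / 2 := by nlinarith
      have hQ : 0 ≤ r ^ 2 - v ^ 2 := by nlinarith
      have hQQ : r ^ 2 - v ^ 2 ≤ r ^ 2 - u ^ 2 := by nlinarith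
      have hconc := one_sub_exp_conc (p := (1 - l ^ 2) / 2) hQ hQQ
      have eu : eE r l u = Real.exp (-((1 - l ^ 2) / 2 * (r ^ 2 - u ^ 2))) := by
        unfold eE; congr 1; ring
      have ev : eE r l v = Real.exp (-((1 - l ^ 2) / 2 * (r ^ 2 - v ^ 2))) := by
        unfold eE; congr 1; ring
      rw [← eu, ← ev] at hconc
      have hEv := eE_le_one hl0 hl1 (by linarith : 0 ≤ v) hvr
      have hEu := eE_le_one hl0 hl1 hu0 (by linarith : u ≤ r)
      have hh : u * (1 - eE r l u) ≤ v * (1 - eE r l v) := by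
        have hpoly : u * (r ^ 2 - u ^ 2) ≤ v * (r ^ 2 - v ^ 2) := by
          have h3 : u + v = 2 * m := by rw [hu, hv]; ring
          have h4 : v ^ 2 + u * v + u ^ 2 ≤ r ^ 2 := by
            have : v ^ 2 + u * v + u ^ 2 = (u + v) ^ 2 - u * v := by ring
            rw [this, h3]
            have h5 : 0 ≤ u * v := mul_nonneg hu0 (by linarith)
            nlinarith
          have h6 := mul_nonneg (sub_nonneg.2 huv) (sub_nonneg.2 h4)
          nlinarith
        rcases eq_or_lt_of_le hQ with h0 | h0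
        · -- then v = r and u = 0 or ...
          have h7 : u * (r ^ 2 - u ^ 2) ≤ 0 := by
            rw [← h0] at hpoly
            linarith
          have hvr2 : v ^ 2 = r ^ 2 := by linarith
          rcases eq_or_lt_of_le hu0 with hu1 | hu1
          · rw [← hu1, zero_mul]
            exact mul_nonneg (by linarith) (by linarith)
          · have h8 : r ^ 2 - u ^ 2 ≤ 0 := by
              by_contra hc
              push Not at hc
              have := mul_pos hu1 hc
              linarith
            have h9 : u = r := by nlinarith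
            have h10 : v = r := by linarith
            rw [h9, h10]
        · have h1 : (r ^ 2 - v ^ 2) * (u * (1 - eE r l u)) ≤
              (r ^ 2 - v ^ 2) * (v * (1 - eE r l v)) := by
            have a1 := mul_le_mul_of_nonneg_left hconc hu0
            have a2 := mul_le_mul_of_nonneg_right hpoly (by linarith : 0 ≤ 1 - eE r l v)
            nlinarith
          exact le_of_mul_le_mul_left h1 h0
      have hw1 : w (m + y) = y * Real.exp (m ^ 2 - y ^ 2) * (v * (1 - eE r l v)) := by
        rw [hw, ← hv]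
        simp only
        have : -v ^ 2 + l * r * v = m ^ 2 - y ^ 2 := by
          have : l * r = 2 * m := by rw [hm]; ring
          rw [this, hv]; ring
        rw [this, show v - m = y by rw [hv]; ring]
        ring
      have hw2 : w (m + -y) = -(y * Real.exp (m ^ 2 - y ^ 2) * (u * (1 - eE r l u))) := by
        rw [hw, ← sub_eq_add_neg, ← hu]
        simp only
        have : -u ^ 2 + l * r * u = m ^ 2 - y ^ 2 := by
          have : l * r = 2 * m := by rw [hm]; ring
          rw [this, hu]; ring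
        rw [this, show u - m = -y by rw [hu]; ring]
        ring
      rw [hw1, hw2]
      have := mul_le_mul_of_nonneg_left hh
        (mul_nonneg hy0 (Real.exp_pos (m ^ 2 - y ^ 2)).le)
      linarith
    rw [s1]
    linarith
  have e : ∫ x in (0:ℝ)..r, w x = (∫ x in (0:ℝ)..r, x * (x * Real.exp (-x ^ 2 + l * r * x) *
      (1 - eE r l x))) - m * jA r l := by
    unfold jA
    rw [hw, ← intervalIntegral.integral_const_mul, ← intervalIntegral.integral_sub]
    · refine intervalIntegral.integral_congr fun x _ => ?_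
      ring
    all_goals
      unfold eE
      exact Continuous.intervalIntegrable (by fun_prop) _ _
  rw [← hm]
  linarith

theorem jA_deriv_ge {r l : ℝ} (hr : 0 < r) (hl0 : 0 ≤ l) (hl1 : l < 1) :
    (l * r ^ 2 / 2 - 2 * l / (1 - l ^ 2)) * jA r l ≤
      ∫ x in (0:ℝ)..r, x * Real.exp (-x ^ 2 + l * r * x) *
    (r * x * (1 - eE r l x) - l * (r ^ 2 - x ^ 2) * eE r l x) := by
  have hl2 : 0 < 1 - l ^ 2 := by nlinarith
  have h1 : r * (∫ x in (0:ℝ)..r, x * (x * Real.exp (-x ^ 2 + l * r * x) * (1 - eE r l x))) -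
      2 * l / (1 - l ^ 2) * jA r l ≤ ∫ x in (0:ℝ)..r, x * Real.exp (-x ^ 2 + l * r * x) *
    (r * x * (1 - eE r l x) - l * (r ^ 2 - x ^ 2) * eE r l x) := by
    unfold jA
    rw [← intervalIntegral.integral_const_mul, ← intervalIntegral.integral_const_mul,
      ← intervalIntegral.integral_sub]
    · refine intervalIntegral.integral_mono_on hr.le ?_ ?_ ?_
      · unfold eE; exact Continuous.intervalIntegrable (by fun_prop) _ _
      · unfold eE; exact Continuous.intervalIntegrable (by fun_prop) _ _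
      · intro x hx
        have hx0 := hx.1
        have hxr := hx.2
        obtain ⟨y, hy⟩ : ∃ y, y = (1 - l ^ 2) * (r ^ 2 - x ^ 2) / 2 := ⟨_, rfl⟩
        have hy0 : 0 ≤ y := by
          rw [hy]
          have : 0 ≤ r ^ 2 - x ^ 2 := by nlinarith
          positivity
        have hE : eE r l x = Real.exp (-y) := by unfold eE; rw [hy]
        have h2 : y * Real.exp (-y) ≤ 1 - Real.exp (-y) := by
          have h3 : y + 1 ≤ Real.exp y := Real.add_one_le_exp y
          have h4 := mul_le_mul_of_nonneg_right h3 (Real.exp_pos (-y)).le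
          rw [← Real.exp_add, add_neg_cancel, Real.exp_zero] at h4
          linarith
        have h3 : l * (r ^ 2 - x ^ 2) * eE r l x ≤ 2 * l / (1 - l ^ 2) * (1 - eE r l x) := by
          rw [hE]
          have h5 : l * (r ^ 2 - x ^ 2) * Real.exp (-y) = 2 * l / (1 - l ^ 2) * (y * Real.exp (-y)) := by
            rw [hy]
            field_simp
          rw [h5]
          exact mul_le_mul_of_nonneg_left h2 (by positivity)
        have h6 : 0 ≤ x * Real.exp (-x ^ 2 + l * r * x) := by positivity
        have h7 := mul_le_mul_of_nonneg_left h3 h6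
        nlinarith
    all_goals
      unfold eE
      exact Continuous.intervalIntegrable (by fun_prop) _ _
  have h2 := mul_le_mul_of_nonneg_left (mean_A hr hl0 hl1) hr.le
  nlinarith

theorem jA_pos {r l : ℝ} (hr : 0 < r) (hl0 : 0 ≤ l) (hl1 : l < 1) : 0 < jA r l := by
  unfold jA
  apply intervalIntegral.intervalIntegral_pos_of_pos_on
  · unfold eE; exact Continuous.intervalIntegrable (by fun_prop) _ _
  · intro x hx
    have hx0 := hx.1
    have hxr := hx.2
    have : eE r l x < 1 := by
      unfold eE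
      have h1 : 0 < 1 - l ^ 2 := by nlinarith
      have h2 : 0 < r ^ 2 - x ^ 2 := by nlinarith
      have h3 := mul_pos h1 h2
      have h4 : -((1 - l ^ 2) * (r ^ 2 - x ^ 2) / 2) < 0 := by linarith
      have h5 := Real.exp_lt_exp.2 h4
      rwa [Real.exp_zero] at h5
    refine mul_pos (by positivity) (by linarith)
  · exact hr

theorem ratio_mono {r : ℝ} (hr : 0 < r) :
    StrictMonoOn (fun l => jA r l / jB r l) (Ico 0 1) := by
  have hd : ∀ l ∈ Ico (0:ℝ) 1, HasDerivAt (fun l => jA r l / jB r l)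
      (((∫ x in (0:ℝ)..r, x * Real.exp (-x ^ 2 + l * r * x) *
    (r * x * (1 - eE r l x) - l * (r ^ 2 - x ^ 2) * eE r l x)) * jB r l - jA r l *
    (-((1 - l) * r ^ 2 * (be r l + ((1 - l) * r) ^ 2 * bm r l 2)))) / jB r l ^ 2) l := by
    intro l hl
    exact (jA_deriv r l).div (jB_deriv r l) (jB_pos hr hl.2).ne'
  refine strictMonoOn_of_deriv_pos (convex_Ico 0 1) ?_ ?_
  · intro l hl
    exact (hd l hl).continuousAt.continuousWithinAt
  · rw [interior_Ico]
    intro l hl
    have hl0 := hl.1
    have hl1 := hl.2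
    rw [(hd l ⟨hl0.le, hl1⟩).deriv]
    have hB := jB_pos hr hl1
    have hA := jA_pos hr hl0.le hl1
    have h1 := mul_le_mul_of_nonneg_right (jA_deriv_ge hr hl0.le hl1) hB.le
    have h2 := bm_key hr hl0 hl1
    apply div_pos _ (by positivity)
    have h3 : 0 < (1 - l) * r ^ 2 * ((be r l + ((1 - l) * r) ^ 2 * bm r l 2) -
        (2 * l / (1 + l) - l * (1 - l) * r ^ 2 / 2) * bm r l 1) :=
      mul_pos (mul_pos (by linarith) (by positivity)) (by linarith)
    have h4 : (1 - l) * r ^ 2 * ((be r l + ((1 - l) * r) ^ 2 * bm r l 2) -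
        (2 * l / (1 + l) - l * (1 - l) * r ^ 2 / 2) * bm r l 1) =
        (l * r ^ 2 / 2 - 2 * l / (1 - l ^ 2)) * jB r l +
        (1 - l) * r ^ 2 * (be r l + ((1 - l) * r) ^ 2 * bm r l 2) := by
      unfold jB
      have e1 : (1 - l ^ 2) = (1 - l) * (1 + l) := by ring
      have e2 : (1 - l) ≠ 0 := by linarith
      have e3 : (1 + l) ≠ 0 := by linarith
      rw [e1]
      field_simp
      ring
    rw [h4] at h3
    have h5 := mul_pos hA h3
    nlinarith

/-- the exchange derivative in the family `(a, a, b)`, up to a positive factor -/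
noncomputable def jj (r l : ℝ) : ℝ :=
  (∫ x in (0:ℝ)..r, x * W x * (W (x - l * r) - W (r - l * x))) -
    ∫ x in (0:ℝ)..((1 - l) * r), x * W x * W (x + l * r)

theorem jj_eq {r l : ℝ} : jj r l = Real.exp (-(l ^ 2 * r ^ 2 / 2)) * (jA r l - jB r l) := by
  unfold jj
  rw [mul_sub]
  congr 1
  · unfold jA
    rw [← intervalIntegral.integral_const_mul]
    refine intervalIntegral.integral_congr fun x _ => ?_
    unfold W eE
    have e1 : Real.exp (-x ^ 2 / 2) * Real.exp (-(x - l * r) ^ 2 / 2) =
        Real.exp (-(l ^ 2 * r ^ 2 / 2)) * Real.exp (-x ^ 2 + l * r * x) := by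
      rw [← Real.exp_add, ← Real.exp_add]; congr 1; ring
    have e2 : Real.exp (-x ^ 2 / 2) * Real.exp (-(r - l * x) ^ 2 / 2) =
        Real.exp (-(l ^ 2 * r ^ 2 / 2)) * Real.exp (-x ^ 2 + l * r * x) *
          Real.exp (-((1 - l ^ 2) * (r ^ 2 - x ^ 2) / 2)) := by
      rw [← Real.exp_add, ← Real.exp_add, ← Real.exp_add]; congr 1; ring
    calc x * Real.exp (-x ^ 2 / 2) * (Real.exp (-(x - l * r) ^ 2 / 2) -
          Real.exp (-(r - l * x) ^ 2 / 2))
        = x * (Real.exp (-x ^ 2 / 2) * Real.exp (-(x - l * r) ^ 2 / 2) -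
          Real.exp (-x ^ 2 / 2) * Real.exp (-(r - l * x) ^ 2 / 2)) := by ring
      _ = _ := by rw [e1, e2]; ring
  · have h := intervalIntegral.smul_integral_comp_mul_left (a := 0) (b := 1)
      (fun x => x * W x * W (x + l * r)) ((1 - l) * r)
    rw [mul_zero, mul_one] at h
    rw [← h]
    unfold jB bm
    rw [smul_eq_mul, ← intervalIntegral.integral_const_mul,
      ← intervalIntegral.integral_const_mul, ← intervalIntegral.integral_const_mul]
    refine intervalIntegral.integral_congr fun y _ => ?_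
    unfold W
    have e1 : Real.exp (-((1 - l) * r * y) ^ 2 / 2) * Real.exp (-((1 - l) * r * y + l * r) ^ 2 / 2) =
        Real.exp (-(l ^ 2 * r ^ 2 / 2)) *
          Real.exp (-((1 - l) * r) ^ 2 * y ^ 2 - l * (1 - l) * r ^ 2 * y) := by
      rw [← Real.exp_add, ← Real.exp_add]; congr 1; ring
    calc (1 - l) * r * ((1 - l) * r * y * Real.exp (-((1 - l) * r * y) ^ 2 / 2) *
          Real.exp (-((1 - l) * r * y + l * r) ^ 2 / 2))
        = (1 - l) * r * ((1 - l) * r * y) * (Real.exp (-((1 - l) * r * y) ^ 2 / 2) *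
          Real.exp (-((1 - l) * r * y + l * r) ^ 2 / 2)) := by ring
      _ = _ := by rw [e1]; ring

/-- single crossing -/
theorem jj_cross {r l1 l2 : ℝ} (hr : 0 < r) (h1 : 0 ≤ l1) (h12 : l1 < l2) (h2 : l2 < 1)
    (h : 0 ≤ jj r l1) : 0 < jj r l2 := by
  rw [jj_eq] at h ⊢
  have hB1 := jB_pos hr (h12.trans h2)
  have hB2 := jB_pos hr h2
  have ha : 0 ≤ jA r l1 - jB r l1 := by
    by_contra hc
    push Not at hc
    have := mul_neg_of_pos_of_neg (Real.exp_pos (-(l1 ^ 2 * r ^ 2 / 2))) hc
    linarith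
  have h3 := ratio_mono hr ⟨h1, h12.trans h2⟩ ⟨by linarith, h2⟩ h12
  simp only at h3
  have h4 : 1 ≤ jA r l1 / jB r l1 := by
    rw [le_div_iff₀ hB1]
    linarith
  have h5 : 1 < jA r l2 / jB r l2 := lt_of_le_of_lt h4 h3
  rw [lt_div_iff₀ hB2] at h5
  exact mul_pos (Real.exp_pos _) (by linarith)

end Pool.Agent.H770.GS
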