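import Pool.Agent.H770.GS.Thr

/-!
# A lower bound for the threshold
-/

set_option autoImplicit false

open MeasureTheory Set intervalIntegral

namespace Pool.Agent.H770.GS

open Pool.Agent.Helper82.GC

theorem exp_bd {u : ℝ} (h0 : 0 ≤ u) (h1 : u ≤ 1) :
    1 - u + u ^ 2 / 2 - u ^ 3 / 6 - 5 / 96 * u ^ 4 ≤ Real.exp (-u) ∧
      Real.exp (-u) ≤ 1 - u + u ^ 2 / 2 - u ^ 3 / 6 + 5 / 96 * u ^ 4 := by
  have h := Real.exp_bound (x := -u) (by rw [abs_neg, abs_of_nonneg h0]; exact h1) (n := 4)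
    (by norm_num)
  rw [abs_neg, abs_of_nonneg h0, abs_le] at h
  simp [Finset.sum_range_succ, Nat.factorial] at h
  constructor <;> nlinarith [h.1, h.2]

theorem Zr_one_lower : (1.7099 : ℝ) ≤ Zr 1 := by
  unfold Zr
  have h : ∫ x in (-1 : ℝ)..1, (1 - x ^ 2 / 2 + (x ^ 2 / 2) ^ 2 / 2 - (x ^ 2 / 2) ^ 3 / 6 -
      5 / 96 * (x ^ 2 / 2) ^ 4) ≤ ∫ x in (-1 : ℝ)..1, Real.exp (-x ^ 2 / 2) := by
    refine intervalIntegral.integral_mono_on (by norm_num)
      (Continuous.intervalIntegrable (by fun_prop) _ _)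
      (Continuous.intervalIntegrable (by fun_prop) _ _) ?_
    intro x hx
    have := (exp_bd (u := x ^ 2 / 2) (by positivity) (by nlinarith [hx.1, hx.2])).1
    rw [show -x ^ 2 / 2 = -(x ^ 2 / 2) by ring]
    exact this
  refine le_trans ?_ h
  have e : ∀ x : ℝ, (1 - x ^ 2 / 2 + (x ^ 2 / 2) ^ 2 / 2 - (x ^ 2 / 2) ^ 3 / 6 -
      5 / 96 * (x ^ 2 / 2) ^ 4) = 1 - 1 / 2 * x ^ 2 + 1 / 8 * x ^ 4 - 1 / 48 * x ^ 6 -
      5 / 1536 * x ^ 8 := by intro x; ring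
  simp only [e]
  rw [intervalIntegral.integral_eq_sub_of_hasDerivAt (f := fun x : ℝ => x - 1 / 6 * x ^ 3 +
    1 / 40 * x ^ 5 - 1 / 336 * x ^ 7 - 5 / 13824 * x ^ 9)]
  · norm_num
  · intro x _
    have := ((((hasDerivAt_id x).sub ((hasDerivAt_pow 3 x).const_mul (1/6))).add
      ((hasDerivAt_pow 5 x).const_mul (1/40))).sub ((hasDerivAt_pow 7 x).const_mul (1/336))).sub
      ((hasDerivAt_pow 9 x).const_mul (5/13824))
    refine this.congr_deriv ?_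
    norm_num
    ring
  · exact Continuous.intervalIntegrable (by fun_prop) _ _

theorem Zr_sqrt_lower : (2.08 : ℝ) ≤ Zr (Real.sqrt 2 * 1) := by
  rw [mul_one]
  unfold Zr
  obtain ⟨q, hq⟩ : ∃ q, q = Real.sqrt 2 := ⟨_, rfl⟩
  have hq2 : q ^ 2 = 2 := by rw [hq]; exact Real.sq_sqrt (by norm_num)
  have hq0 : 1.414 < q := by rw [hq, Real.lt_sqrt (by norm_num)]; norm_num
  rw [← hq]
  have h : ∫ x in (-q)..q, (1 - x ^ 2 / 2 + (x ^ 2 / 2) ^ 2 / 2 - (x ^ 2 / 2) ^ 3 / 6 -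
      5 / 96 * (x ^ 2 / 2) ^ 4) ≤ ∫ x in (-q)..q, Real.exp (-x ^ 2 / 2) := by
    refine intervalIntegral.integral_mono_on (by linarith)
      (Continuous.intervalIntegrable (by fun_prop) _ _)
      (Continuous.intervalIntegrable (by fun_prop) _ _) ?_
    intro x hx
    have := (exp_bd (u := x ^ 2 / 2) (by positivity) (by nlinarith [hx.1, hx.2])).1
    rw [show -x ^ 2 / 2 = -(x ^ 2 / 2) by ring]
    exact this
  refine le_trans ?_ h
  have e : ∀ x : ℝ, (1 - x ^ 2 / 2 + (x ^ 2 / 2) ^ 2 / 2 - (x ^ 2 / 2) ^ 3 / 6 -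
      5 / 96 * (x ^ 2 / 2) ^ 4) = 1 - 1 / 2 * x ^ 2 + 1 / 8 * x ^ 4 - 1 / 48 * x ^ 6 -
      5 / 1536 * x ^ 8 := by intro x; ring
  simp only [e]
  rw [intervalIntegral.integral_eq_sub_of_hasDerivAt (f := fun x : ℝ => x - 1 / 6 * x ^ 3 +
    1 / 40 * x ^ 5 - 1 / 336 * x ^ 7 - 5 / 13824 * x ^ 9)]
  · have e3 : q ^ 3 = 2 * q := by rw [show q ^ 3 = q ^ 2 * q by ring, hq2]
    have e5 : q ^ 5 = 4 * q := by rw [show q ^ 5 = (q ^ 2) ^ 2 * q by ring, hq2]; ring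
    have e7 : q ^ 7 = 8 * q := by rw [show q ^ 7 = (q ^ 2) ^ 3 * q by ring, hq2]; ring
    have e9 : q ^ 9 = 16 * q := by rw [show q ^ 9 = (q ^ 2) ^ 4 * q by ring, hq2]; ring
    have m3 : (-q) ^ 3 = -(2 * q) := by rw [← e3]; ring
    have m5 : (-q) ^ 5 = -(4 * q) := by rw [← e5]; ring
    have m7 : (-q) ^ 7 = -(8 * q) := by rw [← e7]; ring
    have m9 : (-q) ^ 9 = -(16 * q) := by rw [← e9]; ring
    rw [e3, e5, e7, e9, m3, m5, m7, m9]
    linarith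
  · intro x _
    have := ((((hasDerivAt_id x).sub ((hasDerivAt_pow 3 x).const_mul (1/6))).add
      ((hasDerivAt_pow 5 x).const_mul (1/40))).sub ((hasDerivAt_pow 7 x).const_mul (1/336))).sub
      ((hasDerivAt_pow 9 x).const_mul (5/13824))
    refine this.congr_deriv ?_
    norm_num
    ring
  · exact Continuous.intervalIntegrable (by fun_prop) _ _

theorem I2_upper {q : ℝ} (h0 : 0 ≤ q) (h1 : q ≤ 1 / 2) :
    I2 q ≤ 2 * q - 2 / 3 * q ^ 3 + 1 / 5 * q ^ 5 := by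
  unfold I2
  have h : ∫ x in (-q)..q, Real.exp (-x ^ 2) ≤ ∫ x in (-q)..q, (1 - x ^ 2 + 1 / 2 * x ^ 4) := by
    refine intervalIntegral.integral_mono_on (by linarith)
      (Continuous.intervalIntegrable (by fun_prop) _ _)
      (Continuous.intervalIntegrable (by fun_prop) _ _) ?_
    intro x hx
    have h2 := (exp_bd (u := x ^ 2) (by positivity) (by nlinarith [hx.1, hx.2])).2
    have h3 : x ^ 2 ≤ 1 / 4 := by nlinarith [hx.1, hx.2]
    have h4 : 5 / 96 * (x ^ 2) ^ 4 ≤ (x ^ 2) ^ 3 / 6 := by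
      have : 0 ≤ (x ^ 2) ^ 3 := by positivity
      nlinarith
    nlinarith
  refine h.trans (le_of_eq ?_)
  rw [intervalIntegral.integral_eq_sub_of_hasDerivAt (f := fun x : ℝ => x - 1 / 3 * x ^ 3 +
    1 / 10 * x ^ 5)]
  · ring
  · intro x _
    have := ((hasDerivAt_id x).sub ((hasDerivAt_pow 3 x).const_mul (1/3))).add
      ((hasDerivAt_pow 5 x).const_mul (1/10))
    refine this.congr_deriv ?_
    norm_num
    ring
  · exact Continuous.intervalIntegrable (by fun_prop) _ _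

theorem hex_upper : ∫ s in (0:ℝ)..1, Real.exp (-(3 * s ^ 2 / 4)) * I2 (s / 2) ≤ 0.341 := by
  have hI := I2_cont
  have h : ∫ s in (0:ℝ)..1, Real.exp (-(3 * s ^ 2 / 4)) * I2 (s / 2) ≤
      ∫ s in (0:ℝ)..1, (1 - 3 * s ^ 2 / 4 + (3 * s ^ 2 / 4) ^ 2 / 2 - (3 * s ^ 2 / 4) ^ 3 / 6 +
        5 / 96 * (3 * s ^ 2 / 4) ^ 4) * (s - 1 / 12 * s ^ 3 + 1 / 160 * s ^ 5) := by
    refine intervalIntegral.integral_mono_on (by norm_num)
      (Continuous.intervalIntegrable (by fun_prop) _ _)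
      (Continuous.intervalIntegrable (by fun_prop) _ _) ?_
    intro s hs
    have hs0 := hs.1
    have hs1 := hs.2
    have h2 := (exp_bd (u := 3 * s ^ 2 / 4) (by positivity) (by nlinarith)).2
    have h3 := I2_upper (q := s / 2) (by positivity) (by linarith)
    have h4 : 2 * (s / 2) - 2 / 3 * (s / 2) ^ 3 + 1 / 5 * (s / 2) ^ 5 =
      s - 1 / 12 * s ^ 3 + 1 / 160 * s ^ 5 := by ring
    rw [h4] at h3
    have h5 : 0 ≤ I2 (s / 2) := by
      unfold I2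
      exact intervalIntegral.integral_nonneg (by linarith) fun x _ => (Real.exp_pos _).le
    have h6 := Real.exp_pos (-(3 * s ^ 2 / 4))
    exact mul_le_mul h2 h3 h5 (by linarith)
  refine h.trans ?_
  have e : ∀ s : ℝ, (1 - 3 * s ^ 2 / 4 + (3 * s ^ 2 / 4) ^ 2 / 2 - (3 * s ^ 2 / 4) ^ 3 / 6 +
        5 / 96 * (3 * s ^ 2 / 4) ^ 4) * (s - 1 / 12 * s ^ 3 + 1 / 160 * s ^ 5) =
      s - (5 / 6) * s ^ 3 + (1 / 160 + 1 / 16 + 9 / 32) * s ^ 5 +
      (-(3 / 640) - 9 / 384 - 9 / 128) * s ^ 7 + (9 / 5120 + 9 / 1536 + 135 / 8192) * s ^ 9 +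
      (-(9 / 20480) - 135 / 98304) * s ^ 11 + (135 / 1310720) * s ^ 13 := by
    intro s; ring
  simp only [e]
  rw [intervalIntegral.integral_eq_sub_of_hasDerivAt (f := fun s : ℝ =>
      1 / 2 * s ^ 2 - (5 / 24) * s ^ 4 + (1 / 160 + 1 / 16 + 9 / 32) / 6 * s ^ 6 +
      (-(3 / 640) - 9 / 384 - 9 / 128) / 8 * s ^ 8 + (9 / 5120 + 9 / 1536 + 135 / 8192) / 10 * s ^ 10 +
      (-(9 / 20480) - 135 / 98304) / 12 * s ^ 12 + (135 / 1310720) / 14 * s ^ 14)]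
  · norm_num
  · intro s _
    have := ((((((hasDerivAt_pow 2 s).const_mul (1/2)).sub ((hasDerivAt_pow 4 s).const_mul (5/24))).add
      ((hasDerivAt_pow 6 s).const_mul ((1 / 160 + 1 / 16 + 9 / 32) / 6))).add
      ((hasDerivAt_pow 8 s).const_mul ((-(3 / 640) - 9 / 384 - 9 / 128) / 8))).add
      ((hasDerivAt_pow 10 s).const_mul ((9 / 5120 + 9 / 1536 + 135 / 8192) / 10))).add
      ((hasDerivAt_pow 12 s).const_mul ((-(9 / 20480) - 135 / 98304) / 12)) |>.add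
      ((hasDerivAt_pow 14 s).const_mul ((135 / 1310720) / 14))
    refine this.congr_deriv ?_
    norm_num
    ring
  · exact Continuous.intervalIntegrable (by fun_prop) _ _

theorem Dd_one : Dd 1 < 0 := by
  unfold Dd
  have h1 := hex_upper
  have h2 := Zr_one_lower
  have h3 := Zr_sqrt_lower
  have h4 : Real.sqrt 3 < 1.7321 := by
    rw [Real.sqrt_lt' (by norm_num)]; norm_num
  have h40 : 0 < Real.sqrt 3 := by positivity
  have h5 : (0:ℝ) ≤ ∫ s in (0:ℝ)..1, Real.exp (-(3 * s ^ 2 / 4)) * I2 (s / 2) := by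
    refine intervalIntegral.integral_nonneg (by norm_num) fun s hs => ?_
    refine mul_nonneg (Real.exp_pos _).le ?_
    unfold I2
    exact intervalIntegral.integral_nonneg (by linarith [hs.1]) fun x _ => (Real.exp_pos _).le
  have h6 : 1.7099 * 2.08 ≤ Zr 1 * Zr (Real.sqrt 2 * 1) := by
    apply mul_le_mul h2 h3 (by norm_num) (by linarith)
  nlinarith

end Pool.Agent.H770.GS
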