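import Pool.Agent.H770.GS.Exch

/-!
# Convolution with a pair preserves the class `P 0`
-/

set_option autoImplicit false

open MeasureTheory Set intervalIntegral

namespace Pool.Agent.H770.GS

theorem hasDerivAt_sym {g : ℝ → ℝ} (hg : Continuous g) (s : ℝ) :
    HasDerivAt (fun s => ∫ u in (-s)..s, g u) (g s + g (-s)) s := by
  have ig : ∀ a b, IntervalIntegrable g volume a b := fun a b => hg.intervalIntegrable a b
  have e : (fun s : ℝ => ∫ u in (-s)..s, g u) =
      fun s => (∫ u in (0:ℝ)..s, g u) - ∫ u in (0:ℝ)..(-s), g u := by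
    funext s
    rw [intervalIntegral.integral_interval_sub_left (ig _ _) (ig _ _)]
  rw [e]
  have h1 : HasDerivAt (fun s : ℝ => ∫ u in (0:ℝ)..s, g u) (g s) s :=
    intervalIntegral.integral_hasDerivAt_right (ig _ _)
      (hg.stronglyMeasurableAtFilter _ _) hg.continuousAt
  have h2 : HasDerivAt (fun s : ℝ => ∫ u in (0:ℝ)..s, g u) (g (-s)) (-s) :=
    intervalIntegral.integral_hasDerivAt_right (ig _ _)
      (hg.stronglyMeasurableAtFilter _ _) hg.continuousAt
  have h3 := h2.scomp s (hasDerivAt_neg s)
  refine (h1.sub h3).congr_deriv ?_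
  simp only [smul_eq_mul]
  ring

theorem continuous_sym {g : ℝ → ℝ} (hg : Continuous g) :
    Continuous (fun s => ∫ u in (-s)..s, g u) :=
  continuous_iff_continuousAt.2 fun s => (hasDerivAt_sym hg s).continuousAt

/-- parabola closure -/
theorem parab {k : ℝ → ℝ} (hk : P 0 k) {t v v' : ℝ} (ht : 0 < t) (hv : 0 < v) (hvv : v ≤ v') :
    v * ∫ x in (v' - t)..(v' + t), (t ^ 2 - (x - v') ^ 2) * k x ≤
      v' * ∫ x in (v - t)..(v + t), (t ^ 2 - (x - v) ^ 2) * k x := by
  have hkc := hk.cont
  have hderiv : ∀ g : ℝ → ℝ, Continuous g → ∀ w, HasDerivAt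
      (fun w => ∫ x in (w - t)..(w + t), g x) (g (w + t) - g (w - t)) w := by
    intro g hg w
    have ig : ∀ a b, IntervalIntegrable g volume a b := fun a b => hg.intervalIntegrable a b
    have e : (fun w : ℝ => ∫ x in (w - t)..(w + t), g x) =
        fun w => (∫ x in (0:ℝ)..(w + t), g x) - ∫ x in (0:ℝ)..(w - t), g x := by
      funext s
      rw [intervalIntegral.integral_interval_sub_left (ig _ _) (ig _ _)]
    rw [e]
    have h1 : HasDerivAt (fun s : ℝ => ∫ u in (0:ℝ)..s, g u) (g (w + t)) (w + t) :=
      intervalIntegral.integral_hasDerivAt_right (ig _ _)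
        (hg.stronglyMeasurableAtFilter _ _) hg.continuousAt
    have h2 : HasDerivAt (fun s : ℝ => ∫ u in (0:ℝ)..s, g u) (g (w - t)) (w - t) :=
      intervalIntegral.integral_hasDerivAt_right (ig _ _)
        (hg.stronglyMeasurableAtFilter _ _) hg.continuousAt
    have h3 := h1.scomp w ((hasDerivAt_id w).add_const t)
    have h4 := h2.scomp w ((hasDerivAt_id w).sub_const t)
    refine (h3.sub h4).congr_deriv ?_
    simp only [smul_eq_mul]
    ring
  obtain ⟨B, hB⟩ : ∃ B : ℝ → ℝ, B = fun w => ∫ x in (w - t)..(w + t), (t ^ 2 - (x - w) ^ 2) * k x :=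
    ⟨_, rfl⟩
  have hBe : B = fun w => (t ^ 2 - w ^ 2) * (∫ x in (w - t)..(w + t), k x) +
      2 * w * (∫ x in (w - t)..(w + t), x * k x) - ∫ x in (w - t)..(w + t), x ^ 2 * k x := by
    rw [hB]
    funext w
    rw [← intervalIntegral.integral_const_mul, ← intervalIntegral.integral_const_mul,
      ← intervalIntegral.integral_add, ← intervalIntegral.integral_sub]
    · refine intervalIntegral.integral_congr fun x _ => ?_
      ring
    all_goals exact Continuous.intervalIntegrable (by fun_prop) _ _
  have hB' : ∀ w, HasDerivAt B (2 * (∫ x in (w - t)..(w + t), x * k x) -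
      2 * w * ∫ x in (w - t)..(w + t), k x) w := by
    intro w
    rw [hBe]
    have d0 := hderiv k hkc w
    have d1 := hderiv (fun x => x * k x) (by fun_prop) w
    have d2 := hderiv (fun x => x ^ 2 * k x) (by fun_prop) w
    have e0 : HasDerivAt (fun w : ℝ => t ^ 2 - w ^ 2) (-(2 * w)) w := by
      refine ((hasDerivAt_pow 2 w).const_sub (t ^ 2)).congr_deriv ?_
      norm_num
    have e1 : HasDerivAt (fun w : ℝ => 2 * w) 2 w := by
      simpa using (hasDerivAt_id w).const_mul (2:ℝ)
    refine (((e0.mul d0).add (e1.mul d1)).sub d2).congr_deriv ?_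
    ring
  have hneg : ∀ w, 0 < w → w * (2 * (∫ x in (w - t)..(w + t), x * k x) -
      2 * w * ∫ x in (w - t)..(w + t), k x) - B w ≤ 0 := by
    intro w hw
    obtain ⟨c, hc⟩ : ∃ c, c = w ^ 2 + t ^ 2 := ⟨_, rfl⟩
    have hcpos : 0 < c := by rw [hc]; positivity
    have e1 : w * (2 * (∫ x in (w - t)..(w + t), x * k x) -
      2 * w * ∫ x in (w - t)..(w + t), k x) - B w =
        ∫ x in (w - t)..(w + t), (x ^ 2 - c) * k x := by
      have e2 : ∫ x in (w - t)..(w + t), (x ^ 2 - c) * k x =
          (∫ x in (w - t)..(w + t), x ^ 2 * k x) - c * ∫ x in (w - t)..(w + t), k x := by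
        rw [← intervalIntegral.integral_const_mul, ← intervalIntegral.integral_sub]
        · refine intervalIntegral.integral_congr fun x _ => ?_
          ring
        all_goals exact Continuous.intervalIntegrable (by fun_prop) _ _
      rw [e2, hBe, hc]
      ring
    rw [e1]
    obtain ⟨α, hα⟩ : ∃ α, α = |w - t| := ⟨_, rfl⟩
    have hα0 : 0 ≤ α := by rw [hα]; exact abs_nonneg _
    have hα2 : α ^ 2 = (w - t) ^ 2 := by rw [hα, sq_abs]
    have hαw : α ≤ w + t := by rw [hα, abs_le]; constructor <;> linarith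
    have ii : ∀ a b, IntervalIntegrable (fun x => (x ^ 2 - c) * k x) volume a b :=
      fun a b => Continuous.intervalIntegrable (by fun_prop) _ _
    have hI : ∫ x in (w - t)..(w + t), (x ^ 2 - c) * k x =
        ∫ x in α..(w + t), (x ^ 2 - c) * k x := by
      rcases le_total t w with h | h
      · have : α = w - t := by rw [hα, abs_of_nonneg (by linarith)]
        rw [this]
      · have h2 : α = t - w := by rw [hα, abs_of_nonpos (by linarith)]; ring
        rw [← intervalIntegral.integral_add_adjacent_intervals (ii (w - t) (t - w))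
          (ii (t - w) (w + t)), h2]
        have := odd_int (k := fun x => (x ^ 2 - c) * k x) (by
          intro x
          simp only [hk.odd]
          ring) (t - w)
        rw [neg_sub] at this
        rw [this, zero_add]
    rw [hI]
    obtain ⟨κ, hκ⟩ : ∃ κ, κ = k (Real.sqrt c) / Real.sqrt c := ⟨_, rfl⟩
    have hs : 0 < Real.sqrt c := Real.sqrt_pos.2 hcpos
    have hs2 : Real.sqrt c ^ 2 = c := Real.sq_sqrt hcpos.le
    have hzero : ∫ x in α..(w + t), (x ^ 2 - c) * (κ * x) = 0 := by
      have hF : ∀ x ∈ uIcc α (w + t), HasDerivAt (fun x : ℝ => κ * ((x ^ 2 - c) ^ 2 / 4))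
          ((x ^ 2 - c) * (κ * x)) x := by
        intro x _
        have h1 : HasDerivAt (fun x : ℝ => x ^ 2 - c) (2 * x) x := by
          refine ((hasDerivAt_pow 2 x).sub_const c).congr_deriv ?_
          norm_num
        have h2 := ((h1.fun_pow 2).div_const 4).const_mul κ
        refine h2.congr_deriv ?_
        norm_num
        ring
      rw [intervalIntegral.integral_eq_sub_of_hasDerivAt hF
        (Continuous.intervalIntegrable (by fun_prop) _ _)]
      rw [hα2, hc]
      ring
    have hle : ∫ x in α..(w + t), (x ^ 2 - c) * k x ≤ ∫ x in α..(w + t), (x ^ 2 - c) * (κ * x) := by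
      refine intervalIntegral.integral_mono_on hαw (ii _ _)
        (Continuous.intervalIntegrable (by fun_prop) _ _) ?_
      intro x hx
      have hx0 : 0 ≤ x := hα0.trans hx.1
      rcases eq_or_lt_of_le hx0 with h0 | h0
      · rw [← h0, odd_zero hk.odd]
        simp
      have hκm : κ * Real.sqrt c = k (Real.sqrt c) := by
        rw [hκ]; field_simp
      rcases le_total x (Real.sqrt c) with h | h
      · have h1 := hk.le x (Real.sqrt c) h0 h (by nlinarith)
        have h2 : κ * x ≤ k x := by
          rw [← hκm] at h1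
          have : Real.sqrt c * (κ * x) ≤ Real.sqrt c * k x := by nlinarith
          exact le_of_mul_le_mul_left this hs
        have h3 : x ^ 2 - c ≤ 0 := by nlinarith
        exact mul_le_mul_of_nonpos_left h2 h3
      · have h1 := hk.le (Real.sqrt c) x hs h (by nlinarith)
        have h2 : k x ≤ κ * x := by
          rw [← hκm] at h1
          have : Real.sqrt c * k x ≤ Real.sqrt c * (κ * x) := by nlinarith
          exact le_of_mul_le_mul_left this hs
        have h3 : 0 ≤ x ^ 2 - c := by nlinarith
        exact mul_le_mul_of_nonneg_left h2 h3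
    linarith
  have hanti : AntitoneOn (fun w => B w / w) (Ioi 0) := by
    refine antitoneOn_of_deriv_nonpos (convex_Ioi 0) ?_ ?_ ?_
    · intro w hw
      exact (((hB' w).div (hasDerivAt_id w) (ne_of_gt hw)).continuousAt).continuousWithinAt
    · rw [interior_Ioi]
      intro w hw
      exact ((hB' w).div (hasDerivAt_id w) (ne_of_gt hw)).differentiableAt.differentiableWithinAt
    · rw [interior_Ioi]
      intro w hw
      have hd : deriv (fun w => B w / w) w = _ :=
        ((hB' w).div (hasDerivAt_id w) (ne_of_gt hw)).deriv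
      rw [hd]
      apply div_nonpos_of_nonpos_of_nonneg
      · have := hneg w hw
        simp only [id]
        linarith
      · positivity
  have hv' : 0 < v' := lt_of_lt_of_le hv hvv
  have h := hanti (mem_Ioi.2 hv) (mem_Ioi.2 hv') hvv
  simp only at h
  rw [div_le_div_iff₀ hv' hv] at h
  have e1 : B v = ∫ x in (v - t)..(v + t), (t ^ 2 - (x - v) ^ 2) * k x := by rw [hB]
  have e2 : B v' = ∫ x in (v' - t)..(v' + t), (t ^ 2 - (x - v') ^ 2) * k x := by rw [hB]
  rw [e1, e2] at h
  linarith

/-- `∫ s, s H(s)` in terms of the parabola kernel -/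
theorem parab2 {k : ℝ → ℝ} (hk : P 0 k) {b z v v' : ℝ} (hb : 0 ≤ b) (hz : 0 ≤ z) (hv : 0 < v)
    (hvv : v ≤ v') :
    v * (∫ s in (0:ℝ)..z, s * ∫ u in (-s)..s, k (v' + b * u)) ≤
      v' * ∫ s in (0:ℝ)..z, s * ∫ u in (-s)..s, k (v + b * u) := by
  have hkc := hk.cont
  have hc : ∀ x, Continuous fun u => k (x + b * u) := fun x => by fun_prop
  rcases eq_or_lt_of_le hb with h0 | h0
  · have e : ∀ x, ∫ s in (0:ℝ)..z, s * ∫ u in (-s)..s, k (x + b * u) =
        ∫ s in (0:ℝ)..z, s * (2 * s) * k x := by
      intro x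
      refine intervalIntegral.integral_congr fun s _ => ?_
      rw [← h0]
      simp only [zero_mul, add_zero, intervalIntegral.integral_const, smul_eq_mul]
      ring
    rw [e, e, intervalIntegral.integral_mul_const, intervalIntegral.integral_mul_const]
    have h1 : 0 ≤ ∫ s in (0:ℝ)..z, s * (2 * s) := by
      refine intervalIntegral.integral_nonneg hz fun s hs => ?_
      have := hs.1
      positivity
    have h2 := hk.le v v' hv hvv (by linarith)
    have h3 := mul_le_mul_of_nonneg_left h2 h1
    nlinarith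
  rcases eq_or_lt_of_le hz with hz0 | hz0
  · rw [← hz0]; simp
  have e : ∀ x, ∫ s in (0:ℝ)..z, s * ∫ u in (-s)..s, k (x + b * u) =
      (1 / 2) * ∫ u in (-z)..z, (z ^ 2 - u ^ 2) * k (x + b * u) := by
    intro x
    have hd : ∀ s ∈ uIcc 0 z, HasDerivAt (fun s : ℝ => (1 / 2) *
        (s ^ 2 * (∫ u in (-s)..s, k (x + b * u)) - ∫ u in (-s)..s, u ^ 2 * k (x + b * u)))
        (s * ∫ u in (-s)..s, k (x + b * u)) s := by
      intro s _
      have d1 := hasDerivAt_sym (hc x) s
      have d2 := hasDerivAt_sym (g := fun u => u ^ 2 * k (x + b * u)) (by fun_prop) s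
      have d3 := (((hasDerivAt_pow 2 s).mul d1).sub d2).const_mul (1 / 2 : ℝ)
      refine d3.congr_deriv ?_
      norm_num
      ring
    rw [intervalIntegral.integral_eq_sub_of_hasDerivAt hd]
    · simp only [neg_zero, intervalIntegral.integral_same, mul_zero, sub_zero]
      congr 1
      rw [← intervalIntegral.integral_const_mul, ← intervalIntegral.integral_sub]
      · refine intervalIntegral.integral_congr fun u _ => ?_
        ring
      all_goals exact Continuous.intervalIntegrable (by fun_prop) _ _
    · have := continuous_sym (hc x)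
      exact Continuous.intervalIntegrable (by fun_prop) _ _
  have e2 : ∀ x, ∫ u in (-z)..z, (z ^ 2 - u ^ 2) * k (x + b * u) =
      b⁻¹ * ((b⁻¹) ^ 2 * ∫ y in (x - b * z)..(x + b * z), ((b * z) ^ 2 - (y - x) ^ 2) * k y) := by
    intro x
    have h := intervalIntegral.integral_comp_add_mul (a := -z) (b := z)
      (fun y => (b⁻¹) ^ 2 * (((b * z) ^ 2 - (y - x) ^ 2) * k y)) h0.ne' x
    simp only [smul_eq_mul] at h
    rw [show x + b * -z = x - b * z by ring] at h
    rw [← intervalIntegral.integral_const_mul, ← h]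
    refine intervalIntegral.integral_congr fun u _ => ?_
    have hb' := h0.ne'
    field_simp
    ring
  rw [e, e, e2, e2]
  have h := parab hk (mul_pos h0 hz0) hv hvv
  have h2 : 0 ≤ 1 / 2 * (b⁻¹ * (b⁻¹) ^ 2) := by positivity
  have h3 := mul_le_mul_of_nonneg_left h h2
  nlinarith

/-- integrals against three dimensional unimodal densities -/
theorem uni_main {n n' D : ℝ → ℝ} {R : ℝ} (hR : 0 < R) (hn : Continuous n)
    (hn' : ∀ z, 0 < z → z < R → HasDerivAt n (n' z) z) (hn'c : Continuous n')
    (hanti : ∀ z, 0 < z → z < R → z * n' z ≤ n z) (hnR : 0 ≤ n R)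
    (hn0 : ∀ z, 0 ≤ z → z ≤ R → 0 ≤ n z)
    (hD : Continuous D) (hE : ∀ z, 0 ≤ z → z ≤ R → 0 ≤ ∫ s in (0:ℝ)..z, s * D s) :
    0 ≤ ∫ z in (0:ℝ)..R, n z * D z := by
  obtain ⟨C, hC⟩ := (isCompact_Icc (a := (0:ℝ)) (b := R)).exists_bound_of_continuousOn
    hD.continuousOn
  obtain ⟨N, hN⟩ := (isCompact_Icc (a := (0:ℝ)) (b := R)).exists_bound_of_continuousOn
    hn.continuousOn
  have hC0 : 0 ≤ C := le_trans (norm_nonneg _) (hC 0 ⟨le_rfl, hR.le⟩)
  have hN0 : 0 ≤ N := le_trans (norm_nonneg _) (hN 0 ⟨le_rfl, hR.le⟩)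
  have iiD : ∀ a b, IntervalIntegrable (fun z => n z * D z) volume a b :=
    fun a b => Continuous.intervalIntegrable (by fun_prop) _ _
  have key : ∀ ε, 0 < ε → ε < R → -(2 * N * C * ε) ≤ ∫ z in (0:ℝ)..R, n z * D z := by
    intro ε hε hεR
    have hsp : ∫ z in (0:ℝ)..R, n z * D z = (∫ z in (0:ℝ)..ε, n z * D z) +
        ∫ z in ε..R, n z * D z :=
      (intervalIntegral.integral_add_adjacent_intervals (iiD _ _) (iiD _ _)).symm
    have h1 : |∫ z in (0:ℝ)..ε, n z * D z| ≤ N * C * ε := by
      have := intervalIntegral.norm_integral_le_of_norm_le_const (a := 0) (b := ε)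
        (f := fun z => n z * D z) (C := N * C) (by
          intro z hz
          rw [uIoc_of_le hε.le] at hz
          rw [norm_mul]
          exact mul_le_mul (hN z ⟨hz.1.le, by linarith [hz.2]⟩) (hC z ⟨hz.1.le, by linarith [hz.2]⟩)
            (norm_nonneg _) hN0)
      rw [sub_zero, abs_of_pos hε] at this
      exact this
    obtain ⟨E, hEdef⟩ : ∃ E : ℝ → ℝ, E = fun z => ∫ s in (0:ℝ)..z, s * D s := ⟨_, rfl⟩
    have hEd : ∀ z, HasDerivAt E (z * D z) z := by
      intro z
      rw [hEdef]
      have hcont : Continuous fun s : ℝ => s * D s := by fun_prop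
      exact intervalIntegral.integral_hasDerivAt_right (hcont.intervalIntegrable _ _)
        (hcont.stronglyMeasurableAtFilter _ _) hcont.continuousAt
    have hEc : Continuous E := continuous_iff_continuousAt.2 fun z => (hEd z).continuousAt
    have hEb : E ε ≤ C * ε * ε := by
      have := intervalIntegral.norm_integral_le_of_norm_le_const (a := 0) (b := ε)
        (f := fun s => s * D s) (C := ε * C) (by
          intro z hz
          rw [uIoc_of_le hε.le] at hz
          rw [norm_mul, Real.norm_eq_abs, abs_of_pos hz.1]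
          exact mul_le_mul hz.2 (hC z ⟨hz.1.le, by linarith [hz.2]⟩) (norm_nonneg _) hε.le)
      rw [sub_zero, abs_of_pos hε, Real.norm_eq_abs] at this
      rw [hEdef]
      have h2 := le_abs_self (∫ s in (0:ℝ)..ε, s * D s)
      simp only
      linarith
    -- integration by parts for m = n / z
    have hcontm : ContinuousOn (fun z => n z / z) (Icc ε R) := by
      intro z hz
      have hz0 : z ≠ 0 := by have := hz.1; linarith [hz.1] |> fun h : 0 < z => h.ne'
      exact ((hn.continuousAt).div continuousAt_id hz0).continuousWithinAt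
    have hcontm' : ContinuousOn (fun z => (n' z * z - n z * 1) / z ^ 2) (Icc ε R) := by
      intro z hz
      have hz0 : z ≠ 0 := by have := hz.1; linarith [hz.1] |> fun h : 0 < z => h.ne'
      have : ContinuousAt (fun z => n' z * z - n z * 1) z := by fun_prop
      exact (this.div (continuousAt_id.pow 2) (pow_ne_zero 2 hz0)).continuousWithinAt
    have hibp := intervalIntegral.integral_mul_deriv_eq_deriv_mul_of_hasDerivAt
      (a := ε) (b := R) (u := fun z => n z / z) (v := E)
      (u' := fun z => (n' z * z - n z * 1) / z ^ 2) (v' := fun z => z * D z)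
      (by rw [uIcc_of_le hεR.le]; exact hcontm) hEc.continuousOn
      (by
        intro z hz
        rw [min_eq_left hεR.le, max_eq_right hεR.le] at hz
        have hz0 : 0 < z := by linarith [hz.1]
        exact (hn' z hz0 hz.2).div (hasDerivAt_id z) hz0.ne')
      (fun z _ => hEd z)
      (ContinuousOn.intervalIntegrable (by rw [uIcc_of_le hεR.le]; exact hcontm'))
      (Continuous.intervalIntegrable (by fun_prop) _ _)
    have e1 : ∫ z in ε..R, n z / z * (z * D z) = ∫ z in ε..R, n z * D z := by
      refine intervalIntegral.integral_congr fun z hz => ?_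
      rw [uIcc_of_le hεR.le] at hz
      have hz0 : z ≠ 0 := by have := hz.1; linarith [hz.1] |> fun h : 0 < z => h.ne'
      field_simp
    rw [e1] at hibp
    have h2 : ∫ z in ε..R, (n' z * z - n z * 1) / z ^ 2 * E z ≤ 0 := by
      have : ∫ z in ε..R, (n' z * z - n z * 1) / z ^ 2 * E z ≤ ∫ z in ε..R, (0:ℝ) := by
        refine intervalIntegral.integral_mono_on_of_le_Ioo hεR.le ?_ (by simp) ?_
        · refine ContinuousOn.intervalIntegrable ?_
          rw [uIcc_of_le hεR.le]
          exact hcontm'.mul hEc.continuousOn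
        · intro z hz
          have hz0 : 0 < z := by linarith [hz.1]
          have h3 := hanti z hz0 hz.2
          have h4 := hE z hz0.le hz.2.le
          apply mul_nonpos_of_nonpos_of_nonneg
          · apply div_nonpos_of_nonpos_of_nonneg
            · linarith
            · positivity
          · rw [hEdef]; exact h4
      simpa using this
    have h3 : 0 ≤ n R / R * E R := by
      apply mul_nonneg (div_nonneg hnR hR.le)
      rw [hEdef]
      exact hE R hR.le le_rfl
    have h4 : n ε / ε * E ε ≤ N * C * ε := by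
      have h5 : n ε ≤ N := le_trans (le_abs_self _) (hN ε ⟨hε.le, hεR.le⟩)
      have h6 : 0 ≤ n ε := hn0 ε hε.le hεR.le
      have h7 : n ε / ε * E ε ≤ n ε / ε * (C * ε * ε) :=
        mul_le_mul_of_nonneg_left hEb (div_nonneg h6 hε.le)
      have h8 : n ε / ε * (C * ε * ε) = n ε * (C * ε) := by
        field_simp
      have h9 : n ε * (C * ε) ≤ N * (C * ε) := mul_le_mul_of_nonneg_right h5 (by positivity)
      linarith
    have h5 := neg_abs_le (∫ z in (0:ℝ)..ε, n z * D z)
    rw [hsp, hibp]
    linarith
  -- let ε → 0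
  by_contra hneg
  push Not at hneg
  obtain ⟨I, hI⟩ : ∃ I, I = ∫ z in (0:ℝ)..R, n z * D z := ⟨_, rfl⟩
  rw [← hI] at hneg key
  obtain ⟨ε, hε⟩ : ∃ ε, ε = min (R / 2) (-I / (4 * (N * C + 1))) := ⟨_, rfl⟩
  have hNC : 0 ≤ N * C := mul_nonneg hN0 hC0
  have hε0 : 0 < ε := by
    rw [hε]
    refine lt_min (by linarith) ?_
    apply div_pos <;> linarith
  have hεR : ε < R := by
    rw [hε]
    exact lt_of_le_of_lt (min_le_left _ _) (by linarith)
  have h1 := key ε hε0 hεR
  have h2 : ε ≤ -I / (4 * (N * C + 1)) := by rw [hε]; exact min_le_right _ _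
  rw [le_div_iff₀ (by linarith)] at h2
  nlinarith

end Pool.Agent.H770.GS
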