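import Pool.Agent.H770.GS.Pairs

/-!
# Convolution with a pair preserves the class `P 0`: the pair density
-/

set_option autoImplicit false

open MeasureTheory Set intervalIntegral

namespace Pool.Agent.H770.GS

/-- `∫_{-q}^{q} e^{-p²} dp` -/
noncomputable def I2 (q : ℝ) : ℝ := ∫ p in (-q)..q, Real.exp (-p ^ 2)

theorem I2_deriv (q : ℝ) : HasDerivAt I2 (2 * Real.exp (-q ^ 2)) q := by
  have h := hasDerivAt_sym (g := fun p : ℝ => Real.exp (-p ^ 2)) (by fun_prop) q
  refine h.congr_deriv ?_
  simp only [neg_sq]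
  ring

theorem I2_cont : Continuous I2 := continuous_iff_continuousAt.2 fun q => (I2_deriv q).continuousAt

theorem I2_zero : I2 0 = 0 := by simp [I2]

theorem I2_lower {q : ℝ} (hq : 0 ≤ q) : 16 / 27 * q ^ 3 * Real.exp (-q ^ 2) ≤ I2 q := by
  have hd : ∀ x, HasDerivAt (fun q : ℝ => I2 q - 16 / 27 * q ^ 3 * Real.exp (-q ^ 2))
      (2 * Real.exp (-x ^ 2) - (16 / 9 * x ^ 2 * Real.exp (-x ^ 2) +
        16 / 27 * x ^ 3 * (Real.exp (-x ^ 2) * (-(2 * x))))) x := by
    intro x
    have h1 : HasDerivAt (fun q : ℝ => Real.exp (-q ^ 2)) (Real.exp (-x ^ 2) * (-(2 * x))) x := by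
      have : HasDerivAt (fun q : ℝ => -q ^ 2) (-(2 * x)) x := by
        refine (hasDerivAt_pow 2 x).fun_neg.congr_deriv ?_
        norm_num
      exact this.exp
    have h2 : HasDerivAt (fun q : ℝ => 16 / 27 * q ^ 3) (16 / 9 * x ^ 2) x := by
      refine ((hasDerivAt_pow 3 x).const_mul (16 / 27 : ℝ)).congr_deriv ?_
      norm_num
      ring
    exact (I2_deriv x).sub (h2.mul h1)
  have hmono : MonotoneOn (fun q : ℝ => I2 q - 16 / 27 * q ^ 3 * Real.exp (-q ^ 2)) (Ici 0) := by
    refine monotoneOn_of_deriv_nonneg (convex_Ici 0) ?_ ?_ ?_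
    · exact fun x _ => (hd x).continuousAt.continuousWithinAt
    · exact fun x _ => (hd x).differentiableAt.differentiableWithinAt
    · intro x _
      rw [(hd x).deriv]
      have e : 2 * Real.exp (-x ^ 2) - (16 / 9 * x ^ 2 * Real.exp (-x ^ 2) +
        16 / 27 * x ^ 3 * (Real.exp (-x ^ 2) * (-(2 * x)))) =
          Real.exp (-x ^ 2) * (2 - 16 / 9 * x ^ 2 + 32 / 27 * x ^ 4) := by ring
      rw [e]
      refine mul_nonneg (Real.exp_pos _).le ?_
      nlinarith [sq_nonneg (x ^ 2 - 3 / 4)]
  have h := hmono (mem_Ici.2 le_rfl) (mem_Ici.2 hq) hq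
  simp only [I2_zero] at h
  norm_num at h
  linarith

/-- density of the pair on `[0, 2 r]` -/
noncomputable def fL (r z : ℝ) : ℝ := Real.exp (-z ^ 2 / 4) * I2 (r - z / 2)

/-- minus the derivative of the pair density -/
noncomputable def nL (r z : ℝ) : ℝ :=
  z / 2 * fL r z + Real.exp (-z ^ 2 / 4) * Real.exp (-(r - z / 2) ^ 2)

theorem fL_cont (r : ℝ) : Continuous (fL r) := by
  unfold fL
  have := I2_cont
  fun_prop

theorem fL_deriv (r z : ℝ) : HasDerivAt (fL r) (-nL r z) z := by
  unfold fL
  have h1 : HasDerivAt (fun z : ℝ => Real.exp (-z ^ 2 / 4)) (Real.exp (-z ^ 2 / 4) * (-(z / 2))) z := by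
    have : HasDerivAt (fun q : ℝ => -q ^ 2 / 4) (-(z / 2)) z := by
      refine ((hasDerivAt_pow 2 z).fun_neg.div_const 4).congr_deriv ?_
      norm_num
      ring
    exact this.exp
  have h2 : HasDerivAt (fun z : ℝ => r - z / 2) (-(1 / 2)) z := by
    simpa using ((hasDerivAt_id z).div_const 2).const_sub r
  have h3 := (I2_deriv (r - z / 2)).comp z h2
  refine (h1.mul h3).congr_deriv ?_
  unfold nL fL
  simp only [Function.comp]
  ring

theorem nL_cont (r : ℝ) : Continuous (nL r) := by
  unfold nL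
  have := fL_cont r
  fun_prop

theorem nL_deriv (r z : ℝ) : HasDerivAt (nL r) (1 / 2 * fL r z - z / 2 * nL r z +
    (r - z) * (Real.exp (-z ^ 2 / 4) * Real.exp (-(r - z / 2) ^ 2))) z := by
  have h1 : HasDerivAt (fun z : ℝ => Real.exp (-z ^ 2 / 4)) (Real.exp (-z ^ 2 / 4) * (-(z / 2))) z := by
    have : HasDerivAt (fun q : ℝ => -q ^ 2 / 4) (-(z / 2)) z := by
      refine ((hasDerivAt_pow 2 z).fun_neg.div_const 4).congr_deriv ?_
      norm_num
      ring
    exact this.exp
  have h2 : HasDerivAt (fun z : ℝ => r - z / 2) (-(1 / 2)) z := by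
    simpa using ((hasDerivAt_id z).div_const 2).const_sub r
  have h3 : HasDerivAt (fun z : ℝ => Real.exp (-(r - z / 2) ^ 2))
      (Real.exp (-(r - z / 2) ^ 2) * (r - z / 2)) z := by
    have : HasDerivAt (fun z : ℝ => -(r - z / 2) ^ 2) (r - z / 2) z := by
      refine (h2.fun_pow 2).fun_neg.congr_deriv ?_
      norm_num
      ring
    exact this.exp
  have h4 : HasDerivAt (fun z : ℝ => z / 2) (1 / 2) z := by
    simpa using (hasDerivAt_id z).div_const 2
  unfold nL
  refine ((h4.mul (fL_deriv r z)).add (h1.mul h3)).congr_deriv ?_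
  unfold nL
  ring

theorem nL_anti {r z : ℝ} (hz : 0 < z) (hzr : z < 2 * r) :
    z * (1 / 2 * fL r z - z / 2 * nL r z +
      (r - z) * (Real.exp (-z ^ 2 / 4) * Real.exp (-(r - z / 2) ^ 2))) ≤ nL r z := by
  obtain ⟨q, hq⟩ : ∃ q, q = r - z / 2 := ⟨_, rfl⟩
  have hq0 : 0 ≤ q := by rw [hq]; linarith
  have hr : r = q + z / 2 := by rw [hq]; ring
  have hL := I2_lower hq0
  obtain ⟨e1, he1⟩ : ∃ e1, e1 = Real.exp (-z ^ 2 / 4) := ⟨_, rfl⟩
  obtain ⟨e2, he2⟩ : ∃ e2, e2 = Real.exp (-q ^ 2) := ⟨_, rfl⟩
  have he1p : 0 < e1 := by rw [he1]; exact Real.exp_pos _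
  have he2p : 0 < e2 := by rw [he2]; exact Real.exp_pos _
  unfold nL fL
  rw [← hq, ← he1, ← he2, hr]
  rw [← he2] at hL
  have key : (z * q - z ^ 2 - 1) * e2 ≤ z ^ 3 / 4 * I2 q := by
    have h1 : z ^ 3 / 4 * (16 / 27 * q ^ 3 * e2) ≤ z ^ 3 / 4 * I2 q :=
      mul_le_mul_of_nonneg_left hL (by positivity)
    have h2 : (z * q - z ^ 2 - 1) * e2 ≤ z ^ 3 / 4 * (16 / 27 * q ^ 3) * e2 := by
      refine mul_le_mul_of_nonneg_right ?_ he2p.le
      have hs : 0 ≤ z * q := mul_nonneg hz.le hq0
      have h3 : 0 ≤ (2 * (z * q) - 3) ^ 2 * (z * q + 3) :=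
        mul_nonneg (sq_nonneg _) (by linarith)
      nlinarith [sq_nonneg z]
    nlinarith
  have hfin := mul_le_mul_of_nonneg_left key he1p.le
  nlinarith

theorem fL_nonneg {r z : ℝ} (hz : z ≤ 2 * r) : 0 ≤ fL r z := by
  unfold fL I2
  refine mul_nonneg (Real.exp_pos _).le ?_
  refine intervalIntegral.integral_nonneg (by linarith) fun p _ => (Real.exp_pos _).le

theorem nL_nonneg {r z : ℝ} (h0 : 0 ≤ z) (hz : z ≤ 2 * r) : 0 ≤ nL r z := by
  unfold nL
  have := fL_nonneg hz
  positivity

/-- inner integral of the fold -/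
theorem fold_inner {r : ℝ} (hr : 0 < r) {z : ℝ} (hz0 : 0 ≤ z) (hz : z ≤ 2 * r) (g : ℝ) :
    ∫ x in (-r)..r, indicator {x : ℝ | |z - x| ≤ r} (fun x => W x * (W (z - x) * g)) x =
      fL r z * g := by
  have hset : {x : ℝ | |z - x| ≤ r} = Icc (z - r) (z + r) := by
    ext x
    simp only [mem_ofPred_eq, mem_Icc, abs_le]
    constructor <;> rintro ⟨h1, h2⟩ <;> constructor <;> linarith
  rw [intervalIntegral.integral_of_le (by linarith), hset,
    setIntegral_indicator measurableSet_Icc]
  have hae : (Ioc (-r) r ∩ Icc (z - r) (z + r) : Set ℝ) =ᵐ[volume] Ioc (z - r) r := by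
    have h1 : (Ioc (-r) r ∩ Icc (z - r) (z + r) : Set ℝ) =ᵐ[volume]
        (Icc (-r) r ∩ Icc (z - r) (z + r) : Set ℝ) :=
      Ioc_ae_eq_Icc.inter (Filter.EventuallyEq.refl _ _)
    have h2 : (Icc (-r) r ∩ Icc (z - r) (z + r) : Set ℝ) = Icc (z - r) r := by
      rw [Icc_inter_Icc]
      congr 1
      · exact max_eq_right (by linarith)
      · exact min_eq_left (by linarith)
    rw [h2] at h1
    exact h1.trans Ioc_ae_eq_Icc.symm
  rw [setIntegral_congr_set hae, ← intervalIntegral.integral_of_le (by linarith)]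
  have h := intervalIntegral.integral_comp_add_left (a := -(r - z / 2)) (b := r - z / 2)
    (fun x => W x * (W (z - x) * g)) (z / 2)
  rw [show z / 2 + -(r - z / 2) = z - r by ring, show z / 2 + (r - z / 2) = r by ring] at h
  rw [← h]
  unfold fL I2
  rw [mul_assoc, ← intervalIntegral.integral_mul_const, ← intervalIntegral.integral_const_mul]
  refine intervalIntegral.integral_congr fun p _ => ?_
  unfold W
  rw [← mul_assoc, ← mul_assoc, ← Real.exp_add, ← Real.exp_add]
  congr 2
  ring

theorem fold {G : ℝ → ℝ} (hG : Continuous G) {r : ℝ} (hr : 0 < r) :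
    ∫ x in (-r)..r, ∫ y in (-r)..r, W x * (W y * G (x + y)) =
      ∫ z in (0:ℝ)..(2 * r), fL r z * (G z + G (-z)) := by
  have hW := W_cont
  obtain ⟨S, hS⟩ : ∃ S : ℝ → ℝ → ℝ, S = fun x z => indicator {p : ℝ × ℝ | |p.2 - p.1| ≤ r}
      (fun p => W p.1 * (W (p.2 - p.1) * G p.2)) (x, z) := ⟨_, rfl⟩
  have step1 : ∀ x ∈ uIcc (-r) r, ∫ y in (-r)..r, W x * (W y * G (x + y)) =
      ∫ z in (-(2 * r))..(2 * r), S x z := by
    intro x hx
    rw [uIcc_of_le (by linarith)] at hx
    have hx1 := hx.1
    have hx2 := hx.2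
    have h := intervalIntegral.integral_comp_add_left (a := -r) (b := r)
      (fun z => W x * (W (z - x) * G z)) x
    have e0 : ∫ y in (-r)..r, W x * (W y * G (x + y)) =
        ∫ y in (-r)..r, W x * (W (x + y - x) * G (x + y)) := by
      refine intervalIntegral.integral_congr fun y _ => ?_
      simp only [add_sub_cancel_left]
    rw [e0, h]
    have e1 : ∀ z, S x z = indicator (Icc (x - r) (x + r)) (fun z => W x * (W (z - x) * G z)) z := by
      intro z
      rw [hS]
      by_cases hz : |z - x| ≤ r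
      · have hz' : z ∈ Icc (x - r) (x + r) := by
          rw [abs_le] at hz
          constructor <;> linarith [hz.1, hz.2]
        simp [indicator, hz, hz'.1, hz'.2]
      · have hz' : z ∉ Icc (x - r) (x + r) := by
          intro h'
          apply hz
          rw [abs_le]
          constructor <;> linarith [h'.1, h'.2]
        rw [indicator_of_notMem hz']
        try simp only
        rw [indicator_of_notMem]
        exact hz
    simp only [e1]
    rw [intervalIntegral.integral_of_le (by linarith),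
      intervalIntegral.integral_of_le (by linarith), setIntegral_indicator measurableSet_Icc]
    have hae : (Ioc (-(2 * r)) (2 * r) ∩ Icc (x - r) (x + r) : Set ℝ) =ᵐ[volume]
        Ioc (x - r) (x + r) := by
      have h1 : (Ioc (-(2 * r)) (2 * r) ∩ Icc (x - r) (x + r) : Set ℝ) =ᵐ[volume]
          (Icc (-(2 * r)) (2 * r) ∩ Icc (x - r) (x + r) : Set ℝ) :=
        Ioc_ae_eq_Icc.inter (Filter.EventuallyEq.refl _ _)
      have h2 : (Icc (-(2 * r)) (2 * r) ∩ Icc (x - r) (x + r) : Set ℝ) =
          Icc (x - r) (x + r) := by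
        rw [Icc_inter_Icc]
        congr 1
        · exact max_eq_right (by linarith)
        · exact min_eq_right (by linarith)
      rw [h2] at h1
      exact h1.trans Ioc_ae_eq_Icc.symm
    rw [setIntegral_congr_set hae, ← sub_eq_add_neg]
  rw [intervalIntegral.integral_congr step1]
  have hint : IntegrableOn (Function.uncurry S) (uIoc (-r) r ×ˢ uIoc (-(2 * r)) (2 * r)) := by
    have h1 : IntegrableOn (fun p : ℝ × ℝ => W p.1 * (W (p.2 - p.1) * G p.2))
        (uIcc (-r) r ×ˢ uIcc (-(2 * r)) (2 * r)) := by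
      refine ContinuousOn.integrableOn_compact (isCompact_uIcc.prod isCompact_uIcc) ?_
      refine Continuous.continuousOn ?_
      fun_prop
    have h2 := h1.mono_set (prod_mono uIoc_subset_uIcc uIoc_subset_uIcc)
    have hm : MeasurableSet {p : ℝ × ℝ | |p.2 - p.1| ≤ r} := by
      apply IsClosed.measurableSet
      refine isClosed_le ?_ continuous_const
      fun_prop
    have h3 : Function.uncurry S = indicator {p : ℝ × ℝ | |p.2 - p.1| ≤ r}
        (fun p => W p.1 * (W (p.2 - p.1) * G p.2)) := by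
      rw [hS]
      rfl
    rw [h3]
    exact h2.indicator hm
  rw [MeasureTheory.intervalIntegral_intervalIntegral_swap hint]
  have step3 : ∀ z ∈ uIcc (-(2 * r)) (2 * r), ∫ x in (-r)..r, S x z = fL r |z| * G z := by
    intro z hz
    rw [uIcc_of_le (by linarith)] at hz
    have hz1 := hz.1
    have hz2 := hz.2
    have e1 : ∀ x, S x z = indicator {x : ℝ | |z - x| ≤ r}
        (fun x => W x * (W (z - x) * G z)) x := by
      intro x
      rw [hS]
      by_cases hz : |z - x| ≤ r
      · simp [indicator, hz]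
      · simp [indicator, hz]
    simp only [e1]
    rcases le_total 0 z with h | h
    · rw [abs_of_nonneg h]
      exact fold_inner hr h hz2 (G z)
    · rw [abs_of_nonpos h, ← fold_inner hr (z := -z) (by linarith) (by linarith) (G z)]
      have h' := intervalIntegral.integral_comp_neg (a := -r) (b := r)
        (fun x => indicator {x : ℝ | |z - x| ≤ r} (fun x => W x * (W (z - x) * G z)) x)
      rw [neg_neg] at h'
      rw [← h']
      refine intervalIntegral.integral_congr fun x _ => ?_
      have e2 : |z - -x| = |-z - x| := by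
        rw [← abs_neg]; congr 1; ring
      by_cases hx : |-z - x| ≤ r
      · have hx' : |z - -x| ≤ r := by rw [e2]; exact hx
        have m1 : -x ∈ {x : ℝ | |z - x| ≤ r} := hx'
        have m2 : x ∈ {x : ℝ | |-z - x| ≤ r} := hx
        try simp only
        rw [indicator_of_mem m1, indicator_of_mem m2, W_even, ← W_even (z - -x)]
        congr 3
        ring
      · have hx' : ¬ |z - -x| ≤ r := by rw [e2]; exact hx
        have m1 : -x ∉ {x : ℝ | |z - x| ≤ r} := hx'
        have m2 : x ∉ {x : ℝ | |-z - x| ≤ r} := hx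
        try simp only
        rw [indicator_of_notMem m1, indicator_of_notMem m2]
  rw [intervalIntegral.integral_congr step3]
  have hc : Continuous fun z => fL r |z| * G z := by
    have := fL_cont r
    fun_prop
  have hc2 : Continuous fun z => fL r |-z| * G (-z) := by
    have := fL_cont r
    fun_prop
  have s1 : ∫ z in (-(2 * r))..(2 * r), fL r |z| * G z =
      (∫ z in (-(2 * r))..0, fL r |z| * G z) + ∫ z in (0:ℝ)..(2 * r), fL r |z| * G z :=
    (intervalIntegral.integral_add_adjacent_intervals (hc.intervalIntegrable _ _)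
      (hc.intervalIntegrable _ _)).symm
  have s2 : ∫ z in (-(2 * r))..0, fL r |z| * G z =
      ∫ z in (0:ℝ)..(2 * r), fL r |-z| * G (-z) := by
    rw [intervalIntegral.integral_comp_neg (fun z => fL r |z| * G z)]
    simp
  rw [s1, s2, ← intervalIntegral.integral_add (hc2.intervalIntegrable _ _)
    (hc.intervalIntegrable _ _)]
  refine intervalIntegral.integral_congr fun z hz => ?_
  rw [uIcc_of_le (by linarith)] at hz
  try simp only
  rw [abs_neg, abs_of_nonneg hz.1]
  ring

theorem fL_end (r : ℝ) : fL r (2 * r) = 0 := by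
  unfold fL
  rw [show r - 2 * r / 2 = 0 by ring, I2_zero, mul_zero]

theorem pair_formula {r b : ℝ} (hr : 0 < r) {k : ℝ → ℝ} (hk : Continuous k) (v : ℝ) :
    cv r b (cv r b k) v = ∫ z in (0:ℝ)..(2 * r), nL r z * ∫ u in (-z)..z, k (v + b * u) := by
  have hc : Continuous fun u => k (v + b * u) := by fun_prop
  have e : cv r b (cv r b k) v =
      ∫ x in (-r)..r, ∫ y in (-r)..r, W x * (W y * (fun s => k (v + b * s)) (x + y)) := by
    unfold cv
    refine intervalIntegral.integral_congr fun x _ => ?_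
    try simp only
    rw [← intervalIntegral.integral_const_mul]
    refine intervalIntegral.integral_congr fun y _ => ?_
    try simp only
    rw [show v + b * x + b * y = v + b * (x + y) by ring]
  rw [e, fold hc hr]
  rw [intervalIntegral.integral_mul_deriv_eq_deriv_mul (u := fL r)
    (v := fun z => ∫ u in (-z)..z, k (v + b * u)) (u' := fun z => -nL r z)
    (v' := fun z => k (v + b * z) + k (v + b * -z)) (fun z _ => fL_deriv r z)
    (fun z _ => hasDerivAt_sym hc z)]
  · rw [fL_end]
    simp only [neg_zero, intervalIntegral.integral_same, mul_zero, zero_mul, sub_zero,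
      neg_mul, intervalIntegral.integral_neg, sub_neg_eq_add, zero_add]
  · exact (nL_cont r).neg.intervalIntegrable _ _
  · exact Continuous.intervalIntegrable (by fun_prop) _ _

theorem P.pair {r b : ℝ} {k : ℝ → ℝ} (hk : P 0 k) (hr : 0 < r) (hb : 0 ≤ b) :
    P 0 (GS.cv r b (GS.cv r b k)) := by
  have hkc := hk.cont
  refine ⟨cv_cont (cv_cont hk.cont), cv_odd (cv_odd hk.odd), ?_⟩
  intro v v' hv hvv _
  have hc : ∀ x, Continuous fun u => k (x + b * u) := fun x => by fun_prop
  have hsc : ∀ x, Continuous fun z => ∫ u in (-z)..z, k (x + b * u) :=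
    fun x => continuous_sym (hc x)
  rw [pair_formula hr hkc, pair_formula hr hkc, ← sub_nonneg]
  have hsv := hsc v
  have hsv' := hsc v'
  have hn := nL_cont r
  have e : v' * (∫ z in (0:ℝ)..(2 * r), nL r z * ∫ u in (-z)..z, k (v + b * u)) -
      v * (∫ z in (0:ℝ)..(2 * r), nL r z * ∫ u in (-z)..z, k (v' + b * u)) =
      ∫ z in (0:ℝ)..(2 * r), nL r z * (v' * (∫ u in (-z)..z, k (v + b * u)) -
        v * ∫ u in (-z)..z, k (v' + b * u)) := by
    rw [← intervalIntegral.integral_const_mul, ← intervalIntegral.integral_const_mul,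
      ← intervalIntegral.integral_sub]
    · refine intervalIntegral.integral_congr fun z _ => ?_
      ring
    all_goals exact Continuous.intervalIntegrable (by fun_prop) _ _
  rw [e]
  have hf := fL_cont r
  refine uni_main (by linarith) hn (fun z _ _ => nL_deriv r z) (by fun_prop)
    (fun z h1 h2 => nL_anti h1 h2) (nL_nonneg (by linarith) le_rfl)
    (fun z h1 h2 => nL_nonneg h1 h2) (by fun_prop) ?_
  intro z hz0 _
  have h := parab2 hk hb hz0 hv hvv
  have e2 : ∫ s in (0:ℝ)..z, s * (v' * (∫ u in (-s)..s, k (v + b * u)) -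
        v * ∫ u in (-s)..s, k (v' + b * u)) =
      v' * (∫ s in (0:ℝ)..z, s * ∫ u in (-s)..s, k (v + b * u)) -
        v * ∫ s in (0:ℝ)..z, s * ∫ u in (-s)..s, k (v' + b * u) := by
    rw [← intervalIntegral.integral_const_mul, ← intervalIntegral.integral_const_mul,
      ← intervalIntegral.integral_sub]
    · refine intervalIntegral.integral_congr fun z _ => ?_
      ring
    all_goals exact Continuous.intervalIntegrable (by fun_prop) _ _
  rw [e2]
  linarith

end Pool.Agent.H770.GS
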