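import Pool.Agent.H770.GS.Link

/-!
# Pairing of the sorted coordinates
-/

set_option autoImplicit false

open MeasureTheory Set intervalIntegral

namespace Pool.Agent.H770.GS

open Pool.Agent.Helper82.GC

/-- every element twice -/
def dup : List ℝ → List ℝ
  | [] => []
  | c :: L => c :: c :: dup L

theorem dens_dup_P {r : ℝ} (hr : 0 < r) {k : ℝ → ℝ} (hk : P 0 k) (C : List ℝ)
    (hC : ∀ c ∈ C, 0 ≤ c) : P 0 (dens r (dup C) k) := by
  induction C with
  | nil => exact hk
  | cons c C ih =>
    simp only [dup, dens_cons]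
    exact P.pair (ih fun x hx => hC x (List.mem_cons_of_mem _ hx)) hr (hC c (by simp))

theorem dens_P {r ρ : ℝ} (hr : 0 < r) {k : ℝ → ℝ} (hk : P ρ k) (L : List ℝ)
    (hL : ∀ c ∈ L, 0 ≤ c ∧ c * r ≤ ρ) : P ρ (dens r L k) := by
  induction L with
  | nil => exact hk
  | cons c L ih =>
    rw [dens_cons]
    exact P.cv (ih fun x hx => hL x (List.mem_cons_of_mem _ hx)) hr (hL c (by simp)).1
      (hL c (by simp)).2

/-- averaging the squares of the first two, of the next two, and so on -/
noncomputable def pairUp : List ℝ → List ℝ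
  | [] => []
  | [z] => [z]
  | x :: y :: L => Real.sqrt ((x ^ 2 + y ^ 2) / 2) :: Real.sqrt ((x ^ 2 + y ^ 2) / 2) :: pairUp L

theorem pairUp_le {r τ : ℝ} (hr : 0 < r) : ∀ (n : ℕ) (L C : List ℝ), L.length = n →
    L.Pairwise (· ≥ ·) → (∀ x ∈ L, 0 ≤ x) → (∀ x ∈ C, 0 ≤ x) →
    dens r (L ++ dup C) (gs τ) 0 ≤ dens r (pairUp L ++ dup C) (gs τ) 0 := by
  intro n
  induction n using Nat.strong_induction_on with
  | _ n ih =>
    intro L C hn hL hL0 hC
    match L, hn, hL, hL0 with
    | [], _, _, _ => exact le_rfl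
    | [z], _, _, _ => exact le_rfl
    | x :: y :: L, hn, hL, hL0 =>
      have hx0 : 0 ≤ x := hL0 x (by simp)
      have hy0 : 0 ≤ y := hL0 y (by simp)
      have hxy : y ≤ x := by
        have := List.rel_of_pairwise_cons hL (List.mem_cons_self (a := y) (l := L))
        exact this
      have hL2 : (y :: L).Pairwise (· ≥ ·) := (List.pairwise_cons.1 hL).2
      have hLy : ∀ c ∈ L, c ≤ y := fun c hc => List.rel_of_pairwise_cons hL2 hc
      have hL3 : L.Pairwise (· ≥ ·) := (List.pairwise_cons.1 hL2).2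
      have hL0' : ∀ c ∈ L, 0 ≤ c := fun c hc => hL0 c (by simp [hc])
      obtain ⟨m, hm⟩ : ∃ m, m = Real.sqrt ((x ^ 2 + y ^ 2) / 2) := ⟨_, rfl⟩
      have hm0 : 0 ≤ m := by rw [hm]; exact Real.sqrt_nonneg _
      have hk : P (y * r) (dens r (L ++ dup C) (kg τ)) := by
        rw [dens_append]
        refine dens_P hr ?_ L ?_
        · exact (dens_dup_P hr (kg_P τ) C hC).mono (mul_nonneg hy0 hr.le)
        · intro c hc
          exact ⟨hL0' c hc, mul_le_mul_of_nonneg_right (hLy c hc) hr.le⟩
      have h1 := exchange hk (dens_deriv hr (gs_deriv τ) (kg_cont τ) (L ++ dup C))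
        (dens_even (gs_even τ) (L ++ dup C)) hr hy0 hxy le_rfl
      rw [← hm] at h1
      have h2 : dens r ((x :: y :: L) ++ dup C) (gs τ) 0 ≤
          dens r (m :: m :: (L ++ dup C)) (gs τ) 0 := by
        simp only [List.cons_append, dens_cons]
        exact h1
      have h3 : dens r (m :: m :: (L ++ dup C)) (gs τ) 0 = dens r (L ++ dup (m :: C)) (gs τ) 0 := by
        rw [dens_perm (gs_cont τ)]
        simp only [dup]
        refine List.Perm.symm ?_
        refine (List.perm_middle).trans ?_
        exact List.Perm.cons _ List.perm_middle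
      have h4 := ih L.length (by rw [← hn]; simp) L (m :: C) rfl hL3 hL0' (by
        intro c hc
        rcases List.mem_cons.1 hc with h | h
        · rw [h]; exact hm0
        · exact hC c h)
      have h5 : dens r (pairUp L ++ dup (m :: C)) (gs τ) 0 =
          dens r (pairUp (x :: y :: L) ++ dup C) (gs τ) 0 := by
        rw [dens_perm (gs_cont τ)]
        simp only [dup, pairUp]
        rw [← hm]
        simp only [List.cons_append]
        refine (List.perm_middle).trans ?_
        exact List.Perm.cons _ List.perm_middle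
      rw [h3] at h2
      rw [h5] at h4
      exact h2.trans h4

/-- the absolute values of the coordinates in decreasing order -/
noncomputable def srt {n : ℕ} (θ : EuclideanSpace ℝ (Fin n)) : List ℝ :=
  (List.ofFn fun i => |θ i|).mergeSort (fun a b => decide (b ≤ a))

theorem srt_perm {n : ℕ} (θ : EuclideanSpace ℝ (Fin n)) :
    (srt θ).Perm (List.ofFn fun i => |θ i|) := List.mergeSort_perm _ _

theorem srt_length {n : ℕ} (θ : EuclideanSpace ℝ (Fin n)) : (srt θ).length = n := by
  rw [(srt_perm θ).length_eq, List.length_ofFn]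

theorem srt_sorted {n : ℕ} (θ : EuclideanSpace ℝ (Fin n)) : (srt θ).Pairwise (· ≥ ·) := by
  have h := List.pairwise_mergeSort (le := fun a b : ℝ => decide (b ≤ a))
    (by
      intro a b c h1 h2
      simp only [decide_eq_true_eq] at *
      linarith)
    (by
      intro a b
      simp only [Bool.or_eq_true, decide_eq_true_eq]
      exact (le_total b a)) (List.ofFn fun i => |θ i|)
  refine h.imp ?_
  intro a b hab
  simpa using hab

theorem srt_nonneg {n : ℕ} (θ : EuclideanSpace ℝ (Fin n)) : ∀ x ∈ srt θ, 0 ≤ x := by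
  intro x hx
  have h := (srt_perm θ).mem_iff.1 hx
  rw [List.mem_ofFn] at h
  obtain ⟨i, hi⟩ := h
  rw [← hi]
  exact abs_nonneg _

theorem dens_srt {n : ℕ} {r τ : ℝ} (θ : EuclideanSpace ℝ (Fin n)) :
    dens r (List.ofFn fun i => θ i) (gs τ) 0 = dens r (srt θ) (gs τ) 0 := by
  rw [← dens_abs (List.ofFn fun i => θ i)]
  rw [dens_perm (gs_cont τ) (srt_perm θ)]
  congr 1
  rw [List.map_ofFn]
  rfl

/-- pairing of the sorted coordinates, smoothed version -/
theorem dens_pairUp {n : ℕ} {r τ : ℝ} (hr : 0 < r) (θ : EuclideanSpace ℝ (Fin n)) :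
    dens r (List.ofFn fun i => θ i) (gs τ) 0 ≤ dens r (pairUp (srt θ)) (gs τ) 0 := by
  rw [dens_srt]
  have h := pairUp_le (τ := τ) hr n (srt θ) [] (srt_length θ) (srt_sorted θ) (srt_nonneg θ) (by simp)
  simpa [dup] using h

end Pool.Agent.H770.GS
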