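import Pool.Agent.H770.GS.Res3

/-!
# Project TA: directions `(a, a, b, …, b)` : statements

Notation of the earlier files (all in `Pool.Agent.H770.GS`):
`W x = e^(-x²/2)`; `cv r b g v = ∫ u in (-r)..r, W u * g (v + b * u)`;
`P ρ k` : `k` continuous, odd and `v * k v' ≤ v' * k v` whenever `0 < v ≤ v'`, `2ρ ≤ v + v'`;
`gs τ` the Gaussian density of variance `τ²`, `kg τ = - (gs τ)'`;
`fL r z = e^(-z²/4) ∫_{-(r-z/2)}^{r-z/2} e^(-p²)`, `nL r z = - (fL r)' z`,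
`pair_formula`, `uni_main`, `parab2`, `P.pair`, `P.cv` in `Pairs`, `Pairs2`, `Conv`.
-/

set_option autoImplicit false

open MeasureTheory Set intervalIntegral

namespace Pool.Agent.H770.GS

open Pool.Agent.Helper82.GC

/-- the odd extension of `nL r`, cut at `2 r` -/
noncomputable def nLo (r x : ℝ) : ℝ :=
  if 0 < x ∧ x ≤ 2 * r then nL r x else if x < 0 ∧ -(2 * r) ≤ x then -nL r (-x) else 0

/-- minus the derivative of the density of `c X₁ + X₂ + X₃` -/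
noncomputable def n3 (r c v : ℝ) : ℝ := ∫ w in (-r)..r, W w * nLo r (v + c * w)

/-- the derivative of `nL r`, see `nL_deriv` -/
noncomputable def nLd (r z : ℝ) : ℝ := 1 / 2 * fL r z - z / 2 * nL r z +
    (r - z) * (Real.exp (-z ^ 2 / 4) * Real.exp (-(r - z / 2) ^ 2))

/-- `n3 r c (c v)` for `0 ≤ v ≤ r`, `c ≤ 1` -/
noncomputable def Qf (r c v : ℝ) : ℝ :=
  (∫ a in (0:ℝ)..(r + v), W (a - v) * nL r (c * a)) -
    ∫ a in (0:ℝ)..(r - v), W (a + v) * nL r (c * a)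

/-- the derivative of `Qf r c` -/
noncomputable def Qd (r c v : ℝ) : ℝ :=
  W r * (nL r (c * (r + v)) + nL r (c * (r - v))) +
    (∫ a in (0:ℝ)..(r + v), (a - v) * W (a - v) * nL r (c * a)) +
    ∫ a in (0:ℝ)..(r - v), (a + v) * W (a + v) * nL r (c * a)

/-- the kernel on `(r - v, r + v)` -/
noncomputable def NR (r v a : ℝ) : ℝ := W r - (1 - v * a) * W (v - a)

/-- the weight `M₁(c a) = (c a)² m(c a)` -/
noncomputable def Mc (r c a : ℝ) : ℝ := nL r (c * a) - c * a * nLd r (c * a)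

/-- **S1** (closure of `P 0` under Gaussian smoothing).
Proof. Continuity and oddness are clear (dominated convergence; substitute `u → -u`, `gs` is even).
Since `gs τ u = ∫_{|u|}^∞ kg τ z dz`, Fubini gives, for every `v`,
`∫ u, gs τ u * k (v+u) = ∫_0^∞ kg τ z * (∫_{-z}^{z} k (v+u) du) dz`
(or: integrate by parts on `[-R,R]`, boundary term `gs τ R * ∫_{-R}^{R} k(v+u) → 0`).
Fix `0 < v ≤ v'` and put `D z = v' * ∫_{-z}^{z} k (v+u) du - v * ∫_{-z}^{z} k (v'+u) du`, a continuous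
function with `|D z| ≤ 2 z C (v+v')`. `parab2` with `b = 1` says `0 ≤ ∫_0^z s * D s ds` for `z ≥ 0`.
`uni_main` with `n = kg τ` (`z * (kg τ)' z ≤ kg τ z` for `z > 0`, since
`kg τ z / z = gs τ z / τ²` decreases) gives `0 ≤ ∫_0^R kg τ z * D z dz` for all `R > 0`;
let `R → ∞` (`z ↦ kg τ z * z` is integrable on `(0,∞)`). -/
def S_gauss : Prop := ∀ (k : ℝ → ℝ) (C : ℝ), P 0 k → (∀ x, |k x| ≤ C) → ∀ τ : ℝ, 0 < τ →
  P 0 (fun v => ∫ u, gs τ u * k (v + u))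

/-- **S2** (the smoothed kernel of the triple).
Proof. `pair_formula` with `b = 1` and `kg = - gs'`:
`cv r 1 (cv r 1 (kg τ)) v = ∫_0^{2r} nL r z * (gs τ (v - z) - gs τ (v + z)) dz
 = ∫ x, nLo r x * gs τ (v - x) = ∫ u, gs τ u * nLo r (v + u)` (substitute `x = v + u`, `gs` even).
Then apply `cv r c` and exchange the integrals (everything is bounded, `gs τ` is integrable,
`nLo r` is bounded, measurable, with bounded support). -/
def S_repr : Prop := ∀ r c τ : ℝ, 0 < r → 0 < c → 0 < τ → ∀ v,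
  cv r c (cv r 1 (cv r 1 (kg τ))) v = ∫ u, gs τ u * n3 r c (v + u)

/-- **S3a**. Proof. `nLo r` is odd, bounded and continuous off `{-2r, 0, 2r}`; for `c > 0`,
`v ↦ W w * nLo r (v + c w)` is continuous at `v₀` for all `w` off a finite set: dominated
convergence. -/
def S_n3reg : Prop := ∀ r c : ℝ, 0 < r → 0 < c → Continuous (n3 r c) ∧
  (∀ x, n3 r c (-x) = -n3 r c x) ∧ ∃ C, ∀ x, |n3 r c x| ≤ C

/-- **S3b**. Proof. By `kg_P`, `P.pair` (twice the coordinate `1`) and `P.cv` with `ρ = c r`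
(after `P.mono`), the function `K τ = cv r c (cv r 1 (cv r 1 (kg τ)))` satisfies
`v * K τ v' ≤ v' * K τ v` under these hypotheses, for every `τ > 0`. By `S_repr`,
`K τ v = ∫ u, gs τ u * n3 r c (v + u) = ∫ s, gs 1 s * n3 r c (v + τ s) → n3 r c v` as `τ → 0+`
(dominated convergence, `n3 r c` continuous and bounded by `S_n3reg`; `gs_scale`, `gs_one_int`
in `Fam3.lean`). -/
def S_n3far : Prop := S_repr → S_n3reg → ∀ r c : ℝ, 0 < r → 0 < c → ∀ v v', 0 < v → v ≤ v' →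
  2 * (c * r) ≤ v + v' → v * n3 r c v' ≤ v' * n3 r c v

/-- **S4a**. Proof. Let `E(h, y) = ∫_{h-y/2}^{h+y/2} e^(-t²) dt` and
`Y = ∫_0^v y * (W v * e^(y²/4) * E(r - v, y) - e^(-y²/4) * E(r, y)) dy`.
(1) `Y ≥ 0` : for `0 ≤ y ≤ v ≤ r` and `|s| ≤ y/2` one has
`e^(-y²/4) e^(-(r+s)²) ≤ W v e^(y²/4) e^(-(r-v+s)²)`, because the difference of the exponents is
`2v(r+s) - 3v²/2 + y²/2 ≥ 2v(v-y/2) - 3v²/2 + y²/2 = (v-y)²/2 ≥ 0`; integrate over `s`.
(2) `Y = A` where `A = ∫_{r-v}^{r+v} W a * (2 W (v-a) - W r) da - W(r-v) (W(r-2v) - W r)/(r-v)` :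
integrate by parts, `(-2 e^(-y²/4))' = y e^(-y²/4)`, `(2 e^(y²/4))' = y e^(y²/4)`,
`∂_y E(h,y) = (e^(-(h+y/2)²) + e^(-(h-y/2)²))/2`, and use
`e^(-y²/4-(r±y/2)²) = W r * W (r±y)`, `e^(y²/4-(h±y/2)²) = e^(-h²) e^(∓hy)`,
`W v e^(v²/4) = e^(-v²/4)`, `W a * W(v-a) = e^(-v²/4) e^(-(a-v/2)²)`,
`W v e^(-(r-v)²) e^(v(r-v)) = W(r-v) W(r-2v)`, `W v e^(-(r-v)²) e^(-v(r-v)) = W(r-v) W r`.
(3) the integral in the statement is `A` : `(W a/a)' = -W a/a² - W a` and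
`(W a W(v-a)/a)' = -(1-va) W a W(v-a)/a² - 2 W a W(v-a)`, with `v - (r+v) = -r`,
`v - (r-v) = -(r-2v)`. -/
def S_I1 : Prop := ∀ r v : ℝ, 0 < v → v < r →
  0 ≤ ∫ a in (r - v)..(r + v), NR r v a * (W a / a ^ 2)

/-- **S4b**. Proof. `NR r v` has derivative `a ↦ a W(v-a) (1 + v² - v a)`, so it increases up to
`a = v + 1/v` and it is `≥ W r > 0` for `a ≥ 1/v`; `NR r v (r+v) = v (r+v) W r > 0`. Hence there is
`a₀ ∈ [r-v, r+v]` with `NR ≤ 0` on `[r-v, a₀]` and `NR ≥ 0` on `[a₀, r+v]`. Then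
`NR a * (g a - g a₀) ≥ 0` on `[r-v, r+v]`, so the integral is `≥ g a₀ * ∫ NR a W a/a² ≥ 0`. -/
def S_comp : Prop := S_I1 → ∀ (r v : ℝ) (g : ℝ → ℝ), 0 < v → v < r →
  MonotoneOn g (Icc (r - v) (r + v)) → (∀ a ∈ Icc (r - v) (r + v), 0 ≤ g a) →
  ContinuousOn g (Icc (r - v) (r + v)) →
  0 ≤ ∫ a in (r - v)..(r + v), NR r v a * (g a * W a / a ^ 2)

/-- **S4c**. Proof. With `p = fL r`, `e x = e^(-x²/4) e^(-(r-x/2)²) = e^(-r²+rx-x²/2)`,
`nL r x = x p/2 + e`, `M₁ x = nL r x - x nLd r x = x³ p/4 + e (1 - r x + 3x²/2)`, which is `≥ 0` on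
`[0,2r]` (`p ≥ 0` there and the discriminant `r² - 6` is negative), and
`M₁' = p x² (6-x²)/8 + e x (2 - r² + 5rx/2 - 7x²/4)`,
`M₁' + x M₁ = p x² (6+x²)/8 + e x (3 - r² + 3rx/2 - x²/4) ≥ 0` on `[0,2r]` as `r² ≤ 3`.
`Mc r c a = M₁ (c a)` and `(Mc r c a / W a)' = (c M₁'(x) + a M₁(x))/W a` with `x = c a ≤ 2 r`;
`c (c M₁' + a M₁) = c² M₁' + x M₁` is `≥ 0` if `M₁' ≥ 0`, and `≥ M₁' + x M₁ ≥ 0` if `M₁' < 0`. -/
def S_mono : Prop := ∀ r c : ℝ, 0 < r → r ^ 2 ≤ 3 → 0 < c → c ≤ 1 →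
  MonotoneOn (fun a => Mc r c a / W a) (Icc 0 (2 * r)) ∧ ∀ a ∈ Icc (0:ℝ) (2 * r), 0 ≤ Mc r c a

/-- **S4d**. Proof. Differentiation of an integral with variable limits and a parameter
(`W (a - v) = e^(-(a-v)²/2)`; or substitute `a = v + u`:
`∫_0^{r+v} W(a-v) nL(c a) = ∫_{-v}^{r} W u * nL (c (v+u)) du` etc.). -/
def S_Qd : Prop := ∀ r c v : ℝ, HasDerivAt (Qf r c) (Qd r c v) v

/-- **S4e**. Proof. `n3 r c (c v) = ∫_{-r}^{r} W w * nLo r (c (v + w)) dw`; put `a = v + w`; the range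
is `(v - r, v + r)` with `v - r ≤ 0`, `c (v + r) ≤ 2 r`; for `a < 0` the integrand is
`-W(a - v) nL r (-c a)`, substitute `a → -a`. -/
def S_n3Q : Prop := ∀ r c v : ℝ, 0 < r → 0 < c → c ≤ 1 → 0 ≤ v → v ≤ r →
  n3 r c (c * v) = Qf r c v

/-- **S4f**. Proof. Write `n a = nL r (c a)`, `κ a = n a / a`. Then
`Qf - v Qd = ∫_0^{r+v} W(a-v)(1+v²-va) n a - ∫_0^{r-v} W(a+v)(1+v²+va) n a
   - v W r (n (r+v) + n (r-v))`.
Left part: with `NL a = (va-1) W(a-v) + (va+1) W(a+v)`, `NL 0 = 0`,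
`NL' a = a β a`, `β a = W(a-v)(1+v²-va) - W(a+v)(1+v²+va)`. For `0 < a ≤ r - v` one has `β a ≥ 0` :
with `z = v a` this is `(1+v²) tanh z ≥ z`, which follows from `tanh z ≥ z - z³/3` and
`(1+v²) a² ≤ (1+v²)(r-v)² ≤ r² ≤ 3` (equivalently `e^(2z) (1+v²-z) ≥ 1+v²+z`).
As `κ` is nonincreasing (`nL_anti`), `n a β a ≥ κ(r-v) a β a`, so
`∫_0^{r-v} n β ≥ κ(r-v) NL(r-v)`.
Right part: `NR r v` has derivative `a W(v-a)(1+v²-va)` and `κ' a = -Mc r c a / a²`, so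
`∫_{r-v}^{r+v} W(a-v)(1+v²-va) n a = κ(r+v) NR(r+v) - κ(r-v) NR(r-v) + ∫ NR a Mc a/a²`.
Finally `NL(r-v) - NR(r-v) = v (r-v) W r` and `NR(r+v) = v (r+v) W r`, so the boundary terms cancel
exactly against `v W r (n (r+v) + n (r-v))`. -/
def S_D : Prop := ∀ r c v : ℝ, 0 < r → r ^ 2 ≤ 3 → 0 < c → c ≤ 1 → 0 < v → v < r →
  ∫ a in (r - v)..(r + v), NR r v a * (Mc r c a / a ^ 2) ≤ Qf r c v - v * Qd r c v

/-- unit vectors whose first two coordinates are equal and of largest absolute value -/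
def KK (k : ℕ) : Set (EuclideanSpace ℝ (Fin (k + 2))) :=
  {θ | ‖θ‖ = 1 ∧ θ 0 = θ 1 ∧ ∀ i, |θ i| ≤ θ 0}

/-- **T2a** (continuity of the section function on `KK k`).
Proof. `Asl r θ 0` is the integral of `F r` over the orthogonal complement of `θ` (unfold `Asl`;
compare `sec_eq`, `sec_eq_Asl`), so `slice_eq_J` of
`Pool.Graph.R_seed8.Helper82.GC.B4` gives `Asl r θ 0 = Zr r ^ n / (2π) * ∫ t, ∏ i, phi r (√(θ i ^ 2) * t)`
(`n = k + 2`), once the integrand is integrable: `|phi r| ≤ 1` (`abs_phi_le_one`), so the product of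
the two factors `i = 0, 1` bounds it by `phi r (θ 0 * t) ^ 2`, integrable by `phi_sq_integrable`
(scaled), and `phi_decay` gives a bound `min 1 (C / (θ 0 * t)^2) ≤ C' / (1 + t²)` which is uniform in
`θ ∈ KK k`, because `θ 0 ≥ 1/√(k+2)` there. `phi r` is continuous (`phi_cont`), so
`continuousOn_of_dominated` applies. -/
def S_cont : Prop := ∀ (k : ℕ) (r : ℝ), 0 < r → ContinuousOn (fun θ => Asl r θ 0) (KK k)

end Pool.Agent.H770.GS
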