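import Pool.Agent.H770.GS.TA1

/-!
# Project TA: the maximum is attained at a direction `(a, a, b, …, b)`
-/

set_option autoImplicit false

open MeasureTheory Set intervalIntegral Filter Topology

namespace Pool.Agent.H770.GS

open Pool.Agent.Helper82.GC

/-- the vector with the coordinates listed in `L` -/
noncomputable def vec (n : ℕ) (L : List ℝ) : EuclideanSpace ℝ (Fin n) :=
  WithLp.toLp 2 fun i => L.getD i.val 0

theorem vec_apply (n : ℕ) (L : List ℝ) (i : Fin n) : vec n L i = L.getD i.val 0 := rfl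

theorem ofFn_vec {n : ℕ} {L : List ℝ} (h : L.length = n) : (List.ofFn fun i => vec n L i) = L := by
  subst h
  apply List.ext_getElem
  · simp
  · intro i h1 h2
    simp [vec_apply]

theorem list_sum_ofFn {n : ℕ} (θ : Fin n → ℝ) (g : ℝ → ℝ) :
    ((List.ofFn θ).map g).sum = ∑ i, g (θ i) := by
  rw [List.map_ofFn, List.sum_ofFn]
  rfl

theorem vec_norm {n : ℕ} {L : List ℝ} (h : L.length = n)
    (h2 : (L.map fun x => x ^ 2).sum = 1) : ‖vec n L‖ = 1 := by
  have h3 : ‖vec n L‖ ^ 2 = 1 := by
    rw [EuclideanSpace.norm_sq_eq]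
    rw [← ofFn_vec h, list_sum_ofFn] at h2
    rw [← h2]
    refine Finset.sum_congr rfl fun i _ => ?_
    rw [Real.norm_eq_abs, sq_abs]
  have h4 : 0 ≤ ‖vec n L‖ := norm_nonneg _
  nlinarith

theorem Asl_le_vec {n : ℕ} {r : ℝ} (hr : 0 < r) {θ : EuclideanSpace ℝ (Fin n)} (hθ : ‖θ‖ = 1)
    {L : List ℝ} (h : L.length = n) (h2 : (L.map fun x => x ^ 2).sum = 1)
    (hle : ∀ τ : ℝ, 0 < τ → dens r (srt θ) (gs τ) 0 ≤ dens r L (gs τ) 0) :
    Asl r θ 0 ≤ Asl r (vec n L) 0 := by
  refine le_of_tendsto_of_tendsto (dens_tendsto hr θ hθ) (dens_tendsto hr _ (vec_norm h h2)) ?_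
  refine eventually_nhdsWithin_of_forall fun τ hτ => ?_
  simp only
  rw [dens_srt, ofFn_vec h]
  exact hle τ hτ

theorem mem_KK {k : ℕ} {a : ℝ} {M : List ℝ} (h : M.length = k)
    (h2 : ((a :: a :: M).map fun x => x ^ 2).sum = 1) (ha : 0 ≤ a) (hM : ∀ x ∈ M, |x| ≤ a) :
    vec (k + 2) (a :: a :: M) ∈ KK k := by
  refine ⟨vec_norm (by simp [h]) h2, ?_, ?_⟩
  · simp [vec_apply]
  · intro i
    have h0 : (vec (k + 2) (a :: a :: M)) 0 = a := by simp [vec_apply]
    rw [h0, vec_apply]
    have hi : i.val < (a :: a :: M).length := by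
      simp only [List.length_cons, h]
      exact i.isLt
    rw [List.getD_eq_getElem _ _ hi]
    have hm : (a :: a :: M)[i.val] ∈ (a :: a :: M) := List.getElem_mem hi
    rcases List.mem_cons.1 hm with h3 | h3
    · rw [h3, abs_of_nonneg ha]
    · rcases List.mem_cons.1 h3 with h4 | h4
      · rw [h4, abs_of_nonneg ha]
      · exact hM _ h4

/-- `Q` of a list -/
noncomputable def Q4 (L : List ℝ) : ℝ := (L.map fun x => x ^ 4).sum

theorem Q4_cons (x : ℝ) (L : List ℝ) : Q4 (x :: L) = x ^ 4 + Q4 L := by simp [Q4]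

theorem Q4_perm {L L' : List ℝ} (h : L.Perm L') : Q4 L = Q4 L' := (h.map _).sum_eq

/-- `Q` of a vector -/
noncomputable def QV {n : ℕ} (θ : EuclideanSpace ℝ (Fin n)) : ℝ := ∑ i, θ i ^ 4

theorem QV_srt {n : ℕ} (θ : EuclideanSpace ℝ (Fin n)) : QV θ = Q4 (srt θ) := by
  rw [Q4_perm (srt_perm θ)]
  unfold Q4 QV
  rw [list_sum_ofFn (fun i => |θ i|) (fun x => x ^ 4)]
  refine Finset.sum_congr rfl fun i _ => ?_
  rw [show (4:ℕ) = 2 * 2 by norm_num, pow_mul, pow_mul, sq_abs]

theorem QV_vec {n : ℕ} {L : List ℝ} (h : L.length = n) : QV (vec n L) = Q4 L := by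
  have h1 : QV (vec n L) = ((List.ofFn fun i => vec n L i).map fun x => x ^ 4).sum := by
    rw [list_sum_ofFn (fun i => (vec n L) i) (fun x => x ^ 4)]
    rfl
  rw [h1, ofFn_vec h]
  rfl

/-- averaging of two squares -/
noncomputable def qm (x y : ℝ) : ℝ := Real.sqrt ((x ^ 2 + y ^ 2) / 2)

theorem qm_sq (x y : ℝ) : qm x y ^ 2 = (x ^ 2 + y ^ 2) / 2 := Real.sq_sqrt (by positivity)

theorem qm_nonneg (x y : ℝ) : 0 ≤ qm x y := Real.sqrt_nonneg _

theorem qm_four (x y : ℝ) : 2 * qm x y ^ 4 = x ^ 4 + y ^ 4 - (x ^ 2 - y ^ 2) ^ 2 / 2 := by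
  rw [show (4:ℕ) = 2 * 2 by norm_num, pow_mul, qm_sq]
  ring

theorem qm_le {x y a : ℝ} (ha : 0 ≤ a) (hx0 : 0 ≤ x) (hx : x ≤ a) (hy0 : 0 ≤ y) (hy : y ≤ a) :
    qm x y ≤ a := by
  have h := qm_sq x y
  have h1 := qm_nonneg x y
  by_contra hc
  push Not at hc
  nlinarith

theorem qm_ge {x y b : ℝ} (hb : 0 ≤ b) (hx : b ≤ x) (hy : b ≤ y) : b ≤ qm x y := by
  have h := qm_sq x y
  have h1 := qm_nonneg x y
  by_contra hc
  push Not at hc
  nlinarith

theorem sq_ne {x y : ℝ} (hx : 0 ≤ x) (hy : 0 ≤ y) (h : x ≠ y) : 0 < (x ^ 2 - y ^ 2) ^ 2 := by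
  apply sq_pos_of_ne_zero
  intro h0
  apply h
  have : x ^ 2 = y ^ 2 := by linarith
  exact (pow_left_inj₀ hx hy two_ne_zero).1 this

theorem pairUp_facts : ∀ (n : ℕ) (L : List ℝ), L.length = n → (∀ x ∈ L, 0 ≤ x) →
    (pairUp L).length = L.length ∧
    ((pairUp L).map fun x => x ^ 2).sum = (L.map fun x => x ^ 2).sum ∧
    (∀ x ∈ pairUp L, 0 ≤ x) ∧ (∀ a, 0 ≤ a → (∀ x ∈ L, x ≤ a) → ∀ x ∈ pairUp L, x ≤ a) ∧
    Q4 (pairUp L) ≤ Q4 L ∧ (pairUp L ≠ L → Q4 (pairUp L) < Q4 L) := by
  intro n
  induction n using Nat.strong_induction_on with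
  | _ n ih =>
    intro L hn hL0
    match L, hn, hL0 with
    | [], _, _ => simp [pairUp]
    | [z], _, hL0 =>
      refine ⟨rfl, rfl, hL0, fun a _ h => h, le_rfl, fun h => absurd rfl h⟩
    | x :: y :: L, hn, hL0 =>
      have hx0 : 0 ≤ x := hL0 x (by simp)
      have hy0 : 0 ≤ y := hL0 y (by simp)
      have hL0' : ∀ c ∈ L, 0 ≤ c := fun c hc => hL0 c (by simp [hc])
      obtain ⟨h1, h2, h3, h4, h5, h6⟩ := ih L.length (by rw [← hn]; simp) L rfl hL0'
      have e : pairUp (x :: y :: L) = qm x y :: qm x y :: pairUp L := rfl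
      have hq := qm_four x y
      rw [e]
      refine ⟨by simp [h1], ?_, ?_, ?_, ?_, ?_⟩
      · simp only [List.map_cons, List.sum_cons, h2, qm_sq]
        ring
      · intro c hc
        rcases List.mem_cons.1 hc with h | h
        · rw [h]; exact qm_nonneg _ _
        · rcases List.mem_cons.1 h with h | h
          · rw [h]; exact qm_nonneg _ _
          · exact h3 c h
      · intro a ha hla c hc
        have hqa : qm x y ≤ a := qm_le ha hx0 (hla x (by simp)) hy0 (hla y (by simp))
        rcases List.mem_cons.1 hc with h | h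
        · rw [h]; exact hqa
        · rcases List.mem_cons.1 h with h | h
          · rw [h]; exact hqa
          · exact h4 a ha (fun c' hc' => hla c' (by simp [hc'])) c h
      · simp only [Q4_cons]
        nlinarith [sq_nonneg (x ^ 2 - y ^ 2)]
      · intro hne
        simp only [Q4_cons]
        by_cases hxy : x = y
        · subst hxy
          have hqx : qm x x = x := by
            have := qm_sq x x
            have h7 : qm x x ^ 2 = x ^ 2 := by rw [this]; ring
            exact (pow_left_inj₀ (qm_nonneg _ _) hx0 two_ne_zero).1 h7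
          rw [hqx] at hne ⊢
          have hne' : pairUp L ≠ L := fun h => hne (by rw [h])
          have := h6 hne'
          linarith
        · have := sq_ne hx0 hy0 hxy
          linarith

theorem pairUp_fixed : ∀ (n : ℕ) (L : List ℝ), L.length = n → (∀ x ∈ L, 0 ≤ x) → pairUp L = L →
    ∃ C T : List ℝ, L = dup C ++ T ∧ T.length ≤ 1 := by
  intro n
  induction n using Nat.strong_induction_on with
  | _ n ih =>
    intro L hn hL0 hp
    match L, hn, hL0, hp with
    | [], _, _, _ => exact ⟨[], [], rfl, by simp⟩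
    | [z], _, _, _ => exact ⟨[], [z], rfl, by simp⟩
    | x :: y :: L, hn, hL0, hp =>
      have e : pairUp (x :: y :: L) = qm x y :: qm x y :: pairUp L := rfl
      rw [e] at hp
      have h1 : qm x y = x := by
        have := (List.cons.inj hp).1
        exact this
      have h2 := (List.cons.inj hp).2
      have h3 : qm x y = y := (List.cons.inj h2).1
      have h4 := (List.cons.inj h2).2
      obtain ⟨C, T, hCT, hT⟩ := ih L.length (by rw [← hn]; simp) L rfl
        (fun c hc => hL0 c (by simp [hc])) h4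
      have hxy : y = x := by rw [← h3, h1]
      refine ⟨x :: C, T, ?_, hT⟩
      simp only [dup, List.cons_append]
      rw [hxy, ← hCT]

theorem mem_dup {x : ℝ} : ∀ {C : List ℝ}, x ∈ dup C ↔ x ∈ C
  | [] => by simp [dup]
  | c :: C => by
    have := mem_dup (x := x) (C := C)
    simp [dup, this]

theorem dup_perm {C C' : List ℝ} (h : C.Perm C') : (dup C).Perm (dup C') := by
  induction h with
  | nil => exact List.Perm.refl _
  | cons x _ ih => exact (ih.cons x).cons x
  | swap x y l =>
    simp only [dup]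
    have h1 : (y :: y :: x :: x :: dup l).Perm ([x, x] ++ ([y, y] ++ dup l)) := by
      have : y :: y :: x :: x :: dup l = [y, y] ++ ([x, x] ++ dup l) := rfl
      rw [this, ← List.append_assoc, ← List.append_assoc]
      exact List.Perm.append_right _ List.perm_append_comm
    exact h1
  | trans _ _ ih1 ih2 => exact ih1.trans ih2

/-- exchange at the level of lists -/
theorem dens_exchange {r τ x y : ℝ} (hr : 0 < r) (hy : 0 ≤ y) (hxy : y ≤ x) {R : List ℝ}
    (hR : P (y * r) (dens r R (kg τ))) :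
    dens r (x :: y :: R) (gs τ) 0 ≤ dens r (qm x y :: qm x y :: R) (gs τ) 0 := by
  have h1 := exchange hR (dens_deriv hr (gs_deriv τ) (kg_cont τ) R)
    (dens_even (gs_even τ) R) hr hy hxy le_rfl
  simp only [dens_cons]
  exact h1

/-- a list `a, a, β, β, C, C, T` with an element `y < β` can be improved -/
theorem improve (H : TAHyp) {r a β y : ℝ} (hr : 0 < r) (hr3 : r ^ 2 ≤ 3) (hy : 0 ≤ y)
    (hyβ : y < β) (hβa : β ≤ a) {L C T : List ℝ} (hC : ∀ c ∈ C, 0 ≤ c)
    (hT : ∀ c ∈ T, 0 ≤ c ∧ c ≤ y)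
    (hL : L.Perm (β :: y :: (T ++ dup C ++ [β, a, a]))) :
    ∀ τ : ℝ, 0 < τ → dens r L (gs τ) 0 ≤
      dens r (a :: a :: (qm β y :: qm β y :: (T ++ dup C ++ [β]))) (gs τ) 0 := by
  intro τ hτ
  have hP : P (y * r) (dens r (T ++ dup C ++ [β, a, a]) (kg τ)) := by
    rw [dens_append, dens_append]
    refine dens_P hr ?_ T fun c hc => ⟨(hT c hc).1, mul_le_mul_of_nonneg_right (hT c hc).2 hr.le⟩
    refine P.mono ?_ (mul_nonneg hy hr.le)
    refine dens_dup_P hr ?_ C hC
    simp only [dens_cons, dens_nil]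
    exact triple H hr hr3 (hy.trans hyβ.le) hβa hτ
  rw [dens_perm (gs_cont τ) hL]
  refine (dens_exchange hr hy hyβ.le hP).trans (le_of_eq ?_)
  rw [dens_perm (gs_cont τ)]
  have e : (T ++ dup C ++ [β, a, a]).Perm (a :: a :: (T ++ dup C ++ [β])) := by
    have e1 : T ++ dup C ++ [β, a, a] = (T ++ dup C ++ [β]) ++ [a, a] := by simp
    rw [e1]
    exact List.perm_append_comm
  refine ((e.cons _).cons _).trans ?_
  have e2 : (qm β y :: qm β y :: a :: a :: (T ++ dup C ++ [β])) =
      [qm β y, qm β y] ++ ([a, a] ++ (T ++ dup C ++ [β])) := rfl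
  have e3 : (a :: a :: qm β y :: qm β y :: (T ++ dup C ++ [β])) =
      [a, a] ++ ([qm β y, qm β y] ++ (T ++ dup C ++ [β])) := rfl
  rw [e2, e3, ← List.append_assoc, ← List.append_assoc [a, a]]
  exact List.Perm.append_right _ List.perm_append_comm

theorem KK_compact (k : ℕ) : IsCompact (KK k) := by
  refine IsCompact.of_isClosed_subset (isCompact_sphere (0 : EuclideanSpace ℝ (Fin (k + 2))) 1) ?_ ?_
  · have e : KK k = {θ : EuclideanSpace ℝ (Fin (k + 2)) | ‖θ‖ = 1} ∩
        ({θ | θ 0 = θ 1} ∩ ⋂ i, {θ | |θ i| ≤ θ 0}) := by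
      ext θ
      simp [KK]
    rw [e]
    refine IsClosed.inter (isClosed_eq continuous_norm continuous_const) (IsClosed.inter
      (isClosed_eq (by fun_prop) (by fun_prop)) (isClosed_iInter fun i =>
        isClosed_le (by fun_prop) (by fun_prop)))
  · intro θ hθ
    simp [hθ.1]

/-- domination of every direction by an element of `KK k` -/
theorem dominated {k : ℕ} {r : ℝ} (hr : 0 < r) (θ : EuclideanSpace ℝ (Fin (k + 2)))
    (hθ : ‖θ‖ = 1) : vec (k + 2) (pairUp (srt θ)) ∈ KK k ∧
      Asl r θ 0 ≤ Asl r (vec (k + 2) (pairUp (srt θ))) 0 := by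
  have hlen := srt_length θ
  have hsq := srt_sq θ hθ
  have hso := srt_sorted θ
  have hnn := srt_nonneg θ
  have hf := pairUp_facts (k + 2) (srt θ) hlen hnn
  constructor
  · match h : srt θ, hlen with
    | x :: y :: L, hlen =>
      rw [h] at hsq hso hnn hf
      have e : pairUp (x :: y :: L) = qm x y :: qm x y :: pairUp L := rfl
      rw [e]
      have hx0 : 0 ≤ x := hnn x (by simp)
      have hy0 : 0 ≤ y := hnn y (by simp)
      have hxy : y ≤ x := List.rel_of_pairwise_cons hso (List.mem_cons_self (a := y) (l := L))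
      have hL2 : (y :: L).Pairwise (· ≥ ·) := (List.pairwise_cons.1 hso).2
      have hLy : ∀ c ∈ L, c ≤ y := fun c hc => List.rel_of_pairwise_cons hL2 hc
      have hf' := pairUp_facts L.length L rfl fun c hc => hnn c (by simp [hc])
      refine mem_KK ?_ ?_ (qm_nonneg _ _) ?_
      · rw [hf'.1]
        simpa using hlen
      · rw [← e, hf.2.1, hsq]
      · intro c hc
        rw [abs_of_nonneg (hf'.2.2.1 c hc)]
        exact (hf'.2.2.2.1 y hy0 hLy c hc).trans (qm_ge hy0 hxy le_rfl)
  · refine Asl_le_vec hr hθ (by rw [hf.1, hlen]) (by rw [hf.2.1, hsq]) fun τ _ => ?_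
    have h := dens_pairUp (τ := τ) hr θ
    rwa [dens_srt] at h

/-- the direction `(a, a, b, …, b)` -/
noncomputable def dirAB (k : ℕ) (a b : ℝ) : EuclideanSpace ℝ (Fin (k + 2)) :=
  vec (k + 2) (a :: a :: List.replicate k b)

theorem exists_ab (H : TAHyp) (hcont : S_cont) (k : ℕ) {r : ℝ} (hr : 0 < r) (hr3 : r ^ 2 ≤ 3) :
    ∃ a b : ℝ, 0 ≤ b ∧ b ≤ a ∧ 2 * a ^ 2 + k * b ^ 2 = 1 ∧
      ∀ θ : EuclideanSpace ℝ (Fin (k + 2)), ‖θ‖ = 1 → Asl r θ 0 ≤ Asl r (dirAB k a b) 0 := by
  obtain ⟨θ1, hθ1, hmax⟩ := (KK_compact k).exists_isMaxOn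
    ⟨_, (dominated hr (EuclideanSpace.single 0 1) (by simp)).1⟩ (hcont k r hr)
  have hScl : IsClosed (KK k ∩ (fun θ => Asl r θ 0) ⁻¹' {Asl r θ1 0}) :=
    (hcont k r hr).preimage_isClosed_of_isClosed (KK_compact k).isClosed isClosed_singleton
  have hSco : IsCompact (KK k ∩ (fun θ => Asl r θ 0) ⁻¹' {Asl r θ1 0}) :=
    (KK_compact k).of_isClosed_subset hScl inter_subset_left
  have hQc : Continuous (fun θ : EuclideanSpace ℝ (Fin (k + 2)) => QV θ) := by
    unfold QV
    fun_prop
  obtain ⟨θ, ⟨hθK, hθM⟩, hmin⟩ := hSco.exists_isMinOn ⟨θ1, hθ1, rfl⟩ hQc.continuousOn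
  have hθ := hθK.1
  simp only [mem_preimage, mem_singleton_iff] at hθM
  -- every competitor in `KK` which is at least as good has larger `Q`
  have key : ∀ θ' ∈ KK k, Asl r θ 0 ≤ Asl r θ' 0 → QV θ ≤ QV θ' := by
    intro θ' h1 h2
    refine hmin ⟨h1, ?_⟩
    have h3 := hmax h1
    simp only [mem_ofPred_eq] at h3
    simp only [mem_preimage, mem_singleton_iff]
    rw [hθM] at h2
    exact le_antisymm h3 h2
  have hall : ∀ θ' : EuclideanSpace ℝ (Fin (k + 2)), ‖θ'‖ = 1 → Asl r θ' 0 ≤ Asl r θ 0 := by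
    intro θ' h1
    have h2 := dominated hr θ' h1
    have h3 := hmax h2.1
    simp only [mem_ofPred_eq] at h3
    rw [hθM]
    exact h2.2.trans h3
  have hlen := srt_length θ
  have hsq := srt_sq θ hθ
  have hso := srt_sorted θ
  have hnn := srt_nonneg θ
  have hf := pairUp_facts (k + 2) (srt θ) hlen hnn
  have hfix : pairUp (srt θ) = srt θ := by
    by_contra hne
    have h1 := hf.2.2.2.2.2 hne
    have h2 := dominated hr θ hθ
    have h3 := key _ h2.1 h2.2
    rw [QV_srt θ, QV_vec (by rw [hf.1, hlen])] at h3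
    linarith
  obtain ⟨C0, T, hCT, hT1⟩ := pairUp_fixed (k + 2) (srt θ) hlen hnn hfix
  -- final step: from the shape of the list
  have final : ∀ a b : ℝ, srt θ = a :: a :: List.replicate k b → b ≤ a ∨ k = 0 →
      ∃ a b : ℝ, 0 ≤ b ∧ b ≤ a ∧ 2 * a ^ 2 + k * b ^ 2 = 1 ∧
      ∀ θ : EuclideanSpace ℝ (Fin (k + 2)), ‖θ‖ = 1 → Asl r θ 0 ≤ Asl r (dirAB k a b) 0 := by
    intro a b h hb
    have ha0 : 0 ≤ a := hnn a (by rw [h]; simp)
    have hA : Asl r θ 0 ≤ Asl r (dirAB k a b) 0 := by
      refine Asl_le_vec hr hθ (by simp) (by rw [← h]; exact hsq) fun τ _ => ?_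
      rw [h]
    have hs2 : 2 * a ^ 2 + k * b ^ 2 = 1 := by
      rw [h] at hsq
      simp only [List.map_cons, List.sum_cons, List.map_replicate, List.sum_replicate,
        nsmul_eq_mul] at hsq
      linarith
    rcases Nat.eq_zero_or_pos k with hk | hk
    · refine ⟨a, 0, le_rfl, ha0, ?_, fun θ' h1 => ?_⟩
      · subst hk
        simpa using hs2
      · subst hk
        exact (hall θ' h1).trans (by simpa [dirAB] using hA)
    · have hb0 : 0 ≤ b := hnn b (by
        rw [h]
        simp [List.mem_replicate]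
        omega)
      exact ⟨a, b, hb0, hb.resolve_right (by omega), hs2, fun θ' h1 => (hall θ' h1).trans hA⟩
  match C0, hCT with
  | [], hCT =>
    exfalso
    rw [hCT] at hlen
    simp [dup] at hlen
    omega
  | [a], hCT =>
    have h1 : srt θ = a :: a :: T := by rw [hCT]; rfl
    have hTk : T.length = k := by
      rw [h1] at hlen
      simpa using hlen
    match T, hT1 with
    | [], _ =>
      subst hTk
      exact final a 0 (by rw [h1]; rfl) (Or.inr rfl)
    | [z], _ =>
      have : k = 1 := by simpa using hTk.symm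
      subst this
      refine final a z (by rw [h1]; rfl) (Or.inl ?_)
      rw [h1] at hso
      exact List.rel_of_pairwise_cons hso (by simp)
    | z :: w :: T, hT1 => simp at hT1
  | a :: β :: C, hCT =>
    have h1 : srt θ = a :: a :: β :: β :: (dup C ++ T) := by rw [hCT]; rfl
    have hβa : β ≤ a := by
      rw [h1] at hso
      exact List.rel_of_pairwise_cons hso (by simp)
    have ha0 : 0 ≤ a := hnn a (by rw [h1]; simp)
    have hβ0 : 0 ≤ β := hnn β (by rw [h1]; simp)
    have hle : ∀ c ∈ dup C ++ T, c ≤ β := by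
      intro c hc
      rw [h1] at hso
      have h2 := (List.pairwise_cons.1 hso).2
      have h3 := (List.pairwise_cons.1 h2).2
      exact List.rel_of_pairwise_cons h3 (by simp only [List.mem_cons]; exact Or.inr hc)
    have h0 : ∀ c ∈ dup C ++ T, 0 ≤ c := fun c hc => hnn c (by
      rw [h1]
      simp only [List.mem_cons]
      exact Or.inr (Or.inr (Or.inr (Or.inr hc))))
    -- improvement is impossible
    have imp : ∀ (y : ℝ) (C' T' : List ℝ), y < β → 0 ≤ y → (∀ c ∈ C', 0 ≤ c ∧ c ≤ β) →
        (∀ c ∈ T', 0 ≤ c ∧ c ≤ y) → (srt θ).Perm (β :: y :: (T' ++ dup C' ++ [β, a, a])) →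
        False := by
      intro y C' T' hy hy0 hC' hT' hp
      have h2 := improve H hr hr3 hy0 hy hβa (fun c hc => (hC' c hc).1) hT' hp
      have hlen' : (qm β y :: qm β y :: (T' ++ dup C' ++ [β])).length = k := by
        have h3 := hp.length_eq
        rw [hlen] at h3
        simp only [List.length_cons, List.length_append, List.length_nil] at h3 ⊢
        omega
      have hs' : ((a :: a :: qm β y :: qm β y :: (T' ++ dup C' ++ [β])).map
          fun x => x ^ 2).sum = 1 := by
        rw [← hsq, (hp.map fun x => x ^ 2).sum_eq]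
        simp only [List.map_cons, List.sum_cons, List.map_append, List.sum_append, qm_sq,
          List.map_nil, List.sum_nil]
        ring
      have hKK := mem_KK hlen' hs' ha0 (by
        intro c hc
        have hq0 := qm_nonneg β y
        have hqa : qm β y ≤ a := qm_le ha0 hβ0 hβa hy0 (hy.le.trans hβa)
        simp only [List.mem_cons, List.mem_append, List.not_mem_nil, or_false] at hc
        rcases hc with h | h | (h | h) | h
        · rw [h, abs_of_nonneg hq0]; exact hqa
        · rw [h, abs_of_nonneg hq0]; exact hqa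
        · rw [abs_of_nonneg (hT' c h).1]
          exact (hT' c h).2.trans (hy.le.trans hβa)
        · have h4 := hC' c (mem_dup.1 h)
          rw [abs_of_nonneg h4.1]
          exact h4.2.trans hβa
        · rw [h, abs_of_nonneg hβ0]; exact hβa)
      have hA := Asl_le_vec hr hθ (n := k + 2) (by simp [← hlen']) hs' h2
      have hQ := key _ hKK hA
      rw [QV_srt, QV_vec (by simp [← hlen']), Q4_perm hp] at hQ
      have hq4 := qm_four β y
      have hpos := sq_ne hβ0 hy0 hy.ne'
      simp only [Q4, List.map_cons, List.sum_cons, List.map_append, List.sum_append,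
        List.map_nil, List.sum_nil] at hQ
      linarith
    have hCβ : ∀ c ∈ C, c = β := by
      intro y hyC
      by_contra hne
      have hy1 : y ≤ β := hle y (List.mem_append_left _ (mem_dup.2 hyC))
      have hy0 : 0 ≤ y := h0 y (List.mem_append_left _ (mem_dup.2 hyC))
      have hylt : y < β := lt_of_le_of_ne hy1 hne
      obtain ⟨C', hC'⟩ : ∃ C' : List ℝ, C.Perm (y :: C') := ⟨C.erase y, List.perm_cons_erase hyC⟩
      have hTy : ∀ c ∈ T, c ≤ y := by
        intro c hc
        rw [h1] at hso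
        have h2 := (List.pairwise_cons.1 (List.pairwise_cons.1 (List.pairwise_cons.1
          (List.pairwise_cons.1 hso).2).2).2).2
        exact (List.pairwise_append.1 h2).2.2 y (mem_dup.2 hyC) c hc
      refine imp y C' (T ++ [y]) hylt hy0 ?_ ?_ ?_
      · intro c hc
        have hcC : c ∈ C := hC'.mem_iff.2 (List.mem_cons_of_mem _ hc)
        exact ⟨h0 c (List.mem_append_left _ (mem_dup.2 hcC)),
          hle c (List.mem_append_left _ (mem_dup.2 hcC))⟩
      · intro c hc
        rcases List.mem_append.1 hc with h | h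
        · exact ⟨h0 c (List.mem_append_right _ h), hTy c h⟩
        · rw [List.mem_singleton.1 h]
          exact ⟨hy0, le_rfl⟩
      · rw [h1]
        have p1 := dup_perm hC'
        simp only [dup] at p1
        refine ((((p1.append_right T).cons β).cons β).cons a).cons a |>.trans ?_
        rw [← Multiset.coe_eq_coe]
        simp only [← Multiset.cons_coe, ← Multiset.coe_add, List.cons_append, Multiset.coe_nil]
        simp only [← Multiset.singleton_add, add_zero]
        abel
    have hTβ : ∀ c ∈ T, c = β := by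
      intro z hzT
      by_contra hne
      have hz1 : z ≤ β := hle z (List.mem_append_right _ hzT)
      have hz0 : 0 ≤ z := h0 z (List.mem_append_right _ hzT)
      have hTz : T = [z] := by
        match T, hT1, hzT with
        | [w], _, hzT => rw [List.mem_singleton.1 hzT]
        | u :: w :: T, hT1, _ => simp at hT1
      refine imp z C [] (lt_of_le_of_ne hz1 hne) hz0 ?_ (by simp) ?_
      · intro c hc
        exact ⟨h0 c (List.mem_append_left _ (mem_dup.2 hc)),
          hle c (List.mem_append_left _ (mem_dup.2 hc))⟩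
      · rw [h1, hTz]
        rw [← Multiset.coe_eq_coe]
        simp only [← Multiset.cons_coe, ← Multiset.coe_add, List.nil_append, Multiset.coe_nil]
        simp only [← Multiset.singleton_add, add_zero]
        abel
    refine final a β ?_ (Or.inl hβa)
    rw [h1]
    congr 2
    refine List.eq_replicate_iff.2 ⟨?_, ?_⟩
    · rw [h1] at hlen
      simp only [List.length_cons] at hlen ⊢
      omega
    · intro c hc
      simp only [List.mem_cons, List.mem_append] at hc
      rcases hc with h | h | h | h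
      · exact h
      · exact h
      · exact hCβ c (mem_dup.1 h)
      · exact hTβ c h

end Pool.Agent.H770.GS
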