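import Pool.Agent.H770.GS.Two
import Pool.Agent.H770.GS.Fam3c

/-!
# Dimension three: the maximal Gaussian section of `[-r, r]^3`
-/

set_option autoImplicit false

open MeasureTheory Set intervalIntegral Filter Topology

namespace Pool.Agent.H770.GS

open Pool.Agent.Helper82.GC

/-- a direction of type `D₂` in dimension three -/
noncomputable def dirTwo : EuclideanSpace ℝ (Fin 3) := fam 0

/-- the diagonal direction in dimension three -/
noncomputable def dirThree : EuclideanSpace ℝ (Fin 3) := fam (Real.arcsin (1 / Real.sqrt 3))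

/-- value at a direction of type `D₂` -/
noncomputable def V2 (r : ℝ) : ℝ := Asl r dirTwo 0

/-- value at the diagonal -/
noncomputable def V3 (r : ℝ) : ℝ := Asl r dirThree 0

theorem sqrt3_facts : 0 < Real.sqrt 3 ∧ Real.sqrt 3 ^ 2 = 3 :=
  ⟨by positivity, Real.sq_sqrt (by norm_num)⟩

theorem one_div_sqrt3_lt : 1 / Real.sqrt 3 < 1 := by
  have h := sqrt3_facts
  rw [div_lt_one h.1]
  nlinarith [h.1, h.2]

theorem sin_s : Real.sin (Real.arcsin (1 / Real.sqrt 3)) = 1 / Real.sqrt 3 := by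
  have h := sqrt3_facts
  have h0 : 0 < 1 / Real.sqrt 3 := by have := h.1; positivity
  exact Real.sin_arcsin (by linarith) one_div_sqrt3_lt.le

theorem cos_s : Real.cos (Real.arcsin (1 / Real.sqrt 3)) = Real.sqrt 2 / Real.sqrt 3 := by
  have h := sqrt3_facts
  rw [Real.cos_arcsin]
  rw [show 1 - (1 / Real.sqrt 3) ^ 2 = 2 / 3 by rw [div_pow, h.2]; norm_num]
  rw [Real.sqrt_div (by norm_num)]

theorem s_lt : Real.arcsin (1 / Real.sqrt 3) < Real.pi / 2 := by
  rw [Real.arcsin_lt_pi_div_two]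
  exact one_div_sqrt3_lt

theorem s_pos : 0 < Real.arcsin (1 / Real.sqrt 3) := by
  rw [Real.arcsin_pos]
  have h := sqrt3_facts
  have := h.1
  positivity

theorem sin_eq_cos_s : Real.sin (Real.arcsin (1 / Real.sqrt 3)) =
    Real.cos (Real.arcsin (1 / Real.sqrt 3)) / Real.sqrt 2 := by
  rw [sin_s, cos_s]
  have h2 : Real.sqrt 2 ≠ 0 := by positivity
  field_simp

theorem dirTwo_apply : dirTwo = !₂[1 / Real.sqrt 2, 1 / Real.sqrt 2, 0] := by
  unfold dirTwo fam
  rw [Real.cos_zero, Real.sin_zero]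

theorem dirThree_apply : dirThree = !₂[1 / Real.sqrt 3, 1 / Real.sqrt 3, 1 / Real.sqrt 3] := by
  unfold dirThree fam
  have h2 : Real.sqrt 2 ≠ 0 := by positivity
  rw [sin_s, cos_s]
  rw [show Real.sqrt 2 / Real.sqrt 3 / Real.sqrt 2 = 1 / Real.sqrt 3 by field_simp]

/-- existence of the sorted triple -/
theorem srt_three (θ : EuclideanSpace ℝ (Fin 3)) : ∃ x y z, srt θ = [x, y, z] := by
  have h := srt_length θ
  match srt θ, h with
  | [x, y, z], _ => exact ⟨x, y, z, rfl⟩

/-- reduction to the family -/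
theorem three_fam {r x y z : ℝ} (hr : 0 < r) (θ : EuclideanSpace ℝ (Fin 3)) (hθ : ‖θ‖ = 1)
    (h : srt θ = [x, y, z]) : 0 ≤ z ∧ z ≤ y ∧ y ≤ x ∧ x ^ 2 + y ^ 2 + z ^ 2 = 1 ∧
      Asl r θ 0 ≤ Asl r (fam (Real.arcsin z)) 0 := by
  have h1 := srt_sq θ hθ
  have h2 := srt_sorted θ
  have h3 := srt_nonneg θ
  rw [h] at h1 h2 h3
  simp only [List.map_cons, List.map_nil, List.sum_cons, List.sum_nil, add_zero] at h1
  have hz : 0 ≤ z := h3 z (by simp)
  have hy : 0 ≤ y := h3 y (by simp)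
  have hxy : y ≤ x := List.rel_of_pairwise_cons h2 (by simp)
  have hyz : z ≤ y := List.rel_of_pairwise_cons (List.pairwise_cons.1 h2).2 (by simp)
  have hx : 0 ≤ x := hy.trans hxy
  refine ⟨hz, hyz, hxy, by linarith, ?_⟩
  have hz1 : z ≤ 1 := by nlinarith [sq_nonneg x, sq_nonneg y]
  refine le_of_tendsto_of_tendsto (dens_tendsto hr θ hθ) (dens_tendsto hr _ (fam_norm _)) ?_
  refine Eventually.of_forall fun τ => ?_
  have h4 := dens_pairUp (τ := τ) hr θ
  simp only
  rw [h] at h4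
  refine h4.trans (le_of_eq ?_)
  rw [fam_dens]
  have e : Real.sqrt ((x ^ 2 + y ^ 2) / 2) = Real.cos (Real.arcsin z) / Real.sqrt 2 := by
    rw [Real.cos_arcsin, ← Real.sqrt_div' _ (by norm_num)]
    congr 1
    linarith
  simp only [pairUp]
  rw [e, dens_cons, dens_cons, dens_cons, dens_nil]
  unfold D3
  rw [Real.sin_arcsin (by linarith) hz1]

theorem two_strict {r x : ℝ} (hr : 0 < r) (hx1 : 1 / Real.sqrt 2 < x) :
    ∫ u in (-(r / x))..(r / x), W u < ∫ u in (-(r / (1 / Real.sqrt 2)))..(r / (1 / Real.sqrt 2)), W u := by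
  have h2 : 0 < Real.sqrt 2 := by positivity
  have h0 : 0 < 1 / Real.sqrt 2 := by positivity
  have hx : 0 < x := h0.trans hx1
  have hlt : r / x < r / (1 / Real.sqrt 2) := div_lt_div_of_pos_left hr h0 hx1
  have hi : ∀ a b : ℝ, IntervalIntegrable W volume a b := fun a b => W_cont.intervalIntegrable _ _
  have e1 := intervalIntegral.integral_add_adjacent_intervals
    (hi (-(r / (1 / Real.sqrt 2))) (-(r / x))) (hi (-(r / x)) (r / (1 / Real.sqrt 2)))
  have e2 := intervalIntegral.integral_add_adjacent_intervals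
    (hi (-(r / x)) (r / x)) (hi (r / x) (r / (1 / Real.sqrt 2)))
  have p1 : 0 < ∫ u in (-(r / (1 / Real.sqrt 2)))..(-(r / x)), W u :=
    intervalIntegral.intervalIntegral_pos_of_pos_on (hi _ _) (fun u _ => W_pos u) (by linarith)
  have p2 : 0 < ∫ u in (r / x)..(r / (1 / Real.sqrt 2)), W u :=
    intervalIntegral.intervalIntegral_pos_of_pos_on (hi _ _) (fun u _ => W_pos u) hlt
  linarith

theorem mem_srt {n : ℕ} (θ : EuclideanSpace ℝ (Fin n)) (x : ℝ) :
    x ∈ srt θ ↔ ∃ i, |θ i| = x := by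
  rw [(srt_perm θ).mem_iff, List.mem_ofFn]

theorem all_eq_of_srt {n : ℕ} (θ : EuclideanSpace ℝ (Fin n)) {c : ℝ}
    (h : ∀ x ∈ srt θ, x = c) (i : Fin n) : |θ i| = c :=
  h _ ((mem_srt θ _).2 ⟨i, rfl⟩)

/-- main bound with equality cases in dimension three -/
theorem three_main {r : ℝ} (hr : 0 < r) (θ : EuclideanSpace ℝ (Fin 3)) (hθ : ‖θ‖ = 1) :
    Asl r θ 0 ≤ max (V2 r) (V3 r) ∧ (Asl r θ 0 = max (V2 r) (V3 r) →
      srt θ = [1 / Real.sqrt 2, 1 / Real.sqrt 2, 0] ∨
      srt θ = [1 / Real.sqrt 3, 1 / Real.sqrt 3, 1 / Real.sqrt 3]) := by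
  obtain ⟨x, y, z, h⟩ := srt_three θ
  obtain ⟨hz, hyz, hxy, hsum, hle⟩ := three_fam hr θ hθ h
  have h3 := sqrt3_facts
  have h30 : 0 < 1 / Real.sqrt 3 := by have := h3.1; positivity
  have h31 : (1 / Real.sqrt 3) ^ 2 = 1 / 3 := by rw [div_pow, h3.2]; norm_num
  have hy : 0 ≤ y := hz.trans hyz
  have hx : 0 ≤ x := hy.trans hxy
  have hz3 : z ≤ 1 / Real.sqrt 3 := by
    by_contra hc
    push Not at hc
    nlinarith
  have hsq2 : 0 < Real.sqrt 2 := by positivity
  have hsq22 : (1 / Real.sqrt 2) ^ 2 = 1 / 2 := by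
    rw [div_pow, Real.sq_sqrt (by norm_num)]; norm_num
  have hp2 : 0 < 1 / Real.sqrt 2 := by positivity
  rcases eq_or_lt_of_le hz with hz0 | hz0
  · -- z = 0
    have hfam : fam (Real.arcsin z) = dirTwo := by
      unfold dirTwo
      rw [← hz0, Real.arcsin_zero]
    rw [hfam] at hle
    refine ⟨hle.trans (le_max_left _ _), fun heq => Or.inl ?_⟩
    have hA := Asl_two (m := 1) hr θ hθ (by rw [h, ← hz0]; rfl)
    have hx2 : 1 / Real.sqrt 2 ≤ x := by
      by_contra hc
      push Not at hc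
      nlinarith
    have hV : V2 r = Zr r ^ 1 * ∫ u in (-(r / (1 / Real.sqrt 2)))..(r / (1 / Real.sqrt 2)), W u := by
      refine Asl_two hr dirTwo (fam_norm 0) (y := 1 / Real.sqrt 2) ?_
      obtain ⟨x', y', z', h'⟩ := srt_three dirTwo
      have hp := srt_perm dirTwo
      have hof : (List.ofFn fun i => |dirTwo i|) = [1 / Real.sqrt 2, 1 / Real.sqrt 2, 0] := by
        rw [dirTwo_apply]
        simp [List.ofFn_succ, abs_of_pos hsq2]
      rw [hof] at hp
      refine hp.eq_of_pairwise' (srt_sorted _) ?_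
      simp
    rcases eq_or_lt_of_le hx2 with hx2 | hx2
    · rw [h, ← hx2, ← hz0]
      have hy2 : y = 1 / Real.sqrt 2 := by
        have : y ^ 2 = (1 / Real.sqrt 2) ^ 2 := by
          rw [← hx2, ← hz0, hsq22] at hsum
          rw [hsq22]
          linarith
        exact (pow_left_inj₀ hy hp2.le two_ne_zero).1 this
      rw [hy2]
    · exfalso
      have h5 := two_strict hr hx2
      have hZ : 0 < Zr r ^ 1 := pow_pos (Zr_pos hr) 1
      have h6 : Asl r θ 0 < V2 r := by
        rw [hA, hV]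
        exact mul_lt_mul_of_pos_left h5 hZ
      have := le_max_left (V2 r) (V3 r)
      linarith
  · rcases eq_or_lt_of_le hz3 with hz4 | hz4
    · -- diagonal
      have hfam : fam (Real.arcsin z) = dirThree := by
        unfold dirThree
        rw [hz4]
      rw [hfam] at hle
      refine ⟨hle.trans (le_max_right _ _), fun _ => Or.inr ?_⟩
      have hzz : z ^ 2 = 1 / 3 := by rw [hz4, h31]
      have hy1 : y = 1 / Real.sqrt 3 := by
        have : y ^ 2 = (1 / Real.sqrt 3) ^ 2 := by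
          rw [h31]
          nlinarith
        exact (pow_left_inj₀ hy h30.le two_ne_zero).1 this
      have hx1 : x = 1 / Real.sqrt 3 := by
        have : x ^ 2 = (1 / Real.sqrt 3) ^ 2 := by
          rw [hy1, hz4, h31] at hsum
          rw [h31]
          linarith
        exact (pow_left_inj₀ hx h30.le two_ne_zero).1 this
      rw [h, hx1, hy1, hz4]
    · have h7 := fam_max (φ := Real.arcsin z) hr (Real.arcsin_pos.2 hz0)
        (Real.arcsin_lt_arcsin (by linarith) hz4 one_div_sqrt3_lt.le) s_lt sin_eq_cos_s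
      have h8 : Asl r θ 0 < max (V2 r) (V3 r) := lt_of_le_of_lt hle h7
      exact ⟨h8.le, fun heq => absurd heq h8.ne⟩

end Pool.Agent.H770.GS
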