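import Pool.Agent.H770.GS.TA3
import Pool.Agent.H770.GS.Three

/-!
# Project TB: the family `(a, a, b, …, b)` : statements

Notation (all in `Pool.Agent.H770.GS`): `W x = e^(-x²/2)`, `cv r b g v = ∫ u in (-r)..r, W u * g (v + b * u)`,
`dens r L g = L.foldr (cv r) g` (iterated `cv`), `fL r z = e^(-z²/4) * I2 (r - z/2)` with
`I2 q = ∫ p in (-q)..q, e^(-p²)`, `nL r = - (fL r)'` (`fL_deriv`), `nLd r = (nL r)'` (`nL_deriv`),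
`Zr r = ∫ u in (-r)..r, e^(-u²/2)`, `gs τ` the Gaussian density of variance `τ²`,
`fold : ∫∫_[-r,r]² W x W y G (x+y) = ∫_0^{2r} fL r z (G z + G (-z)) dz`.
With `eL r x = e^(-r²+rx-x²/2)` one has
`nL r x = x/2 * fL r x + eL r x`, `nLd r x = fL r x * (2-x²)/4 + eL r x * (r-3x/2)`,
`(eL r)' x = (r-x) eL r x`, `fL r (2r) = 0`, `nL r (2r) = e^(-r²)`.
-/

set_option autoImplicit false

open MeasureTheory Set intervalIntegral Filter Topology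

namespace Pool.Agent.H770.GS

open Pool.Agent.Helper82.GC

/-- the density of `X₁ + X₂` on the whole line -/
noncomputable def pt (r x : ℝ) : ℝ := max (fL r |x|) 0

/-- the section function of the direction proportional to `(1, 1, β, …, β)` with `k` entries
`β = √s / √k` -/
noncomputable def FF (r : ℝ) (k : ℕ) (s : ℝ) : ℝ :=
  Real.sqrt (2 + s) * dens r (List.replicate k (1 / Real.sqrt k)) (fun z => pt r (Real.sqrt s * z)) 0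

noncomputable def eL (r x : ℝ) : ℝ := Real.exp (-r ^ 2 + r * x - x ^ 2 / 2)

/-- **TB1** (link). Proof. Let `θ = dirAB k a b`, a unit vector (`vec_norm`), `ofFn_vec` gives
`List.ofFn θ = a :: a :: replicate k b`. By `dens_tendsto`, `dens r (ofFn θ) (gs τ) 0 → Asl r θ 0` as
`τ → 0+`, and by `dens_perm` the left side is `dens r (replicate k b) (g_τ) 0` with
`g_τ = cv r a (cv r a (gs τ))`. By `fold` (for `G u = gs τ (v + a u)`), `gs` even: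
`g_τ v = ∫_0^{2r} fL r z (gs τ (v + a z) + gs τ (v - a z)) dz = ∫_ℝ pt r z * gs τ (v + a z) dz
 = (1/a) ∫_ℝ pt r ((x - v)/a) * gs τ x dx`. `pt r` is continuous with support in `[-2r,2r]`, so
uniformly continuous and bounded, and `g_τ → (1/a) pt r (·/a)` uniformly as `τ → 0+`
(`gs τ x dx` is a probability measure concentrating at `0`). Since
`|cv r b g v - cv r b h v| ≤ Zr r * sup |g - h|`, also
`dens r (replicate k b) g_τ 0 → (1/a) * dens r (replicate k b) (fun v => pt r (v/a)) 0`.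
Finally `1/a = √(2+s)` for `s = k b²/a²` and by scaling (`cv_scale`) the last `dens` is
`dens r (replicate k (b/a)) (pt r) 0 = dens r (replicate k (1/√k)) (fun z => pt r (√s z)) 0`,
as `√s / √k = b/a`. -/
def S_link : Prop := ∀ (r a b : ℝ) (k : ℕ), 0 < r → 1 ≤ k → 0 < a → 0 ≤ b →
  2 * a ^ 2 + k * b ^ 2 = 1 → Asl r (dirAB k a b) 0 = FF r k (k * b ^ 2 / a ^ 2)

/-- **TB2** (Stein type positivity). Proof. Put `m = √k` and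
`ψ Y = (1/m) e^(Y²/(2k)) ∫_0^{Y/m} Δ z * W z dz`. Then `ψ` is `C¹`, odd, `≥ 0` on `[0,∞)` and
`k ψ' Y - Y ψ Y = Δ (Y/m)`. Let `T = cv r 1`. For `C¹` functions `g`, integration by parts
(`u W u = -(W)' u`) gives `T (x g) = x T g + T g' - W r * δ g`, where
`δ g v = g (v + r) - g (v - r)`. By induction on `j` (`T` commutes with derivatives, `cv_deriv`, and with `δ`)
`T^j (x ψ) = x T^j ψ + j T^j ψ' - j W r * T^(j-1) δψ`. At the point `0` and `j = k`: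
`T^k (k ψ' - x ψ) 0 = k W r * (T^(k-1) δψ) 0 = k W r * (T^(k-1) ψ r - T^(k-1) ψ (-r)) = 2 k W r * T^(k-1) ψ r`,
which is `≥ 0` because `T` preserves the class of the functions which are odd and `≥ 0` on `[0,∞)`
(`T g v = ∫_{v-r}^{v+r} W (x - v) g x dx`, pair `x` with `-x` and use `W (x-v) ≥ W (x+v)` for `x, v ≥ 0`).
The left side is `dens r (replicate k 1) (fun Y => Δ (Y/m)) 0 = dens r (replicate k (1/m)) Δ 0`. -/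
def S_stein : Prop := ∀ (r : ℝ) (k : ℕ) (Δ : ℝ → ℝ), 0 < r → 1 ≤ k → Continuous Δ →
  (∀ x, Δ (-x) = Δ x) → (∀ η, 0 ≤ η → 0 ≤ ∫ z in (0:ℝ)..η, Δ z * W z) →
  0 ≤ dens r (List.replicate k (1 / Real.sqrt k)) Δ 0

/-- **TB3** (comparison with one summand). Proof. `φ̂ w = φ (√w)`. Choose `m` with
`∫_0^r (φ z - φ r) W z dz = m ∫_0^r (z² - r²) W z dz` (the last integral is `< 0`) and put
`Δ z = φ z - φ r - m (z² - r²)`; so `∫_0^r Δ W = 0`, `Δ̂` is convex on `[0,∞)` and `Δ̂ (r²) = 0`.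
Claim: `0 ≤ ∫_0^η Δ W` for all `η ≥ 0`. If `η ≤ r` and the integral is `< 0`, then `Δ z₁ < 0` for some
`z₁ < η`, and since `∫_η^r Δ W > 0` also `Δ z₂ > 0` for some `z₂ ∈ (η, r)`, contradicting convexity on
`z₁² < z₂² < r²` (`Δ̂ (z₁²) < 0 = Δ̂ (r²)`). If `η > r`: `∫_0^η = ∫_r^η` and `Δ ≥ 0` on `[r,∞)`, since
`Δ z < 0` with `z > r` would give, by convexity and `Δ̂(r²) = 0`, `Δ > 0` on `[0,r)` and `∫_0^r ΔW > 0`.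
By `S_stein`, `0 ≤ dens r (replicate k (1/√k)) Δ 0`. By linearity of `dens` and
`dens r (replicate k (1/√k)) (z ↦ z²) 0 = Zr^(k-1) ∫_{-r}^{r} y² W y dy` (expand the square of the sum,
the cross terms vanish), this reads
`dens φ ≥ (φ r - m r²) Zr^k + m Zr^(k-1) ∫ y² W = Zr^(k-1) ∫_{-r}^r (φ - Δ) W = Zr^(k-1) ∫_{-r}^r φ W`. -/
def S_cvx : Prop := S_stein → ∀ (r : ℝ) (k : ℕ) (φ : ℝ → ℝ), 0 < r → 1 ≤ k → Continuous φ →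
  (∀ x, φ (-x) = φ x) → ConvexOn ℝ (Ici 0) (fun w => φ (Real.sqrt w)) →
  Zr r ^ (k - 1) * cv r 1 φ 0 ≤ dens r (List.replicate k (1 / Real.sqrt k)) φ 0

/-- `(1+q) n + x n'` -/
noncomputable def nE (r q x : ℝ) : ℝ := (1 + q) * nL r x + x * nLd r x

/-- `nE - x nE'` -/
noncomputable def mE (r q x : ℝ) : ℝ :=
  fL r x * ((1 + q) * x ^ 3 / 4 + x ^ 3 * (6 - x ^ 2) / 8) +
    eL r x * ((1 + q) * (1 - r * x + 3 * x ^ 2 / 2) + x ^ 2 * (2 - r ^ 2) + 5 * r * x ^ 3 / 2 -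
      7 * x ^ 4 / 4)

/-- **TB4** (shape). Proof. `p = fL r x`, `e = eL r x`.
(1) `nE = p x (4+2q-x²)/4 + e (1+q+rx-3x²/2)` and `nE - x nE' = mE`; quotient rule.
(2) `p ≥ (2r-x) e` on `[0,2r]` (`I2 ℓ ≥ 2 ℓ e^(-ℓ²)`, `ℓ = r - x/2`, and `e = e^(-x²/4) e^(-ℓ²)`), so for
`0 ≤ x ≤ r`: `p ≥ x e`, and `rx ≥ x²`, `4 - x² > 0` give
`nE ≥ e (x²(4-x²)/4 + 1 - x²/2) = e (1 + x²/2 - x⁴/4) > 0` as `x² ≤ 9/4`.
(3) identity `mE = (x²/2) nE + p x³/2 + e ((1+q)(1-rx+x²) + x²(2-r²) + x³(2r-x))`, and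
`(1+q)(1-rx+x²) + x²(2-r²) > 0` since its discriminant is negative:
`(5+q) r² < 12+4q` for `r² ≤ 9/4`; `p ≥ 0`.
(4) Let `ν x = nE x / x`, `ν x₀ > 0` by (2). If `ν x > ν x₀` for some `x ∈ (x₀, 2r]`, let `x*` be the last point of
`[x₀,x]` where `ν ≤ ν x₀`; on `(x*, x]` `ν > 0`, so `nE > 0`, `mE > 0`, `ν' < 0`, so
`ν x < ν x* = ν x₀`, a contradiction. -/
def S_shape : Prop := ∀ r q : ℝ, 0 < r → r ^ 2 ≤ 9 / 4 → 0 ≤ q → q ≤ 1 / 3 →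
  (∀ x, 0 < x → HasDerivAt (fun x => nE r q x / x) (-mE r q x / x ^ 2) x) ∧
  (∀ x, 0 ≤ x → x ≤ r → 0 < nE r q x) ∧
  (∀ x, 0 < x → x ≤ 2 * r → 0 ≤ nE r q x → 0 < mE r q x) ∧
  (∀ x₀ x, 0 < x₀ → x₀ ≤ r → x₀ ≤ x → x ≤ 2 * r → nE r q x / x ≤ nE r q x₀ / x₀)

/-- the derivative of `w ↦ √(2+s₂) fL r (√(s₂ w)) - √(2+s₁) fL r (√(s₁ w))` at `w = y²` -/
noncomputable def dm (r s1 s2 y : ℝ) : ℝ :=
  -(Real.sqrt (2 + s2) * Real.sqrt s2 * nL r (Real.sqrt s2 * y) -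
    Real.sqrt (2 + s1) * Real.sqrt s1 * nL r (Real.sqrt s1 * y)) / (2 * y)

/-- the difference of the integrands -/
noncomputable def dD (r s1 s2 y : ℝ) : ℝ :=
  Real.sqrt (2 + s2) * pt r (Real.sqrt s2 * y) - Real.sqrt (2 + s1) * pt r (Real.sqrt s1 * y)

/-- **TB5** Proof. For fixed `y₁ ≤ y₂` put
`h s = -√(2+s) √s (n (√s y₂)/(2y₂) - n (√s y₁)/(2y₁))`, `n = nL r`. As
`d/ds [√(2+s) √s n(√s y)] = (√(2+s)/(2√s)) nE r (s/(s+2)) (√s y)`, one gets with `ν x = nE x/x`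
`h' s = -(√(2+s)/4) (ν (√s y₂) - ν (√s y₁)) ≥ 0` for `0 < s ≤ 1`, because `ν` is nonincreasing on
`(0,r]` (`S_shape` (1)-(3) or (4); `s/(s+2) ≤ 1/3`). So `h s₁ ≤ h s₂`, which is the statement. -/
def S_d1 : Prop := S_shape → ∀ r s1 s2 : ℝ, 0 < r → r ^ 2 ≤ 9 / 4 → 0 < s1 → s1 < s2 → s2 ≤ 1 →
  ∀ y1 y2, 0 < y1 → y1 ≤ y2 → y2 ≤ r → dm r s1 s2 y1 ≤ dm r s1 s2 y2

/-- **TB6** Proof. Fix `y ≥ r`. Put, for `s ∈ [s₁,s₂]`, `x = √s y`, `x₀ = √s r`, `q = s/(s+2)`,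
`h s = √(2+s) (pt r (√s y) - fL r (√s r)) + √(2+s) √s nL r (√s r) (y²-r²)/(2r)`. The claim is
`h s₁ ≤ h s₂`. `h` is continuous. With `κ x = q fL r x - x nL r x` (so `κ' = -nE r q` for fixed `q`) and
`d/ds [√(2+s) fL r (√s y)] = (√(2+s)/(2s)) κ x`, one has
(i) if `√s y < 2r` : `h' s = (√(2+s)/(2s)) G x`, `G x = κ x - κ x₀ + nE x₀ (x² - x₀²)/(2x₀)`; here
`G x₀ = 0` and `G' x = x (nE x₀/x₀ - nE x/x) ≥ 0` on `[x₀,2r]` by `S_shape` (4), so `h' ≥ 0`;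
(ii) if `√s y > 2r` : `pt r (√s y) = 0`,
`h' s = (√(2+s)/(2s)) (-κ x₀ + nE x₀ (x²-x₀²)/(2x₀)) ≥ (√(2+s)/(2s)) (G (2r) - κ (2r)) ≥ 0` as
`κ (2r) = -2r e^(-r²) < 0`. (`pt r x = fL r |x|` for `|x| ≤ 2r`, `= 0` otherwise.) -/
def S_d2 : Prop := S_shape → ∀ r s1 s2 : ℝ, 0 < r → r ^ 2 ≤ 9 / 4 → 0 < s1 → s1 < s2 → s2 ≤ 1 →
  ∀ y, r ≤ y → dD r s1 s2 r + dm r s1 s2 r * (y ^ 2 - r ^ 2) ≤ dD r s1 s2 y

/-- **TB7** Proof. `φ z = dD r s₁ s₂ z` for `|z| ≤ r` and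
`φ z = dD r s₁ s₂ r + dm r s₁ s₂ r * (z² - r²)` for `|z| ≥ r`. `φ (√w)` is `C¹` on `(0,∞)`, continuous on
`[0,∞)`, with derivative `dm r s₁ s₂ (√w)` for `w ≤ r²` (there `pt r (√s z) = fL r (√s z)`), and
`dm r s₁ s₂ r` for `w ≥ r²`, which is nondecreasing by `S_d1`; so it is convex
(`MonotoneOn.convexOn_of_deriv`). `φ ≤ dD` by `S_d2`. -/
def S_delta : Prop := S_shape → S_d1 → S_d2 → ∀ r s1 s2 : ℝ, 0 < r → r ^ 2 ≤ 9 / 4 → 0 < s1 →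
  s1 < s2 → s2 ≤ 1 → ∃ φ : ℝ → ℝ, Continuous φ ∧ (∀ x, φ (-x) = φ x) ∧
    ConvexOn ℝ (Ici 0) (fun w => φ (Real.sqrt w)) ∧ (∀ z, φ z ≤ dD r s1 s2 z) ∧
    ∀ z ∈ Icc (-r) r, φ z = dD r s1 s2 z

/-- **TB8** (dimension three). Proof. `fam φ = dirAB 1 (cos φ/√2) (sin φ)`, so by `S_link`
`Asl r (fam φ) 0 = FF r 1 s` with `√s = sin φ / (cos φ/√2) = √2 tan φ`; take `φ = arctan (√(s/2))`. By
`fam_ftc` the difference is the integral of `hh r φ = √2 W r (2/(cos φ/√2)) jj r (√s)`, which is `≥ 0`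
since `jj r l' > 0` for `l < l' < 1` by `jj_cross` (`jj_cont` for the end points). -/
def S_F1 : Prop := S_link → ∀ r l : ℝ, 0 < r → 0 < l → l < 1 → 0 ≤ jj r l →
  ∀ s1 s2, l ^ 2 ≤ s1 → s1 ≤ s2 → s2 ≤ 1 → FF r 1 s1 ≤ FF r 1 s2

/-- **TB9** Proof. `R = r²`. By `jj_eq` it is enough that `jA r l ≥ jB r l`. Substituting `x = r y`,
`jA = R ∫_0^1 y e^(-Ry²+lRy) (1 - e^(-a(y))) dy`, `a(y) = (1-l²)R(1-y²)/2`, and
`1 - e^(-a) ≥ a e^(-a/2)` (`sinh (a/2) ≥ a/2`), so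
`jA/R ≥ ((1-l²)R/2) ∫_0^1 y(1-y²) e^(g y) dy`, `g y = -Ry²+lRy-(1-l²)R(1-y²)/4`, and since
`∫_0^1 y(1-y²) = 1/4`, Jensen (`e^(g y) ≥ e^(g₀) (1 + g y - g₀)` with `g₀ = 4∫_0^1 y(1-y²) g y dy`
`= -R (1/2 - 8l/15 - l²/6)`) gives `jA/R ≥ (1-l²)(R/8) e^(g₀)`. On the other side
`jB/R = (1-l)² ∫_0^1 y e^(-c v(y)) dy` with `c = (1-l)R`, `v(y) = (1-l)y² + l y ∈ [0,1]`, and by convexity
`e^(-cv) ≤ 1 - (1-e^(-c)) v`, `∫_0^1 y v = (3+l)/12`, so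
`jB/R ≤ (1-l)² (1/2 - (1-e^(-c))(3+l)/12)`. -/
def S_redjj : Prop := ∀ r l : ℝ, 0 < r → 0 ≤ l → l < 1 →
  (1 - l) * (1 / 2 - (1 - Real.exp (-((1 - l) * r ^ 2))) * (3 + l) / 12) ≤
    (1 + l) * r ^ 2 / 8 * Real.exp (-(r ^ 2 * (1 / 2 - 8 * l / 15 - l ^ 2 / 6))) → 0 ≤ jj r l

/-- `2(1-σ) n - (2+σ) x n'` -/
noncomputable def YY (r σ x : ℝ) : ℝ :=
  x * fL r x * (x ^ 2 / 2 - σ * (3 / 2 - x ^ 2 / 4)) +
    eL r x * (2 - 2 * r * x + 3 * x ^ 2 - σ * (2 + r * x - 3 * x ^ 2 / 2))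

/-- **TB10** Proof. By `S_redjj` the claim is the inequality of `S_redjj` for `R = r² ∈ [R₁, R₂]` and the
fixed `l`. For fixed `l` its left side decreases in `R` and the right side
increases in `R` (`R ↦ R e^(-κR)`, `κ = 1/2-8l/15-l²/6 < 0.25`, increasing for `κR ≤ 1`), so it is enough to check
it at `R = R₁`, numerically (difference right - left at `R₁`, in the order of the list:
`0.0097, 0.0082, 0.0111, 0.0125, 0.0158, 0.0150, 0.0148, 0.0103, 0.0122`). -/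
def S_winA : Prop := S_redjj → ∀ r R1 R2 l : ℝ, 0 < r → R1 ≤ r ^ 2 → r ^ 2 ≤ R2 →
  ((R1, R2, l) ∈ ([(0.39, 0.45, 0.83), (0.45, 0.53, 0.80), (0.53, 0.63, 0.77), (0.63, 0.77, 0.73),
    (0.77, 0.96, 0.68), (0.96, 1.22, 0.61), (1.22, 1.60, 0.53), (1.60, 1.90, 0.435),
    (1.90, 2.25, 0.39)] : List (ℝ × ℝ × ℝ))) → 0 ≤ jj r l

/-- **TB11** Proof. Let `R = r²`, `x = r y`, `σ = l²`, `G(t) = ∫_0^1 e^(t(1-u²)) du`; then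
`fL r x = (2r-x) eL r x * G(R(1-y/2)²)` and
`YY/eL = 2(1-σ) + R(2+σ)(3y²/2-y) + R y(2-y) G(R(1-y/2)²) B`, `B = R y²(1/2+σ/4) - 3σ/2`, `0 ≤ y ≤ 2`.
If `B ≥ 0` this is `≥ 2(1-σ) - R(2+σ)/6 > 0`. If `B < 0` use `G(t) ≤ 1 + γ t` for `0 ≤ t ≤ R₂`
(convexity of `G`), where `γ ≥ (G(R₂)-1)/R₂`, `G(t) = Σ (2t)^k/(2k+1)!!`; admissible values
`γ = 0.804, 0.833, 0.870, 0.927, 1.011, 1.145, 1.385, 1.637, 1.963` in the order of the list. Then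
`YY/eL ≥ 2(1-σ) + R(2+σ)(3y²/2-y) + R y(2-y)(1+γR(1-y/2)²) B`, a polynomial in `R ∈ [R₁,R₂]`, `y ∈ [0,2]`,
with minimum at least `0.07` over each of the nine boxes (all `y ∈ [0,2]`)
(`nlinarith`/subdivision). -/
def S_winB : Prop := ∀ r R1 R2 l : ℝ, 0 < r → R1 ≤ r ^ 2 → r ^ 2 ≤ R2 →
  ((R1, R2, l) ∈ ([(0.39, 0.45, 0.83), (0.45, 0.53, 0.80), (0.53, 0.63, 0.77), (0.63, 0.77, 0.73),
    (0.77, 0.96, 0.68), (0.96, 1.22, 0.61), (1.22, 1.60, 0.53), (1.60, 1.90, 0.435),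
    (1.90, 2.25, 0.39)] : List (ℝ × ℝ × ℝ))) → ∀ x, 0 ≤ x → x ≤ 2 * r → 0 ≤ YY r (l ^ 2) x

/-- **TB12** (convexity for small `s`). Proof. Let `M = √(2+l²)`, `μ ∈ [√2, M]`, `λ = √(μ²-2) ≤ l`,
`z ≥ 0`, `x = λ z`, `f μ = μ fL r (λ z)`. For `μ > √2`, `x < 2r`: `f' μ = fL r x - (1+2/λ²) x nL r x` and, as a
function of `λ`, its derivative is `(z/λ²)(2(1-λ²) nL r x - (2+λ²) x nLd r x) = (z/λ²) YY r (λ²) x ≥ 0`, since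
`YY` is affine in `σ`, is `≥ 0` for `σ = l²` by hypothesis and for `σ = 0` (`2-2rx+3x² > 0` as `r² < 6`,
`fL ≥ 0`). So `f` is convex on `[√2, μ*]`, where `μ* = M` if `l z ≤ 2r`, and otherwise
`λ(μ*) z = 2r`, `f μ* = 0`. Hence with `s ∈ [0,l²]`, `μ = √(2+s)`, `t = (M-μ)/(M-√2)`,
`μ pt r (√s z) ≤ t √2 pt r 0 + (1-t) M pt r (l z)` for all `z` : clear if `μ* = M`; if `μ* < M` then
`pt r (l z) = 0` and either `μ ≥ μ*` (left side `0`) or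
`f μ ≤ ((μ*-μ)/(μ*-√2)) f √2 ≤ t f √2`. Apply the monotone linear map `dens r (replicate k _) · 0`:
`FF r k s ≤ t FF r k 0 + (1-t) FF r k (l²)`. -/
def S_V : Prop := ∀ (r l : ℝ) (k : ℕ), 0 < r → r ^ 2 ≤ 9 / 4 → 0 < l → l < 1 →
  (∀ x, 0 ≤ x → x ≤ 2 * r → 0 ≤ YY r (l ^ 2) x) → 1 ≤ k →
  ∀ s, 0 ≤ s → s ≤ l ^ 2 → FF r k s ≤ max (FF r k 0) (FF r k (l ^ 2))

/-- `H(β)` -/
noncomputable def HH (r β : ℝ) : ℝ :=
  ∫ a in (0:ℝ)..(2 * r), a * (β * fL r (β * a) * W (r - a) - fL r a * W (r - β * a))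

/-- **TB13** Proof. With `p = fL r`, `p z = e^(-z²/4) (2r-z) A(r-z/2)`, `A ℓ = ∫_0^1 e^(-ℓ²u²) du`. Since
`A'/A ≥ -2ℓ/3` (Chebyshev: the mean of `u²` with weight `e^(-ℓ²u²)` on `[0,1]` is `≤ 1/3`),
`A(r-βa/2)/A(r-a/2) ≥ exp(-(1-β)a(r-(1+β)a/4)/3)`. Also
`W(r-a)/W(r-βa) = exp((1-β)a(2r-(1+β)a)/2)`. So, with `π a = e^(-a²/4) A(r-a/2)`,
`β p(βa) W(r-a) ≥ π a W(r-βa) β(2r-βa) exp((2/3)(1-β)a(r-(1+β)a/4))
 ≥ π a W(r-βa) β(2r-βa) (1 + (2/3)(1-β)a(r-(1+β)a/4))` and therefore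
`HH ≥ (1-β) ∫_0^{2r} a π a W(r-βa) {(1+β)a - 2r + (2/3)β(2r-βa)a(r-(1+β)a/4)} da`. With `a = r y`, `R = r²`,
`π a W(r-βa) = ∫_0^1 e^(-R Q) du`, `Q = y²(1/4+β²/2+u²/4) - y(β+u²) + 1/2 + u²`; so it is enough that for each
`u ∈ [0,1]`: `0 ≤ ∫_0^2 e^(-RQ) (y((1+β)y-2) + (2/3)βR y²(2-βy)(1-(1+β)y/4)) dy`. Integrate the first term by
parts with `g y = y²((1+β)y/3-1)`, `g' = y((1+β)y-2)`:
`∫ g' e^(-RQ) = g(2) e^(-RQ(2)) + R ∫ g Q' e^(-RQ)`, `g(2) = 4(2β-1)/3 ≥ 0`, and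
`g Q' + (2/3)β y²(2-βy)(1-(1+β)y/4) = y² N`,
`N = (2/3)β(2-βy)(1-(1+β)y/4) + ((1+β)y/3-1)(y(1/2+β²+u²/2)-β-u²) ≥ 0` for `0 ≤ y ≤ 2`, `0 ≤ u ≤ 1`,
`1/√2 ≤ β ≤ 1` (affine in `u²`; minimum about `0.036`; polynomial inequality). -/
def S_H : Prop := ∀ r β : ℝ, 0 < r → 1 / 2 ≤ β ^ 2 → 0 ≤ β → β ≤ 1 → 0 ≤ HH r β

/-- **TB14** (`k = 2`). Proof. For `0 < s ≤ 2`, `β = √(s/2) ≤ 1`: by scaling and `fold`, `FF r 2 s =
√(2+2β²) ∫_{-2r}^{2r} pt r z pt r (βz) dz = 2√2 √(1+β²) G β`, `G β = ∫_0^{2r} p z p(βz) dz`, `p = fL r`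
(here `0 ≤ βz ≤ 2r`). `G' β = -∫_0^{2r} z p z nL r (βz) dz`. With
`nL r x = x p x/2 + eL r x`, `eL r x = W r W(r-x)`: `G' = -(β/2) J - ∫ z p z eL(βz)`,
`J = ∫_0^{2r} z² p z p(βz) dz`, and integrating by parts (`p(2r) = 0`)
`G = ∫ z (nL z p(βz) + β p z nL(βz)) = J/2 + ∫ z eL z p(βz) - β G'`. Eliminating `J`:
`(1+β²) G' + β G = β ∫ z eL z p(βz) - ∫ z p z eL(βz) = W r * HH r β`. So
`d/dβ (√(1+β²) G) = W r HH r β / √(1+β²) ≥ 0` for `1/2 ≤ β² ≤ 1`. -/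
def S_F2 : Prop := S_H → ∀ r : ℝ, 0 < r → ∀ s1 s2, 1 ≤ s1 → s1 ≤ s2 → s2 ≤ 2 →
  FF r 2 s1 ≤ FF r 2 s2

/-- **TB15** (elementary facts). -/
def S_basic : Prop := ∀ r : ℝ, 0 < r → Continuous (pt r) ∧ (∀ x, pt r (-x) = pt r x) ∧
  (∀ x, |x| ≤ 2 * r → pt r x = fL r |x|) ∧ (∀ x, 2 * r ≤ |x| → pt r x = 0) ∧
  (∀ x, nL r x = x / 2 * fL r x + eL r x) ∧
  (∀ x, nLd r x = fL r x * (2 - x ^ 2) / 4 + eL r x * (r - 3 * x / 2)) ∧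
  (∀ x, HasDerivAt (eL r) ((r - x) * eL r x) x) ∧
  (∀ x, 0 ≤ x → x ≤ 2 * r → (2 * r - x) * eL r x ≤ fL r x)

end Pool.Agent.H770.GS
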