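import Pool.Agent.H770.GS.TBall

/-!
# Project TB: assembly
-/

set_option autoImplicit false

open MeasureTheory Set intervalIntegral Filter Topology

namespace Pool.Agent.H770.GS

open Pool.Agent.Helper82.GC

theorem pt_cont' (r : ℝ) : Continuous (pt r) := Pool.Agent.H157.TBV.pt_cont r

/-- the slice value is the value of the density of the sum of the `b`-part -/
theorem FF_def' (r : ℝ) (k : ℕ) (s : ℝ) : FF r k s =
    dens r (List.replicate k (1 / Real.sqrt k)) (fun z => Real.sqrt (2 + s) * pt r (Real.sqrt s * z)) 0 := by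
  have hp := pt_cont' r
  rw [Pool.Agent.H157.TBV.dens_smul' _ (by fun_prop)]
  rfl

theorem FF_sub_eq (r : ℝ) (k : ℕ) (s1 s2 : ℝ) : FF r k s2 - FF r k s1 =
    dens r (List.replicate k (1 / Real.sqrt k)) (dD r s1 s2) 0 := by
  have hp := pt_cont' r
  have h := Pool.Agent.H157.TBV.dens_lin (r := r) (List.replicate k (1 / Real.sqrt k))
    (g := fun z => Real.sqrt (2 + s2) * pt r (Real.sqrt s2 * z))
    (h := fun z => Real.sqrt (2 + s1) * pt r (Real.sqrt s1 * z)) (by fun_prop) (by fun_prop) 1 (-1)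
  have h0 := congrFun h 0
  have e : dD r s1 s2 = fun x => 1 * (Real.sqrt (2 + s2) * pt r (Real.sqrt s2 * x)) +
      -1 * (Real.sqrt (2 + s1) * pt r (Real.sqrt s1 * x)) := by
    funext x
    unfold dD
    ring
  rw [e, h0, FF_def', FF_def']
  ring

theorem dD_cont (r s1 s2 : ℝ) : Continuous (dD r s1 s2) := by
  have hp := pt_cont' r
  unfold dD
  fun_prop

theorem FF_sub {r : ℝ} (hr : 0 < r) (hr2 : r ^ 2 ≤ 9 / 4) {k : ℕ} (hk : 1 ≤ k) {s1 s2 : ℝ}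
    (h1 : 0 < s1) (h12 : s1 < s2) (h2 : s2 ≤ 1) :
    Zr r ^ (k - 1) * (FF r 1 s2 - FF r 1 s1) ≤ FF r k s2 - FF r k s1 := by
  obtain ⟨φ, hφc, hφe, hφv, hφle, hφeq⟩ := h_delta h_shape (h_d1) (h_d2) r s1 s2 hr hr2 h1 h12 h2
  have h := h_cvx h_stein r k φ hr hk hφc hφe hφv
  have h3 := Pool.Agent.H157.TBV.dens_mono hr (List.replicate k (1 / Real.sqrt k)) hφc
    (dD_cont r s1 s2) hφle 0
  rw [FF_sub_eq, FF_sub_eq]
  have e : dens r (List.replicate 1 (1 / Real.sqrt ((1:ℕ):ℝ))) (dD r s1 s2) 0 = cv r 1 φ 0 := by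
    simp only [List.replicate_one, dens_cons, dens_nil, Nat.cast_one, Real.sqrt_one, div_one]
    unfold cv
    refine intervalIntegral.integral_congr fun u hu => ?_
    rw [uIcc_of_le (by linarith)] at hu
    simp only [zero_add, one_mul]
    rw [hφeq u hu]
  rw [e]
  exact h.trans h3

theorem FF_window {r : ℝ} (hr : 0 < r) (hr1 : 0.39 ≤ r ^ 2) (hr2 : r ^ 2 ≤ 9 / 4) :
    ∃ l, 0 < l ∧ l < 1 ∧ 0 ≤ jj r l ∧ ∀ x, 0 ≤ x → x ≤ 2 * r → 0 ≤ YY r (l ^ 2) x := by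
  have hA := h_winA h_redjj r
  have hB := h_winB r
  have key : ∀ R1 R2 l : ℝ, R1 ≤ r ^ 2 → r ^ 2 ≤ R2 → 0 < l → l < 1 →
      ((R1, R2, l) ∈ ([(0.39, 0.45, 0.83), (0.45, 0.53, 0.80), (0.53, 0.63, 0.77), (0.63, 0.77, 0.73),
    (0.77, 0.96, 0.68), (0.96, 1.22, 0.61), (1.22, 1.60, 0.53), (1.60, 1.90, 0.435),
    (1.90, 2.25, 0.39)] : List (ℝ × ℝ × ℝ))) → ∃ l, 0 < l ∧ l < 1 ∧ 0 ≤ jj r l ∧
      ∀ x, 0 ≤ x → x ≤ 2 * r → 0 ≤ YY r (l ^ 2) x := by
    intro R1 R2 l h1 h2 h3 h4 h5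
    exact ⟨l, h3, h4, hA R1 R2 l hr h1 h2 h5, hB R1 R2 l hr h1 h2 h5⟩
  rcases le_total (r ^ 2) 0.45 with h | h
  · exact key 0.39 0.45 0.83 hr1 h (by norm_num) (by norm_num) (by simp)
  rcases le_total (r ^ 2) 0.53 with h' | h'
  · exact key 0.45 0.53 0.80 h h' (by norm_num) (by norm_num) (by simp)
  clear h
  rcases le_total (r ^ 2) 0.63 with h | h
  · exact key 0.53 0.63 0.77 h' h (by norm_num) (by norm_num) (by simp)
  clear h'
  rcases le_total (r ^ 2) 0.77 with h' | h'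
  · exact key 0.63 0.77 0.73 h h' (by norm_num) (by norm_num) (by simp)
  clear h
  rcases le_total (r ^ 2) 0.96 with h | h
  · exact key 0.77 0.96 0.68 h' h (by norm_num) (by norm_num) (by simp)
  clear h'
  rcases le_total (r ^ 2) 1.22 with h' | h'
  · exact key 0.96 1.22 0.61 h h' (by norm_num) (by norm_num) (by simp)
  clear h
  rcases le_total (r ^ 2) 1.60 with h | h
  · exact key 1.22 1.60 0.53 h' h (by norm_num) (by norm_num) (by simp)
  clear h'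
  rcases le_total (r ^ 2) 1.90 with h' | h'
  · exact key 1.60 1.90 0.435 h h' (by norm_num) (by norm_num) (by simp)
  · exact key 1.90 2.25 0.39 h' (by linarith) (by norm_num) (by norm_num) (by simp)

/-- on `[0,1]` the values are at most the largest of the two end values -/
theorem FF_le_one {r : ℝ} (hr : 0 < r) (hr1 : 0.39 ≤ r ^ 2) (hr2 : r ^ 2 ≤ 9 / 4) {k : ℕ}
    (hk : 1 ≤ k) {s : ℝ} (hs0 : 0 ≤ s) (hs1 : s ≤ 1) :
    FF r k s ≤ max (FF r k 0) (FF r k 1) := by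
  obtain ⟨l, hl0, hl1, hjj, hYY⟩ := FF_window hr hr1 hr2
  have hmono : ∀ s1 s2, l ^ 2 ≤ s1 → s1 < s2 → s2 ≤ 1 → FF r k s1 ≤ FF r k s2 := by
    intro s1 s2 h1 h2 h3
    have hs1 : 0 < s1 := lt_of_lt_of_le (by positivity) h1
    have h4 := FF_sub hr hr2 hk hs1 h2 h3
    have h5 := h_F1 h_link r l hr hl0 hl1 hjj s1 s2 h1 h2.le h3
    have hZ : 0 ≤ Zr r ^ (k - 1) := pow_nonneg (Zr_pos hr).le _
    have h6 : 0 ≤ Zr r ^ (k - 1) * (FF r 1 s2 - FF r 1 s1) := mul_nonneg hZ (by linarith)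
    linarith
  have hl21 : l ^ 2 < 1 := by nlinarith
  have hend : FF r k (l ^ 2) ≤ FF r k 1 := hmono _ _ le_rfl hl21 le_rfl
  rcases le_total s (l ^ 2) with h | h
  · have h1 := h_V r l k hr hr2 hl0 hl1 hYY hk s hs0 h
    refine h1.trans (max_le (le_max_left _ _) (hend.trans (le_max_right _ _)))
  · rcases hs1.eq_or_lt with h1 | h1
    · rw [h1]; exact le_max_right _ _
    · exact (hmono s 1 h h1 le_rfl).trans (le_max_right _ _)

/-- `FF` at the two special parameters -/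
theorem Asl_D2 {r : ℝ} (hr : 0 < r) {k : ℕ} (hk : 1 ≤ k) :
    Asl r (dirAB k (1 / Real.sqrt 2) 0) 0 = FF r k 0 := by
  have h2 : Real.sqrt 2 ^ 2 = 2 := Real.sq_sqrt (by norm_num)
  have h := h_link r (1 / Real.sqrt 2) 0 k hr hk (by positivity) le_rfl (by
    rw [div_pow, h2]; norm_num)
  rw [h]
  congr 1
  simp

theorem Asl_Dn {r : ℝ} (hr : 0 < r) {k : ℕ} (hk : 1 ≤ k) :
    Asl r (dirAB k (1 / Real.sqrt (k + 2)) (1 / Real.sqrt (k + 2))) 0 = FF r k k := by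
  have hk2 : (0:ℝ) < k + 2 := by positivity
  have h2 : Real.sqrt ((k:ℝ) + 2) ^ 2 = k + 2 := Real.sq_sqrt hk2.le
  have h := h_link r (1 / Real.sqrt (k + 2)) (1 / Real.sqrt (k + 2)) k hr hk (by positivity)
    (by positivity) (by
    rw [div_pow, h2]; field_simp; ring)
  rw [h]
  congr 1
  rw [div_pow, h2]
  field_simp

/-- two candidates, if the part `s ≥ 1` is controlled -/
theorem two_cand {r : ℝ} (hr : 0 < r) (hr1 : 0.39 ≤ r ^ 2) (hr2 : r ^ 2 ≤ 9 / 4) {k : ℕ} (hk : 1 ≤ k)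
    (h : ∀ s : ℝ, 1 ≤ s → s ≤ k → FF r k s ≤ max (FF r k 0) (FF r k k))
    (θ : EuclideanSpace ℝ (Fin (k + 2))) (hθ : ‖θ‖ = 1) :
    Asl r θ 0 ≤ max (Asl r (dirAB k (1 / Real.sqrt 2) 0) 0)
      (Asl r (dirAB k (1 / Real.sqrt (k + 2)) (1 / Real.sqrt (k + 2))) 0) := by
  obtain ⟨a, b, hb, hba, hsum, hmax⟩ := exists_ab' k hr (by linarith : r ^ 2 ≤ 3)
  refine (hmax θ hθ).trans ?_
  rw [Asl_D2 hr hk, Asl_Dn hr hk]
  have hk1 : (1:ℝ) ≤ k := by exact_mod_cast hk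
  have ha : 0 < a := by
    by_contra hc
    have ha0 : a = 0 := le_antisymm (not_lt.1 hc) (hb.trans hba)
    have hb0 : b = 0 := le_antisymm (by rw [← ha0]; exact hba) hb
    rw [ha0, hb0] at hsum
    norm_num at hsum
  rw [h_link r a b k hr hk ha hb hsum]
  have hs0 : 0 ≤ k * b ^ 2 / a ^ 2 := by positivity
  have hsk : k * b ^ 2 / a ^ 2 ≤ k := by
    rw [div_le_iff₀ (by positivity)]
    have : b ^ 2 ≤ a ^ 2 := pow_le_pow_left₀ hb hba 2
    nlinarith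
  rcases le_total (k * b ^ 2 / a ^ 2) 1 with h1 | h1
  · refine (FF_le_one hr hr1 hr2 hk hs0 h1).trans (max_le (le_max_left _ _) ?_)
    exact h 1 le_rfl hk1
  · exact h _ h1 hsk

/-- dimension four -/
theorem four_main {r : ℝ} (hr : 0 < r) (hr1 : 0.39 ≤ r ^ 2) (hr2 : r ^ 2 ≤ 9 / 4)
    (θ : EuclideanSpace ℝ (Fin 4)) (hθ : ‖θ‖ = 1) :
    Asl r θ 0 ≤ max (Asl r (dirAB 2 (1 / Real.sqrt 2) 0) 0)
      (Asl r (dirAB 2 (1 / Real.sqrt (2 + 2)) (1 / Real.sqrt (2 + 2))) 0) := by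
  have h := two_cand (k := 2) hr hr1 hr2 (by norm_num) (fun s hs1 hs2 => ?_) θ hθ
  · simpa using h
  · push_cast at hs2 ⊢
    exact (h_F2 h_H r hr s 2 hs1 hs2 le_rfl).trans (le_max_right _ _)

end Pool.Agent.H770.GS
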