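import Pool.Agent.H770.GS.TB

/-!
# Project TC: the triple `{c, 1, 1}` for `1 ≤ c ≤ √2` : statements

Here `n3 r c` (in `TA.lean`) is minus the derivative of the density of `c X₁ + X₂ + X₃`, and the goal is
`n3 r c ∈ P 0` for `1 ≤ c`, `c² ≤ 2`, `r² ≤ 9/4` (for `c ≤ 1` this is `n3_P` in `TA1.lean`).
The point `a = 2r/c` is where `nL r (c a)` is cut.
-/

set_option autoImplicit false

open MeasureTheory Set intervalIntegral Filter Topology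

namespace Pool.Agent.H770.GS

open Pool.Agent.Helper82.GC

/-- **TC1**. Proof. `Mc r c a = M₁ (c a)` with `M₁ x = nL - x nLd = x³ p/4 + e (1 - r x + 3x²/2)`
(`p = fL r x`, `e = eL r x`), which is `≥ 0` on `[0,2r]`. `M₁' = p x²(6-x²)/8 + e x(2-r²+5rx/2-7x²/4)`. With
`x = c a ∈ [0,2r]`: `c · W a · (Mc r c a/W a)' = c² M₁'(x) + x M₁(x)
 = p x² (3c²/4 + x²(2-c²)/8) + e x B(x)`, `B x = c²(2-r²) + 1 + r x (5c²/2-1) + x² (3/2-7c²/4)`; the first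
bracket is `≥ 0` as `c² ≤ 2`; `B` is concave, `B 0 ≥ 1/2` and
`B (2r) = c²(2-3r²)+1+4r² ≥ min (5-2r²) 1 > 0`, so `B ≥ 0` on `[0,2r]`. (Compare
`Pool.Agent.H37.GSmono.main : S_mono`, the case `c ≤ 1`.) -/
def S_mono1 : Prop := ∀ r c : ℝ, 0 < r → r ^ 2 ≤ 9 / 4 → 1 ≤ c → c ^ 2 ≤ 2 →
  MonotoneOn (fun a => Mc r c a / W a) (Icc 0 (2 * r / c)) ∧ ∀ a ∈ Icc (0:ℝ) (2 * r / c), 0 ≤ Mc r c a

/-- **TC2**. Proof. As `Pool.Agent.H356.GSn3Q.n3Q : S_n3Q`, where `c ≤ 1` is only used for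
`c (v + r) ≤ 2 r`. -/
def S_n3Q1 : Prop := ∀ r c v : ℝ, 0 < r → 0 < c → 0 ≤ v → v ≤ r → c * (r + v) ≤ 2 * r →
  n3 r c (c * v) = Qf r c v

/-- **TC3**. Proof. As `Pool.Agent.H187.GSD.s_D : S_D`, where `c ≤ 1` is only used for
`c (v + r) ≤ 2 r` (so that `a ↦ nL r (c a)/a` is nonincreasing and `nL r (c a) ≥ 0` on `(0, r+v]`). -/
def S_D1 : Prop := ∀ r c v : ℝ, 0 < r → r ^ 2 ≤ 3 → 0 < c → 0 < v → v < r → c * (r + v) ≤ 2 * r →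
  ∫ a in (r - v)..(r + v), NR r v a * (Mc r c a / a ^ 2) ≤ Qf r c v - v * Qd r c v

/-- `n3 r c (c w)` when `2r ≤ c (r + w)` -/
noncomputable def Qc (r c w : ℝ) : ℝ :=
  (∫ a in (0:ℝ)..(2 * r / c), W (a - w) * nL r (c * a)) -
    ∫ a in (0:ℝ)..(r - w), W (a + w) * nL r (c * a)

/-- the derivative of `Qc r c` -/
noncomputable def Qcd (r c w : ℝ) : ℝ :=
  W r * nL r (c * (r - w)) +
    (∫ a in (0:ℝ)..(2 * r / c), (a - w) * W (a - w) * nL r (c * a)) +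
    ∫ a in (0:ℝ)..(r - w), (a + w) * W (a + w) * nL r (c * a)

/-- the second derivative of `Qc r c` -/
noncomputable def Qcdd (r c w : ℝ) : ℝ :=
  -(∫ a in (0:ℝ)..(2 * r / c), (1 - (a - w) ^ 2) * W (a - w) * nL r (c * a)) +
    (∫ a in (0:ℝ)..(r - w), (1 - (a + w) ^ 2) * W (a + w) * nL r (c * a)) -
    W r * (r * nL r (c * (r - w)) + c * nLd r (c * (r - w)))

/-- **TC4**. Proof. As `S_n3Q`: `n3 r c (c w) = ∫_{-r}^{r} W u * nLo r (c (w + u)) du`, `a = w + u` runs over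
`(w - r, w + r)`, where `w + r ≥ 2r/c` and `nLo` vanishes for `c a > 2r`, and for `a < 0`
(`-a ≤ r - w`, `c (r - w) ≤ 2 r` as `c ≤ 2`) substitute `a → -a`. -/
def S_cutQ : Prop := ∀ r c w : ℝ, 0 < r → 0 < c → c ≤ 2 → 0 ≤ w → w ≤ r → 2 * r ≤ c * (r + w) →
  n3 r c (c * w) = Qc r c w

/-- **TC5**. Proof. Differentiation of integrals with parameter and variable limits
(compare `Pool.Agent.H356.GSQd.Qd_deriv : S_Qd`); `(y W y)' = (1-y²) W y`, `nL' = nLd`. -/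
def S_cutd : Prop := ∀ r c w : ℝ, HasDerivAt (Qc r c) (Qcd r c w) w ∧
  HasDerivAt (Qcd r c) (Qcdd r c w) w

/-- **TC6** (concavity in the cut region). Numerically `Qcdd ≤ -1` here. Proof. Write
`ω y = (1-y²) W y`, `n̄ a = nL r (c a) ≥ 0`, `A = 2r/c`, `x = c (r-w)`.
(0) The last term is `≤ 0` : as `w ≥ A - r`, `x ≤ 2r(c-1) ≤ 0.8285 r`, so in
`r nL x + c nLd x = p (r x/2 + c(2-x²)/4) + e (r + c (r-3x/2))` (`p = fL r x ≥ 0`, `e = eL r x`) both brackets are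
positive (`1 + 4c - 3c² > 0`, `x² < 2`).
(1) `ω` is decreasing in `|y|` for `|y| ≤ √3`, so `ω (a+w) ≤ ω (a-w)` for `0 ≤ a ≤ r-w`, and
`Qcdd ≤ -∫_{r-w}^{A} ω(a-w) n̄(a) da + (last term)`.
(2) If `r ≤ 1`, then `|a-w| ≤ r ≤ 1` for `a ∈ [r-w, A]`, so `ω ≥ 0` and we are done.
(3) `κ a = n̄ a/a` is nonincreasing on `(0,A]` (`nL_anti`: `z nLd z ≤ nL z`). `Θ y = (w y + 1 + y²) W y` is a
primitive of `ω y (y+w)`. If `y₀ = r - 2w ≥ -1` : by Abel's inequality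
(if `κ ≥ 0` nonincreasing and `∫_{a₀}^{T} h ≥ 0` for all `T` then `∫ κ h ≥ 0`) it is enough that
`Θ Y ≥ Θ y₀` for `y₀ ≤ Y ≤ A - w ≤ r`; `Θ` increases on `[y₀,1]` and decreases for `Y ≥ 1`, and for
`1 ≤ Y ≤ 3/2`: `Θ Y ≥ (3w/2+13/4) W(3/2) ≥ 1.055 + 0.487 w`, while `y₀ ≤ 0.26` and `w ≥ 0.41 r` give
`Θ y₀ ≤ 1.055 + 0.487 w`.
(4) If `r - 2w < -1`, then `w > 1`: the second integral in `Qcdd` is `≤ 0` (`a + w > 1`);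
`-∫_{w-1}^{A} ω(a-w) n̄ ≤ 0` by the Abel argument from `y₀ = -1` (`Θ Y ≥ Θ(-1) = (2-w)W 1`);
and `-∫_0^{w-1} ω(a-w) n̄ ≤ (W 1 - w W w) * max_{[0,w-1]} n̄ ≤ 0.12 * 0.9` is dominated by the
last term, which is `≤ -W r (r nL x + c nLd x)` with `x = c(r-w) ≤ 0.36` (as `w > (r+1)/2`), about `-0.5`. -/
def S_cutneg : Prop := ∀ r c w : ℝ, 0 < r → r ^ 2 ≤ 9 / 4 → 1 ≤ c → c ^ 2 ≤ 2 → 0 ≤ w → w ≤ r →
  2 * r ≤ c * (r + w) → Qcdd r c w ≤ 0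

/-- **TC7** (assembly: `Q/w` is nonincreasing). Proof. Let `w₁ = 2r/c - r ∈ [0, r]`.
For `0 < w`, `c(r+w) ≤ 2r`, `w < r`: `0 ≤ Qf - w Qd` exactly as `Qf_sub_nonneg` in `TA1.lean`, from
`S_D1`, `S_comp`, `S_I1` (`taHyp.comp`, `taHyp.i1` in `TA3.lean`) and `S_mono1`
(`[r-w, r+w] ⊆ [0, 2r/c]`). At `w₁`: `Qc = Qf`, `Qcd = Qd - W r nL (c (r+w₁))`, so
`Qc - w₁ Qcd ≥ Qf - w₁ Qd ≥ 0` (if `w₁ = r`, i.e. `c = 1`, nothing more is needed; if `w₁ = 0`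
then `Qc - 0 ≥ 0` trivially; by continuity for `w₁ > 0`). For `w ≥ w₁`: `(Qc - w Qcd)' = -w Qcdd ≥ 0`, so
`Qc - w Qcd ≥ 0` on `[w₁, r]`. Hence `Qf/w` is nonincreasing on `(0,w₁]` and `Qc/w` on `[w₁,r]`. By
`S_n3Q1`, `S_cutQ` these are `n3 r c (c w)/w`. Conclude as in `n3_P` (`TA1.lean`), using
`taHyp.far taHyp.repr taHyp.reg` for `v + v' ≥ 2 c r`. -/
def S_n3P1 : Prop := S_mono1 → S_n3Q1 → S_D1 → S_cutQ → S_cutd → S_cutneg →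
  ∀ r c : ℝ, 0 < r → r ^ 2 ≤ 9 / 4 → 1 ≤ c → c ^ 2 ≤ 2 → P 0 (n3 r c)

/-- **TC8**. Proof. As `triple_one` and `triple` in `TA1.lean`. -/
def S_triple1 : Prop := (∀ r c : ℝ, 0 < r → r ^ 2 ≤ 9 / 4 → 1 ≤ c → c ^ 2 ≤ 2 → P 0 (n3 r c)) →
  ∀ r x z τ : ℝ, 0 < r → r ^ 2 ≤ 9 / 4 → 0 < x → x ≤ z → z ^ 2 ≤ 2 * x ^ 2 → 0 < τ →
    P 0 (cv r z (cv r x (cv r x (kg τ))))

end Pool.Agent.H770.GS
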