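import Pool.Agent.H770.GS.TC

/-!
# Project TD: the triple `{c, 1, 1}` for `1 ≤ c ≤ √3`, `r ≤ 1` : statements

Same objects as in `TC.lean` (`Qc`, `Qcd`, `Qcdd`, `S_n3Q1`, `S_D1`, `S_cutQ`, `S_cutd`). The finished proofs for the
case `c ≤ √2` (to be adapted) are `Pool.Agent.H94.TCmono1.main : S_mono1`,
`Pool.Agent.H628.TCn3P1.n3P1 : S_n3P1`, `Pool.Agent.H969.TCtriple1.triple1 : S_triple1`.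
-/

set_option autoImplicit false

open MeasureTheory Set intervalIntegral Filter Topology

namespace Pool.Agent.H770.GS

open Pool.Agent.Helper82.GC

/-- **TD1**. Proof. As `S_mono1` (`Pool.Agent.H94.TCmono1.main`). With `x = c a ∈ [0,2r]`:
`c · W a · (Mc r c a/W a)' = c² M₁'(x) + x M₁(x)
 = p x² (3c²/4 + x²(2-c²)/8) + e x B(x)`, `B x = c²(2-r²) + 1 + r x (5c²/2-1) + x² (3/2-7c²/4)`; the first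
bracket is `≥ 3c²/4 - |2-c²|/2 ≥ 0` as `x² ≤ 4`; `B` is concave, `B 0 > 0` and
`B (2r) = c²(2-3r²)+1+4r² ≥ min (7-5r²) (1+4r²) > 0` (affine in `c² ∈ [0,3]`), so `B ≥ 0` on `[0,2r]`. -/
def S_mono2 : Prop := ∀ r c : ℝ, 0 < r → r ≤ 1 → 1 ≤ c → c ^ 2 ≤ 3 →
  MonotoneOn (fun a => Mc r c a / W a) (Icc 0 (2 * r / c)) ∧ ∀ a ∈ Icc (0:ℝ) (2 * r / c), 0 ≤ Mc r c a

/-- **TD2** (second derivative in the cut region). Proof. `ω y = (1-y²) W y`, `A = 2r/c`, `x = c (r-w)`.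
(1) for `0 ≤ a ≤ A` one has `-r ≤ -w ≤ a - w ≤ A - w ≤ r`, so `ω (a-w) ≥ 0` (`r ≤ 1`), and
`ω` is decreasing in `|y|` for `|y| ≤ √3` (`ω' = -y(3-y²) W`), so `ω (a+w) ≤ ω (a-w)` for `0 ≤ a ≤ r-w`
(`a + w ≤ r ≤ 1`), where `r - w ≤ A` as `c ≤ 2`; `nL r (c a) ≥ 0` on `[0,A]`. Hence
`Qcdd ≤ -W r (r nL r x + c nLd r x)`.
(2) By `nL r x = x p/2 + e`, `nLd r x = p (2-x²)/4 + e (r-3x/2)` (`p = fL r x`, `e = eL r x`; `S_basic`,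
proved in `Pool.Agent.H106.TB.basic`): `r nL + c nLd = p (r x/2 + c(2-x²)/4) + e (r + c (r-3x/2))`.
As `2r ≤ c(r+w)`, `x ≤ 2r(c-1) ≤ 1.4642 r`; the coefficient of `p` is `≥ 0` and `p ≥ (2r-x) e`; with `t = x/r`:
`r nL + c nLd ≥ e r (1 + 2c - 2 c t + r² t (2-t)(2 - c t)/4)`.
(3) If `w ≥ 2r/5`: `t ≤ 3c/5`, `c t ≤ 9/5`, so the bracket is `≥ 1 + 2c - 6c²/5 > 0`.
(4) In general `t ≤ 2(c-1)`: `1 + 2c - 2ct ≥ 1 + 2c - 4c(c-1) ≥ -0.608`,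
`r² t(2-t)(2-ct)/4 ≥ (1/4)(2 - 2c(c-1)) ≥ -0.1341`, and `W r * e = exp (r² (-3/2 + t - t²/2)) ≤ exp (-r²)`. -/
def S_cutup : Prop := ∀ r c w : ℝ, 0 < r → r ≤ 1 → 1 ≤ c → c ^ 2 ≤ 3 → 0 ≤ w → w ≤ r →
  2 * r ≤ c * (r + w) → Qcdd r c w ≤ 0.75 * r * Real.exp (-r ^ 2) ∧ (2 * r / 5 ≤ w → Qcdd r c w ≤ 0)

/-- **TD3** (assembly: `Q/w` is nonincreasing). Proof. As `S_n3P1` (`Pool.Agent.H628.TCn3P1.n3P1`); the part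
`0 < w`, `c(r+w) ≤ 2r`, `w < r` is the same (with `S_mono2`, `S_D1`, `S_comp`, `S_I1`): `0 ≤ Qf - w Qd`.
Let `w₁ = 2r/c - r ∈ (0, r]`, `w₁ ≥ 0.1547 r`. At `w₁`: `Qc = Qf` and
`Qcd = Qd - W r nL (c (r+w₁)) = Qd - W r * nL r (2r) = Qd - W r * exp (-r²)`, so
`Qc - w₁ Qcd ≥ w₁ W r exp (-r²)`. For `w ≥ w₁`: `(Qc - w Qcd)' = -w Qcdd ≥ -w * 0.75 r exp(-r²)` if `w ≤ 2r/5`,
and `≥ 0` if `w ≥ 2r/5`, so for all `w ∈ [w₁,r]`, if `w₁ ≤ 2r/5`,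
`Qc - w Qcd ≥ w₁ W r exp(-r²) - 0.75 r exp(-r²) ((2r/5)² - w₁²)/2 ≥ exp(-r²) r (0.1547 W r - 0.375 r² (0.16 - 0.0239))
≥ 0` as `W r ≥ W 1 ≥ 0.6`. -/
def S_n3P2 : Prop := S_mono2 → S_n3Q1 → S_D1 → S_cutQ → S_cutd → S_cutup →
  ∀ r c : ℝ, 0 < r → r ≤ 1 → 1 ≤ c → c ^ 2 ≤ 3 → P 0 (n3 r c)

/-- **TD4**. Proof. As `Pool.Agent.H969.TCtriple1.triple1 : S_triple1`. -/
def S_triple2 : Prop := (∀ r c : ℝ, 0 < r → r ≤ 1 → 1 ≤ c → c ^ 2 ≤ 3 → P 0 (n3 r c)) →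
  ∀ r x z τ : ℝ, 0 < r → r ≤ 1 → 0 < x → x ≤ z → z ^ 2 ≤ 3 * x ^ 2 → 0 < τ →
    P 0 (cv r z (cv r x (cv r x (kg τ))))

end Pool.Agent.H770.GS
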