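import Pool.Agent.H770.GS.TC

/-!
# Project TE: the triple `{c, 1, 1}` for `2 ≤ c² ≤ 3`, `1 ≤ r ≤ 3/2` : statements

Same objects as in `TC.lean` (`Qf`, `Qd`, `Qc`, `Qcd`, `Qcdd`, `NR`, `Mc`). Finished proofs of similar statements:
`Pool.Agent.H628.TCn3P1.n3P1 : S_n3P1`, `Pool.Agent.H264.TDn3P2.n3P2 : S_n3P2`,
`Pool.Agent.H357.TCD1.s_D1 : S_D1`, `Pool.Agent.H628.TCcutneg.cutneg : S_cutneg`,
`Pool.Agent.H25.TDcutup.cutup : S_cutup`, `Pool.Agent.H969.TCtriple1.triple1 : S_triple1`.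
-/

set_option autoImplicit false

open MeasureTheory Set intervalIntegral Filter Topology

namespace Pool.Agent.H770.GS

open Pool.Agent.Helper82.GC

/-- the kernel on `(0, r - v)`; it is `2 W v * W a * (z cosh z - sinh z)` with `z = v a` -/
noncomputable def NL (v a : ℝ) : ℝ := (v * a - 1) * W (a - v) + (v * a + 1) * W (a + v)

/-- **TE1** (exact formula). Proof. This is the computation in the docstring of `S_D` (`TA.lean`) and in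
`Pool.Agent.H187.GSD`, `Pool.Agent.H357.TCD1`, but keeping the left part: with `κ a = nL r (c a)/a`,
`κ' a = -Mc r c a/a²`, `(NL v)' a = a β a`,
`∫_0^{r-v} κ a · a β a = κ(r-v) NL v (r-v) + ∫_0^{r-v} NL v a · Mc/a²` (the boundary term at `0` vanishes: `NL v a = O(a³)`,
`κ = O(1/a)`; do it on `[δ, r-v]` and let `δ → 0`, or use the continuous function extending `NL v a/a²`). The other
computations are unchanged. Only this lower bound is needed. -/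
def S_Dex : Prop := ∀ r c v : ℝ, 0 < r → 0 < c → 0 < v → v < r → c * (r + v) ≤ 2 * r →
  (∫ a in (0:ℝ)..(r - v), NL v a * (Mc r c a / a ^ 2)) +
    ∫ a in (r - v)..(r + v), NR r v a * (Mc r c a / a ^ 2) ≤ Qf r c v - v * Qd r c v

/-- the bound for minus the derivative of `Mc/W` on `[r, 2r/c]` -/
noncomputable def LG (r c : ℝ) : ℝ :=
  2 * r / c * Real.exp (-(r ^ 2 * (c ^ 2 - 2) / (2 * (c ^ 2 - 1)))) *
    max 0 (c ^ 2 * (3 * r ^ 2 - 2) - 1 - 4 * r ^ 2)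

/-- **TE2** (shape of `G = Mc/W`). Proof. As in the docstring of `S_mono1` (`TC.lean`), with `x = c a`:
`G' a = (p x² (3c²/4 + x²(2-c²)/8) + e x B(x))/(c W a)`, `B x = c²(2-r²) + 1 + r x (5c²/2-1) + x² (3/2-7c²/4)`,
`p = fL r x ≥ 0`, `e = eL r x`. The first bracket is `≥ 0` (`x² ≤ 4r² ≤ 9`, `c² ≤ 3`); `B` is concave, `B 0 > 0`,
`B (c r) = 2c²+1 + r² (c²/2 + 5c³/2 - c - 7c⁴/4) > 0` (it is `≥ 0.26`), so `B ≥ 0` on `[0, cr]` : this gives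
`G' ≥ 0` on `[0,r]`. On `[cr, 2r]` : `B ≥ min 0 (B (2r))`, `B (2r) = -(c²(3r²-2) - 1 - 4r²)`, and
`e/W a = exp (-r² + r c a - (c²-1) a²/2) ≤ exp (-r² + r²c²/(2(c²-1))) = exp (-r²(c²-2)/(2(c²-1)))`, `x/c = a ≤ 2r/c`.
So `G' ≥ -LG r c` there, and `a ↦ G a + LG * max 0 (a - r)` is nondecreasing on `[0, 2r/c]`. `Mc ≥ 0` as in
`S_mono1`. -/
def S_shapeG : Prop := ∀ r c : ℝ, 1 ≤ r → r ≤ 3 / 2 → 1 ≤ c → 2 ≤ c ^ 2 → c ^ 2 ≤ 3 →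
  MonotoneOn (fun a => Mc r c a / W a + LG r c * max 0 (a - r)) (Icc 0 (2 * r / c)) ∧
    ∀ a ∈ Icc (0:ℝ) (2 * r / c), 0 ≤ Mc r c a

/-- **TE3** (numerical inequality). Proof idea. `Mc r c a = M₁ x`, `x = c a`,
`M₁ x = x³ p/4 + e (1 - r x + 3x²/2) ≥ e (x³ (2r-x)/4 + 1 - r x + 3x²/2)` (`p ≥ (2r-x) e`, `S_basic`, proved in
`Pool.Agent.H106.TB.basic`). The left side decreases and the right side increases with `w`, so take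
`w = 2r/c - r`. The ratio left/right (with the lower bound for `M₁`) is at least `1.67` : its minimum over
`c² ∈ [2,3]` is `12.2, 3.70, 2.54, 2.14, 1.98, 1.83, 1.67` for `r = 1.2, 1.25, 1.3, 1.35, 1.4, 1.45, 1.5` (for
`r² ≤ 1.4` the right side is `0`); the left side is about `0.24 .. 0.35`. -/
def S_gain : Prop := ∀ r c w : ℝ, 1 ≤ r → r ≤ 3 / 2 → 1 ≤ c → 2 ≤ c ^ 2 → c ^ 2 ≤ 3 → 0 < w →
  c * (r + w) ≤ 2 * r →
  (r + w) * W r ^ 2 * LG r c / (2 * r ^ 2) ≤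
    2 / 3 * W w * ∫ a in (0:ℝ)..(r - w), a * Mc r c a * W a

/-- **TE4** (below the cut). Proof. `G = Mc/W`, `L = LG r c`. By `S_shapeG` and `S_comp`
(`taHyp.comp taHyp.i1` in `TA3.lean`) applied to `G̃ a = G a + L max 0 (a - r)`,
`0 ≤ ∫_{r-w}^{r+w} NR G̃ W/a²`, so `∫_{r-w}^{r+w} NR Mc/a² ≥ -L ∫_r^{r+w} NR (a - r) W/a²`. On `[r, r+w]` :
`NR r w` is nondecreasing up to `w + 1/w ≥ r + w` (as `r w ≤ 1`: `w ≤ (√2-1) r`), so `NR ≤ NR (r+w) = w (r+w) W r`,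
and `W a/a² ≤ W r/r²`, `∫_r^{r+w}(a-r) = w²/2`. So the second integral in `S_Dex` is
`≥ -w³ (r+w) (W r)² L/(2r²)`. The first one is `≥ (2/3) w³ W w ∫_0^{r-w} a Mc W` since
`NL w a = 2 W w W a (z cosh z - sinh z) ≥ 2 W w W a z³/3`, `z = w a`. Conclude by `S_gain`. -/
def S_Dlow : Prop := S_Dex → S_shapeG → S_gain → ∀ r c w : ℝ, 1 ≤ r → r ≤ 3 / 2 → 1 ≤ c →
  2 ≤ c ^ 2 → c ^ 2 ≤ 3 → 0 < w → c * (r + w) ≤ 2 * r → 0 ≤ Qf r c w - w * Qd r c w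

/-- **TE5** (second derivative in the cut region). True values: the maximum over `w` of `Qcdd` (attained at
`w = 2r/c - r`) is, for `c = √3`, `-0.02, -0.07, -0.13, -0.19, -0.25, -0.30` at `r = 1, 1.1, .., 1.5`, and smaller for
smaller `c`. Suggested bound (as in the docstrings of `S_cutneg` (TC6) and `S_cutup` (TD2)): with `ω y = (1-y²) W y`,
`n̄ a = nL r (c a)`, `A = 2r/c`,
`Qcdd ≤ t₁ + t₃`, `t₁ = -∫_{r-w}^A ω(a-w) n̄ a da`, `t₃ = -W r (r n̄(r-w) + c nLd r (c (r-w)))`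
(as `ω(a+w) ≤ ω(a-w)` for `0 ≤ a ≤ r-w`, `a + w ≤ r ≤ √3`). Values of `t₁, t₃` at `w = 2r/c - r`, `c = √3`:
`(-0.040, 0.230), (-0.021, 0.206), (-0.004, 0.179), (0.010, 0.152), (0.021, 0.126), (0.028, 0.102)` for
`r = 1, 1.1, .., 1.5`, against the claimed `0.21, 0.196, 0.182, 0.168, 0.154, 0.14`; for `c = 1.7`:
`t₁ + t₃ = 0.085, 0.093, 0.098, 0.099, 0.097, 0.093`; for `c ≤ 1.6` it is `≤ -0.08`; `t₁ + t₃` decreases in `w` and is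
`≤ 0` for `w ≥ 0.25 r`, `≤ -0.11` for `w = 0.3 r`, about `-1` for `w ≥ 0.5 r`. (As in TD2, with `t = x/r`,
`x = c(r-w) ≤ 2(c-1) r`: `r nL + c nLd ≥ e r (1 + 2c - 2ct + r² t(2-t)(2-ct)/4)`, but this loses a little; near
`c = √3`, `r = 3/2` a better lower bound for `p` may be needed since the coefficient of `p` is positive.) -/
def S_cutup3 : Prop := ∀ r c w : ℝ, 1 ≤ r → r ≤ 3 / 2 → 1 ≤ c → 2 ≤ c ^ 2 → c ^ 2 ≤ 3 → w ≤ r →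
  2 * r ≤ c * (r + w) →
    Qcdd r c w ≤ 0.35 - 0.14 * r ∧ (0.26 * r ≤ w → Qcdd r c w ≤ 0)

/-- **TE6** (assembly: `Q/w` is nonincreasing). Proof. As `S_n3P2` (`Pool.Agent.H264.TDn3P2.n3P2`). For
`0 < w`, `c(r+w) ≤ 2r` : `0 ≤ Qf - w Qd` is `S_Dlow`. Let `w₁ = 2r/c - r`, `0.1547 r ≤ w₁ < r`. At `w₁`:
`Qc - w₁ Qcd = Qf - w₁ Qd + w₁ W r exp (-r²) ≥ w₁ W r exp (-r²)`. For `w ≥ w₁`: `(Qc - w Qcd)' = -w Qcdd`, so by
`S_cutup3`, for all `w ∈ [w₁,r]`,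
`Qc - w Qcd ≥ w₁ W r exp(-r²) - (0.35 - 0.14 r) max 0 ((0.26 r)² - w₁²)/2 ≥ 0`, since
`(0.0676 - 0.0239) r²/2 * (0.35 - 0.14 r) ≤ 0.1547 r exp(-3r²/2)` for `1 ≤ r ≤ 3/2` (at `r = 3/2`: `0.00688 ≤ 0.00794`).
Note the left side of the needed inequality is largest relative to the right one at `w₁ = 0.1547 r`. -/
def S_n3P3 : Prop := S_Dlow → S_Dex → S_shapeG → S_gain → S_n3Q1 → S_cutQ → S_cutd → S_cutup3 →
  ∀ r c : ℝ, 1 ≤ r → r ≤ 3 / 2 → 1 ≤ c → 2 ≤ c ^ 2 → c ^ 2 ≤ 3 → P 0 (n3 r c)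

/-- **TE7**. Proof. As `Pool.Agent.H969.TCtriple1.triple1 : S_triple1`. -/
def S_triple3 : Prop :=
  (∀ r c : ℝ, 1 ≤ r → r ≤ 3 / 2 → 1 ≤ c → 2 ≤ c ^ 2 → c ^ 2 ≤ 3 → P 0 (n3 r c)) →
  ∀ r x z τ : ℝ, 1 ≤ r → r ≤ 3 / 2 → 0 < x → x ≤ z → 2 * x ^ 2 ≤ z ^ 2 → z ^ 2 ≤ 3 * x ^ 2 → 0 < τ →
    P 0 (cv r z (cv r x (cv r x (kg τ))))

end Pool.Agent.H770.GS
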