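import Pool.Agent.H770.GS.TE

/-!
# Project TL: the triple `{c, 1, 1}`, `c ≤ 1`, for all `r² ≥ 3` : statements

Same objects as in `TA.lean` (`Mc`, `NR`, `W`, `fL`, `nL`, `nLd`), `TB.lean` (`eL`, `S_basic`) and `TE.lean`.
Notation of the proofs: `p = fL r x = e^(-x²/4) * I2 (r - x/2)`, `e = eL r x = e^(-r²+rx-x²/2)`, `q = r - x/2`, so
`p/e = e^(q²) * I2 q = ρ(q)`, where `I2 q = ∫_{-q}^{q} e^(-t²)` and
`ρ(q) = 2 Σ_j 2^j q^(2j+1)/(2j+1)!! = 2q (1 + 2q²/3 + 4q⁴/15 + 8q⁶/105 + 16 q⁸/945 + …)`; all terms are `≥ 0`, so every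
partial sum is a lower bound (for `q ≥ 0`); also `ρ(q) ≥ e^(q²) * I2 q` with `I2` increasing.
`M₁ x = Mc r 1 x = nL r x - x * nLd r x = x³ p/4 + e (1 - r x + 3x²/2)` and `Mc r c a = M₁ (c a)`.
Finished proofs of similar statements: `Pool.Agent.H37.GSmono.main : S_mono`, `Pool.Agent.H106.TB.basic : S_basic`,
`Pool.Agent.H967.TEshapeG.shapeG : S_shapeG`, `Pool.Agent.H628.TCcutneg.cutneg`.
-/

set_option autoImplicit false

open MeasureTheory Set intervalIntegral Filter Topology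

namespace Pool.Agent.H770.GS

open Pool.Agent.Helper82.GC

/-- **TL1** (lower bound of `M₁`). Proof. Claim: `x³ p/8 + e (1 - r x + 3x²/2) ≥ 0` on `[0, 2r]`, `r² ≥ 3`. If
`1 - r x + 3x²/2 ≥ 0` clear (`p ≥ 0`); this is so for `r² ≤ 6` (discriminant) and for `x ≤ 1/r`. Otherwise `r² > 6`,
`x ≥ 1/r`, `x < 2r/3` (as `r x > 3x²/2`), `q ≥ 2r/3`, and one needs `x³ ρ(q)/8 ≥ r x - 1 - 3x²/2`. Numerically the quotient
`(x³p/8 + e(1-rx+3x²/2))/(e + x³p)` is at least `0.12` on the whole range (attained near `r² = 6.4`, `x = 0.73`).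
With `t = r x ≥ 1` the claim follows e.g. from `t³ ρ(q) ≥ 8 r³ (t - 1)` and `(t - 1)/t³ ≤ 4/27`, i.e. from
`ρ(q) ≥ (32/27) r³` : for `t ≤ 4`, `q ≥ r - 2/r`, and for `t ≥ 4` one has the better `(t-1)/t³ ≤ 3/64`,
`q ≥ 2r/3` (use the partial sums of `ρ`, or `e^(q²) ≥ …` and `I2 q ≥ I2 1 ≥ 1.49`). -/
def S_TL1 : Prop := ∀ r x : ℝ, 0 < r → 3 ≤ r ^ 2 → 0 ≤ x → x ≤ 2 * r →
  x ^ 3 * fL r x / 8 ≤ Mc r 1 x ∧ 0 ≤ fL r x

/-- **TL2** (monotonicity of `G = Mc/W`). Proof. As in `S_mono`, `S_shapeG`: with `x = c a`,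
`(Mc r c a / W a)' = F/(c W a)`, `F = p x² (6c² + x²(2-c²))/8 + e x B x`,
`B x = c²(2-r²) + 1 + r x (5c²/2-1) + x² (3/2-7c²/4)`, so the claim is `x (6c² + x²(2-c²)) ρ(q)/8 + B x ≥ 0` for
`0 ≤ x ≤ 2cr` if `c²(r²-2) ≤ 1`, and for `c/20 ≤ x ≤ 2cr` in general; `q = r - x/2 ≥ (1-c) r`.
Numerically, `F / (p x²(6c²+x²(2-c²))/8 + e x |B|) ≥ 0.58` in both cases (attained near `r² = 4`, `c = 1`, `x = 1/20`), so
rather crude bounds are enough. Remarks: for `x ≥ 0.77 c r` and `c` near `1` one has `B ≥ 0`; for `r x ≤ 1` use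
`ρ(q) ≥ e^(q²) I2 q` with `q ≥ r - 1/(2r)`; at `x = 1/20`, `c = 1` the claim is
`(6+x²)/8 * x * ρ(r - x/2) ≥ r² - 3 - …`, where `ρ(1.975) ≥ 80`; `ρ(q)` grows like `e^(q²) √π`, so for large `r` the first
term dominates unless `c` is near `1` and `x` near `2r`, where `B ≥ 0`. -/
def S_TL2 : Prop := ∀ r c : ℝ, 0 < r → 3 ≤ r ^ 2 → 0 < c → c ≤ 1 →
  MonotoneOn (fun a => Mc r c a / W a) (Icc (1 / 20) (2 * r)) ∧
    (c ^ 2 * (r ^ 2 - 2) ≤ 1 → MonotoneOn (fun a => Mc r c a / W a) (Icc 0 (2 * r)))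

/-- **TL3** (`v` close to `r`). Proof. `NR r v a = W r - (1 - v a) W (v - a)`. For `0 ≤ a`:
`(1 - v a) W (v - a) = W v (1 - v a) e^(v a) e^(-a²/2) ≤ W v`, so `NR ≥ -(W v - W r) ≥ - W v (r² - v²)/2`, and for
`a ≥ 1/v`: `NR ≥ (v a - 1) W (v - a) ≥ 0`. Let `δ = r - v ∈ (0, 1/20]`.
Negative part: on `[δ, 1/v]`, `x = c a ≤ 1/v`, `Mc/a² ≤ c³ a p/4 + e^(-r²) (1 + 3x²/2 * e^(r x))/a²` (as
`e (1 - r x) ≤ e^(-r²)`), so the integral over `[δ, 1/v]` is at least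
`- W v r δ (e^(-r²) (1/δ + 2.6) + 0.08 c³) ≥ - W v r (1.13 e^(-r²) + 0.004 c³)` (about `-0.025` at `r² = 3`).
Positive part: by `S_TL1`, `Mc r c a ≥ (c a)³ p/8` (and `≥ c³ a³ p/4` where `1 - r x + 3x²/2 ≥ 0`), so the integral over
`[v - 1/2, v + 1/2]` is at least `((v - 1/2) v - 1) * e^(-1/8) * min (c³ a p (c a)/8)`, about `0.1` or more:
`p (c a) ≥ e^(-c²a²/4) I2 (r - c a/2)`, and `c² > 1/(r²-2)`. (For `c = 1`, `r² = 3` use also the term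
`e (1 - r x + 3x²/2)` or a longer interval.) Numerically the positive part is at least `107` times the negative part for
all `r² ≥ 3`, `c² (r²-2) > 1`, `δ ≤ 1/20`. -/
def S_TL3 : Prop := S_TL1 → ∀ r c v : ℝ, 0 < r → 3 ≤ r ^ 2 → 0 < c → c ≤ 1 →
  1 < c ^ 2 * (r ^ 2 - 2) → r - 1 / 20 ≤ v → v < r →
  0 ≤ ∫ a in (r - v)..(r + v), NR r v a * (Mc r c a / a ^ 2)

end Pool.Agent.H770.GS
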