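import Pool.Agent.H770.GS.TL
import Pool.Agent.H770.GS.TA4
import Pool.Agent.H161.TEDex
import Pool.Agent.H117.TL1
import Pool.Agent.H387.TL2
import Pool.Agent.H404.TL3

/-!
# The triple theorem for every `r`, and the reduction to two values for every `r`
-/

set_option autoImplicit false

open MeasureTheory Set intervalIntegral Filter Topology

namespace Pool.Agent.H770.GS

open Pool.Agent.Helper82.GC

/-- the triple theorem for `r` -/
def TripleAll (r : ℝ) : Prop := ∀ z x τ : ℝ, 0 ≤ z → z ≤ x → 0 < τ →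
  P 0 (cv r z (cv r x (cv r x (kg τ))))

theorem Mc_eq_one (r c a : ℝ) : Mc r c a = Mc r 1 (c * a) := by
  unfold Mc
  simp only [one_mul]

theorem NL_nonneg {v a : ℝ} (hv : 0 ≤ v) (ha : 0 ≤ a) : 0 ≤ NL v a := by
  have e1 : W (a - v) = W a * W v * Real.exp (v * a) := by
    unfold W
    rw [← Real.exp_add, ← Real.exp_add]
    congr 1
    ring
  have e2 : W (a + v) = W a * W v * Real.exp (-(v * a)) := by
    unfold W
    rw [← Real.exp_add, ← Real.exp_add]
    congr 1
    ring
  have hz : 0 ≤ v * a := mul_nonneg hv ha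
  unfold NL
  rw [e1, e2]
  have hkey : 0 ≤ (v * a - 1) * Real.exp (v * a) + (v * a + 1) * Real.exp (-(v * a)) := by
    generalize v * a = z at hz
    have hmono : MonotoneOn (fun z : ℝ => (z - 1) * Real.exp z + (z + 1) * Real.exp (-z)) (Ici 0) := by
      have hd : ∀ z : ℝ, HasDerivAt (fun z : ℝ => (z - 1) * Real.exp z + (z + 1) * Real.exp (-z))
          (z * (Real.exp z - Real.exp (-z))) z := by
        intro z
        have h1 : HasDerivAt (fun z : ℝ => (z - 1) * Real.exp z)
            (1 * Real.exp z + (z - 1) * Real.exp z) z :=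
          ((hasDerivAt_id z).sub_const 1).mul (Real.hasDerivAt_exp z)
        have h2 : HasDerivAt (fun z : ℝ => (z + 1) * Real.exp (-z))
            (1 * Real.exp (-z) + (z + 1) * (Real.exp (-z) * -1)) z :=
          ((hasDerivAt_id z).add_const 1).mul ((hasDerivAt_neg z).exp)
        have h3 := h1.add h2
        have e3 : 1 * Real.exp z + (z - 1) * Real.exp z +
            (1 * Real.exp (-z) + (z + 1) * (Real.exp (-z) * -1)) =
            z * (Real.exp z - Real.exp (-z)) := by ring
        rw [e3] at h3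
        exact h3
      refine monotoneOn_of_deriv_nonneg (convex_Ici 0) ?_ ?_ ?_
      · exact fun z _ => (hd z).continuousAt.continuousWithinAt
      · exact fun z _ => (hd z).differentiableAt.differentiableWithinAt
      · intro z hz
        rw [interior_Ici] at hz
        rw [(hd z).deriv]
        have h0 : (0:ℝ) < z := hz
        have : Real.exp (-z) ≤ Real.exp z := Real.exp_le_exp.2 (by linarith)
        nlinarith
    have h := hmono (Set.mem_Ici.2 le_rfl) (Set.mem_Ici.2 hz) hz
    simpa using h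
  have hW : 0 ≤ W a * W v := (mul_pos (W_pos a) (W_pos v)).le
  nlinarith [mul_nonneg hW hkey]

section big

variable {r c : ℝ}

theorem Mc_nonneg_big (h1 : S_TL1) (hr : 0 < r) (hr3 : 3 ≤ r ^ 2) (hc : 0 < c) (hc1 : c ≤ 1)
    {a : ℝ} (ha : 0 ≤ a) (ha2 : a ≤ 2 * r) : 0 ≤ Mc r c a := by
  have hx0 : 0 ≤ c * a := mul_nonneg hc.le ha
  have hx1 : c * a ≤ 2 * r := by nlinarith
  have h := h1 r (c * a) hr hr3 hx0 hx1
  rw [Mc_eq_one]
  refine le_trans ?_ h.1
  have := h.2
  positivity

theorem Qf_sub_nonneg_big (h1 : S_TL1) (h2 : S_TL2)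
    (h3 : ∀ r c v : ℝ, 0 < r → 3 ≤ r ^ 2 → 0 < c → c ≤ 1 →
      1 < c ^ 2 * (r ^ 2 - 2) → r - 1 / 20 ≤ v → v < r →
      0 ≤ ∫ a in (r - v)..(r + v), NR r v a * (Mc r c a / a ^ 2))
    (hr : 0 < r) (hr3 : 3 ≤ r ^ 2) (hc : 0 < c) (hc1 : c ≤ 1) {v : ℝ} (hv : 0 < v) (hvr : v < r) :
    0 ≤ Qf r c v - v * Qd r c v := by
  have hcv : c * (r + v) ≤ 2 * r := by nlinarith
  have hex := Pool.Agent.H161.TEDex.s_Dex r c v hr hc hv hvr hcv
  refine le_trans ?_ hex
  refine add_nonneg ?_ ?_
  · refine intervalIntegral.integral_nonneg (by linarith) fun a ha => ?_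
    have hM := Mc_nonneg_big h1 hr hr3 hc hc1 ha.1 (by linarith [ha.2])
    have hN := NL_nonneg hv.le ha.1
    positivity
  · have hcomp : MonotoneOn (fun a => Mc r c a / W a) (Icc (r - v) (r + v)) →
        0 ≤ ∫ a in (r - v)..(r + v), NR r v a * (Mc r c a / a ^ 2) := by
      intro hmono
      have h := taHyp.comp taHyp.i1 r v (fun a => Mc r c a / W a) hv hvr hmono
        (fun a ha => div_nonneg (Mc_nonneg_big h1 hr hr3 hc hc1 (by linarith [ha.1])
          (by linarith [ha.2])) (W_pos a).le)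
        ((Mc_cont r c).continuousOn.div W_cont.continuousOn fun a _ => (W_pos a).ne')
      refine le_trans h (le_of_eq ?_)
      congr 1
      ext a
      rw [div_mul_cancel₀ _ (W_pos a).ne']
    have hm := h2 r c hr hr3 hc hc1
    by_cases hcase : c ^ 2 * (r ^ 2 - 2) ≤ 1
    · exact hcomp ((hm.2 hcase).mono fun a ha => ⟨by linarith [ha.1], by linarith [ha.2]⟩)
    · push Not at hcase
      by_cases hv2 : r - 1 / 20 ≤ v
      · exact h3 r c v hr hr3 hc hc1 hcase hv2 hvr
      · push Not at hv2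
        exact hcomp (hm.1.mono fun a ha => ⟨by linarith [ha.1], by linarith [ha.2]⟩)

end big

/-- the hypothesis of the abstract form -/
def QSub (r : ℝ) : Prop := ∀ c v : ℝ, 0 < c → c ≤ 1 → 0 < v → v < r → 0 ≤ Qf r c v - v * Qd r c v

theorem Qf_div_anti_gen {r c : ℝ} (hq : QSub r) (hc : 0 < c)
    (hc1 : c ≤ 1) {v v' : ℝ} (hv : 0 < v) (hvv : v ≤ v') (hv' : v' ≤ r) :
    v * Qf r c v' ≤ v' * Qf r c v := by
  have hanti : AntitoneOn (fun v => Qf r c v / v) (Icc v v') := by
    have hd : ∀ x ∈ Icc v v', HasDerivAt (fun v => Qf r c v / v)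
        ((Qd r c x * x - Qf r c x * 1) / x ^ 2) x := by
      intro x hx
      exact (taHyp.qd r c x).div (hasDerivAt_id x) (by have := hx.1; simp; linarith)
    refine antitoneOn_of_deriv_nonpos (convex_Icc _ _) ?_ ?_ ?_
    · exact fun x hx => (hd x hx).continuousAt.continuousWithinAt
    · intro x hx
      rw [interior_Icc] at hx
      exact (hd x ⟨hx.1.le, hx.2.le⟩).differentiableAt.differentiableWithinAt
    · intro x hx
      rw [interior_Icc] at hx
      rw [(hd x ⟨hx.1.le, hx.2.le⟩).deriv]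
      have h := hq c x hc hc1 (hv.trans hx.1) (hx.2.trans_le hv')
      apply div_nonpos_of_nonpos_of_nonneg
      · nlinarith
      · positivity
  have h := hanti (left_mem_Icc.2 hvv) (right_mem_Icc.2 hvv) hvv
  simp only at h
  rw [div_le_div_iff₀ (hv.trans_le hvv) hv] at h
  linarith

theorem n3_P_gen {r c : ℝ} (hq : QSub r) (hr : 0 < r) (hc : 0 < c)
    (hc1 : c ≤ 1) : P 0 (n3 r c) := by
  have hreg := taHyp.reg r c hr hc
  have hcr : 0 < c * r := mul_pos hc hr
  have near : ∀ v v', 0 < v → v ≤ v' → v' ≤ c * r → v * n3 r c v' ≤ v' * n3 r c v := by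
    intro v v' hv hvv hv'
    have e : ∀ x : ℝ, c * (x / c) = x := fun x => by field_simp
    have h1 : v' / c ≤ r := by rw [div_le_iff₀ hc]; linarith
    have h2 : v / c ≤ v' / c := div_le_div_of_nonneg_right hvv hc.le
    have h := Qf_div_anti_gen hq hc hc1 (div_pos hv hc) h2 h1
    rw [← taHyp.n3Q r c (v' / c) hr hc hc1 ((div_pos hv hc).le.trans h2) h1,
      ← taHyp.n3Q r c (v / c) hr hc hc1 (div_pos hv hc).le (h2.trans h1), e, e] at h
    have h3 := mul_le_mul_of_nonneg_left h hc.le
    rw [← mul_assoc, ← mul_assoc, e, e] at h3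
    exact h3
  refine ⟨hreg.1, hreg.2.1, ?_⟩
  intro v v' hv hvv _
  have hfar := taHyp.far taHyp.repr taHyp.reg r c hr hc
  rcases le_total v' (c * r) with h1 | h1
  · exact near v v' hv hvv h1
  rcases le_total (c * r) v with h2 | h2
  · exact hfar v v' hv hvv (by linarith)
  have h3 := near v (c * r) hv h2 le_rfl
  have h4 := hfar (c * r) v' hcr h1 (by linarith)
  have h5 : c * r * (v * n3 r c v') ≤ c * r * (v' * n3 r c v) := by
    calc c * r * (v * n3 r c v') = v * (c * r * n3 r c v') := by ring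
      _ ≤ v * (v' * n3 r c (c * r)) := mul_le_mul_of_nonneg_left h4 hv.le
      _ = v' * (v * n3 r c (c * r)) := by ring
      _ ≤ v' * (c * r * n3 r c v) := mul_le_mul_of_nonneg_left h3 (hv.trans_le hvv).le
      _ = c * r * (v' * n3 r c v) := by ring
  exact le_of_mul_le_mul_left h5 hcr

theorem triple_gen {r : ℝ} (hq : QSub r) (hr : 0 < r) : TripleAll r := by
  intro z x τ hz hzx hτ
  have hone : ∀ c τ : ℝ, 0 < c → c ≤ 1 → 0 < τ → P 0 (cv r c (cv r 1 (cv r 1 (kg τ)))) := by
    intro c τ hc hc1 hτ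
    obtain ⟨C, hC⟩ := (taHyp.reg r c hr hc).2.2
    have h := taHyp.gauss (n3 r c) C (n3_P_gen hq hr hc hc1) hC τ hτ
    have e : cv r c (cv r 1 (cv r 1 (kg τ))) = fun v => ∫ u, gs τ u * n3 r c (v + u) := by
      ext v
      exact taHyp.repr r c τ hr hc hτ v
    rw [e]
    exact h
  rcases eq_or_lt_of_le hz with h0 | h0
  · rw [← h0]
    exact P.cv (P.pair (kg_P τ) hr (hz.trans hzx)) hr le_rfl (by simp)
  have hx : 0 < x := h0.trans_le hzx
  apply P_scale hx
  have e1 : (fun v => cv r z (cv r x (cv r x (kg τ))) (x * v)) =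
      fun v => (x ^ 2)⁻¹ * cv r (z / x) (cv r 1 (cv r 1 (kg (τ / x)))) v := by
    have ez : z = x * (z / x) := by field_simp
    have a1 : (fun v => cv r x (kg τ) (x * v)) = fun v => (x ^ 2)⁻¹ * cv r 1 (kg (τ / x)) v := by
      ext v
      conv_lhs => rw [show cv r x (kg τ) = cv r (x * 1) (kg τ) by rw [mul_one]]
      rw [cv_scale]
      simp only [kg_scale hτ hx]
      rw [cv_smul]
    have a2 : (fun v => cv r x (cv r x (kg τ)) (x * v)) =
        fun v => (x ^ 2)⁻¹ * cv r 1 (cv r 1 (kg (τ / x))) v := by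
      ext v
      conv_lhs => rw [show cv r x (cv r x (kg τ)) = cv r (x * 1) (cv r x (kg τ)) by rw [mul_one]]
      rw [cv_scale, a1, cv_smul]
    ext v
    conv_lhs => rw [ez]
    rw [cv_scale, a2, cv_smul]
  rw [e1]
  apply P_smul (by positivity)
  exact hone (z / x) (τ / x) (by positivity) (by rw [div_le_one hx]; exact hzx) (by positivity)

/-- the triple theorem for every `r`, from the three statements of `TL.lean` -/
theorem triple_all_of (h1 : S_TL1) (h2 : S_TL2) (h3 : S_TL3) {r : ℝ} (hr : 0 < r) :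
    TripleAll r := by
  rcases le_total (r ^ 2) 3 with h | h
  · intro z x τ hz hzx hτ
    exact triple taHyp hr h hz hzx hτ
  · exact triple_gen (fun c v hc hc1 hv hvr =>
      Qf_sub_nonneg_big h1 h2 (h3 h1) hr h hc hc1 hv hvr) hr

/-- a list `a, a, β, β, C, C, T` with an element `y < β` can be improved -/
theorem improve' {r : ℝ} (htrip : TripleAll r) {a β y : ℝ} (hr : 0 < r) (hy : 0 ≤ y)
    (hyβ : y < β) (hβa : β ≤ a) {L C T : List ℝ} (hC : ∀ c ∈ C, 0 ≤ c)
    (hT : ∀ c ∈ T, 0 ≤ c ∧ c ≤ y)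
    (hL : L.Perm (β :: y :: (T ++ dup C ++ [β, a, a]))) :
    ∀ τ : ℝ, 0 < τ → dens r L (gs τ) 0 ≤
      dens r (a :: a :: (qm β y :: qm β y :: (T ++ dup C ++ [β]))) (gs τ) 0 := by
  intro τ hτ
  have hP : P (y * r) (dens r (T ++ dup C ++ [β, a, a]) (kg τ)) := by
    rw [dens_append, dens_append]
    refine dens_P hr ?_ T fun c hc => ⟨(hT c hc).1, mul_le_mul_of_nonneg_right (hT c hc).2 hr.le⟩
    refine P.mono ?_ (mul_nonneg hy hr.le)
    refine dens_dup_P hr ?_ C hC
    simp only [dens_cons, dens_nil]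
    exact htrip _ _ _ (hy.trans hyβ.le) hβa hτ
  rw [dens_perm (gs_cont τ) hL]
  refine (dens_exchange hr hy hyβ.le hP).trans (le_of_eq ?_)
  rw [dens_perm (gs_cont τ)]
  have e : (T ++ dup C ++ [β, a, a]).Perm (a :: a :: (T ++ dup C ++ [β])) := by
    have e1 : T ++ dup C ++ [β, a, a] = (T ++ dup C ++ [β]) ++ [a, a] := by simp
    rw [e1]
    exact List.perm_append_comm
  refine ((e.cons _).cons _).trans ?_
  have e2 : (qm β y :: qm β y :: a :: a :: (T ++ dup C ++ [β])) =
      [qm β y, qm β y] ++ ([a, a] ++ (T ++ dup C ++ [β])) := rfl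
  have e3 : (a :: a :: qm β y :: qm β y :: (T ++ dup C ++ [β])) =
      [a, a] ++ ([qm β y, qm β y] ++ (T ++ dup C ++ [β])) := rfl
  rw [e2, e3, ← List.append_assoc, ← List.append_assoc [a, a]]
  exact List.Perm.append_right _ List.perm_append_comm


theorem exists_ab_min_gen (hcont : S_cont) (k : ℕ) {r : ℝ} (hr : 0 < r) (htrip : TripleAll r) :
    ∃ a b : ℝ, 0 ≤ b ∧ b ≤ a ∧ 2 * a ^ 2 + k * b ^ 2 = 1 ∧
      (∀ θ : EuclideanSpace ℝ (Fin (k + 2)), ‖θ‖ = 1 → Asl r θ 0 ≤ Asl r (dirAB k a b) 0) ∧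
      ∀ θ' ∈ KK k, Asl r (dirAB k a b) 0 ≤ Asl r θ' 0 → QV (dirAB k a b) ≤ QV θ' := by
  obtain ⟨θ1, hθ1, hmax⟩ := (KK_compact k).exists_isMaxOn
    ⟨_, (dominated hr (EuclideanSpace.single 0 1) (by simp)).1⟩ (hcont k r hr)
  have hScl : IsClosed (KK k ∩ (fun θ => Asl r θ 0) ⁻¹' {Asl r θ1 0}) :=
    (hcont k r hr).preimage_isClosed_of_isClosed (KK_compact k).isClosed isClosed_singleton
  have hSco : IsCompact (KK k ∩ (fun θ => Asl r θ 0) ⁻¹' {Asl r θ1 0}) :=
    (KK_compact k).of_isClosed_subset hScl inter_subset_left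
  have hQc : Continuous (fun θ : EuclideanSpace ℝ (Fin (k + 2)) => QV θ) := by
    unfold QV
    fun_prop
  obtain ⟨θ, ⟨hθK, hθM⟩, hmin⟩ := hSco.exists_isMinOn ⟨θ1, hθ1, rfl⟩ hQc.continuousOn
  have hθ := hθK.1
  simp only [mem_preimage, mem_singleton_iff] at hθM
  -- every competitor in `KK` which is at least as good has larger `Q`
  have key : ∀ θ' ∈ KK k, Asl r θ 0 ≤ Asl r θ' 0 → QV θ ≤ QV θ' := by
    intro θ' h1 h2
    refine hmin ⟨h1, ?_⟩
    have h3 := hmax h1
    simp only [mem_ofPred_eq] at h3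
    simp only [mem_preimage, mem_singleton_iff]
    rw [hθM] at h2
    exact le_antisymm h3 h2
  have hall : ∀ θ' : EuclideanSpace ℝ (Fin (k + 2)), ‖θ'‖ = 1 → Asl r θ' 0 ≤ Asl r θ 0 := by
    intro θ' h1
    have h2 := dominated hr θ' h1
    have h3 := hmax h2.1
    simp only [mem_ofPred_eq] at h3
    rw [hθM]
    exact h2.2.trans h3
  have hlen := srt_length θ
  have hsq := srt_sq θ hθ
  have hso := srt_sorted θ
  have hnn := srt_nonneg θ
  have hf := pairUp_facts (k + 2) (srt θ) hlen hnn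
  have hfix : pairUp (srt θ) = srt θ := by
    by_contra hne
    have h1 := hf.2.2.2.2.2 hne
    have h2 := dominated hr θ hθ
    have h3 := key _ h2.1 h2.2
    rw [QV_srt θ, QV_vec (by rw [hf.1, hlen])] at h3
    linarith
  obtain ⟨C0, T, hCT, hT1⟩ := pairUp_fixed (k + 2) (srt θ) hlen hnn hfix
  -- final step: from the shape of the list
  have final : ∀ a b : ℝ, srt θ = a :: a :: List.replicate k b → b ≤ a ∨ k = 0 →
      ∃ a b : ℝ, 0 ≤ b ∧ b ≤ a ∧ 2 * a ^ 2 + k * b ^ 2 = 1 ∧
      (∀ θ : EuclideanSpace ℝ (Fin (k + 2)), ‖θ‖ = 1 → Asl r θ 0 ≤ Asl r (dirAB k a b) 0) ∧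
      ∀ θ' ∈ KK k, Asl r (dirAB k a b) 0 ≤ Asl r θ' 0 → QV (dirAB k a b) ≤ QV θ' := by
    intro a b h hb
    have ha0 : 0 ≤ a := hnn a (by rw [h]; simp)
    have hA : Asl r θ 0 ≤ Asl r (dirAB k a b) 0 := by
      refine Asl_le_vec hr hθ (by simp) (by rw [← h]; exact hsq) fun τ _ => ?_
      rw [h]
    have hs2 : 2 * a ^ 2 + k * b ^ 2 = 1 := by
      rw [h] at hsq
      simp only [List.map_cons, List.sum_cons, List.map_replicate, List.sum_replicate,
        nsmul_eq_mul] at hsq
      linarith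
    have hQ : QV (dirAB k a b) = QV θ := by
      rw [QV_srt θ, h]
      exact QV_vec (by simp)
    rcases Nat.eq_zero_or_pos k with hk | hk
    · have hdir : dirAB k a 0 = dirAB k a b := by
        subst hk
        simp [dirAB]
      refine ⟨a, 0, le_rfl, ha0, ?_, fun θ' h1 => ?_, fun θ' h1 h2 => ?_⟩
      · subst hk
        simpa using hs2
      · rw [hdir]
        exact (hall θ' h1).trans hA
      · rw [hdir] at h2 ⊢
        rw [hQ]
        exact key θ' h1 (hA.trans h2)
    · have hb0 : 0 ≤ b := hnn b (by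
        rw [h]
        simp [List.mem_replicate]
        omega)
      exact ⟨a, b, hb0, hb.resolve_right (by omega), hs2, fun θ' h1 => (hall θ' h1).trans hA,
        fun θ' h1 h2 => by rw [hQ]; exact key θ' h1 (hA.trans h2)⟩
  match C0, hCT with
  | [], hCT =>
    exfalso
    rw [hCT] at hlen
    simp [dup] at hlen
    omega
  | [a], hCT =>
    have h1 : srt θ = a :: a :: T := by rw [hCT]; rfl
    have hTk : T.length = k := by
      rw [h1] at hlen
      simpa using hlen
    match T, hT1 with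
    | [], _ =>
      subst hTk
      exact final a 0 (by rw [h1]; rfl) (Or.inr rfl)
    | [z], _ =>
      have : k = 1 := by simpa using hTk.symm
      subst this
      refine final a z (by rw [h1]; rfl) (Or.inl ?_)
      rw [h1] at hso
      exact List.rel_of_pairwise_cons hso (by simp)
    | z :: w :: T, hT1 => simp at hT1
  | a :: β :: C, hCT =>
    have h1 : srt θ = a :: a :: β :: β :: (dup C ++ T) := by rw [hCT]; rfl
    have hβa : β ≤ a := by
      rw [h1] at hso
      exact List.rel_of_pairwise_cons hso (by simp)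
    have ha0 : 0 ≤ a := hnn a (by rw [h1]; simp)
    have hβ0 : 0 ≤ β := hnn β (by rw [h1]; simp)
    have hle : ∀ c ∈ dup C ++ T, c ≤ β := by
      intro c hc
      rw [h1] at hso
      have h2 := (List.pairwise_cons.1 hso).2
      have h3 := (List.pairwise_cons.1 h2).2
      exact List.rel_of_pairwise_cons h3 (by simp only [List.mem_cons]; exact Or.inr hc)
    have h0 : ∀ c ∈ dup C ++ T, 0 ≤ c := fun c hc => hnn c (by
      rw [h1]
      simp only [List.mem_cons]
      exact Or.inr (Or.inr (Or.inr (Or.inr hc))))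
    -- improvement is impossible
    have imp : ∀ (y : ℝ) (C' T' : List ℝ), y < β → 0 ≤ y → (∀ c ∈ C', 0 ≤ c ∧ c ≤ β) →
        (∀ c ∈ T', 0 ≤ c ∧ c ≤ y) → (srt θ).Perm (β :: y :: (T' ++ dup C' ++ [β, a, a])) →
        False := by
      intro y C' T' hy hy0 hC' hT' hp
      have h2 := improve' htrip hr hy0 hy hβa (fun c hc => (hC' c hc).1) hT' hp
      have hlen' : (qm β y :: qm β y :: (T' ++ dup C' ++ [β])).length = k := by
        have h3 := hp.length_eq
        rw [hlen] at h3
        simp only [List.length_cons, List.length_append, List.length_nil] at h3 ⊢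
        omega
      have hs' : ((a :: a :: qm β y :: qm β y :: (T' ++ dup C' ++ [β])).map
          fun x => x ^ 2).sum = 1 := by
        rw [← hsq, (hp.map fun x => x ^ 2).sum_eq]
        simp only [List.map_cons, List.sum_cons, List.map_append, List.sum_append, qm_sq,
          List.map_nil, List.sum_nil]
        ring
      have hKK := mem_KK hlen' hs' ha0 (by
        intro c hc
        have hq0 := qm_nonneg β y
        have hqa : qm β y ≤ a := qm_le ha0 hβ0 hβa hy0 (hy.le.trans hβa)
        simp only [List.mem_cons, List.mem_append, List.not_mem_nil, or_false] at hc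
        rcases hc with h | h | (h | h) | h
        · rw [h, abs_of_nonneg hq0]; exact hqa
        · rw [h, abs_of_nonneg hq0]; exact hqa
        · rw [abs_of_nonneg (hT' c h).1]
          exact (hT' c h).2.trans (hy.le.trans hβa)
        · have h4 := hC' c (mem_dup.1 h)
          rw [abs_of_nonneg h4.1]
          exact h4.2.trans hβa
        · rw [h, abs_of_nonneg hβ0]; exact hβa)
      have hA := Asl_le_vec hr hθ (n := k + 2) (by simp [← hlen']) hs' h2
      have hQ := key _ hKK hA
      rw [QV_srt, QV_vec (by simp [← hlen']), Q4_perm hp] at hQ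
      have hq4 := qm_four β y
      have hpos := sq_ne hβ0 hy0 hy.ne'
      simp only [Q4, List.map_cons, List.sum_cons, List.map_append, List.sum_append,
        List.map_nil, List.sum_nil] at hQ
      linarith
    have hCβ : ∀ c ∈ C, c = β := by
      intro y hyC
      by_contra hne
      have hy1 : y ≤ β := hle y (List.mem_append_left _ (mem_dup.2 hyC))
      have hy0 : 0 ≤ y := h0 y (List.mem_append_left _ (mem_dup.2 hyC))
      have hylt : y < β := lt_of_le_of_ne hy1 hne
      obtain ⟨C', hC'⟩ : ∃ C' : List ℝ, C.Perm (y :: C') := ⟨C.erase y, List.perm_cons_erase hyC⟩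
      have hTy : ∀ c ∈ T, c ≤ y := by
        intro c hc
        rw [h1] at hso
        have h2 := (List.pairwise_cons.1 (List.pairwise_cons.1 (List.pairwise_cons.1
          (List.pairwise_cons.1 hso).2).2).2).2
        exact (List.pairwise_append.1 h2).2.2 y (mem_dup.2 hyC) c hc
      refine imp y C' (T ++ [y]) hylt hy0 ?_ ?_ ?_
      · intro c hc
        have hcC : c ∈ C := hC'.mem_iff.2 (List.mem_cons_of_mem _ hc)
        exact ⟨h0 c (List.mem_append_left _ (mem_dup.2 hcC)),
          hle c (List.mem_append_left _ (mem_dup.2 hcC))⟩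
      · intro c hc
        rcases List.mem_append.1 hc with h | h
        · exact ⟨h0 c (List.mem_append_right _ h), hTy c h⟩
        · rw [List.mem_singleton.1 h]
          exact ⟨hy0, le_rfl⟩
      · rw [h1]
        have p1 := dup_perm hC'
        simp only [dup] at p1
        refine ((((p1.append_right T).cons β).cons β).cons a).cons a |>.trans ?_
        rw [← Multiset.coe_eq_coe]
        simp only [← Multiset.cons_coe, ← Multiset.coe_add, List.cons_append, Multiset.coe_nil]
        simp only [← Multiset.singleton_add, add_zero]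
        abel
    have hTβ : ∀ c ∈ T, c = β := by
      intro z hzT
      by_contra hne
      have hz1 : z ≤ β := hle z (List.mem_append_right _ hzT)
      have hz0 : 0 ≤ z := h0 z (List.mem_append_right _ hzT)
      have hTz : T = [z] := by
        match T, hT1, hzT with
        | [w], _, hzT => rw [List.mem_singleton.1 hzT]
        | u :: w :: T, hT1, _ => simp at hT1
      refine imp z C [] (lt_of_le_of_ne hz1 hne) hz0 ?_ (by simp) ?_
      · intro c hc
        exact ⟨h0 c (List.mem_append_left _ (mem_dup.2 hc)),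
          hle c (List.mem_append_left _ (mem_dup.2 hc))⟩
      · rw [h1, hTz]
        rw [← Multiset.coe_eq_coe]
        simp only [← Multiset.cons_coe, ← Multiset.coe_add, List.nil_append, Multiset.coe_nil]
        simp only [← Multiset.singleton_add, add_zero]
        abel
    refine final a β ?_ (Or.inl hβa)
    rw [h1]
    congr 2
    refine List.eq_replicate_iff.2 ⟨?_, ?_⟩
    · rw [h1] at hlen
      simp only [List.length_cons] at hlen ⊢
      omega
    · intro c hc
      simp only [List.mem_cons, List.mem_append] at hc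
      rcases hc with h | h | h | h
      · exact h
      · exact h
      · exact hCβ c (mem_dup.1 h)
      · exact hTβ c h



theorem exists_ab_all_of (h1 : S_TL1) (h2 : S_TL2) (h3 : S_TL3) (k : ℕ) {r : ℝ} (hr : 0 < r) :
    ∃ a b : ℝ, 0 ≤ b ∧ b ≤ a ∧ 2 * a ^ 2 + k * b ^ 2 = 1 ∧
      (∀ θ : EuclideanSpace ℝ (Fin (k + 2)), ‖θ‖ = 1 → Asl r θ 0 ≤ Asl r (dirAB k a b) 0) ∧
      ∀ θ' ∈ KK k, Asl r (dirAB k a b) 0 ≤ Asl r θ' 0 → QV (dirAB k a b) ≤ QV θ' :=
  exists_ab_min_gen Pool.Agent.H376.GScont.cont k hr (triple_all_of h1 h2 h3 hr)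

/-- the triple theorem for every `r` -/
theorem triple_all {r : ℝ} (hr : 0 < r) : TripleAll r :=
  triple_all_of Pool.Agent.H117.TL1.tl1 Pool.Agent.H387.TL2.main Pool.Agent.H404.TL3.main hr

/-- the reduction to two values for every `r` -/
theorem exists_ab_all (k : ℕ) {r : ℝ} (hr : 0 < r) :
    ∃ a b : ℝ, 0 ≤ b ∧ b ≤ a ∧ 2 * a ^ 2 + k * b ^ 2 = 1 ∧
      (∀ θ : EuclideanSpace ℝ (Fin (k + 2)), ‖θ‖ = 1 → Asl r θ 0 ≤ Asl r (dirAB k a b) 0) ∧
      ∀ θ' ∈ KK k, Asl r (dirAB k a b) 0 ≤ Asl r θ' 0 → QV (dirAB k a b) ≤ QV θ' :=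
  exists_ab_all_of Pool.Agent.H117.TL1.tl1 Pool.Agent.H387.TL2.main Pool.Agent.H404.TL3.main k hr

end Pool.Agent.H770.GS
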