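import Pool.Agent.H770.GS.Hex

/-!
# The threshold in dimension three
-/

set_option autoImplicit false

open MeasureTheory Set intervalIntegral Filter Topology

namespace Pool.Agent.H770.GS

open Pool.Agent.Helper82.GC

/-! ### limits at infinity -/

theorem Asl_lim {n : ℕ} (θ : EuclideanSpace ℝ (Fin (n + 1))) (hθ : ‖θ‖ = 1) :
    Tendsto (fun r => Asl r θ 0) atTop (𝓝 ((2 * Real.pi) ^ ((n : ℝ) / 2))) := by
  have hθ0 : θ ≠ 0 := by
    rintro rfl
    rw [norm_zero] at hθ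
    exact zero_ne_one hθ
  have : Fact (Module.finrank ℝ (EuclideanSpace ℝ (Fin (n + 1))) = n + 1) :=
    ⟨finrank_euclideanSpace_fin⟩
  have hf : Module.finrank ℝ ((ℝ ∙ θ)ᗮ : Submodule ℝ (EuclideanSpace ℝ (Fin (n + 1)))) = n :=
    Submodule.finrank_orthogonal_span_singleton hθ0
  have hval : ∫ x : ((ℝ ∙ θ)ᗮ : Submodule ℝ (EuclideanSpace ℝ (Fin (n + 1)))),
      Real.exp (-‖x‖ ^ 2 / 2) = (2 * Real.pi) ^ ((n : ℝ) / 2) := by
    have h := GaussianFourier.integral_rexp_neg_mul_sq_norm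
      (V := ((ℝ ∙ θ)ᗮ : Submodule ℝ (EuclideanSpace ℝ (Fin (n + 1))))) (b := 1 / 2) (by norm_num)
    rw [hf] at h
    have e1 : Real.pi / (1 / 2) = 2 * Real.pi := by ring
    rw [e1] at h
    rw [← h]
    refine MeasureTheory.integral_congr_ae (Eventually.of_forall fun x => ?_)
    simp only
    congr 1
    ring
  rw [← hval]
  unfold Asl
  refine tendsto_integral_filter_of_dominated_convergence
    (fun x : ((ℝ ∙ θ)ᗮ : Submodule ℝ (EuclideanSpace ℝ (Fin (n + 1)))) =>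
      Real.exp (-‖x‖ ^ 2 / 2)) ?_ ?_ gauss_integrable_aux ?_
  · refine Eventually.of_forall fun r => ?_
    refine Measurable.aestronglyMeasurable ?_
    refine (measurable_F r).comp ?_
    refine Continuous.measurable ?_
    fun_prop
  · refine Eventually.of_forall fun r => Eventually.of_forall fun x => ?_
    have h := F_le_aux r ((x : EuclideanSpace ℝ (Fin (n + 1))) + (0:ℝ) • θ)
    rw [zero_smul, add_zero] at h
    rw [zero_smul, add_zero]
    exact h
  · refine Eventually.of_forall fun x => ?_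
    refine tendsto_const_nhds.congr' ?_
    filter_upwards [eventually_ge_atTop ‖x‖] with r hr
    rw [zero_smul, add_zero]
    unfold F
    rw [if_pos]
    · rfl
    · intro i
      have h2 := PiLp.norm_apply_le (x : EuclideanSpace ℝ (Fin (n + 1))) i
      rw [Real.norm_eq_abs] at h2
      exact h2.trans hr

/-! ### sign patterns -/

/-- pattern: minus, plus, minus -/
def Q (f : ℝ → ℝ) : Prop := ∀ x y z, 0 < x → x < y → y < z → 0 ≤ f x → f y ≤ 0 → f z < 0

theorem Q_of_deriv {f f' : ℝ → ℝ} (hf : ∀ x, HasDerivAt f (f' x) x) (h0 : f 0 = 0) (hQ : Q f') :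
    Q f := by
  intro x y z hx hxy hyz h1 h2
  obtain ⟨c1, hc1, e1⟩ := exists_hasDerivAt_eq_slope f f' hx
    (fun t _ => (hf t).continuousAt.continuousWithinAt) (fun t _ => hf t)
  obtain ⟨c2, hc2, e2⟩ := exists_hasDerivAt_eq_slope f f' hxy
    (fun t _ => (hf t).continuousAt.continuousWithinAt) (fun t _ => hf t)
  obtain ⟨c3, hc3, e3⟩ := exists_hasDerivAt_eq_slope f f' hyz
    (fun t _ => (hf t).continuousAt.continuousWithinAt) (fun t _ => hf t)
  have p1 : 0 ≤ f' c1 := by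
    rw [e1, h0]
    apply div_nonneg <;> linarith
  have p2 : f' c2 ≤ 0 := by
    rw [e2]
    apply div_nonpos_of_nonpos_of_nonneg <;> linarith
  have p3 := hQ c1 c2 c3 hc1.1 (by linarith [hc1.2, hc2.1]) (by linarith [hc2.2, hc3.1]) p1 p2
  rw [e3] at p3
  have h4 : 0 < z - y := by linarith
  have h5 : f z - f y < 0 := by
    by_contra hc
    push Not at hc
    have := div_nonneg hc h4.le
    linarith
  linarith

/-- if `f'` changes sign once, from plus to minus, then `f` has the pattern -/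
theorem Q_of_cross {f f' : ℝ → ℝ} (hf : ∀ x, HasDerivAt f (f' x) x)
    (h : ∀ x y, 0 < x → x < y → f' x ≤ 0 → f' y < 0) : Q f := by
  intro x y z hx hxy hyz h1 h2
  obtain ⟨c2, hc2, e2⟩ := exists_hasDerivAt_eq_slope f f' hxy
    (fun t _ => (hf t).continuousAt.continuousWithinAt) (fun t _ => hf t)
  obtain ⟨c3, hc3, e3⟩ := exists_hasDerivAt_eq_slope f f' hyz
    (fun t _ => (hf t).continuousAt.continuousWithinAt) (fun t _ => hf t)
  have p2 : f' c2 ≤ 0 := by
    rw [e2]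
    apply div_nonpos_of_nonpos_of_nonneg <;> linarith
  have p3 := h c2 c3 (by linarith [hc2.1]) (by linarith [hc2.2, hc3.1]) p2
  rw [e3] at p3
  have h4 : 0 < z - y := by linarith
  have h5 : f z - f y < 0 := by
    by_contra hc
    push Not at hc
    have := div_nonneg hc h4.le
    linarith
  linarith

theorem Q_mul {f g : ℝ → ℝ} (hg : ∀ x, 0 < g x) (hf : Q f) : Q (fun x => g x * f x) := by
  intro x y z hx hxy hyz h1 h2
  have a1 : 0 ≤ f x := by
    by_contra hc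
    push Not at hc
    have := mul_neg_of_pos_of_neg (hg x) hc
    linarith
  have a2 : f y ≤ 0 := by
    by_contra hc
    push Not at hc
    have := mul_pos (hg y) hc
    linarith
  exact mul_neg_of_pos_of_neg (hg z) (hf x y z hx hxy hyz a1 a2)

theorem cross_of_Q {f f' : ℝ → ℝ} (hf : ∀ x, HasDerivAt f (f' x) x) (h0 : f 0 = 0) (hQ : Q f')
    (hl : Tendsto f atTop (𝓝 0)) {x y : ℝ} (hx : 0 < x) (hxy : x < y) (h1 : 0 ≤ f x) : 0 < f y := by
  by_contra hc
  push Not at hc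
  have hQf := Q_of_deriv hf h0 hQ
  obtain ⟨c1, hc1, e1⟩ := exists_hasDerivAt_eq_slope f f' hx
    (fun t _ => (hf t).continuousAt.continuousWithinAt) (fun t _ => hf t)
  obtain ⟨c2, hc2, e2⟩ := exists_hasDerivAt_eq_slope f f' hxy
    (fun t _ => (hf t).continuousAt.continuousWithinAt) (fun t _ => hf t)
  have p1 : 0 ≤ f' c1 := by
    rw [e1, h0]
    apply div_nonneg <;> linarith
  have p2 : f' c2 ≤ 0 := by
    rw [e2]
    apply div_nonpos_of_nonpos_of_nonneg <;> linarith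
  have p3 : ∀ t, y < t → f' t < 0 := fun t ht =>
    hQ c1 c2 t hc1.1 (by linarith [hc1.2, hc2.1]) (by linarith [hc2.2]) p1 p2
  have hy1 : f (y + 1) < 0 := hQf x y (y + 1) hx hxy (by linarith) h1 hc
  have hdec : ∀ t, y + 1 < t → f t ≤ f (y + 1) := by
    intro t ht
    obtain ⟨c3, hc3, e3⟩ := exists_hasDerivAt_eq_slope f f' ht
      (fun t _ => (hf t).continuousAt.continuousWithinAt) (fun t _ => hf t)
    have h5 := p3 c3 (by linarith [hc3.1])
    rw [e3] at h5
    by_contra hc4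
    push Not at hc4
    have : 0 ≤ (f t - f (y + 1)) / (t - (y + 1)) := div_nonneg (by linarith) (by linarith)
    linarith
  have h6 : (0:ℝ) ≤ f (y + 1) := by
    refine le_of_tendsto hl ?_
    filter_upwards [eventually_gt_atTop (y + 1)] with t ht
    exact hdec t ht
  linarith

/-! ### the functions -/

theorem W_exp (r : ℝ) : Real.exp (-(Real.sqrt 2 * r) ^ 2 / 2) = Real.exp (-r ^ 2) := by
  congr 1
  rw [mul_pow, Real.sq_sqrt (by norm_num)]
  ring

theorem Zr_deriv (r : ℝ) : HasDerivAt Zr (2 * W r) r := by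
  have h := hasDerivAt_sym W_cont r
  refine (h.congr_deriv ?_)
  rw [W_even]
  ring

theorem Zr2_deriv (r : ℝ) : HasDerivAt (fun r => Zr (Real.sqrt 2 * r))
    (2 * Real.sqrt 2 * Real.exp (-r ^ 2)) r := by
  have h := (Zr_deriv (Real.sqrt 2 * r)).comp r ((hasDerivAt_id r).const_mul (Real.sqrt 2))
  refine h.congr_deriv ?_
  unfold W
  rw [W_exp]
  ring

/-- difference of the two values -/
noncomputable def Dd (r : ℝ) : ℝ :=
  6 * Real.sqrt 3 * (∫ s in (0:ℝ)..r, Real.exp (-(3 * s ^ 2 / 4)) * I2 (s / 2)) -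
    Zr r * Zr (Real.sqrt 2 * r)

noncomputable def Ee (r : ℝ) : ℝ :=
  6 * Real.sqrt 3 * I2 (r / 2) - 2 * Real.exp (r ^ 2 / 4) * Zr (Real.sqrt 2 * r) -
    2 * Real.sqrt 2 * Real.exp (-(r ^ 2 / 4)) * Zr r

noncomputable def Hh (r : ℝ) : ℝ :=
  6 * Real.sqrt 3 - 8 * Real.sqrt 2 * Real.exp (-(r ^ 2 / 2)) -
    r * Real.exp (r ^ 2 / 2) * Zr (Real.sqrt 2 * r) + Real.sqrt 2 * r * Zr r

noncomputable def Hd (r : ℝ) : ℝ :=
  8 * Real.sqrt 2 * r * Real.exp (-(r ^ 2 / 2)) -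
    (1 + r ^ 2) * Real.exp (r ^ 2 / 2) * Zr (Real.sqrt 2 * r) + Real.sqrt 2 * Zr r

theorem Dd_deriv (r : ℝ) : HasDerivAt Dd (Real.exp (-(3 * r ^ 2 / 4)) * Ee r) r := by
  have hI := I2_cont
  have h1 : HasDerivAt (fun r => ∫ s in (0:ℝ)..r, Real.exp (-(3 * s ^ 2 / 4)) * I2 (s / 2))
      (Real.exp (-(3 * r ^ 2 / 4)) * I2 (r / 2)) r := by
    have hc : Continuous fun s => Real.exp (-(3 * s ^ 2 / 4)) * I2 (s / 2) := by fun_prop
    exact intervalIntegral.integral_hasDerivAt_right (hc.intervalIntegrable _ _)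
      (hc.stronglyMeasurableAtFilter _ _) hc.continuousAt
  have h2 := (h1.const_mul (6 * Real.sqrt 3)).sub ((Zr_deriv r).mul (Zr2_deriv r))
  refine h2.congr_deriv ?_
  unfold Ee W
  have e1 : Real.exp (-(3 * r ^ 2 / 4)) * Real.exp (r ^ 2 / 4) = Real.exp (-r ^ 2 / 2) := by
    rw [← Real.exp_add]; congr 1; ring
  have e2 : Real.exp (-(3 * r ^ 2 / 4)) * Real.exp (-(r ^ 2 / 4)) = Real.exp (-r ^ 2) := by
    rw [← Real.exp_add]; congr 1; ring
  rw [← e1, ← e2]
  ring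

theorem Ee_deriv (r : ℝ) : HasDerivAt Ee (Real.exp (-(r ^ 2 / 4)) * Hh r) r := by
  have h1 : HasDerivAt (fun r : ℝ => I2 (r / 2)) (Real.exp (-(r ^ 2 / 4))) r := by
    have h := (I2_deriv (r / 2)).comp r ((hasDerivAt_id r).div_const 2)
    refine h.congr_deriv ?_
    rw [show -(r / 2) ^ 2 = -(r ^ 2 / 4) by ring]
    ring
  have h2 : HasDerivAt (fun r : ℝ => Real.exp (r ^ 2 / 4)) (Real.exp (r ^ 2 / 4) * (r / 2)) r := by
    have h := ((hasDerivAt_pow 2 r).div_const 4).exp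
    refine h.congr_deriv ?_
    norm_num
    ring
  have h3 : HasDerivAt (fun r : ℝ => Real.exp (-(r ^ 2 / 4)))
      (Real.exp (-(r ^ 2 / 4)) * (-(r / 2))) r := by
    have h := ((hasDerivAt_pow 2 r).div_const 4).fun_neg.exp
    refine h.congr_deriv ?_
    norm_num
    ring
  have h4 := ((h1.const_mul (6 * Real.sqrt 3)).sub ((h2.const_mul 2).mul (Zr2_deriv r))).sub
    ((h3.const_mul (2 * Real.sqrt 2)).mul (Zr_deriv r))
  refine h4.congr_deriv ?_
  unfold Hh W
  have e1 : Real.exp (-(r ^ 2 / 4)) * Real.exp (-(r ^ 2 / 2)) =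
      Real.exp (r ^ 2 / 4) * Real.exp (-r ^ 2) := by
    rw [← Real.exp_add, ← Real.exp_add]; congr 1; ring
  have e2 : Real.exp (-(r ^ 2 / 4)) * Real.exp (r ^ 2 / 2) = Real.exp (r ^ 2 / 4) := by
    rw [← Real.exp_add]; congr 1; ring
  have e3 : Real.exp (-r ^ 2 / 2) = Real.exp (-(r ^ 2 / 2)) := by congr 1; ring
  rw [e3]
  linear_combination (8 * Real.sqrt 2 - 4 * Real.sqrt 2) * e1 +
    (r * Zr (Real.sqrt 2 * r)) * e2

theorem Hh_deriv (r : ℝ) : HasDerivAt Hh (Hd r) r := by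
  have h2 : HasDerivAt (fun r : ℝ => Real.exp (r ^ 2 / 2)) (Real.exp (r ^ 2 / 2) * r) r := by
    have h := ((hasDerivAt_pow 2 r).div_const 2).exp
    refine h.congr_deriv ?_
    norm_num
  have h3 : HasDerivAt (fun r : ℝ => Real.exp (-(r ^ 2 / 2)))
      (Real.exp (-(r ^ 2 / 2)) * (-r)) r := by
    have h := ((hasDerivAt_pow 2 r).div_const 2).fun_neg.exp
    refine h.congr_deriv ?_
    norm_num
  have h4 := (((h3.const_mul (8 * Real.sqrt 2)).const_sub (6 * Real.sqrt 3)).sub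
    (((hasDerivAt_id r).mul h2).mul (Zr2_deriv r))).add
    (((hasDerivAt_id r).const_mul (Real.sqrt 2)).mul (Zr_deriv r))
  refine h4.congr_deriv ?_
  unfold Hd W
  have e1 : Real.exp (r ^ 2 / 2) * Real.exp (-r ^ 2) = Real.exp (-(r ^ 2 / 2)) := by
    rw [← Real.exp_add]; congr 1; ring
  have e3 : Real.exp (-r ^ 2 / 2) = Real.exp (-(r ^ 2 / 2)) := by congr 1; ring
  simp only [id, Pi.mul_apply]
  rw [e3, ← e1]
  ring

theorem Zr_le {r : ℝ} (hr : 0 ≤ r) : Zr r ≤ 2 * r := by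
  unfold Zr
  have h : ∫ x in (-r)..r, Real.exp (-x ^ 2 / 2) ≤ ∫ x in (-r)..r, (1:ℝ) := by
    refine intervalIntegral.integral_mono_on (by linarith)
      (Continuous.intervalIntegrable (by fun_prop) _ _)
      (Continuous.intervalIntegrable (by fun_prop) _ _) ?_
    intro x _
    exact W_le_one x
  simp only [intervalIntegral.integral_const, smul_eq_mul, mul_one] at h
  linarith

theorem Zr_ge {r : ℝ} (hr : 0 ≤ r) : 2 * r * W r ≤ Zr r := by
  unfold Zr
  have h : ∫ x in (-r)..r, W r ≤ ∫ x in (-r)..r, Real.exp (-x ^ 2 / 2) := by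
    refine intervalIntegral.integral_mono_on (by linarith)
      (Continuous.intervalIntegrable (by fun_prop) _ _)
      (Continuous.intervalIntegrable (by fun_prop) _ _) ?_
    intro x hx
    unfold W
    apply Real.exp_le_exp.2
    nlinarith [hx.1, hx.2]
  simp only [intervalIntegral.integral_const, smul_eq_mul] at h
  linarith

/-- `Hd r / r` -/
noncomputable def Kk (r : ℝ) : ℝ := Hd r / r

noncomputable def Kd (r : ℝ) : ℝ :=
  -(8 * Real.sqrt 2 * r * Real.exp (-(r ^ 2 / 2))) -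
  Real.exp (r ^ 2 / 2) / r ^ 2 * (Zr (Real.sqrt 2 * r) * (r ^ 4 + 2 * r ^ 2 - 1) +
    2 * Real.sqrt 2 * r * (1 + r ^ 2) * Real.exp (-r ^ 2)) -
  Real.sqrt 2 / r ^ 2 * (Zr r - 2 * r * W r)

theorem Kk_deriv {r : ℝ} (hr : 0 < r) : HasDerivAt Kk (Kd r) r := by
  have h2 : HasDerivAt (fun r : ℝ => Real.exp (r ^ 2 / 2)) (Real.exp (r ^ 2 / 2) * r) r := by
    have h := ((hasDerivAt_pow 2 r).div_const 2).exp
    refine h.congr_deriv ?_
    norm_num
  have h3 : HasDerivAt (fun r : ℝ => Real.exp (-(r ^ 2 / 2)))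
      (Real.exp (-(r ^ 2 / 2)) * (-r)) r := by
    have h := ((hasDerivAt_pow 2 r).div_const 2).fun_neg.exp
    refine h.congr_deriv ?_
    norm_num
  have h5 : HasDerivAt (fun r : ℝ => 1 + r ^ 2) (2 * r) r := by
    have h := (hasDerivAt_pow 2 r).const_add 1
    refine h.congr_deriv ?_
    norm_num
  have h4 := ((((hasDerivAt_id r).const_mul (8 * Real.sqrt 2)).mul h3).sub
    ((h5.mul h2).mul (Zr2_deriv r))).add ((Zr_deriv r).const_mul (Real.sqrt 2))
  have h6 := h4.div (hasDerivAt_id r) hr.ne'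
  refine h6.congr_deriv ?_
  unfold Kd W
  have e3 : Real.exp (-r ^ 2 / 2) = Real.exp (-(r ^ 2 / 2)) := by congr 1; ring
  simp only [id, Pi.mul_apply, Pi.sub_apply, Pi.add_apply]
  rw [e3]
  field_simp
  ring

theorem Kd_neg {r : ℝ} (hr : 0 < r) : Kd r < 0 := by
  unfold Kd
  have hs : 0 < Real.sqrt 2 := by positivity
  have h1 : 0 < 8 * Real.sqrt 2 * r * Real.exp (-(r ^ 2 / 2)) := by positivity
  have h2 : 0 ≤ Zr r - 2 * r * W r := by linarith [Zr_ge hr.le]
  have h3 : 0 ≤ Real.sqrt 2 / r ^ 2 * (Zr r - 2 * r * W r) := by positivity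
  have h4 : 0 ≤ Zr (Real.sqrt 2 * r) * (r ^ 4 + 2 * r ^ 2 - 1) +
    2 * Real.sqrt 2 * r * (1 + r ^ 2) * Real.exp (-r ^ 2) := by
    have hz : Zr (Real.sqrt 2 * r) ≤ 2 * (Real.sqrt 2 * r) := Zr_le (by positivity)
    have hz0 : 0 < Zr (Real.sqrt 2 * r) := Zr_pos (by positivity)
    have hexp : 1 - r ^ 2 ≤ Real.exp (-r ^ 2) := by
      have := Real.add_one_le_exp (-r ^ 2)
      linarith
    have hexp0 : 0 < Real.exp (-r ^ 2) := Real.exp_pos _
    rcases le_total 0 (r ^ 4 + 2 * r ^ 2 - 1) with h | h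
    · positivity
    · have h7 : Zr (Real.sqrt 2 * r) * (-(r ^ 4 + 2 * r ^ 2 - 1)) ≤
          2 * (Real.sqrt 2 * r) * (-(r ^ 4 + 2 * r ^ 2 - 1)) :=
        mul_le_mul_of_nonneg_right hz (by linarith)
      have h8 : 2 * Real.sqrt 2 * r * (1 + r ^ 2) * (1 - r ^ 2) ≤
          2 * Real.sqrt 2 * r * (1 + r ^ 2) * Real.exp (-r ^ 2) :=
        mul_le_mul_of_nonneg_left hexp (by positivity)
      have h9 : 0 ≤ 2 * Real.sqrt 2 * r * (2 * r ^ 2) := by positivity
      nlinarith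
  have h5 : 0 ≤ Real.exp (r ^ 2 / 2) / r ^ 2 * (Zr (Real.sqrt 2 * r) * (r ^ 4 + 2 * r ^ 2 - 1) +
    2 * Real.sqrt 2 * r * (1 + r ^ 2) * Real.exp (-r ^ 2)) := by positivity
  linarith

theorem Hd_cross (x y : ℝ) (hx : 0 < x) (hxy : x < y) (h : Hd x ≤ 0) : Hd y < 0 := by
  have hy : 0 < y := hx.trans hxy
  obtain ⟨c, hc, e⟩ := exists_hasDerivAt_eq_slope Kk Kd hxy
    (fun t ht => (Kk_deriv (lt_of_lt_of_le hx ht.1)).continuousAt.continuousWithinAt)
    (fun t ht => Kk_deriv (hx.trans ht.1))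
  have h1 := Kd_neg (hx.trans hc.1)
  rw [e] at h1
  have h2 : Kk y < Kk x := by
    by_contra hcc
    push Not at hcc
    have : 0 ≤ (Kk y - Kk x) / (y - x) := div_nonneg (by linarith) (by linarith)
    linarith
  have h3 : Kk x ≤ 0 := div_nonpos_of_nonpos_of_nonneg h hx.le
  have h4 : Hd y / y < 0 := lt_of_lt_of_le h2 h3
  by_contra hcc
  push Not at hcc
  have := div_nonneg hcc hy.le
  linarith

theorem Hh_Q : Q Hh := Q_of_cross Hh_deriv Hd_cross

theorem Zr_zero : Zr 0 = 0 := by simp [Zr]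

theorem Ee_zero : Ee 0 = 0 := by
  unfold Ee
  simp [Zr_zero, I2_zero]

theorem Ee_Q : Q Ee := by
  refine Q_of_deriv Ee_deriv Ee_zero ?_
  exact Q_mul (fun x => Real.exp_pos _) Hh_Q

theorem Dd_zero : Dd 0 = 0 := by
  unfold Dd
  simp [Zr_zero]

theorem Dd'_Q : Q (fun r => Real.exp (-(3 * r ^ 2 / 4)) * Ee r) :=
  Q_mul (fun _ => Real.exp_pos _) Ee_Q

theorem Dd_eq {r : ℝ} (hr : 0 < r) : Dd r = V3 r - V2 r := by
  rw [V3_eq hr, V2_eq hr]
  rfl

theorem Dd_lim : Tendsto Dd atTop (𝓝 0) := by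
  have h1 := Asl_lim dirThree (fam_norm _)
  have h2 := Asl_lim dirTwo (fam_norm _)
  have h3 := h1.sub h2
  rw [sub_self] at h3
  refine h3.congr' ?_
  filter_upwards [eventually_gt_atTop 0] with r hr
  exact (Dd_eq hr).symm

theorem Dd_cross {x y : ℝ} (hx : 0 < x) (hxy : x < y) (h : 0 ≤ Dd x) : 0 < Dd y :=
  cross_of_Q Dd_deriv Dd_zero Dd'_Q Dd_lim hx hxy h

/-- negative for small `r` -/
theorem Dd_neg : ∃ r, 0 < r ∧ Dd r < 0 := by
  have hH0 : Hh 0 < 0 := by
    unfold Hh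
    simp only [ne_eq, OfNat.ofNat_ne_zero, not_false_eq_true, zero_pow, zero_div, neg_zero,
      Real.exp_zero, mul_one, zero_mul, sub_zero, mul_zero, add_zero]
    have h3 : Real.sqrt 3 < 1.7321 := by
      rw [Real.sqrt_lt' (by norm_num)]; norm_num
    have h2 : 1.414 < Real.sqrt 2 := by
      rw [Real.lt_sqrt (by norm_num)]; norm_num
    linarith
  have hc : Continuous Hh := continuous_iff_continuousAt.2 fun x => (Hh_deriv x).continuousAt
  have ho : {x | Hh x < 0} ∈ 𝓝 (0:ℝ) := (isOpen_lt hc continuous_const).mem_nhds hH0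
  obtain ⟨δ, hδ, hb⟩ := Metric.mem_nhds_iff.1 ho
  have hneg : ∀ t, 0 < t → t < δ → Hh t < 0 := by
    intro t ht htd
    apply hb
    rw [Metric.mem_ball, Real.dist_eq, sub_zero, abs_of_pos ht]
    exact htd
  have hE : ∀ t, 0 < t → t < δ → Ee t < 0 := by
    intro t ht htd
    obtain ⟨c, hc, e⟩ := exists_hasDerivAt_eq_slope Ee _ ht
      (fun t _ => (Ee_deriv t).continuousAt.continuousWithinAt) (fun t _ => Ee_deriv t)
    have h1 : Real.exp (-(c ^ 2 / 4)) * Hh c < 0 :=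
      mul_neg_of_pos_of_neg (Real.exp_pos _) (hneg c hc.1 (hc.2.trans htd))
    rw [e, Ee_zero, sub_zero, sub_zero] at h1
    by_contra hcc
    push Not at hcc
    have := div_nonneg hcc ht.le
    linarith
  refine ⟨δ / 2, by positivity, ?_⟩
  obtain ⟨c, hc, e⟩ := exists_hasDerivAt_eq_slope Dd _ (show (0:ℝ) < δ / 2 by positivity)
      (fun t _ => (Dd_deriv t).continuousAt.continuousWithinAt) (fun t _ => Dd_deriv t)
  have h1 : Real.exp (-(3 * c ^ 2 / 4)) * Ee c < 0 :=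
      mul_neg_of_pos_of_neg (Real.exp_pos _) (hE c hc.1 (by linarith [hc.2]))
  rw [e, Dd_zero, sub_zero, sub_zero] at h1
  by_contra hcc
  push Not at hcc
  have := div_nonneg hcc (show (0:ℝ) ≤ δ / 2 by positivity)
  linarith

theorem Zr_strictMono : StrictMono Zr := by
  intro x y hxy
  obtain ⟨c, hc, e⟩ := exists_hasDerivAt_eq_slope Zr _ hxy
      (fun t _ => (Zr_deriv t).continuousAt.continuousWithinAt) (fun t _ => Zr_deriv t)
  have h1 : 0 < 2 * W c := by have := W_pos c; positivity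
  rw [e] at h1
  by_contra hcc
  push Not at hcc
  have : (Zr y - Zr x) / (y - x) ≤ 0 := div_nonpos_of_nonpos_of_nonneg (by linarith) (by linarith)
  linarith

theorem I2_le_Zr {q : ℝ} (hq : 0 ≤ q) : I2 q ≤ Zr q := by
  unfold I2 Zr
  refine intervalIntegral.integral_mono_on (by linarith)
    (Continuous.intervalIntegrable (by fun_prop) _ _)
    (Continuous.intervalIntegrable (by fun_prop) _ _) ?_
  intro x _
  apply Real.exp_le_exp.2
  nlinarith [sq_nonneg x]

theorem Ee_large {r : ℝ} (hr : 5 ≤ r) : Ee r < 0 := by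
  unfold Ee
  have hz0 : 0 < Zr (Real.sqrt 2 * r) := Zr_pos (by positivity)
  have hz1 : 0 < Zr r := Zr_pos (by positivity)
  have h1 : I2 (r / 2) ≤ Zr (Real.sqrt 2 * r) := by
    refine (I2_le_Zr (by positivity)).trans (Zr_strictMono.monotone ?_)
    have : 1 ≤ Real.sqrt 2 := by rw [Real.one_le_sqrt]; norm_num
    nlinarith
  have h3 : Real.sqrt 3 < 1.7321 := by
    rw [Real.sqrt_lt' (by norm_num)]; norm_num
  have h30 : 0 < Real.sqrt 3 := by positivity
  have h4 : 7.25 ≤ Real.exp (r ^ 2 / 4) := by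
    have := Real.add_one_le_exp (r ^ 2 / 4)
    nlinarith
  have h5 : 0 < 2 * Real.sqrt 2 * Real.exp (-(r ^ 2 / 4)) * Zr r := by positivity
  have h6 : 6 * Real.sqrt 3 * I2 (r / 2) ≤ 6 * Real.sqrt 3 * Zr (Real.sqrt 2 * r) := by gcongr
  have h7 : 2 * 7.25 * Zr (Real.sqrt 2 * r) ≤ 2 * Real.exp (r ^ 2 / 4) * Zr (Real.sqrt 2 * r) := by
    gcongr
  nlinarith

/-- nonnegative somewhere -/
theorem Dd_nonneg : ∃ r, 0 < r ∧ 0 ≤ Dd r := by
  by_contra hall
  push Not at hall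
  obtain ⟨a, ha, hDa⟩ := Dd_neg
  -- a point where `Dd` is larger than at `a`
  have h1 : ∀ᶠ t in atTop, Dd a < Dd t := (tendsto_order.1 Dd_lim).1 _ hDa
  obtain ⟨t, ht1, ht2⟩ := (h1.and (eventually_gt_atTop a)).exists
  obtain ⟨c, hc, e⟩ := exists_hasDerivAt_eq_slope Dd _ ht2
      (fun t _ => (Dd_deriv t).continuousAt.continuousWithinAt) (fun t _ => Dd_deriv t)
  have h2 : 0 ≤ Real.exp (-(3 * c ^ 2 / 4)) * Ee c := by
    rw [e]
    apply div_nonneg <;> linarith
  have h3 : 0 ≤ Ee c := by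
    by_contra hcc
    push Not at hcc
    have := mul_neg_of_pos_of_neg (Real.exp_pos (-(3 * c ^ 2 / 4))) hcc
    linarith
  have hc0 : 0 < c := ha.trans hc.1
  obtain ⟨d, hd⟩ : ∃ d, d = max 5 (c + 1) := ⟨_, rfl⟩
  have hd5 : 5 ≤ d := by rw [hd]; exact le_max_left _ _
  have hdec : ∀ t, d < t → Dd t < Dd d := by
    intro t ht
    obtain ⟨c3, hc3, e3⟩ := exists_hasDerivAt_eq_slope Dd _ ht
      (fun t _ => (Dd_deriv t).continuousAt.continuousWithinAt) (fun t _ => Dd_deriv t)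
    have h5 : Real.exp (-(3 * c3 ^ 2 / 4)) * Ee c3 < 0 :=
      mul_neg_of_pos_of_neg (Real.exp_pos _) (Ee_large (by linarith [hc3.1]))
    rw [e3] at h5
    by_contra hc4
    push Not at hc4
    have : 0 ≤ (Dd t - Dd d) / (t - d) := div_nonneg (by linarith) (by linarith)
    linarith
  have h6 : (0:ℝ) ≤ Dd d := by
    refine le_of_tendsto Dd_lim ?_
    filter_upwards [eventually_gt_atTop d] with t ht
    exact (hdec t ht).le
  have := hall d (by linarith)
  linarith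

theorem thr : ∃ r3, 0 < r3 ∧ ∀ r, 0 < r → (r < r3 → Dd r < 0) ∧ (r3 < r → 0 < Dd r) ∧
    (r = r3 → Dd r = 0) := by
  obtain ⟨a, ha, hDa⟩ := Dd_neg
  obtain ⟨b, hb, hDb⟩ := Dd_nonneg
  have hab : a < b := by
    by_contra hc
    push Not at hc
    rcases eq_or_lt_of_le hc with h | h
    · rw [h] at hDb; linarith
    · have := Dd_cross hb h hDb
      linarith
  have hcont : ContinuousOn Dd (Icc a b) :=
    fun t _ => (Dd_deriv t).continuousAt.continuousWithinAt
  obtain ⟨r3, hr3, hz⟩ := intermediate_value_Icc hab.le hcont ⟨hDa.le, hDb⟩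
  have hr30 : 0 < r3 := lt_of_lt_of_le ha hr3.1
  refine ⟨r3, hr30, fun r hr => ⟨fun h => ?_, fun h => ?_, fun h => ?_⟩⟩
  · by_contra hc
    push Not at hc
    have := Dd_cross hr h hc
    linarith
  · exact Dd_cross hr30 h hz.ge
  · rw [h]; exact hz

end Pool.Agent.H770.GS
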