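import Pool.Agent.H770.GS.Sort
import Pool.Agent.H770.GS.Fam3

/-!
# The value for directions with two nonzero coordinates
-/

set_option autoImplicit false

open MeasureTheory Set intervalIntegral Filter Topology

namespace Pool.Agent.H770.GS

open Pool.Agent.Helper82.GC

theorem srt_sq {n : ℕ} (θ : EuclideanSpace ℝ (Fin n)) (hθ : ‖θ‖ = 1) :
    ((srt θ).map fun x => x ^ 2).sum = 1 := by
  have h1 : ((srt θ).map fun x => x ^ 2).sum =
      ((List.ofFn fun i => |θ i|).map fun x => x ^ 2).sum :=
    ((srt_perm θ).map _).sum_eq
  rw [h1, List.map_ofFn, List.sum_ofFn]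
  have h2 : ‖θ‖ ^ 2 = 1 := by rw [hθ]; norm_num
  rw [EuclideanSpace.norm_sq_eq] at h2
  rw [← h2]
  refine Finset.sum_congr rfl fun i _ => ?_
  simp

theorem cv_zero (r : ℝ) (g : ℝ → ℝ) (v : ℝ) : cv r 0 g v = Zr r * g v := by
  unfold cv Zr
  rw [← intervalIntegral.integral_mul_const]
  refine intervalIntegral.integral_congr fun u _ => ?_
  unfold W
  simp

theorem dens_zeros (r : ℝ) (g : ℝ → ℝ) (L : List ℝ) (m : ℕ) (v : ℝ) :
    dens r (List.replicate m 0 ++ L) g v = Zr r ^ m * dens r L g v := by
  induction m with
  | zero => simp
  | succ m ih =>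
    rw [List.replicate_succ, List.cons_append, dens_cons, cv_zero, ih, pow_succ]
    ring

theorem two_tendsto {r x y : ℝ} (hr : 0 < r) (hy : 0 ≤ y) (hxy : y ≤ x)
    (h1 : x ^ 2 + y ^ 2 = 1) :
    Tendsto (fun τ => dens r [x, y] (gs τ) 0) (𝓝[>] 0) (𝓝 (∫ u in (-(r / x))..(r / x), W u)) := by
  have hW := W_cont
  have hx : 0 < x := by
    by_contra hc
    push Not at hc
    have : x = 0 := le_antisymm hc (hy.trans hxy)
    have hy0 : y = 0 := by linarith
    rw [this, hy0] at h1
    norm_num at h1
  rcases eq_or_lt_of_le hy with hy0 | hy0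
  · -- y = 0, x = 1
    rw [← hy0]
    have hx1 : x = 1 := by
      rw [← hy0] at h1
      nlinarith
    rw [hx1]
    have e : (fun τ => dens r [1, 0] (gs τ) 0) = fun τ => Zr r * cv r 1 (gs τ) 0 := by
      funext τ
      rw [dens_perm (gs_cont τ) (List.Perm.swap 0 1 [])]
      rw [dens_cons, cv_zero, dens_cons, dens_nil]
    rw [e, div_one]
    have h2 := cv_gs_tendsto (r := r) (a := 1) (v := 0) hr one_pos (by simp [hr.ne])
    have h3 : (∫ u in (-r)..r, W u) = Zr r * ha r 1 0 := by
      unfold ha Zr W wr
      simp [hr.le]
    rw [h3]
    exact h2.const_mul _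
  · have t : Tendsto (fun τ => dens r [x, y] (gs τ) 0) (𝓝[>] 0)
        (𝓝 (∫ u in (-r)..r, W u * ha r y (x * u))) := by
      have e : (fun τ => dens r [x, y] (gs τ) 0) = fun τ => ∫ u in (-r)..r,
          W u * cv r y (gs τ) (0 + x * u) := rfl
      rw [e]
      refine intervalIntegral.tendsto_integral_filter_of_dominated_convergence
        (fun _ => 1 / y) ?_ ?_ ?_ ?_
      · refine Eventually.of_forall fun τ => ?_
        refine Continuous.aestronglyMeasurable ?_
        have := cv_cont (r := r) (b := y) (gs_cont τ)
        fun_prop
      · filter_upwards [self_mem_nhdsWithin] with τ hτ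
        refine Eventually.of_forall fun u _ => ?_
        rw [Real.norm_eq_abs, abs_mul, abs_of_pos (W_pos u)]
        calc W u * |cv r y (gs τ) (0 + x * u)| ≤ 1 * (1 / y) :=
              mul_le_mul (W_le_one u) (cv_gs_bdd hr hy0 hτ _) (abs_nonneg _) zero_le_one
          _ = 1 / y := one_mul _
      · exact intervalIntegrable_const
      · have hS : ({y * r / x, -(y * r) / x} : Set ℝ).Countable :=
          Set.Finite.countable (Set.toFinite _)
        filter_upwards [hS.ae_notMem volume] with u hu _
        simp only [mem_insert_iff, mem_singleton_iff, not_or] at hu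
        refine Tendsto.const_mul _ ?_
        rw [zero_add]
        refine cv_gs_tendsto hr hy0 ?_
        intro h
        rcases (abs_eq (mul_pos hy0 hr).le).1 h with h | h
        · apply hu.1
          rw [eq_div_iff hx.ne']
          linarith
        · apply hu.2
          rw [eq_div_iff hx.ne']
          linarith
    have e2 : (∫ u in (-r)..r, W u * ha r y (x * u)) = ∫ u in (-(r / x))..(r / x), W u := by
      have hi : ∀ a b : ℝ, IntervalIntegrable (fun u => W u * ha r y (x * u)) volume a b := by
        intro a b
        have hm : Measurable fun u => ha r y (x * u) := by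
          unfold ha
          have : Measurable fun u => wr r (x * u / y) := (wr_measurable r).comp (by fun_prop)
          exact this.const_mul _
        have hb : ∀ u, ‖ha r y (x * u)‖ ≤ 1 / y := by
          intro u
          unfold ha
          rw [Real.norm_eq_abs, abs_mul, abs_of_nonneg (wr_nonneg' _ _), abs_of_pos (by positivity)]
          exact mul_le_of_le_one_right (by positivity) (wr_le_one _ _)
        have h3 : IntervalIntegrable W volume a b := hW.intervalIntegrable _ _
        exact ⟨MeasureTheory.Integrable.mul_bdd (c := 1 / y) h3.1 hm.aestronglyMeasurable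
            (Filter.Eventually.of_forall hb),
          MeasureTheory.Integrable.mul_bdd (c := 1 / y) h3.2 hm.aestronglyMeasurable
            (Filter.Eventually.of_forall hb)⟩
      obtain ⟨c, hc⟩ : ∃ c, c = y * r / x := ⟨_, rfl⟩
      have hc0 : 0 < c := by rw [hc]; positivity
      have hcr : c ≤ r := by
        rw [hc, div_le_iff₀ hx]
        nlinarith
      have hcx : x * c = y * r := by rw [hc]; field_simp
      have a1 : ∫ u in (-r)..(-c), W u * ha r y (x * u) = 0 := by
        rw [intervalIntegral.integral_congr_ae (g := fun _ => (0:ℝ))]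
        · simp
        · have hS : ({-c} : Set ℝ).Countable := Set.countable_singleton _
          filter_upwards [hS.ae_notMem volume] with u hu huu
          rw [uIoc_of_le (by linarith)] at huu
          have h5 : u < -c := lt_of_le_of_ne huu.2 (fun h => hu (by simp [h]))
          unfold ha wr
          rw [if_neg]
          · simp
          · rw [not_le, abs_div, abs_of_pos hy0, lt_div_iff₀ hy0, abs_mul, abs_of_pos hx,
              abs_of_neg (by linarith)]
            nlinarith
      have a3 : ∫ u in c..r, W u * ha r y (x * u) = 0 := by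
        rw [intervalIntegral.integral_congr_ae (g := fun _ => (0:ℝ))]
        · simp
        · refine Eventually.of_forall fun u hu => ?_
          rw [uIoc_of_le hcr] at hu
          unfold ha wr
          rw [if_neg]
          · simp
          · rw [not_le, abs_div, abs_of_pos hy0, lt_div_iff₀ hy0, abs_mul, abs_of_pos hx,
              abs_of_pos (by linarith [hu.1])]
            nlinarith [hu.1]
      have a2 : ∫ u in (-c)..c, W u * ha r y (x * u) =
          ∫ u in (-(r / x))..(r / x), W u := by
        have h6 := intervalIntegral.smul_integral_comp_mul_left (a := -(r / x)) (b := r / x)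
          (fun u => W u * ha r y (x * u)) y
        have e1 : y * -(r / x) = -c := by rw [hc]; ring
        have e2 : y * (r / x) = c := by rw [hc]; ring
        rw [e1, e2, smul_eq_mul] at h6
        rw [← h6, ← intervalIntegral.integral_const_mul]
        refine intervalIntegral.integral_congr fun u hu => ?_
        rw [uIcc_of_le (by linarith [div_pos hr hx])] at hu
        unfold ha wr
        have e3 : x * (y * u) / y = x * u := by field_simp
        rw [e3, if_pos]
        · unfold W
          have e4 : Real.exp (-(y * u) ^ 2 / 2) * Real.exp (-(x * u) ^ 2 / 2) =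
              Real.exp (-u ^ 2 / 2) := by
            rw [← Real.exp_add]
            congr 1
            have : -(y * u) ^ 2 / 2 + -(x * u) ^ 2 / 2 = -(x ^ 2 + y ^ 2) * u ^ 2 / 2 := by ring
            rw [this, h1]
            ring
          rw [← e4]
          field_simp
        · rw [abs_mul, abs_of_pos hx]
          have : |u| ≤ r / x := abs_le.2 hu
          calc x * |u| ≤ x * (r / x) := mul_le_mul_of_nonneg_left this hx.le
            _ = r := by field_simp
      rw [← intervalIntegral.integral_add_adjacent_intervals (hi (-r) (-c)) (hi (-c) r),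
        ← intervalIntegral.integral_add_adjacent_intervals (hi (-c) c) (hi c r), a1, a2, a3]
      ring
    rw [← e2]
    exact t

theorem Asl_two {n m : ℕ} {r x y : ℝ} (hr : 0 < r) (θ : EuclideanSpace ℝ (Fin n)) (hθ : ‖θ‖ = 1)
    (h : srt θ = x :: y :: List.replicate m 0) :
    Asl r θ 0 = Zr r ^ m * ∫ u in (-(r / x))..(r / x), W u := by
  have h1 := srt_sq θ hθ
  rw [h] at h1
  simp at h1
  have hy : 0 ≤ y := srt_nonneg θ y (by rw [h]; simp)
  have hxy : y ≤ x := by
    have h2 := srt_sorted θ
    rw [h] at h2
    exact List.rel_of_pairwise_cons h2 (by simp)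
  refine tendsto_nhds_unique (dens_tendsto hr θ hθ) ?_
  refine ((two_tendsto hr hy hxy h1).const_mul (Zr r ^ m)).congr fun τ => ?_
  rw [dens_srt, h]
  rw [← dens_zeros]
  rw [dens_perm (gs_cont τ)]
  exact List.perm_append_comm

end Pool.Agent.H770.GS
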