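import Pool.Agent.H770.GS.TA2
import Pool.Agent.H770.GS.Two

/-!
# Project UQ: uniqueness of the maximizers (strict exchange) : statements

Objects (all in `Pool.Agent.H770.GS`): `W`, `cv`, `P ρ k` (`Conv.lean`), `Kt`, `mix`, `P.cv` (`Conv.lean`),
`four_pt`, `JJ`, `exch_id`, `T_nonneg`, `JJ_nonneg`, `rot_ftc`, `exchange` (`Exch.lean`), `hasDerivAt_sym`,
`continuous_sym`, `parab2`, `uni_main` (`Pairs.lean`), `P.pair` (`Pairs2.lean`), `dens`, `dens_cons`, `dens_append`,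
`dens_perm`, `dens_even`, `dens_deriv`, `gs`, `kg`, `gs_deriv`, `kg_P`, `dens_tendsto` (`Link.lean`), `dup`, `dens_dup_P`,
`dens_P`, `srt` (`Sort.lean`), `Asl_two`, `cv_zero`, `dens_zeros` (`Two.lean`), `vec`, `vec_norm`, `ofFn_vec`, `qm`, `Q4`,
`Asl_le_vec`, `dens_exchange`, `improve` (`TA2.lean`).

The idea: for `g = dens r R (gs τ)`, `k = dens r R (kg τ) = -g'`, `ζ = Σ z² + τ²` one has
`ζ k v = v g v + rest v` with `rest` in the class `P ρ`; so `k v/v - k v'/v' ≥ (g v - g v')/ζ` and the exchange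
inequality is strict.
-/

set_option autoImplicit false

open MeasureTheory Set intervalIntegral Filter Topology

namespace Pool.Agent.H770.GS

open Pool.Agent.Helper82.GC

/-- **UQ1**. Proof. Continuity and oddness are clear, the inequality is `Kt`. -/
def S_win : Prop := ∀ (ρ t : ℝ) (k : ℝ → ℝ), P ρ k → 0 ≤ t → t ≤ ρ →
  P ρ (fun v => ∫ u in (v - t)..(v + t), k u)

/-- **UQ2**. Proof. With `∫_{x-zr}^{x+zr} k = z ∫_{-r}^{r} k (x + z u') du'` (both sides `0` if `z = 0`) the function is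
`z ∫_{-r}^{r}∫_{-r}^{r} W u * k (v + z (u + u')) du' du`. The variable `y = u + u'` has the density
`h |y|`, `h y = ∫_{y-r}^{r} W` (`0 ≤ y ≤ 2r`), `h' y = -W (y - r)`, `h (2r) = 0`; so it equals
`z ∫_0^{2r} h y (k (v+zy) + k (v-zy)) dy = ∫_0^{2r} W (y-r) * (z ∫_{-y}^{y} k (v + z u) du) dy` (integration by parts,
`hasDerivAt_sym`). Then proceed exactly as in `P.pair` (`Pairs2.lean`) with `uni_main` for
`n y = W (y - r)`, `n' y = (r - y) W (y - r)`, `y n' y ≤ n y` because `y (r - y) ≤ r²/4 ≤ 1`. (Compare `fold` and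
`pair_formula` in `Pairs2.lean` for the two dimensional folding.) -/
def S_mixed : Prop := ∀ (r z : ℝ) (k : ℝ → ℝ), 0 < r → r ≤ 2 → 0 ≤ z → P 0 k →
  P 0 (cv r z (fun v => ∫ u in (v - z * r)..(v + z * r), k u))

/-- **UQ3**. Proof. `ζ cv r z k v = ∫ W u ((v + z u) g (v + z u) + rest (v + z u))`, and by parts (`W' u = -u W u`)
`∫_{-r}^{r} u W u g (v + z u) du = -W r (g (v + z r) - g (v - z r)) - z cv r z k v`; finally
`g (v - z r) - g (v + z r) = ∫_{v-zr}^{v+zr} k`. -/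
def S_step : Prop := ∀ (r z ζ : ℝ) (g k rest : ℝ → ℝ), 0 < r → (∀ x, HasDerivAt g (-k x) x) →
  Continuous k → Continuous rest → (∀ v, ζ * k v = v * g v + rest v) →
  ∀ v, (ζ + z ^ 2) * cv r z k v = v * cv r z g v +
    (cv r z rest v + z * W r * ∫ u in (v - z * r)..(v + z * r), k u)

/-- **UQ4**. Proof. `∫_{v-t}^{v+t} k = ∫_{|v-t|}^{v+t} k ≥ 0` by oddness (`odd_int`); for `cv` use `mix`
(`g u = k (v + z u)`) and substitution. -/
def S_pos : Prop := ∀ (r z : ℝ) (k : ℝ → ℝ), 0 < r → 0 ≤ z → Continuous k → (∀ x, k (-x) = -k x) →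
  (∀ x, 0 ≤ x → 0 ≤ k x) →
  (∀ t, 0 ≤ t → ∀ v, 0 ≤ v → 0 ≤ ∫ u in (v - t)..(v + t), k u) ∧ ∀ v, 0 ≤ v → 0 ≤ cv r z k v

/-- **UQ5** (the identity for lists). Proof. Induction on `C` (with the class `P 0`), then on `S` (with `P ρ`; use
`P.mono`). Start: `τ² kg τ v = v gs τ v`, `rest = 0`. Adding a pair `z, z` to `L = dup C` (`k₀ = dens r L (kg τ)`,
`rest₀`): `S_step` twice gives
`rest = cv r z (cv r z rest₀) + z W r * cv r z (fun v => ∫_{v-zr}^{v+zr} k₀) + z W r * ∫_{v-zr}^{v+zr} cv r z k₀`,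
and the last integral is `cv r z (fun v => ∫_{v-zr}^{v+zr} k₀) v` (`swap_cont`); all in `P 0` by `P.pair`, `S_mixed`
(sums and nonnegative multiples of functions in `P 0` are in `P 0`). Adding a single `z`, `z r ≤ ρ`:
`rest = cv r z rest₀ + z W r * ∫_{v-zr}^{v+zr} k₀` in `P ρ` by `P.cv`, `S_win` (`t = z r ≤ ρ`). Nonnegativity by
`S_pos`. `dens_deriv` with `gs_deriv` gives `HasDerivAt (dens r L (gs τ)) (-dens r L (kg τ) x) x`. -/
def S_SP : Prop := S_win → S_mixed → S_step → S_pos → ∀ (r ρ τ : ℝ) (S C : List ℝ), 0 < r → r ≤ 2 →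
  0 < τ → 0 ≤ ρ → (∀ x ∈ S, 0 ≤ x ∧ x * r ≤ ρ) → (∀ x ∈ C, 0 ≤ x) →
  (∀ v, 0 ≤ v → 0 ≤ dens r (S ++ dup C) (kg τ) v) ∧
    ∃ rest : ℝ → ℝ, P ρ rest ∧ (∀ v, 0 ≤ v → 0 ≤ rest v) ∧
    ∀ v, (((S ++ dup C).map fun x => x ^ 2).sum + τ ^ 2) * dens r (S ++ dup C) (kg τ) v =
      v * dens r (S ++ dup C) (gs τ) v + rest v

/-- **UQ6** (four points with gain). Proof. As `four_pt` (`Exch.lean`): with `K = α² + β²`, `q p = √(K - p²)`,
`g α + g β - g m - g M = ∫_α^m p (k p/p - k (q p)/(q p)) dp`, and for `α < p ≤ m`: `q p ≥ M ≥ m ≥ p`, `p + q p ≥ 2ρ`, so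
`ζ (k p/p - k q/q) = g p - g q + (rest p/p - rest q/q) ≥ g p - g q ≥ 0` (`g` decreases on `[0,∞)`), which is
`≥ g δ - g v₂` for `p ≤ δ`. A proof without integrals: the function
`p ↦ g p + g (√(K - p²)) + p²/(2ζ) * (g δ - g v₂)` is antitone on `[α, δ]` and `p ↦ g p + g (√(K-p²))` on `[δ, m]`
(derivatives as in `four_pt`). -/
def S_four : Prop := ∀ (ρ ζ : ℝ) (g k rest : ℝ → ℝ), 0 < ζ → P ρ k → P ρ rest →
  (∀ x, HasDerivAt g (-k x) x) → (∀ v, 0 ≤ v → 0 ≤ k v) → (∀ v, ζ * k v = v * g v + rest v) →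
  ∀ α m M β δ v₂ : ℝ, 0 ≤ α → α ≤ m → m ≤ M → M ≤ β → α ^ 2 + β ^ 2 = m ^ 2 + M ^ 2 →
    2 * ρ ≤ α + β → α ≤ δ → δ ≤ v₂ → v₂ ≤ m →
    (δ ^ 2 - α ^ 2) / (2 * ζ) * (g δ - g v₂) ≤ g α + g β - g m - g M

/-- **UQ7** (lower bound for the derivative of the rotation). Proof. `exch_id` and the symmetry used in `JJ_nonneg`
give `JJ = 2 W r ∫_0^r x W x T x dx` with `T x ≥ 0` (`T_nonneg`),
`T x = g α + g β - g m - g M`, `α = |A x - B r|`, `β = A r + B x`, `{m, M} = {A r - B x, A x + B r}`. On the interval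
`[B r/A - δ/(2A), B r/A] ⊆ [B r/(2A), r]`: `α ≤ δ/2`, and `A r - B x ≥ (A²-B²) r/A ≥ 2 v₂`,
`A x + B r ≥ 2 B r - δ/2 ≥ v₂`, so by `S_four` `T x ≥ (3δ²/8)/ζ * (g δ - g v₂) ≥ 0` (for `2ρ ≤ α + β` see the proof of
`T_nonneg`), and `x W x ≥ (B r/(2A)) W r`. -/
def S_JJ : Prop := S_four → ∀ (ρ ζ : ℝ) (g k rest : ℝ → ℝ), 0 < ζ → P ρ k → P ρ rest →
  (∀ x, HasDerivAt g (-k x) x) → (∀ x, g (-x) = g x) → (∀ v, 0 ≤ v → 0 ≤ k v) →
  (∀ v, ζ * k v = v * g v + rest v) →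
  ∀ r A B δ v₂ : ℝ, 0 < r → 0 < B → B < A → ρ ≤ B * r → 0 < δ → δ ≤ v₂ →
    2 * v₂ ≤ (A ^ 2 - B ^ 2) * r / A → v₂ ≤ B * r →
    W r ^ 2 * (B * r / A) * (δ / (2 * A)) * (3 * δ ^ 2 / 8) / ζ * (g δ - g v₂) ≤
      JJ r (fun x => -k x) A B

/-- **UQ8** (strict exchange). Proof. `S = √(a²+b²)`, `θ₁ = arccos (a/S) < π/4 = θ₂`; by `rot_ftc` the right side is
`∫_{θ₁}^{θ₂} JJ r (-k) (S cos θ) (S sin θ) dθ` with nonnegative integrand (`JJ_nonneg`; see `rot_mono`, `exchange`,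
`qm` is the square root in `exchange`). On the middle third `[θ₁', θ₂']` of `[θ₁,θ₂]` one has `S sin θ ≥ S sin θ₁' > 0`,
`(A²-B²)/A ≥ S cos (2θ₂') > 0`. Take `v₂ = min (S cos (2θ₂') r/2) (S sin θ₁' r)` and use `S_JJ` there
(bound the constant from below: `B/A ≥ sin θ₁'`, `A ≤ S`; the constant `c` must not depend on `ρ, ζ, g, k, rest`). -/
def S_gainx : Prop := S_four → S_JJ → ∀ r a b : ℝ, 0 < r → 0 ≤ b → b < a →
  ∃ v₂ : ℝ, 0 < v₂ ∧ ∀ δ : ℝ, 0 < δ → δ < v₂ → ∃ c : ℝ, 0 < c ∧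
    ∀ (ρ ζ : ℝ) (g k rest : ℝ → ℝ), ρ ≤ b * r → 0 < ζ → P ρ k → P ρ rest →
      (∀ x, HasDerivAt g (-k x) x) → (∀ x, g (-x) = g x) → (∀ v, 0 ≤ v → 0 ≤ k v) →
      (∀ v, ζ * k v = v * g v + rest v) →
      c / ζ * (g δ - g v₂) ≤ cv r (qm a b) (cv r (qm a b) g) 0 - cv r a (cv r b g) 0

/-- **UQ9** (lower bound near `0`, uniform in `τ`). Proof. By `dens_perm` (`gs_cont`) we may assume `L = z :: L'` with
`z > 0`. For `|v| ≤ z r/2`, `dens r (z :: L') g v = ∫ W u (dens r L' g) (v + z u) ≥ (W r/z) ∫_{-zr/2}^{zr/2} dens r L' g`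
(`g = gs τ ≥ 0`). And for every `h > 0` there is `c > 0` with `∫_{-h}^{h} dens r L' (gs τ) ≥ c` for `0 < τ ≤ 1`: induction
on `L'` (`∫_{-h}^{h} cv r z g ≥ W r ∫_{-ε}^{ε} ∫_{-h/2}^{h/2} g`, `ε = min r (h/(2 z + 1))`), start
`∫_{-h}^{h} gs τ ≥ ∫_{-h}^{h} gs 1` (substitution `x = τ y`). -/
def S_low : Prop := ∀ (r : ℝ) (L : List ℝ), 0 < r → (∀ x ∈ L, 0 ≤ x) → (∃ z ∈ L, 0 < z) →
  ∃ δ : ℝ, 0 < δ ∧ ∃ c : ℝ, 0 < c ∧ ∀ τ : ℝ, 0 < τ → τ ≤ 1 → ∀ v : ℝ, |v| ≤ δ →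
    c ≤ dens r L (gs τ) v

/-- **UQ10** (decay). Proof. `v ↦ g v * exp (v²/(2ζ))` is antitone on `[0,∞)`. -/
def S_decay : Prop := ∀ (ζ : ℝ) (g k : ℝ → ℝ), 0 < ζ → (∀ x, HasDerivAt g (-k x) x) →
  (∀ v, 0 ≤ v → v * g v ≤ ζ * k v) → ∀ δ v₂ : ℝ, 0 ≤ δ → δ ≤ v₂ →
    g v₂ ≤ g δ * Real.exp (-(v₂ ^ 2 - δ ^ 2) / (2 * ζ))

/-- **UQ11** (strict improvement). Proof. Let `R = S ++ dup C`, `g = dens r R (gs τ)`, `k = dens r R (kg τ)`,
`ζ = Σ_R z² + τ²`, `ρ = y r`; `dens_P`, `dens_dup_P`, `kg_P` give `P ρ k`, `S_SP` gives `rest`. `S_gainx` (`a = x`,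
`b = y`) gives `v₂`; choose `δ` less than `v₂` and than the `δ` of `S_low`. For `0 < τ ≤ 1`: `0 < ζ ≤ 2`, `τ² ≤ ζ`,
`g δ ≥ c₁` (`S_low`), `g v₂ ≤ g δ exp (-(v₂²-δ²)/4)` (`S_decay`, note `-(v₂²-δ²)/(2ζ) ≤ -(v₂²-δ²)/4`), so the difference
of the smoothed values (`dens_cons`) is at least a constant `c₂ > 0` independent of `τ`. Let `τ → 0+`
(`dens_tendsto`, `ofFn_vec`, `vec_norm`; as in the proof of `Asl_le_vec`). -/
def S_strict : Prop := S_SP → S_gainx → S_low → S_decay → S_win → S_mixed → S_step → S_pos → S_four → S_JJ →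
  ∀ (n : ℕ) (r x y : ℝ) (S C : List ℝ), 0 < r → r ≤ 2 → 0 ≤ y → y < x →
  (∀ z ∈ S, 0 ≤ z ∧ z ≤ y) → (∀ z ∈ C, 0 ≤ z) → (∃ z ∈ S ++ dup C, 0 < z) →
  (x :: y :: (S ++ dup C)).length = n → ((x :: y :: (S ++ dup C)).map fun x => x ^ 2).sum = 1 →
  Asl r (vec n (x :: y :: (S ++ dup C))) 0 < Asl r (vec n (qm x y :: qm x y :: (S ++ dup C))) 0

/-- **UQ12** (two nonzero coordinates). Proof. `Asl_two` on both sides (`srt` of these vectors is the list itself: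
`srt_of_perm` in `Res3.lean`, absolute values of nonnegative numbers; `1/√2 = qm x y`), and
`∫_{-(r/x)}^{r/x} W` is strictly decreasing in `x`, `x > 1/√2`. -/
def S_two : Prop := ∀ (k : ℕ) (r x y : ℝ), 0 < r → 0 ≤ y → y < x → x ^ 2 + y ^ 2 = 1 →
  Asl r (vec (k + 2) (x :: y :: List.replicate k 0)) 0 <
    Asl r (vec (k + 2) (qm x y :: qm x y :: List.replicate k 0)) 0

/-- the list `L` is a maximizer in dimension `n` -/
def MaxL (r : ℝ) (n : ℕ) (L : List ℝ) : Prop := L.length = n ∧ (L.map fun x => x ^ 2).sum = 1 ∧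
  (∀ x ∈ L, 0 ≤ x) ∧ ∀ θ : EuclideanSpace ℝ (Fin n), ‖θ‖ = 1 → Asl r θ 0 ≤ Asl r (vec n L) 0

/-- the conclusion of `S_strict` -/
def Strict : Prop := ∀ (n : ℕ) (r x y : ℝ) (S C : List ℝ), 0 < r → r ≤ 2 → 0 ≤ y → y < x →
  (∀ z ∈ S, 0 ≤ z ∧ z ≤ y) → (∀ z ∈ C, 0 ≤ z) → (∃ z ∈ S ++ dup C, 0 < z) →
  (x :: y :: (S ++ dup C)).length = n → ((x :: y :: (S ++ dup C)).map fun x => x ^ 2).sum = 1 →
  Asl r (vec n (x :: y :: (S ++ dup C))) 0 < Asl r (vec n (qm x y :: qm x y :: (S ++ dup C))) 0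

/-- **UQ13** (permutations). Proof. `dens_tendsto`, `ofFn_vec`, `dens_perm` : the values are equal. -/
def S_perm : Prop := ∀ (r : ℝ) (n : ℕ) (L L' : List ℝ), 0 < r → L.Perm L' → MaxL r n L → MaxL r n L'

/-- **UQ14** (no different pair). Proof. `S_perm`; if some element of `S ++ dup C` is positive use `Strict`, otherwise
`S ++ dup C = replicate k 0` and use `S_two`; in both cases a vector with a larger value (a unit vector by
`vec_norm`, `qm_sq`) contradicts `MaxL`. -/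
def S_noswap : Prop := Strict → S_two → S_perm → ∀ (r : ℝ) (n : ℕ) (L : List ℝ) (x y : ℝ) (S C : List ℝ),
  0 < r → r ≤ 2 → MaxL r n L → L.Perm (x :: y :: (S ++ dup C)) → y < x → (∀ z ∈ S, z ≤ y) → False

open scoped Classical in
/-- **UQ15** (multiplicities). Let `NS` be the conclusion of `S_noswap`. Proof. We may assume that `L` is sorted
decreasingly (`S_perm`). Show by induction (peeling pairs from the front, with the already peeled pairs as `C`) that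
`L = dup C ++ T` with `T = []` or `T = [z]`: if `L = dup C ++ (x :: y :: S)` then `y = x` by `NS`
(`L.Perm (x :: y :: (S ++ dup C))`, `S` sorted below `y`). In such a list only the last element can have odd
multiplicity. -/
def S_odd : Prop := S_perm →
  (∀ (r : ℝ) (n : ℕ) (L : List ℝ) (x y : ℝ) (S C : List ℝ), 0 < r → r ≤ 2 → MaxL r n L →
    L.Perm (x :: y :: (S ++ dup C)) → y < x → (∀ z ∈ S, z ≤ y) → False) →
  ∀ (r : ℝ) (n : ℕ) (L : List ℝ), 0 < r → r ≤ 2 → MaxL r n L →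
    (∀ x, Odd (L.count x) → ∀ y ∈ L, x ≤ y) ∧
    (L.Pairwise (· ≥ ·) → ∃ C T : List ℝ, L = dup C ++ T ∧ (T = [] ∨ ∃ z, T = [z]))

open scoped Classical in
/-- **UQ16** (two values). Let `OD` be the conclusion of `S_odd`. Proof. By `OD`, `L = dup C ++ T`; `C = a :: C₁`. If `C₁ = []`,
then `k = 0` or `k = 1` and the claim is clear. Otherwise `C₁ = β :: C₂` and all further elements are `≤ β`. If some
`y < β` occurs, then as in the proof of `exists_ab_min` (`TA4.lean`, `imp`, `hCβ`, `hTβ`)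
`L.Perm (β :: y :: (T' ++ dup C' ++ [β, a, a]))`, and `improve` with `dens_tendsto` (`Asl_le_vec`) shows that
`qm β y :: qm β y :: (T' ++ dup C' ++ [β, a, a])` is also `MaxL`; there `β` has odd multiplicity (`qm β y < β`, elements
of `T'` are `≤ y`), but the smaller element `qm β y` occurs: contradiction to `OD`. -/
def S_twoval : Prop := S_perm →
  (∀ (r : ℝ) (n : ℕ) (L : List ℝ), 0 < r → r ≤ 2 → MaxL r n L →
    (∀ x, Odd (L.count x) → ∀ y ∈ L, x ≤ y) ∧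
    (L.Pairwise (· ≥ ·) → ∃ C T : List ℝ, L = dup C ++ T ∧ (T = [] ∨ ∃ z, T = [z]))) →
  TAHyp → ∀ (r : ℝ) (k : ℕ) (L : List ℝ), 0 < r → r ^ 2 ≤ 3 → MaxL r (k + 2) L →
    L.Pairwise (· ≥ ·) → ∃ a b : ℝ, 0 ≤ b ∧ b ≤ a ∧ 0 < a ∧ L = a :: a :: List.replicate k b

open scoped Classical in
/-- **UQ17** (exclusion). Proof. As `excl` (`TA4.lean`): with `k = j + 3`, `R = replicate j b ++ [a, b, b]`, `dens_exchange`
gives that `qm a b :: qm a b :: R` is `MaxL` too, where `a` has multiplicity one (`qm a b < a`) but `b < a`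
occurs: contradiction to `OD`. -/
def S_excl : Prop := S_perm →
  (∀ (r : ℝ) (n : ℕ) (L : List ℝ), 0 < r → r ≤ 2 → MaxL r n L →
    (∀ x, Odd (L.count x) → ∀ y ∈ L, x ≤ y) ∧
    (L.Pairwise (· ≥ ·) → ∃ C T : List ℝ, L = dup C ++ T ∧ (T = [] ∨ ∃ z, T = [z]))) →
  ∀ (r : ℝ) (k : ℕ) (a b : ℝ), 0 < r → r ≤ 2 → 3 ≤ k → 0 < b → b < a →
    (∀ τ : ℝ, 0 < τ → P 0 (cv r a (cv r b (cv r b (kg τ))))) →
    MaxL r (k + 2) (a :: a :: List.replicate k b) → False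

end Pool.Agent.H770.GS
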